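import Pool.Agent.Run7.h833.CVa

set_option autoImplicit false

/-!
# The converse with a growth exponent at the centre: the last integral
-/

namespace Run7.h833

open Complex Filter Topology MeasureTheory Set
open Pool.Agent.H24R2.JP (XX HH Om)
open Pool.Agent.H986R2.K4 (S_LR S_HH S_TAY S_VDC S_V0 S_PL)
open Pool.Agent.H986R2.K4.ConvAux (fact' grow ballRe)
open Pool.Agent.H986R2.DBN (XT)

/-- Laplace's method along the real direction, with `Y ≤ B`. -/
def S_LRB : Prop := ∀ B κ' ρ c0 : ℝ, 1 ≤ B → 0 < κ' → 0 < ρ → ρ ≤ 1 / 2 → 0 < c0 → ∃ η : ℝ, ∃ n0 : ℕ,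
  0 < η ∧ 1 ≤ n0 ∧ ∀ (n : ℕ) (Y : ℝ) (F : ℂ → ℂ), n0 ≤ n → 1 + c0 ≤ Y → Y ≤ B →
  (∀ y : ℝ, 0 ≤ y → y ≤ Y → ∀ w ∈ Metric.ball (y : ℂ) ρ,
    DifferentiableAt ℂ F w ∧ F w ≠ 0 ∧ ‖logDeriv F w + n‖ ≤ η * n) →
  Real.exp (-(κ' * n)) * ‖F 1‖ ≤ ‖∫ y in (0 : ℝ)..Y, F y * (y : ℂ) ^ (n - 1)‖

lemma low3 (hL : S_LRB) (hG : S_GR2) (hH : S_HH) (r' r1 th0 th1 s1 η0 h ε : ℝ) (h1 : 0 < r')
    (h2 : r' ≤ r1) (hth0 : 0 < th0) (hth : th0 ≤ th1) (hth1 : 2 * th1 ≤ s1)
    (h3 : r1 + s1 < h) (hh : h ≤ 1 / 2) (hη0 : 0 < η0) (hη0' : η0 ≤ (h - r1 - s1) / 16) (hε : 0 < ε) :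
    ∃ K R T0 : ℝ, 2 ≤ T0 ∧ ∀ (T τ : ℝ) (n : ℕ) (xp : ℝ), T0 ≤ T → r' * Om T ≤ n → (n : ℝ) ≤ r1 * Om T →
      th0 ≤ τ * Om T → τ * Om T ≤ th1 →
      (∀ s : ℂ, iteratedDeriv n (XT τ) s = 0 → |s.im - T| ≤ R → s.re = 0) →
      h - (h - r1 - s1) / 8 ≤ xp → xp ≤ h + (h - r1 - s1) / 8 →
      Real.exp (-(ε * n)) * T ^ (-ε) * (Real.exp (Om T * xp - K) * ‖HH (I * T)‖) ≤
        ‖∫ v in (0 : ℝ)..(xp - s1 - 2 * η0), iteratedDeriv n XX ((I * T + xp) - v) *
          ((v : ℂ) ^ (n - 1) / ((n - 1).factorial : ℂ))‖ := by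
  have hg0 : 0 < h - r1 - s1 := by linarith
  have hs1 : 0 < s1 := by linarith
  obtain ⟨η, n0, hη, hn0, hLR⟩ := hL (1 / r') ε η0 (h - r1 - s1) (by rw [le_div_iff₀ h1]; linarith) hε hη0 (by linarith) hg0
  obtain ⟨R, T1, hT1, hGR⟩ := hG r' r1 th0 th1 η0 (min η ε) (by linarith) h2 hth0 hth (by linarith) hη0
    (lt_min hη hε)
  obtain ⟨K, hK, hHH⟩ := hH
  obtain ⟨T2, hT2, hHH⟩ := hHH 1 le_rfl
  refine ⟨K + 1, R, max (max T1 T2) (Real.exp (2 * (n0 + 1) / r')), ?_, ?_⟩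
  · exact le_trans hT1 (le_trans (le_max_left _ _) (le_max_left _ _))
  intro T τ n xp hT hn1 hn2 ht1 ht2 hz hx1 hx2
  have hTT1 : T1 ≤ T := le_trans (le_trans (le_max_left _ _) (le_max_left _ _)) hT
  have hTT2 : T2 ≤ T := le_trans (le_trans (le_max_right _ _) (le_max_left _ _)) hT
  have hTT3 : Real.exp (2 * (n0 + 1) / r') ≤ T := le_trans (le_max_right _ _) hT
  have hT0 : 0 < T := by linarith
  have hT1' : 1 ≤ T := by linarith
  have hr'0 : 0 < r' := h1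
  have hlog : 2 * (n0 + 1) / r' ≤ Real.log T := by rwa [Real.le_log_iff_exp_le hT0]
  have hn0' : (n0 : ℝ) + 1 ≤ n := by
    refine le_trans ?_ hn1
    rw [div_le_iff₀ hr'0] at hlog
    unfold Om
    nlinarith
  have hnn0 : n0 ≤ n := by
    have : (n0 : ℝ) ≤ n := by linarith
    exact_mod_cast this
  have hn1' : 1 ≤ n := le_trans hn0 hnn0
  have hnpos : (0 : ℝ) < n := by exact_mod_cast hn1'
  have hOm : 0 < Om T := by
    by_contra hcon
    push Not at hcon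
    have : r1 * Om T ≤ 0 := mul_nonpos_of_nonneg_of_nonpos (by linarith) hcon
    linarith
  set r : ℝ := n / Om T with hr
  have hrOm : r * Om T = n := by rw [hr]; field_simp
  have hr0 : 0 < r := by positivity
  have hrr' : r' ≤ r := by rw [hr, le_div_iff₀ hOm]; exact hn1
  have hrr1 : r ≤ r1 := by rw [hr, div_le_iff₀ hOm]; exact hn2
  set g := iteratedDeriv n XX with hg
  have hgd : Differentiable ℂ g := by
    have := Pool.Agent.H24R2.JP.B1h.XX_diff
    exact this.contDiff.differentiable_iteratedDeriv' n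
  set x : ℝ := xp - s1 - 2 * η0 with hx
  set Y : ℝ := x / r with hY
  have hrY : r * Y = x := by rw [hY]; field_simp
  have hx0 : r1 + 3 / 4 * (h - r1 - s1) ≤ x := by rw [hx]; linarith
  have hY1 : 1 + (h - r1 - s1) ≤ Y := by
    rw [hY, le_div_iff₀ hr0]
    nlinarith
  have hY2 : Y ≤ 1 / r' := by
    rw [hY, div_le_div_iff₀ hr0 h1]
    have h5 : x ≤ 1 := by rw [hx]; linarith
    nlinarith
  set F : ℂ → ℂ := fun y => g ((I * T + xp) - r * y) with hF
  -- the control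
  have hctl : ∀ u : ℂ, s1 + η0 ≤ u.re → u.re ≤ 1 → |u.im| ≤ 1 → g (I * T + u) ≠ 0 ∧
      ‖logDeriv g (I * T + u) - (Om T : ℂ)‖ ≤ min η ε * Om T ∧
      T ^ (-(min η ε)) * (Om T ^ n * ‖HH (I * T + u)‖) ≤ ‖g (I * T + u)‖ :=
    fun u hu => hGR T τ n hTT1 hn1 hn2 ht1 ht2 hz u (by linarith)
  have key := hLR n Y F hnn0 hY1 hY2 (by
    intro y hy0 hyY w hw
    have hw' : ‖w - y‖ < η0 := by simpa [dist_eq_norm] using hw
    have hre : |w.re - y| < η0 := by
      have := abs_re_le_norm (w - y)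
      simp only [sub_re, ofReal_re] at this
      linarith
    have him : |w.im| < η0 := by
      have := abs_im_le_norm (w - y)
      simp only [sub_im, ofReal_im, sub_zero] at this
      linarith
    have hre' := abs_lt.1 hre
    have e1 : (I * T + xp) - r * w = I * T + ((xp : ℂ) - r * w) := by ring
    have hure : ((xp : ℂ) - r * w).re = xp - r * w.re := by simp
    have huim : ((xp : ℂ) - r * w).im = -(r * w.im) := by simp
    have hry : r * y ≤ x := by rw [← hrY]; gcongr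
    have hry0 : 0 ≤ r * y := by positivity
    have hr12 : r ≤ 1 / 2 := by linarith
    have c1 : s1 + η0 ≤ ((xp : ℂ) - r * w).re := by
      rw [hure]
      nlinarith
    have c2 : ((xp : ℂ) - r * w).re ≤ 1 := by
      rw [hure]
      nlinarith
    have c3 : |((xp : ℂ) - r * w).im| ≤ 1 := by
      rw [huim, abs_neg, abs_mul, abs_of_pos hr0]
      nlinarith [abs_nonneg w.im]
    obtain ⟨d1, d2, -⟩ := hctl _ c1 c2 c3
    have hFd : HasDerivAt F (deriv g ((I * T + xp) - r * w) * (-(r : ℂ))) w := by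
      have h0 : HasDerivAt (fun y : ℂ => (I * T + xp) - r * y) (-(r : ℂ)) w := by
        simpa using ((hasDerivAt_id w).const_mul (r : ℂ)).const_sub (I * T + xp)
      exact HasDerivAt.comp w (hgd _).hasDerivAt h0
    refine ⟨hFd.differentiableAt, ?_, ?_⟩
    · show g ((I * T + xp) - r * w) ≠ 0
      rw [e1]; exact d1
    · have e2 : logDeriv F w + n = -(r : ℂ) * (logDeriv g (I * T + ((xp : ℂ) - r * w)) - (Om T : ℂ)) := by
        rw [logDeriv_apply, logDeriv_apply, hFd.deriv, ← e1]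
        have e3 : (n : ℂ) = (r : ℂ) * (Om T : ℂ) := by
          rw [← ofReal_mul, hrOm]; simp
        rw [e3]
        show deriv g (I * T + xp - r * w) * -(r : ℂ) / g (I * T + xp - r * w) + (r : ℂ) * (Om T : ℂ) = _
        ring
      rw [e2, norm_mul, norm_neg, norm_real, Real.norm_eq_abs, abs_of_pos hr0]
      calc r * ‖logDeriv g (I * T + ((xp : ℂ) - r * w)) - (Om T : ℂ)‖ ≤ r * (min η ε * Om T) := by
            gcongr
        _ = min η ε * n := by rw [← hrOm]; ring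
        _ ≤ η * n := by gcongr; exact min_le_left _ _)
  -- value at 1
  have hF1 : T ^ (-ε) * (Om T ^ n * (Real.exp (Om T * (xp - r) - K) * ‖HH (I * T)‖)) ≤ ‖F 1‖ := by
    have e1 : F 1 = g (I * T + ((xp - r : ℝ) : ℂ)) := by
      show g ((I * T + xp) - r * 1) = _
      congr 1
      push_cast
      ring
    have hxr : x ≤ xp := by rw [hx]; linarith
    obtain ⟨-, -, d3⟩ := hctl ((xp - r : ℝ) : ℂ) (by
      rw [ofReal_re]; linarith) (by rw [ofReal_re]; linarith) (by simp)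
    rw [e1]
    refine le_trans ?_ d3
    obtain ⟨-, -, -, b4, -⟩ := hHH T ((xp - r : ℝ) : ℂ) hTT2 (by
      rw [norm_real, Real.norm_eq_abs, abs_le]
      constructor <;> linarith)
    rw [ofReal_re, mul_one] at b4
    have hpow : T ^ (-ε) ≤ T ^ (-(min η ε)) :=
      Real.rpow_le_rpow_of_exponent_le hT1' (by simpa using min_le_right η ε)
    have hTe : 0 ≤ T ^ (-ε) := Real.rpow_nonneg hT0.le _
    gcongr
  -- substitution
  have hsub : ‖∫ v in (0 : ℝ)..x, g ((I * T + xp) - v) * ((v : ℂ) ^ (n - 1) / ((n - 1).factorial : ℂ))‖ =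
      r ^ n / ((n - 1).factorial : ℝ) * ‖∫ y in (0 : ℝ)..Y, F y * (y : ℂ) ^ (n - 1)‖ := by
    have e1 := intervalIntegral.smul_integral_comp_mul_left (a := 0) (b := Y)
      (fun v : ℝ => g ((I * T + xp) - v) * ((v : ℂ) ^ (n - 1) / ((n - 1).factorial : ℂ))) r
    rw [mul_zero, hrY] at e1
    rw [← e1]
    have e2 : ∀ y : ℝ, g ((I * T + xp) - ((r * y : ℝ) : ℂ)) *
        (((r * y : ℝ) : ℂ) ^ (n - 1) / ((n - 1).factorial : ℂ)) =
        ((r ^ (n - 1) / ((n - 1).factorial : ℝ) : ℝ) : ℂ) * (F y * (y : ℂ) ^ (n - 1)) := by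
      intro y
      rw [hF]
      push_cast
      rw [mul_pow]
      ring
    simp_rw [e2]
    rw [intervalIntegral.integral_const_mul, norm_smul, norm_mul, norm_real, Real.norm_eq_abs,
      Real.norm_eq_abs, abs_of_pos hr0, abs_of_nonneg (by positivity), ← mul_assoc]
    congr 1
    rw [← mul_div_assoc]
    congr 1
    rw [← pow_succ']
    congr 1
    omega
  rw [hsub]
  have hfac := fact' n hn1'
  have hf : (0 : ℝ) < ((n - 1).factorial : ℝ) := by exact_mod_cast Nat.factorial_pos _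
  have hTe : 0 ≤ T ^ (-ε) := Real.rpow_nonneg hT0.le _
  calc Real.exp (-(ε * n)) * T ^ (-ε) * (Real.exp (Om T * xp - (K + 1)) * ‖HH (I * T)‖)
      = Real.exp (-1) * (Real.exp (-(ε * n)) * T ^ (-ε) * (Real.exp (Om T * xp - K) * ‖HH (I * T)‖)) := by
        have : Real.exp (Om T * xp - (K + 1)) = Real.exp (-1) * Real.exp (Om T * xp - K) := by
          rw [← Real.exp_add]; congr 1; ring
        rw [this]; ring
    _ ≤ ((n : ℝ) ^ n * Real.exp (-n) / ((n - 1).factorial : ℝ)) *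
        (Real.exp (-(ε * n)) * T ^ (-ε) * (Real.exp (Om T * xp - K) * ‖HH (I * T)‖)) := by
        gcongr
    _ = r ^ n / ((n - 1).factorial : ℝ) * (Real.exp (-(ε * n)) *
        (T ^ (-ε) * (Om T ^ n * (Real.exp (Om T * (xp - r) - K) * ‖HH (I * T)‖)))) := by
        have e1 : Real.exp (Om T * (xp - r) - K) = Real.exp (-n) * Real.exp (Om T * xp - K) := by
          rw [← Real.exp_add, ← hrOm]; congr 1; ring
        have e2 : (n : ℝ) ^ n = r ^ n * Om T ^ n := by rw [← mul_pow, hrOm]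
        rw [e1, e2]
        ring
    _ ≤ r ^ n / ((n - 1).factorial : ℝ) * (Real.exp (-(ε * n)) * ‖F 1‖) := by gcongr
    _ ≤ _ := by gcongr


/-- The core of the converse with a growth exponent `μ` at the centre. -/
theorem coreM (hL : S_LRB) (hG : S_GR2) (hH : S_HH) (hT : S_TAY) (μ c κ h : ℝ) (hμ : 0 ≤ μ)
    (hc : 0 < c) (hh0 : 0 < h) (hh : h ≤ 1 / 2) (hch : 8 * c < h * (h - 2 * μ)) (hκ : 1 < 4 * κ * c)
    (hU : ∀ ε : ℝ, 0 < ε → ∃ C T0 : ℝ, 0 < C ∧ 2 ≤ T0 ∧ ∀ (T : ℝ) (u : ℂ), T0 ≤ T → |u.re| ≤ h →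
      |u.im| ≤ 1 → ‖XX (I * T + u)‖ ≤
        C * T ^ ε * (Real.exp (Om T * (2 * μ + |u.re| * (1 - 2 * μ / h))) * ‖HH (I * T)‖))
    (hZ : ∀ ε T1 : ℝ, 0 < ε → ∃ z : ℂ, XX z = 0 ∧ h - ε < z.re ∧ z.re < h + ε ∧ T1 ≤ z.im)
    (hN : ∃ N : ℕ, ∀ n : ℕ, N ≤ n → ∀ s : ℂ, iteratedDeriv n (XT (c / n)) s = 0 →
      |s.im| ≤ Real.exp (κ * n) → s.re = 0) : False := by
  obtain ⟨N, hN⟩ := hN
  have hκ0 : 0 < κ := by
    by_contra hcon
    push Not at hcon
    have : κ * c ≤ 0 := mul_nonpos_of_nonpos_of_nonneg hcon hc.le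
    linarith
  obtain ⟨A, hA⟩ : ∃ A : ℝ, A = 1 - 2 * μ / h := ⟨_, rfl⟩
  have hAh : h * A = h - 2 * μ := by rw [hA]; field_simp
  have hA1 : A ≤ 1 := by
    have : 0 ≤ 2 * μ / h := by positivity
    linarith
  have hA0 : 0 < A := by
    by_contra hcon
    push Not at hcon
    have : h * (h * A) ≤ 0 := mul_nonpos_of_nonneg_of_nonpos hh0.le
      (mul_nonpos_of_nonneg_of_nonpos hh0.le hcon)
    rw [hAh] at this
    linarith
  obtain ⟨r', hr'⟩ : ∃ r' : ℝ, r' = 4 * c / h := ⟨_, rfl⟩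
  have hr'p : 0 < r' := by rw [hr']; positivity
  have hr'h : r' * h = 4 * c := by rw [hr']; field_simp
  obtain ⟨g, hg⟩ : ∃ g : ℝ, g = (h - 2 * μ) / 2 - r' := ⟨_, rfl⟩
  have hgp : 0 < g := by
    have h1 : 0 < h * g := by rw [hg]; nlinarith
    exact (mul_pos_iff_of_pos_left hh0).1 h1
  have hg4 : g ≤ 1 / 4 := by rw [hg]; linarith
  obtain ⟨r1, hr1⟩ : ∃ r1 : ℝ, r1 = r' + g / 4 := ⟨_, rfl⟩
  have hr'r1 : r' < r1 := by rw [hr1]; linarith
  have hr1p : 0 < r1 := by linarith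
  have hr1h : r1 + 3 / 4 * g ≤ h / 2 := by rw [hr1, hg]; linarith
  obtain ⟨th0, hth0⟩ : ∃ th0 : ℝ, th0 = c / r1 := ⟨_, rfl⟩
  have hth0p : 0 < th0 := by rw [hth0]; positivity
  have hcr' : c / r' = h / 4 := by
    rw [div_eq_div_iff hr'p.ne' (by norm_num)]
    linarith
  have hth01 : th0 ≤ h / 4 := by
    rw [hth0, ← hcr']
    gcongr
  obtain ⟨ε2, hε2⟩ : ∃ ε2 : ℝ, ε2 = g / 64 := ⟨_, rfl⟩
  have hε2p : 0 < ε2 := by rw [hε2]; linarith
  obtain ⟨ε, hε⟩ : ∃ ε : ℝ, ε = ε2 * g / 32 := ⟨_, rfl⟩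
  have hεp : 0 < ε := by rw [hε]; positivity
  have hεg : ε ≤ g / 8000 := by rw [hε, hε2]; nlinarith
  obtain ⟨C', T3, hC', hT3, hU⟩ := hU ε hεp
  rw [← hA] at hU
  obtain ⟨K, R, T4, hT4, hlow⟩ := low3 hL hG hH r' r1 th0 (h / 4) (h / 2) (g / 64) h ε
    hr'p hr'r1.le hth0p hth01 (by linarith) (by linarith) hh (by linarith) (by linarith) hεp
  obtain ⟨K5, hK5, hHH⟩ := hH
  obtain ⟨T5, hT5, hHH⟩ := hHH 1 le_rfl
  obtain ⟨L0, hL01, hL0⟩ := grow (ε2 * g / 2) (Real.exp K * C') (by positivity)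
  -- large T
  have hκr : 2 < κ * r' := by
    have h1 : κ * (r' * h) ≤ κ * (r' * (1 / 2)) := by gcongr
    rw [hr'h] at h1
    linarith
  have hexp2 : 0 < κ * r' / 2 - 1 := by linarith
  obtain ⟨L1, hL11, hL1⟩ := grow ((κ * r' / 2 - 1) * 2) (|R| + 1) (by linarith)
  have hgap : 0 < r1 - r' := by linarith
  obtain ⟨Tb, hTb⟩ : ∃ Tb : ℝ, Tb = max (max T3 T4) (max T5 (Real.exp (2 * (L0 + L1 + (N + 1) / r' + 1 / (r1 - r'))))) :=
    ⟨_, rfl⟩
  obtain ⟨s, hs0, hs1, hs2, hs3⟩ := hZ ε Tb hεp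
  rw [hTb] at hs3
  obtain ⟨T, hTdef⟩ : ∃ T : ℝ, T = s.im := ⟨_, rfl⟩
  rw [← hTdef] at hs3
  have hTT3 : T3 ≤ T := le_trans (le_trans (le_max_left _ _) (le_max_left _ _)) hs3
  have hTT4 : T4 ≤ T := le_trans (le_trans (le_max_right _ _) (le_max_left _ _)) hs3
  have hTT5 : T5 ≤ T := le_trans (le_trans (le_max_left _ _) (le_max_right _ _)) hs3
  have hTT6 : Real.exp (2 * (L0 + L1 + (N + 1) / r' + 1 / (r1 - r'))) ≤ T :=
    le_trans (le_trans (le_max_right _ _) (le_max_right _ _)) hs3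
  have hTp : 0 < T := by linarith
  obtain ⟨L, hLdef⟩ : ∃ L : ℝ, L = Om T := ⟨_, rfl⟩
  have hLlog : Real.log T = 2 * L := by rw [hLdef]; unfold Om; ring
  have hLbig : L0 + L1 + (N + 1) / r' + 1 / (r1 - r') ≤ L := by
    have : 2 * (L0 + L1 + (N + 1) / r' + 1 / (r1 - r')) ≤ Real.log T := by
      rwa [Real.le_log_iff_exp_le hTp]
    linarith
  have hq1 : 0 ≤ ((N : ℝ) + 1) / r' := by positivity
  have hq2 : 0 < 1 / (r1 - r') := by positivity
  have hLL0 : L0 ≤ L := by linarith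
  have hLL1 : L1 ≤ L := by linarith
  have hLN : ((N : ℝ) + 1) / r' ≤ L := by linarith
  have hLg : 1 / (r1 - r') ≤ L := by linarith
  have hLpos : 0 < L := by linarith
  obtain ⟨n, hn⟩ : ∃ n : ℕ, n = ⌈r' * L⌉₊ := ⟨_, rfl⟩
  have hn1 : r' * L ≤ n := by rw [hn]; exact Nat.le_ceil _
  have hn2 : (n : ℝ) ≤ r1 * L := by
    have h1 : (n : ℝ) < r' * L + 1 := by rw [hn]; exact Nat.ceil_lt_add_one (by positivity)
    rw [div_le_iff₀ hgap] at hLg
    linarith
  have hNn : N ≤ n := by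
    have : (N : ℝ) ≤ n := by
      rw [div_le_iff₀ hr'p] at hLN
      linarith
    exact_mod_cast this
  have hn1' : 1 ≤ n := by
    have : (0 : ℝ) < n := lt_of_lt_of_le (by positivity) hn1
    exact_mod_cast this
  have hnpos : (0 : ℝ) < n := by exact_mod_cast hn1'
  have hτ1 : th0 ≤ c / n * L := by
    rw [hth0, div_mul_eq_mul_div, div_le_div_iff₀ hr1p hnpos]
    nlinarith
  have hτ2 : c / n * L ≤ h / 4 := by
    rw [← hcr', div_mul_eq_mul_div, div_le_div_iff₀ hnpos hr'p]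
    nlinarith
  have hTexp : T = Real.exp (2 * L) := by rw [← hLlog, Real.exp_log hTp]
  have hTn : T + R ≤ Real.exp (κ * n) := by
    have h1 : Real.exp (κ * r' * L) ≤ Real.exp (κ * n) := by
      apply Real.exp_le_exp.2
      calc κ * r' * L = κ * (r' * L) := by ring
        _ ≤ κ * n := by gcongr
    have h2 : Real.exp (κ * r' * L) = Real.exp ((κ * r' / 2 - 1) * 2 * L) * Real.exp (2 * L) := by
      rw [← Real.exp_add]; congr 1; ring
    have h3 := hL1 L hLL1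
    have h4 : |R| + 1 ≤ Real.exp ((κ * r' / 2 - 1) * 2 * L) := by
      have : 0 ≤ |R| + 1 := by positivity
      nlinarith
    have h5 : 1 ≤ Real.exp (2 * L) := Real.one_le_exp (by positivity)
    rw [h2] at h1
    rw [hTexp]
    have h6 : (|R| + 1) * Real.exp (2 * L) ≤
        Real.exp ((κ * r' / 2 - 1) * 2 * L) * Real.exp (2 * L) := by gcongr
    have h7 := le_abs_self R
    have h8 : |R| * 1 ≤ |R| * Real.exp (2 * L) := by gcongr
    linarith
  have hTR : -T + R ≤ Real.exp (κ * n) := by linarith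
  have hzeros : ∀ s : ℂ, iteratedDeriv n (XT (c / n)) s = 0 → |s.im - T| ≤ R → s.re = 0 := by
    intro w hw hwT
    refine hN n hNn w hw (le_trans ?_ hTn)
    have := abs_le.1 hwT
    rw [abs_le]
    constructor <;> linarith
  obtain ⟨xp, hxp⟩ : ∃ xp : ℝ, xp = s.re := ⟨_, rfl⟩
  rw [← hxp] at hs1 hs2
  rw [hLdef] at hn1 hn2 hτ1 hτ2
  have hlow := hlow T (c / n) n xp hTT4 hn1 hn2 hτ1 hτ2 hzeros (by linarith) (by linarith)
  rw [← hLdef] at hn1 hn2 hτ1 hτ2 hlow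
  obtain ⟨x, hx⟩ : ∃ x : ℝ, x = xp - h / 2 - 2 * (g / 64) := ⟨_, rfl⟩
  rw [← hx] at hlow
  obtain ⟨ρ, hρ⟩ : ∃ ρ : ℝ, ρ = x - ε2 := ⟨_, rfl⟩
  have hρ0 : h / 2 - g / 16 ≤ ρ := by rw [hρ, hx, hε2]; linarith
  have hρp : 0 < ρ := by linarith
  have hρh : ρ ≤ 1 / 2 := by rw [hρ, hx]; linarith
  have hsl : g ≤ A - r1 / ρ := by
    have h1 : A * (h / 2 - g / 16) ≤ A * ρ := by gcongr
    have h2 : A * (g / 16) ≤ 1 * (g / 16) := by gcongr
    have h3 : g / 2 ≤ A * ρ - r1 := by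
      have h4 : A * (h / 2) = r' + g := by
        have : A * (h / 2) = h * A / 2 := by ring
        rw [this, hAh, hg]; ring
      rw [hr1]
      linarith
    have h5 : A - r1 / ρ = (A * ρ - r1) / ρ := by field_simp
    rw [h5, le_div_iff₀ hρp]
    have : g * ρ ≤ g * (1 / 2) := by gcongr
    linarith
  obtain ⟨M, hM⟩ : ∃ M : ℝ, M = C' * T ^ ε * (Real.exp (L * (2 * μ + (xp - ε2) * A)) * ‖HH (I * T)‖) := ⟨_, rfl⟩
  have hpXX : XX (I * T + (xp : ℂ)) = 0 := by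
    have : I * T + (xp : ℂ) = s := by
      apply Complex.ext
      · simp [hxp]
      · simp [hTdef]
    rw [this, hs0]
  have htay := hT XX (I * T + (xp : ℂ)) x ρ M n Pool.Agent.H24R2.JP.B1h.XX_diff hn1' hρp
    (by rw [hρ]; linarith) (by
      intro w hw
      have e0 : (I * T + (xp : ℂ)) - (x : ℂ) = I * T + ((xp - x : ℝ) : ℂ) := by push_cast; ring
      rw [e0] at hw
      obtain ⟨b1, b2⟩ := ballRe hw
      have b1' := abs_le.1 b1
      have e1 : w = I * T + (w - I * T) := by ring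
      rw [e1]
      have c1 : 0 ≤ (w - I * T).re := by linarith
      have c2 : (w - I * T).re ≤ xp - ε2 := by linarith
      have c3 : |(w - I * T).re| ≤ xp - ε2 := by rw [abs_of_nonneg c1]; exact c2
      refine (hU T (w - I * T) hTT3 (by linarith) (b2.trans (by linarith))).trans ?_
      rw [hM, ← hLdef]
      have c4 : L * (2 * μ + |(w - I * T).re| * A) ≤ L * (2 * μ + (xp - ε2) * A) := by gcongr
      have c5 := Real.exp_le_exp.2 c4
      gcongr)
  rw [hpXX, zero_sub, norm_neg] at htay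
  have hfin := hlow.trans htay
  -- numerics
  obtain ⟨-, hHne, -⟩ := hHH T 0 hTT5 (by simp)
  rw [add_zero] at hHne
  have hHp : 0 < ‖HH (I * T)‖ := norm_pos_iff.2 hHne
  have hTpow : ∀ b : ℝ, T ^ b = Real.exp (2 * b * L) := by
    intro b
    rw [Real.rpow_def_of_pos hTp, hLlog]; congr 1; ring
  have hxρ : (x / ρ) ^ n ≤ Real.exp (r1 / ρ * ε2 * L) := by
    have h1 : x / ρ ≤ Real.exp (ε2 / ρ) := by
      have : x / ρ = ε2 / ρ + 1 := by
        have : x = ρ + ε2 := by rw [hρ]; ring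
        rw [this]
        field_simp
        ring
      rw [this]
      exact Real.add_one_le_exp _
    have h2 : (x / ρ) ^ n ≤ Real.exp (ε2 / ρ) ^ n := by
      have : 0 ≤ x / ρ := by
        have : 0 ≤ x := by linarith
        positivity
      gcongr
    refine h2.trans ?_
    rw [← Real.exp_nat_mul]
    apply Real.exp_le_exp.2
    have h3 : (n : ℝ) * (ε2 / ρ) ≤ r1 * L * (ε2 / ρ) := by gcongr
    have h5 : r1 * L * (ε2 / ρ) = r1 / ρ * ε2 * L := by ring
    linarith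
  have hnL : (n : ℝ) ≤ L := by
    have : r1 * L ≤ 1 * L := by gcongr; linarith
    linarith
  have hup : (n : ℝ) * (x / ρ) ^ n * M ≤
      L * C' * Real.exp (L * (r1 / ρ * ε2 + 2 * ε + (2 * μ + (xp - ε2) * A))) * ‖HH (I * T)‖ := by
    have hMp : 0 ≤ M := by rw [hM]; positivity
    have hx0 : 0 ≤ (x / ρ) ^ n := by
      have : 0 ≤ x := by linarith
      positivity
    calc (n : ℝ) * (x / ρ) ^ n * M ≤ L * Real.exp (r1 / ρ * ε2 * L) * M := by gcongr
      _ = L * C' * (Real.exp (r1 / ρ * ε2 * L) * Real.exp (2 * ε * L) *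
            Real.exp (L * (2 * μ + (xp - ε2) * A))) * ‖HH (I * T)‖ := by
          rw [hM, hTpow]; ring
      _ = _ := by
          rw [← Real.exp_add, ← Real.exp_add]
          congr 3
          ring
  have hlo : Real.exp (L * (xp - 3 * ε) - K) * ‖HH (I * T)‖ ≤
      Real.exp (-(ε * n)) * T ^ (-ε) * (Real.exp (L * xp - K) * ‖HH (I * T)‖) := by
    rw [hTpow]
    have : Real.exp (L * (xp - 3 * ε) - K) ≤
        Real.exp (-(ε * n)) * Real.exp (2 * -ε * L) * Real.exp (L * xp - K) := by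
      rw [← Real.exp_add, ← Real.exp_add]
      apply Real.exp_le_exp.2
      have h1 : ε * n ≤ ε * L := by gcongr
      linarith
    calc _ ≤ (Real.exp (-(ε * n)) * Real.exp (2 * -ε * L) * Real.exp (L * xp - K)) * ‖HH (I * T)‖ := by
          gcongr
      _ = _ := by ring
  have hall := hlo.trans (hfin.trans hup)
  have hall2 : Real.exp (L * (xp - 3 * ε) - K) ≤
      L * C' * Real.exp (L * (r1 / ρ * ε2 + 2 * ε + (2 * μ + (xp - ε2) * A))) :=
    le_of_mul_le_mul_right hall hHp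
  have hexpo : r1 / ρ * ε2 + 2 * ε + (2 * μ + (xp - ε2) * A) ≤ xp - 3 * ε - ε2 * g / 2 := by
    have h1 : g * ε2 ≤ (A - r1 / ρ) * ε2 := by gcongr
    have h2 : (h - xp) * (1 - A) ≤ ε := by
      rcases le_total (h - xp) 0 with h3 | h3
      · have : (h - xp) * (1 - A) ≤ 0 := mul_nonpos_of_nonpos_of_nonneg h3 (by linarith)
        linarith
      · have : (h - xp) * (1 - A) ≤ (h - xp) * 1 := by
          apply mul_le_mul_of_nonneg_left _ h3
          linarith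
        linarith
    have h4 : ε2 * g = 32 * ε := by rw [hε]; ring
    nlinarith
  have h6 := hL0 L hLL0
  have h7 : Real.exp (L * (r1 / ρ * ε2 + 2 * ε + (2 * μ + (xp - ε2) * A))) ≤
      Real.exp (L * (xp - 3 * ε) - K) * (Real.exp K * Real.exp (-(ε2 * g / 2 * L))) := by
    rw [← Real.exp_add, ← Real.exp_add]
    apply Real.exp_le_exp.2
    have := mul_le_mul_of_nonneg_left hexpo hLpos.le
    linarith
  have hE := Real.exp_pos (L * (xp - 3 * ε) - K)
  have h8 : Real.exp (L * (xp - 3 * ε) - K) ≤ L * C' *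
      (Real.exp (L * (xp - 3 * ε) - K) * (Real.exp K * Real.exp (-(ε2 * g / 2 * L)))) := by
    refine hall2.trans ?_
    gcongr
  have h9 : 1 ≤ L * C' * (Real.exp K * Real.exp (-(ε2 * g / 2 * L))) := by
    by_contra hcon
    push Not at hcon
    have := mul_lt_mul_of_pos_left hcon hE
    linarith
  have h10 : Real.exp (ε2 * g / 2 * L) ≤ Real.exp K * C' * L := by
    have e1 : Real.exp (ε2 * g / 2 * L) * Real.exp (-(ε2 * g / 2 * L)) = 1 := by
      rw [← Real.exp_add]; simp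
    have h11 := mul_le_mul_of_nonneg_left h9 (Real.exp_pos (ε2 * g / 2 * L)).le
    have e2 : Real.exp (ε2 * g / 2 * L) * (L * C' * (Real.exp K * Real.exp (-(ε2 * g / 2 * L)))) =
        Real.exp K * C' * L * (Real.exp (ε2 * g / 2 * L) * Real.exp (-(ε2 * g / 2 * L))) := by ring
    rw [e2, e1, mul_one, mul_one] at h11
    exact h11
  linarith

end Run7.h833
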