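import Pool.Agent.Run7.h833.CM
import Pool.Agent.Run7.h517.T2GR3
import Pool.Agent.Run7.h517.T2P1
import Pool.Agent.Run7.h517.T2P2
import Pool.Agent.Run7.h517.T2PL2

set_option autoImplicit false

/-!
# The converse with a growth exponent at the centre: composition
-/

namespace Run7.h833

open Complex Filter Topology
open Pool.Agent.H24R2.JP (XX HH Om)
open Pool.Agent.H986R2
open Pool.Agent.H986R2.K4 (ZB)
open Pool.Agent.H986R2.DBN (XT)
open Run7.h517 (Fin' ThrX)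

lemma zb_lim {y : ℝ} (h : ∀ ε : ℝ, 0 < ε → ∃ δ : ℝ, 0 ≤ δ ∧ δ ≤ ε ∧ ZB (y + δ)) : ZB y := by
  intro ε hε
  obtain ⟨δ, hδ0, hδ, hZ⟩ := h (ε / 2) (by linarith)
  obtain ⟨t1, ht1, h1⟩ := hZ (ε / 2) (by linarith)
  refine ⟨t1, ht1, fun s hs ht => ?_⟩
  obtain ⟨a1, a2, a3, a4⟩ := h1 s (by linarith) ht
  have hl : 0 ≤ Real.log s.im := Real.log_nonneg (by linarith)
  refine ⟨a1, a2.trans (mul_le_mul_of_nonneg_right (by linarith) hl), ?_, ?_⟩
  · exact (Real.rpow_le_rpow_of_exponent_le (by linarith) (by linarith)).trans a3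
  · exact a4.trans (Real.rpow_le_rpow_of_exponent_le (by linarith) (by linarith))

lemma fin_mono {a b : ℝ} (h : Fin' a) (hab : a ≤ b) : Fin' b := by
  obtain ⟨T, hT⟩ := h
  exact ⟨T, fun s hs => hT s (by linarith)⟩

lemma fin_one {a : ℝ} (ha : 1 ≤ a) : Fin' a :=
  ⟨0, fun _ hs _ => riemannZeta_ne_zero_of_one_le_re (by linarith)⟩

lemma XX_zero {z : ℂ} (hz : 0 < z.im) (h : riemannZeta (1 / 2 + z) = 0) : XX z = 0 := by
  rw [Pool.Agent.H24R2.JP.zetaS.1 _ hz, h, mul_zero]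

/-- The converse with a growth exponent `μ` of zeta on the critical line: if `8 c < h (h - 2 μ)` and for
all large `n` all zeros of the `n`-th derivative of `XT (c / n)` up to height `exp (κ n)` are on the
line, then zeta has only finitely many zeros in `Re s > 1/2 + h`. -/
theorem convMu (μ c κ h0 : ℝ) (hμ : 0 ≤ μ) (h1 : 2 * μ < h0) (h2 : h0 ≤ 1 / 2) (hc : 0 < c)
    (h3 : 8 * c < h0 * (h0 - 2 * μ)) (hκ : 1 < 4 * κ * c)
    (hEx : ∀ e : ℝ, 0 < e → ∃ C : ℝ, ∀ t : ℝ, 1 ≤ |t| →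
      ‖riemannZeta (1 / 2 + t * I)‖ ≤ C * |t| ^ (μ + e))
    (hN : ∃ N : ℕ, ∀ n : ℕ, N ≤ n → ∀ s : ℂ, iteratedDeriv n (XT (c / n)) s = 0 →
      |s.im| ≤ Real.exp (κ * n) → s.re = 0) : Fin' (1 / 2 + h0) := by
  by_contra hcon
  obtain ⟨S, hS⟩ : ∃ S : Set ℝ, S = {y : ℝ | ¬ Fin' (1 / 2 + y)} := ⟨_, rfl⟩
  have hmem : ∀ y, y ∈ S ↔ ¬ Fin' (1 / 2 + y) := by intro y; rw [hS]; rfl
  have hbd : BddAbove S := ⟨1 / 2, fun y hy => by
    by_contra hlt
    push Not at hlt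
    exact (hmem y).1 hy (fin_one (by linarith))⟩
  have h0S : h0 ∈ S := (hmem h0).2 hcon
  obtain ⟨h, hh⟩ : ∃ h : ℝ, h = sSup S := ⟨_, rfl⟩
  have hh0 : h0 ≤ h := by rw [hh]; exact le_csSup hbd h0S
  have hh1 : h ≤ 1 / 2 := by
    rw [hh]
    apply csSup_le ⟨h0, h0S⟩
    intro y hy
    by_contra hlt
    push Not at hlt
    exact (hmem y).1 hy (fin_one (by linarith))
  have hA : ∀ y : ℝ, h < y → Fin' (1 / 2 + y) := by
    intro y hy
    by_contra hn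
    have := le_csSup hbd ((hmem y).2 hn)
    rw [← hh] at this
    linarith
  have hB : ∀ y : ℝ, y < h → ¬ Fin' (1 / 2 + y) := by
    intro y hy hn
    rw [hh] at hy
    obtain ⟨y', hy', hlt⟩ := exists_lt_of_lt_csSup ⟨h0, h0S⟩ hy
    exact (hmem y').1 hy' (fin_mono hn (by linarith))
  have hhp : 0 < h := by linarith
  -- control
  have hZB : ZB h := by
    rcases lt_or_eq_of_le hh1 with hlt | heq
    · refine zb_lim fun ε hε => ?_
      obtain ⟨δ, hδ⟩ : ∃ δ : ℝ, δ = min ε ((1 / 2 - h) / 2) := ⟨_, rfl⟩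
      have hδ0 : 0 < δ := by rw [hδ]; exact lt_min hε (by linarith)
      have hδ1 : δ ≤ ε := by rw [hδ]; exact min_le_left _ _
      have hδ2 : δ ≤ (1 / 2 - h) / 2 := by rw [hδ]; exact min_le_right _ _
      refine ⟨δ, hδ0.le, hδ1, ?_⟩
      have := Run7.h517.zb_of_fin (1 / 2 + (h + δ)) (by linarith) (by linarith) (hA (h + δ) (by linarith))
      have e : 1 / 2 + (h + δ) - 1 / 2 = h + δ := by ring
      rwa [e] at this
    · rw [heq]; exact K4.a1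
  have hch : 8 * c < h * (h - 2 * μ) := by nlinarith
  refine coreM (fun B κ' ρ c0 _ hκ' hρ hρ1 hc0 => Run7.h517.lrB κ' ρ c0 B hκ' hρ hρ1 hc0)
    Run7.h517.gr2 K4.hh K4.tay μ c κ h hμ hc hhp hh1 hch hκ
    (fun ε hε => Run7.h517.plmu2 h μ ε hhp hh1 hμ (by linarith) hε hZB hEx) ?_ hN
  intro ε T1 hε
  obtain ⟨T2, hT2⟩ := hA (h + ε / 2) (by linarith)
  have hn := hB (h - ε) (by linarith)
  have hn' : ∀ T : ℝ, ∃ s : ℂ, 1 / 2 + (h - ε) < s.re ∧ T ≤ |s.im| ∧ riemannZeta s = 0 := by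
    intro T
    by_contra hc2
    push Not at hc2
    exact hn ⟨T, fun s hs hsT => hc2 s hs hsT⟩
  obtain ⟨s, hs1, hs2, hs3⟩ := hn' (max (max T1 T2) 1)
  have g1 : T1 ≤ |s.im| := ((le_max_left _ _).trans (le_max_left _ _)).trans hs2
  have g2 : T2 ≤ |s.im| := ((le_max_right _ _).trans (le_max_left _ _)).trans hs2
  have g3 : 1 ≤ |s.im| := (le_max_right _ _).trans hs2
  have hs4 : s.re ≤ 1 / 2 + (h + ε / 2) := by
    by_contra hlt
    push Not at hlt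
    exact hT2 s hlt g2 hs3
  have key : ∀ s : ℂ, 1 / 2 + (h - ε) < s.re → s.re ≤ 1 / 2 + (h + ε / 2) → T1 ≤ s.im → 1 ≤ s.im →
      riemannZeta s = 0 → ∃ z : ℂ, XX z = 0 ∧ h - ε < z.re ∧ z.re < h + ε ∧ T1 ≤ z.im := by
    intro s a1 a2 a3 a4 a5
    have e1 : (s - 1 / 2).re = s.re - 1 / 2 := by simp
    have e2 : (s - 1 / 2).im = s.im := by simp
    refine ⟨s - 1 / 2, XX_zero (by rw [e2]; linarith) ?_, by rw [e1]; linarith,
      by rw [e1]; linarith, by rw [e2]; exact a3⟩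
    have : (1 / 2 : ℂ) + (s - 1 / 2) = s := by ring
    rw [this, a5]
  rcases le_total 0 s.im with h5 | h5
  · rw [abs_of_nonneg h5] at g1 g3
    exact key s hs1 hs4 g1 g3 hs3
  · rw [abs_of_nonpos h5] at g1 g3
    have e3 : ((starRingEnd ℂ) s).re = s.re := Complex.conj_re s
    have e4 : ((starRingEnd ℂ) s).im = -s.im := Complex.conj_im s
    refine key ((starRingEnd ℂ) s) (by rw [e3]; exact hs1) (by rw [e3]; exact hs4)
      (by rw [e4]; exact g1) (by rw [e4]; exact g3) ?_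
    rw [riemannZeta_conj, hs3, map_zero]

/-- The same with the threshold property. -/
theorem convMuX (μ c h0 : ℝ) (hμ : 0 ≤ μ) (h1 : 2 * μ < h0) (h2 : h0 ≤ 1 / 2) (hc : 0 < c)
    (h3 : 8 * c < h0 * (h0 - 2 * μ))
    (hEx : ∀ e : ℝ, 0 < e → ∃ C : ℝ, ∀ t : ℝ, 1 ≤ |t| →
      ‖riemannZeta (1 / 2 + t * I)‖ ≤ C * |t| ^ (μ + e))
    (hN : ThrX c) : Fin' (1 / 2 + h0) := by
  obtain ⟨N, hN⟩ := hN
  refine convMu μ c (1 / (2 * c)) h0 hμ h1 h2 hc h3 (by field_simp; norm_num) hEx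
    ⟨max N 1, fun n hn s hs _ => ?_⟩
  have hn1 : (1 : ℝ) ≤ n := by exact_mod_cast le_trans (le_max_right N 1) hn
  have hn0 : (0 : ℝ) < n := by linarith
  refine hN n (le_trans (le_max_left _ _) hn) (c / n) (by positivity) ?_ s hs
  rw [mul_div_cancel₀ _ hn0.ne']

end Run7.h833
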