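import Pool.Agent.Run7.h833.CVa
import Pool.Agent.Run7.h517.T2Fwd
import Pool.Agent.H986R2.K4.All

set_option autoImplicit false

/-!
# The converse for the de Bruijn-Newman threshold of the derivatives: the constants
-/

namespace Run7.h833

open Complex
open Pool.Agent.H24R2.JP (XX HH Om)
open Pool.Agent.H986R2
open Pool.Agent.H986R2.DBN (XT)

/-- The converse on one curve: `n τ = c`, zeros up to height `exp (κ n)`. -/
theorem conv_curve (hG : S_GR2) (c : ℝ) (hc0 : 1 / 50 ≤ c) (hc1 : c < 1 / 32) (κ : ℝ)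
    (hκ : 2 < κ ^ 2 * c) (hκ0 : 0 < κ)
    (hN : ∃ N : ℕ, ∀ n : ℕ, N ≤ n → ∀ s : ℂ, iteratedDeriv n (XT (c / n)) s = 0 →
      |s.im| ≤ Real.exp (κ * n) → s.re = 0) :
    ∃ y : ℝ, y < 1 / 2 ∧ ∀ s : ℂ, 1 / 2 + y < s.re → riemannZeta s ≠ 0 :=
  conv_of K4.vdcQ K4.v0 (K4.pl K4.hh) K4.lr hG K4.hh K4.tay c hc0 hc1 κ hκ hκ0 hN

theorem conv (hG : S_GR2) : ∀ c : ℝ, c < 1 / 32 → Run7.h517.ThrX c →
    ∃ y : ℝ, y < 1 / 2 ∧ ∀ s : ℂ, 1 / 2 + y < s.re → riemannZeta s ≠ 0 := by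
  intro c hc ⟨N, hN⟩
  have h50 : (1 : ℝ) / 50 ≤ max c (1 / 50) := le_max_right _ _
  refine conv_curve hG (max c (1 / 50)) h50 (max_lt hc (by norm_num)) 20 (by nlinarith)
    (by norm_num) ⟨max N 1, fun n hn s hs _ => ?_⟩
  have hn1 : (1 : ℝ) ≤ n := by exact_mod_cast le_trans (le_max_right N 1) hn
  have hn0 : (0 : ℝ) < n := by linarith
  refine hN n (le_trans (le_max_left _ _) hn) (max c (1 / 50) / n) (by positivity) ?_ s hs
  rw [mul_div_cancel₀ _ hn0.ne']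
  exact le_max_left _ _

end Run7.h833
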