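import Pool.Agent.W186.LH.Ex

set_option autoImplicit false

/-!
# Convexity of the growth exponents of zeta
-/

namespace Run7.h833

open Complex Filter Topology Set
open Pool.Agent.W186.LH (Ex)

lemma side_bd {σ μ C : ℝ} (h1 : 1 / 2 ≤ σ) (h2 : σ ≤ 2) (hμ : 0 ≤ μ)
    (hC : ∀ t : ℝ, 1 ≤ |t| → ‖riemannZeta (σ + t * I)‖ ≤ C * |t| ^ μ) (z : ℂ) (hz : z.re = σ) :
    ‖H353.FF z‖ ≤ max C 48 * (1 + |z.im|) ^ (1 + μ) := by
  have h0 := abs_nonneg z.im
  have hB : 48 ≤ max C 48 := le_max_right _ _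
  have hone : 1 ≤ (1 + |z.im|) ^ (1 + μ) := Real.one_le_rpow (by linarith) (by linarith)
  rcases le_or_gt 1 |z.im| with h3 | h3
  · have hne : z ≠ 1 := by
      intro h
      rw [h, Complex.one_im, abs_zero] at h3
      linarith
    have hze : z = (σ : ℂ) + (z.im : ℂ) * I := by
      apply Complex.ext <;> simp [hz]
    have h4 := hC z.im h3
    rw [← hze] at h4
    rw [show H353.FF z = (z - 1) * riemannZeta z from ZU.J_g2b.FF_ne hne, norm_mul]
    have h5 : ‖z - 1‖ ≤ 1 + |z.im| := by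
      refine (Complex.norm_le_abs_re_add_abs_im _).trans ?_
      rw [Complex.sub_re, Complex.sub_im, Complex.one_re, Complex.one_im, sub_zero, hz]
      have : |σ - 1| ≤ 1 := by rw [abs_le]; constructor <;> linarith
      linarith
    have h6 : ‖riemannZeta z‖ ≤ max C 48 * (1 + |z.im|) ^ μ := by
      refine h4.trans ?_
      have h7 : |z.im| ^ μ ≤ (1 + |z.im|) ^ μ := Real.rpow_le_rpow h0 (by linarith) hμ
      have h8 : 0 ≤ |z.im| ^ μ := by positivity
      calc C * |z.im| ^ μ ≤ max C 48 * |z.im| ^ μ := mul_le_mul_of_nonneg_right (le_max_left _ _) h8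
        _ ≤ _ := mul_le_mul_of_nonneg_left h7 (by linarith)
    calc ‖z - 1‖ * ‖riemannZeta z‖ ≤ (1 + |z.im|) * (max C 48 * (1 + |z.im|) ^ μ) := by
          apply mul_le_mul h5 h6 (norm_nonneg _) (by linarith)
      _ = max C 48 * ((1 + |z.im|) ^ (1 : ℝ) * (1 + |z.im|) ^ μ) := by rw [Real.rpow_one]; ring
      _ = _ := by rw [← Real.rpow_add (by linarith)]
  · have h4 : ‖H353.FF z‖ ≤ 3 * (1 + ‖z‖) ^ 2 := by
      have := H353.FF_bound (1 / 2) (by norm_num) z (by rw [hz]; exact h1)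
      norm_num at this ⊢
      exact this
    have h5 : ‖z‖ ≤ 3 := by
      refine (Complex.norm_le_abs_re_add_abs_im _).trans ?_
      rw [hz, abs_of_nonneg (by linarith : (0 : ℝ) ≤ σ)]
      linarith
    have h6 := norm_nonneg z
    calc ‖H353.FF z‖ ≤ 3 * (1 + ‖z‖) ^ 2 := h4
      _ ≤ 48 * 1 := by nlinarith
      _ ≤ _ := mul_le_mul hB hone zero_le_one (by linarith)

/-- The growth exponents are convex. -/
theorem cvx (σ1 σ2 μ1 μ2 C1 C2 : ℝ) (h1 : 1 / 2 ≤ σ1) (h12 : σ1 < σ2) (h2 : σ2 ≤ 2) (hμ1 : 0 ≤ μ1)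
    (hμ1' : μ1 ≤ 1) (hμ2 : 0 ≤ μ2) (hμ2' : μ2 ≤ 1)
    (hC1 : ∀ t : ℝ, 1 ≤ |t| → ‖riemannZeta (σ1 + t * I)‖ ≤ C1 * |t| ^ μ1)
    (hC2 : ∀ t : ℝ, 1 ≤ |t| → ‖riemannZeta (σ2 + t * I)‖ ≤ C2 * |t| ^ μ2) :
    ∃ C : ℝ, 0 < C ∧ ∀ σ : ℝ, σ1 ≤ σ → σ ≤ σ2 → ∀ t : ℝ, 1 ≤ |t| →
      ‖riemannZeta (σ + t * I)‖ ≤ C * |t| ^ ((μ1 * (σ2 - σ) + μ2 * (σ - σ1)) / (σ2 - σ1)) := by
  obtain ⟨B, hB⟩ : ∃ B : ℝ, B = max (max C1 48) (max C2 48) := ⟨_, rfl⟩
  have hB1 : max C1 48 ≤ B := by rw [hB]; exact le_max_left _ _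
  have hB2 : max C2 48 ≤ B := by rw [hB]; exact le_max_right _ _
  have hB48 : 48 ≤ B := (le_max_right _ _).trans hB1
  have hd : 0 < σ2 - σ1 := by linarith
  obtain ⟨b, hb⟩ : ∃ b : ℝ, b = (μ1 - μ2) / (σ2 - σ1) := ⟨_, rfl⟩
  have hb1 : b * (σ2 - σ1) = μ1 - μ2 := by rw [hb]; field_simp
  refine ⟨8 * B * Real.exp 4, by positivity, fun σ hσ1 hσ2 T hT => ?_⟩
  obtain ⟨L, hL⟩ : ∃ L : ℝ, L = Real.log (1 + |T|) := ⟨_, rfl⟩
  have hT0 := abs_nonneg T
  have hLe : Real.exp L = 1 + |T| := by rw [hL, Real.exp_log (by linarith)]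
  have hL0 : 0 ≤ L := by rw [hL]; exact Real.log_nonneg (by linarith)
  obtain ⟨f, hf⟩ : ∃ f : ℂ → ℂ, f = fun z => H353.FF z * cexp ((z - I * T) ^ 2 + ((L * b : ℝ) : ℂ) * z) :=
    ⟨_, rfl⟩
  have hre : ∀ z : ℂ, ((z - I * T) ^ 2 + ((L * b : ℝ) : ℂ) * z).re =
      z.re ^ 2 - (z.im - T) ^ 2 + L * b * z.re := by
    intro z
    have e1 : (z - I * T).re = z.re := by simp
    have e2 : (z - I * T).im = z.im - T := by simp
    rw [Complex.add_re, Complex.re_ofReal_mul, pow_two, Complex.mul_re, e1, e2]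
    ring
  have hfn : ∀ z : ℂ, ‖f z‖ = ‖H353.FF z‖ * Real.exp (z.re ^ 2 - (z.im - T) ^ 2 + L * b * z.re) := by
    intro z
    rw [hf, norm_mul, Complex.norm_exp, hre]
  have hFd : Differentiable ℂ f := by
    rw [hf]
    have h1 : Differentiable ℂ H353.FF := fun s => ZU.J_g2b.FF_diff s
    fun_prop
  -- the sides
  have hside : ∀ (σ' μ : ℝ), 1 / 2 ≤ σ' → σ' ≤ 2 → 0 ≤ μ → μ ≤ 1 →
      (∀ z : ℂ, z.re = σ' → ‖H353.FF z‖ ≤ B * (1 + |z.im|) ^ (1 + μ)) → μ + b * σ' = μ1 + b * σ1 →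
      ∀ z : ℂ, z.re = σ' → ‖f z‖ ≤ 2 * B * Real.exp 4 * Real.exp (L * (1 + μ1 + b * σ1)) := by
    intro σ' μ a1 a2 a3 a4 a5 a6 z hz
    rw [hfn]
    have k0 := abs_nonneg z.im
    have k1 : 1 + |z.im| ≤ (1 + |T|) * (1 + |z.im - T|) := by
      have h3 : |z.im| ≤ |T| + |z.im - T| := by
        have := abs_add_le T (z.im - T)
        rwa [add_sub_cancel] at this
      nlinarith [abs_nonneg (z.im - T)]
    have k2 : (1 + |z.im|) ^ (1 + μ) ≤ (1 + |T|) ^ (1 + μ) * (1 + |z.im - T|) ^ (2 : ℝ) := by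
      calc (1 + |z.im|) ^ (1 + μ) ≤ ((1 + |T|) * (1 + |z.im - T|)) ^ (1 + μ) :=
            Real.rpow_le_rpow (by linarith) k1 (by linarith)
        _ = (1 + |T|) ^ (1 + μ) * (1 + |z.im - T|) ^ (1 + μ) :=
            Real.mul_rpow (by linarith) (by linarith [abs_nonneg (z.im - T)])
        _ ≤ _ := by
            apply mul_le_mul_of_nonneg_left _ (by positivity)
            exact Real.rpow_le_rpow_of_exponent_le (by linarith [abs_nonneg (z.im - T)]) (by linarith)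
    have k3 : (1 + |z.im - T|) ^ (2 : ℝ) ≤ 2 * Real.exp ((z.im - T) ^ 2) := by
      have h4 : (1 + |z.im - T|) ^ (2 : ℝ) = (1 + |z.im - T|) ^ (2 : ℕ) := by
        rw [← Real.rpow_natCast]; norm_num
      rw [h4]
      have h5 := Real.add_one_le_exp ((z.im - T) ^ 2)
      have h6 : (1 + |z.im - T|) ^ 2 ≤ 2 * (1 + (z.im - T) ^ 2) := by
        have : |z.im - T| ^ 2 = (z.im - T) ^ 2 := sq_abs _
        nlinarith [sq_nonneg (|z.im - T| - 1)]
      linarith
    have k4 : (1 + |T|) ^ (1 + μ) = Real.exp (L * (1 + μ)) := by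
      rw [Real.rpow_def_of_pos (by linarith), hL]
    have k5 : z.re ^ 2 ≤ 4 := by rw [hz]; nlinarith
    calc ‖H353.FF z‖ * Real.exp (z.re ^ 2 - (z.im - T) ^ 2 + L * b * z.re)
        ≤ (B * (Real.exp (L * (1 + μ)) * (2 * Real.exp ((z.im - T) ^ 2)))) *
          Real.exp (4 - (z.im - T) ^ 2 + L * b * σ') := by
          apply mul_le_mul _ _ (Real.exp_pos _).le (by positivity)
          · refine (a5 z hz).trans ?_
            apply mul_le_mul_of_nonneg_left _ (by linarith)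
            refine k2.trans ?_
            rw [k4]
            exact mul_le_mul_of_nonneg_left k3 (Real.exp_pos _).le
          · apply Real.exp_le_exp.2
            rw [← hz]
            linarith
      _ = 2 * B * (Real.exp (L * (1 + μ)) * Real.exp ((z.im - T) ^ 2) *
          Real.exp (4 - (z.im - T) ^ 2 + L * b * σ')) := by ring
      _ = 2 * B * (Real.exp 4 * Real.exp (L * (1 + μ1 + b * σ1))) := by
          rw [← Real.exp_add, ← Real.exp_add, ← Real.exp_add]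
          congr 2
          have : L * (μ + b * σ') = L * (μ1 + b * σ1) := by rw [a6]
          linarith
      _ = _ := by ring
  have hl : ∀ z : ℂ, z.re = σ1 → ‖f z‖ ≤ 2 * B * Real.exp 4 * Real.exp (L * (1 + μ1 + b * σ1)) :=
    hside σ1 μ1 h1 (by linarith) hμ1 hμ1' (fun z hz => (side_bd h1 (by linarith) hμ1 hC1 z hz).trans
      (mul_le_mul_of_nonneg_right hB1 (by positivity))) rfl
  have hr : ∀ z : ℂ, z.re = σ2 → ‖f z‖ ≤ 2 * B * Real.exp 4 * Real.exp (L * (1 + μ1 + b * σ1)) :=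
    hside σ2 μ2 (by linarith) h2 hμ2 hμ2' (fun z hz => (side_bd (by linarith) h2 hμ2 hC2 z hz).trans
      (mul_le_mul_of_nonneg_right hB2 (by positivity))) (by linarith)
  have key : ∀ s : ℂ, σ1 ≤ s.re → s.re ≤ σ2 →
      ‖f s‖ ≤ 2 * B * Real.exp 4 * Real.exp (L * (1 + μ1 + b * σ1)) := by
    intro s hs1 hs2
    refine PhragmenLindelof.vertical_strip (a := σ1) (b := σ2) hFd.diffContOnCl ?_ hl hr hs1 hs2
    refine ⟨1, ?_, 2, ?_⟩
    · rw [lt_div_iff₀ hd]
      linarith [Real.pi_gt_three]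
    · apply Asymptotics.IsBigO.of_bound (27 * Real.exp (4 + |L * b| * 2))
      apply Filter.mem_inf_of_right
      intro z hz
      have hz1 : σ1 ≤ z.re := hz.1.le
      have hz2 : z.re ≤ σ2 := hz.2.le
      have h1' : ‖f z‖ ≤ 3 * (1 + ‖z‖) ^ 2 * Real.exp (4 + |L * b| * 2) := by
        rw [hfn]
        apply mul_le_mul _ _ (Real.exp_pos _).le (by positivity)
        · have := H353.FF_bound (1 / 2) (by norm_num) z (by linarith)
          norm_num at this ⊢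
          exact this
        · apply Real.exp_le_exp.2
          have k5 : z.re ^ 2 ≤ 4 := by nlinarith
          have k6 : L * b * z.re ≤ |L * b| * 2 := by
            have := le_abs_self (L * b)
            have := abs_nonneg (L * b)
            nlinarith
          nlinarith [sq_nonneg (z.im - T)]
      have h2' : ‖z‖ ≤ 2 + |z.im| := by
        refine (Complex.norm_le_abs_re_add_abs_im z).trans ?_
        rw [abs_of_nonneg (by linarith : (0 : ℝ) ≤ z.re)]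
        linarith
      have h3' : 1 + |z.im| ≤ Real.exp |z.im| := by
        have := Real.add_one_le_exp |z.im|
        linarith
      have h0' := abs_nonneg z.im
      have h4' : (1 + ‖z‖) ^ 2 ≤ 9 * (Real.exp |z.im|) ^ 2 := by
        have h5 : 1 + ‖z‖ ≤ 3 * Real.exp |z.im| := by linarith
        calc (1 + ‖z‖) ^ 2 ≤ (3 * Real.exp |z.im|) ^ 2 := by
              apply pow_le_pow_left₀ (by positivity) h5
          _ = _ := by ring
      have h6' : (Real.exp |z.im|) ^ 2 ≤ Real.exp (2 * Real.exp (1 * |z.im|)) := by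
        rw [← Real.exp_nat_mul, one_mul]
        apply Real.exp_le_exp.2
        push_cast
        linarith
      rw [Set.mem_ofPred_eq, Real.norm_of_nonneg (Real.exp_pos _).le]
      have hE := Real.exp_pos (4 + |L * b| * 2)
      calc ‖f z‖ ≤ 3 * (1 + ‖z‖) ^ 2 * Real.exp (4 + |L * b| * 2) := h1'
        _ ≤ 3 * (9 * Real.exp (2 * Real.exp (1 * |z.im|))) * Real.exp (4 + |L * b| * 2) := by
            apply mul_le_mul_of_nonneg_right _ hE.le
            linarith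
        _ = _ := by ring
  -- the point
  obtain ⟨s, hs⟩ : ∃ s : ℂ, s = σ + T * I := ⟨_, rfl⟩
  have hsre : s.re = σ := by rw [hs]; simp
  have hsim : s.im = T := by rw [hs]; simp
  have hk := key s (by rw [hsre]; exact hσ1) (by rw [hsre]; exact hσ2)
  have hne : s ≠ 1 := by
    intro h
    rw [h] at hsim
    simp at hsim
    rw [← hsim, abs_zero] at hT
    linarith
  rw [hfn, show H353.FF s = (s - 1) * riemannZeta s from ZU.J_g2b.FF_ne hne, norm_mul, hsre, hsim] at hk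
  rw [← hs]
  have hT1 : |T| ≤ ‖s - 1‖ := by
    have := abs_im_le_norm (s - 1)
    simpa [hsim] using this
  obtain ⟨m, hm⟩ : ∃ m : ℝ, m = (μ1 * (σ2 - σ) + μ2 * (σ - σ1)) / (σ2 - σ1) := ⟨_, rfl⟩
  rw [← hm]
  have hm1 : m = μ1 - b * (σ - σ1) := by
    rw [hm, div_eq_iff hd.ne']
    linear_combination (σ - σ1) * hb1
  have hm0 : 0 ≤ m := by
    rw [hm]
    apply div_nonneg _ hd.le
    have := mul_nonneg hμ1 (by linarith : 0 ≤ σ2 - σ)
    have := mul_nonneg hμ2 (by linarith : 0 ≤ σ - σ1)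
    linarith
  have hm2 : m ≤ 1 := by
    rw [hm, div_le_one hd]
    nlinarith
  have h5 : |T| * ‖riemannZeta s‖ * Real.exp (σ ^ 2 - (T - T) ^ 2 + L * b * σ) ≤
      2 * B * Real.exp 4 * Real.exp (L * (1 + μ1 + b * σ1)) :=
    le_trans (mul_le_mul_of_nonneg_right (mul_le_mul_of_nonneg_right hT1 (norm_nonneg _))
      (Real.exp_pos _).le) hk
  have h6 : |T| * ‖riemannZeta s‖ ≤ 2 * B * Real.exp 4 * Real.exp (L * (1 + m)) := by
    have h7 : Real.exp (L * (1 + μ1 + b * σ1)) ≤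
        Real.exp (L * (1 + m)) * Real.exp (σ ^ 2 - (T - T) ^ 2 + L * b * σ) := by
      rw [← Real.exp_add]
      apply Real.exp_le_exp.2
      rw [hm1]
      nlinarith [sq_nonneg σ]
    have h8 : |T| * ‖riemannZeta s‖ * Real.exp (σ ^ 2 - (T - T) ^ 2 + L * b * σ) ≤
        2 * B * Real.exp 4 * Real.exp (L * (1 + m)) * Real.exp (σ ^ 2 - (T - T) ^ 2 + L * b * σ) := by
      refine h5.trans ?_
      calc 2 * B * Real.exp 4 * Real.exp (L * (1 + μ1 + b * σ1))
          ≤ 2 * B * Real.exp 4 * (Real.exp (L * (1 + m)) * Real.exp (σ ^ 2 - (T - T) ^ 2 + L * b * σ)) := by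
            apply mul_le_mul_of_nonneg_left h7 (by positivity)
        _ = _ := by ring
    exact le_of_mul_le_mul_right h8 (Real.exp_pos _)
  have h9 : Real.exp (L * (1 + m)) ≤ 4 * (|T| * |T| ^ m) := by
    have hTp : 0 < |T| := by linarith
    have e1 : Real.exp (L * (1 + m)) = (1 + |T|) ^ (1 + m) := by
      rw [Real.rpow_def_of_pos (by linarith), hL]
    rw [e1]
    calc (1 + |T|) ^ (1 + m) ≤ (2 * |T|) ^ (1 + m) :=
          Real.rpow_le_rpow (by linarith) (by linarith) (by linarith)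
      _ = 2 ^ (1 + m) * |T| ^ (1 + m) := Real.mul_rpow (by norm_num) hTp.le
      _ ≤ 4 * |T| ^ (1 + m) := by
          apply mul_le_mul_of_nonneg_right _ (by positivity)
          calc (2 : ℝ) ^ (1 + m) ≤ (2 : ℝ) ^ (2 : ℝ) :=
                Real.rpow_le_rpow_of_exponent_le (by norm_num) (by linarith)
            _ = 4 := by norm_num
      _ = _ := by rw [Real.rpow_add hTp, Real.rpow_one]
  have h10 : |T| * ‖riemannZeta s‖ ≤ |T| * (8 * B * Real.exp 4 * |T| ^ m) := by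
    refine h6.trans ?_
    calc 2 * B * Real.exp 4 * Real.exp (L * (1 + m)) ≤ 2 * B * Real.exp 4 * (4 * (|T| * |T| ^ m)) :=
          mul_le_mul_of_nonneg_left h9 (by positivity)
      _ = _ := by ring
  exact le_of_mul_le_mul_left h10 (by linarith)

/-- Convexity, with epsilons. -/
theorem ex_cvx {σ1 σ2 μ1 μ2 : ℝ} (h1 : 1 / 2 ≤ σ1) (h12 : σ1 < σ2) (h2 : σ2 ≤ 2) (hμ1 : 0 ≤ μ1)
    (hμ1' : μ1 < 1) (hμ2 : 0 ≤ μ2) (hμ2' : μ2 < 1) (hE1 : Ex σ1 μ1) (hE2 : Ex σ2 μ2) {σ : ℝ}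
    (hσ1 : σ1 ≤ σ) (hσ2 : σ ≤ σ2) : Ex σ ((μ1 * (σ2 - σ) + μ2 * (σ - σ1)) / (σ2 - σ1)) := by
  intro ε hε
  obtain ⟨e, he⟩ : ∃ e : ℝ, e = min ε (min (1 - μ1) (1 - μ2)) := ⟨_, rfl⟩
  have he0 : 0 < e := by rw [he]; exact lt_min hε (lt_min (by linarith) (by linarith))
  have he1 : e ≤ ε := by rw [he]; exact min_le_left _ _
  have he2 : e ≤ 1 - μ1 := by rw [he]; exact (min_le_right _ _).trans (min_le_left _ _)
  have he3 : e ≤ 1 - μ2 := by rw [he]; exact (min_le_right _ _).trans (min_le_right _ _)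
  obtain ⟨C1, hC1⟩ := hE1 e he0
  obtain ⟨C2, hC2⟩ := hE2 e he0
  obtain ⟨C, hC, h⟩ := cvx σ1 σ2 (μ1 + e) (μ2 + e) C1 C2 h1 h12 h2 (by linarith) (by linarith)
    (by linarith) (by linarith) hC1 hC2
  refine ⟨C, fun t ht => (h σ hσ1 hσ2 t ht).trans ?_⟩
  apply mul_le_mul_of_nonneg_left _ hC.le
  apply Real.rpow_le_rpow_of_exponent_le ht
  have hd : 0 < σ2 - σ1 := by linarith
  have : ((μ1 + e) * (σ2 - σ) + (μ2 + e) * (σ - σ1)) / (σ2 - σ1) =
      (μ1 * (σ2 - σ) + μ2 * (σ - σ1)) / (σ2 - σ1) + e := by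
    field_simp
    ring
  linarith

end Run7.h833
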