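import Pool.Agent.H986R2.DBN.Heat

set_option autoImplicit false

/-!
# The heat flow of a two-sided Laplace transform, forwards and backwards, on shifted lines
-/

namespace Run7.h833.HK

open Complex Filter Topology MeasureTheory
open Pool.Agent.H24R2.JP (XX)
open Pool.Agent.H24R2.JP.MomAux (Cl L)
open Pool.Agent.H986R2.DBN (XT Cl_w)
open Pool.Agent.Helper242.KK (Ph)

/-- the kernel multiplied by `exp (τ u ^ 2)` -/
noncomputable def ew (w : ℝ → ℝ) (τ : ℝ) (u : ℝ) : ℝ := w u * Real.exp (τ * u ^ 2)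

lemma inner_b {τ : ℝ} (hτ : 0 < τ) (w : ℝ → ℝ) (x0 z : ℂ) (u : ℝ) :
    ∫ y : ℝ, ((ew w τ u : ℝ) : ℂ) * cexp ((x0 + I * y) * u) * cexp ((x0 + I * y - z) ^ 2 / (4 * τ)) =
      ((Real.pi * (4 * τ) : ℝ) : ℂ) ^ (1 / 2 : ℂ) * (((w u : ℝ) : ℂ) * cexp (z * u)) := by
  have hτc : (τ : ℂ) ≠ 0 := by exact_mod_cast hτ.ne'
  have h1 : ∀ y : ℝ, ((ew w τ u : ℝ) : ℂ) * cexp ((x0 + I * y) * u) *
      cexp ((x0 + I * y - z) ^ 2 / (4 * τ)) =
      ((ew w τ u : ℝ) : ℂ) * cexp ((((-1 / (4 * τ) : ℝ)) : ℂ) * (y : ℂ) ^ 2 +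
        (I * (u + (x0 - z) / (2 * τ))) * y + (x0 * u + (x0 - z) ^ 2 / (4 * τ))) := by
    intro y
    rw [mul_assoc, ← Complex.exp_add]
    congr 2
    push_cast
    field_simp
    have hI : I ^ 2 = -1 := Complex.I_sq
    linear_combination 2 * (y : ℂ) ^ 2 * hI
  simp_rw [h1]
  rw [integral_const_mul, integral_cexp_quadratic (by
    rw [Complex.ofReal_re]; rw [neg_div]; exact neg_lt_zero.2 (by positivity))]
  have h2 : (Real.pi : ℂ) / -(((-1 / (4 * τ) : ℝ)) : ℂ) = ((Real.pi * (4 * τ) : ℝ) : ℂ) := by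
    push_cast
    field_simp
  rw [h2]
  have h3 : (x0 * (u : ℂ) + (x0 - z) ^ 2 / (4 * τ)) -
      (I * (u + (x0 - z) / (2 * τ))) ^ 2 / (4 * (((-1 / (4 * τ) : ℝ)) : ℂ)) = z * u - τ * u ^ 2 := by
    push_cast
    have hI : I ^ 2 = -1 := Complex.I_sq
    field_simp
    linear_combination (4 * (2 * u * τ + (x0 - z)) ^ 2 : ℂ) * hI
  rw [h3]
  have h4 : ((ew w τ u : ℝ) : ℂ) * cexp (z * u - τ * u ^ 2) = ((w u : ℝ) : ℂ) * cexp (z * u) := by
    unfold ew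
    push_cast
    rw [mul_assoc, ← Complex.exp_add]
    congr 2
    ring
  rw [← h4]
  ring

lemma inner_f {τ : ℝ} (hτ : 0 < τ) (w : ℝ → ℝ) (x0 z : ℂ) (u : ℝ) :
    ∫ y : ℝ, ((w u : ℝ) : ℂ) * cexp ((x0 + y) * u) * cexp (-(x0 + y - z) ^ 2 / (4 * τ)) =
      ((Real.pi * (4 * τ) : ℝ) : ℂ) ^ (1 / 2 : ℂ) * (((ew w τ u : ℝ) : ℂ) * cexp (z * u)) := by
  have hτc : (τ : ℂ) ≠ 0 := by exact_mod_cast hτ.ne'
  have h1 : ∀ y : ℝ, ((w u : ℝ) : ℂ) * cexp ((x0 + y) * u) * cexp (-(x0 + y - z) ^ 2 / (4 * τ)) =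
      ((w u : ℝ) : ℂ) * cexp ((((-1 / (4 * τ) : ℝ)) : ℂ) * (y : ℂ) ^ 2 +
        (u - (x0 - z) / (2 * τ)) * y + (x0 * u - (x0 - z) ^ 2 / (4 * τ))) := by
    intro y
    rw [mul_assoc, ← Complex.exp_add]
    congr 2
    push_cast
    field_simp
    ring
  simp_rw [h1]
  rw [integral_const_mul, integral_cexp_quadratic (by
    rw [Complex.ofReal_re]; rw [neg_div]; exact neg_lt_zero.2 (by positivity))]
  have h2 : (Real.pi : ℂ) / -(((-1 / (4 * τ) : ℝ)) : ℂ) = ((Real.pi * (4 * τ) : ℝ) : ℂ) := by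
    push_cast
    field_simp
  rw [h2]
  have h3 : (x0 * (u : ℂ) - (x0 - z) ^ 2 / (4 * τ)) -
      ((u : ℂ) - (x0 - z) / (2 * τ)) ^ 2 / (4 * (((-1 / (4 * τ) : ℝ)) : ℂ)) = z * u + τ * u ^ 2 := by
    push_cast
    field_simp
    ring
  rw [h3]
  have h4 : ((w u : ℝ) : ℂ) * cexp (z * u + τ * u ^ 2) = ((ew w τ u : ℝ) : ℂ) * cexp (z * u) := by
    unfold ew
    push_cast
    rw [mul_assoc, ← Complex.exp_add]
    congr 2
    ring
  rw [← h4]
  ring

lemma re_sq_b (x0 z : ℂ) (y : ℝ) : ((x0 + I * y - z) ^ 2).re =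
    (x0 - z).re ^ 2 - ((x0 - z).im + y) ^ 2 := by
  rw [sq, Complex.mul_re]
  simp
  ring

lemma re_sq_f (x0 z : ℂ) (y : ℝ) : ((x0 + y - z) ^ 2).re =
    ((x0 - z).re + y) ^ 2 - (x0 - z).im ^ 2 := by
  rw [sq, Complex.mul_re]
  simp
  ring

lemma int_b {τ : ℝ} (hτ : 0 < τ) {w : ℝ → ℝ} (hw : Cl (ew w τ)) (x0 z : ℂ) :
    Integrable (Function.uncurry fun y u : ℝ => ((ew w τ u : ℝ) : ℂ) * cexp ((x0 + I * y) * u) *
      cexp ((x0 + I * y - z) ^ 2 / (4 * τ))) (volume.prod volume) := by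
  obtain ⟨C, hC⟩ := hw.2 |x0.re|
  have i1 : Integrable (fun y : ℝ => Real.exp ((x0 - z).re ^ 2 / (4 * τ)) *
      Real.exp (-(1 / (4 * τ)) * (y + (x0 - z).im) ^ 2)) := by
    have h1 : Integrable (fun y : ℝ => Real.exp (-(1 / (4 * τ)) * y ^ 2)) :=
      integrable_exp_neg_mul_sq (by positivity)
    exact (h1.comp_add_right ((x0 - z).im)).const_mul _
  have i2 : Integrable (fun u : ℝ => C * Real.exp (-1 * u ^ 2)) :=
    (integrable_exp_neg_mul_sq one_pos).const_mul C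
  have hc1 : Continuous (fun p : ℝ × ℝ => ((ew w τ p.2 : ℝ) : ℂ)) :=
    Complex.continuous_ofReal.comp (hw.1.comp continuous_snd)
  refine Integrable.mono' (i1.mul_prod i2) ?_ (Eventually.of_forall fun p => ?_)
  · apply Continuous.aestronglyMeasurable
    have hc2 : Continuous (fun p : ℝ × ℝ => cexp ((x0 + I * p.1) * (p.2 : ℂ))) := by fun_prop
    have hc3 : Continuous (fun p : ℝ × ℝ => cexp ((x0 + I * p.1 - z) ^ 2 / (4 * τ))) := by fun_prop
    exact (hc1.mul hc2).mul hc3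
  · obtain ⟨y, u⟩ := p
    simp only [Function.uncurry]
    rw [norm_mul, norm_mul, Complex.norm_real, Real.norm_eq_abs, Complex.norm_exp, Complex.norm_exp]
    have e1 : ((x0 + I * (y : ℂ) - z) ^ 2 / (4 * (τ : ℂ))).re =
        (x0 - z).re ^ 2 / (4 * τ) + -(1 / (4 * τ)) * (y + (x0 - z).im) ^ 2 := by
      have : (4 * (τ : ℂ)) = ((4 * τ : ℝ) : ℂ) := by push_cast; ring
      rw [this, Complex.div_ofReal_re, re_sq_b]
      field_simp
      ring
    have e2 : ((x0 + I * (y : ℂ)) * (u : ℂ)).re = x0.re * u - y * 0 := by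
      simp [Complex.mul_re]
    rw [e1, Real.exp_add, e2]
    have e3 : Real.exp (x0.re * u - y * 0) ≤ Real.exp (|x0.re| * |u|) := by
      apply Real.exp_le_exp.2
      rw [mul_zero, sub_zero, ← abs_mul]
      exact le_abs_self _
    calc |ew w τ u| * Real.exp (x0.re * u - y * 0) *
          (Real.exp ((x0 - z).re ^ 2 / (4 * τ)) * Real.exp (-(1 / (4 * τ)) * (y + (x0 - z).im) ^ 2))
        ≤ |ew w τ u| * Real.exp (|x0.re| * |u|) *
          (Real.exp ((x0 - z).re ^ 2 / (4 * τ)) * Real.exp (-(1 / (4 * τ)) * (y + (x0 - z).im) ^ 2)) := by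
          gcongr
      _ ≤ (C * Real.exp (-1 * u ^ 2)) *
          (Real.exp ((x0 - z).re ^ 2 / (4 * τ)) * Real.exp (-(1 / (4 * τ)) * (y + (x0 - z).im) ^ 2)) := by
          exact mul_le_mul_of_nonneg_right (hC u) (by positivity)
      _ = _ := by ring

lemma int_f {τ : ℝ} (hτ : 0 < τ) {w : ℝ → ℝ} (hw0 : Continuous w) (hw : Cl (ew w (2 * τ))) (x0 z : ℂ) :
    Integrable (Function.uncurry fun y u : ℝ => ((w u : ℝ) : ℂ) * cexp ((x0 + y) * u) *
      cexp (-(x0 + y - z) ^ 2 / (4 * τ))) (volume.prod volume) := by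
  obtain ⟨C, hC⟩ := hw.2 (|x0.re| + |(x0 - z).re|)
  have i1 : Integrable (fun y : ℝ => Real.exp ((x0 - z).im ^ 2 / (4 * τ)) *
      Real.exp (-(1 / (8 * τ)) * (y + (x0 - z).re) ^ 2)) := by
    have h1 : Integrable (fun y : ℝ => Real.exp (-(1 / (8 * τ)) * y ^ 2)) :=
      integrable_exp_neg_mul_sq (by positivity)
    exact (h1.comp_add_right ((x0 - z).re)).const_mul _
  have i2 : Integrable (fun u : ℝ => C * Real.exp (-1 * u ^ 2)) :=
    (integrable_exp_neg_mul_sq one_pos).const_mul C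
  have hc1 : Continuous (fun p : ℝ × ℝ => ((w p.2 : ℝ) : ℂ)) :=
    Complex.continuous_ofReal.comp (hw0.comp continuous_snd)
  refine Integrable.mono' (i1.mul_prod i2) ?_ (Eventually.of_forall fun p => ?_)
  · apply Continuous.aestronglyMeasurable
    have hc2 : Continuous (fun p : ℝ × ℝ => cexp ((x0 + p.1) * (p.2 : ℂ))) := by fun_prop
    have hc3 : Continuous (fun p : ℝ × ℝ => cexp (-(x0 + p.1 - z) ^ 2 / (4 * τ))) := by fun_prop
    exact (hc1.mul hc2).mul hc3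
  · obtain ⟨y, u⟩ := p
    simp only [Function.uncurry]
    rw [norm_mul, norm_mul, Complex.norm_real, Real.norm_eq_abs, Complex.norm_exp, Complex.norm_exp]
    have e1 : (-(x0 + (y : ℂ) - z) ^ 2 / (4 * (τ : ℂ))).re =
        (x0 - z).im ^ 2 / (4 * τ) + -(1 / (4 * τ)) * (y + (x0 - z).re) ^ 2 := by
      have : (4 * (τ : ℂ)) = ((4 * τ : ℝ) : ℂ) := by push_cast; ring
      rw [this, Complex.div_ofReal_re, Complex.neg_re, re_sq_f]
      field_simp
      ring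
    have e2 : ((x0 + (y : ℂ)) * (u : ℂ)).re = (x0.re + y) * u := by
      simp [Complex.mul_re]
    rw [e1, Real.exp_add, e2]
    have e3 : Real.exp ((x0.re + y) * u) * Real.exp (-(1 / (4 * τ)) * (y + (x0 - z).re) ^ 2) ≤
        Real.exp ((|x0.re| + |(x0 - z).re|) * |u|) * Real.exp (2 * τ * u ^ 2) *
        Real.exp (-(1 / (8 * τ)) * (y + (x0 - z).re) ^ 2) := by
      rw [← Real.exp_add, ← Real.exp_add, ← Real.exp_add]
      apply Real.exp_le_exp.2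
      set b := (x0 - z).re
      have h1 : x0.re * u ≤ |x0.re| * |u| := by rw [← abs_mul]; exact le_abs_self _
      have h2 : -(b * u) ≤ |b| * |u| := by rw [← abs_mul]; exact neg_le_abs _
      have h3 : (y + b) * u ≤ 1 / (8 * τ) * (y + b) ^ 2 + 2 * τ * u ^ 2 := by
        have h4 : 0 ≤ (y + b - 4 * τ * u) ^ 2 := sq_nonneg _
        have h5 : 1 / (8 * τ) * (y + b) ^ 2 + 2 * τ * u ^ 2 - (y + b) * u =
            1 / (8 * τ) * (y + b - 4 * τ * u) ^ 2 := by field_simp; ring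
        have h6 : 0 ≤ 1 / (8 * τ) * (y + b - 4 * τ * u) ^ 2 := by positivity
        linarith
      have h7 : 1 / (4 * τ) * (y + b) ^ 2 = 2 * (1 / (8 * τ) * (y + b) ^ 2) := by field_simp; ring
      nlinarith
    have h8 := hC u
    have h9 : |ew w (2 * τ) u| = |w u| * Real.exp (2 * τ * u ^ 2) := by
      unfold ew
      rw [abs_mul, abs_of_pos (Real.exp_pos _)]
    rw [h9] at h8
    calc |w u| * Real.exp ((x0.re + y) * u) *
          (Real.exp ((x0 - z).im ^ 2 / (4 * τ)) * Real.exp (-(1 / (4 * τ)) * (y + (x0 - z).re) ^ 2))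
        = |w u| * Real.exp ((x0 - z).im ^ 2 / (4 * τ)) * (Real.exp ((x0.re + y) * u) *
          Real.exp (-(1 / (4 * τ)) * (y + (x0 - z).re) ^ 2)) := by ring
      _ ≤ |w u| * Real.exp ((x0 - z).im ^ 2 / (4 * τ)) *
          (Real.exp ((|x0.re| + |(x0 - z).re|) * |u|) * Real.exp (2 * τ * u ^ 2) *
            Real.exp (-(1 / (8 * τ)) * (y + (x0 - z).re) ^ 2)) := by gcongr
      _ = (|w u| * Real.exp (2 * τ * u ^ 2) * Real.exp ((|x0.re| + |(x0 - z).re|) * |u|)) *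
          (Real.exp ((x0 - z).im ^ 2 / (4 * τ)) *
            Real.exp (-(1 / (8 * τ)) * (y + (x0 - z).re) ^ 2)) := by ring
      _ ≤ (C * Real.exp (-1 * u ^ 2)) * (Real.exp ((x0 - z).im ^ 2 / (4 * τ)) *
            Real.exp (-(1 / (8 * τ)) * (y + (x0 - z).re) ^ 2)) := by gcongr
      _ = _ := by ring

/-- backward heat flow on any vertical line -/
theorem back {τ : ℝ} (hτ : 0 < τ) {w : ℝ → ℝ} (hw : Cl (ew w τ)) (x0 z : ℂ) :
    Integrable (fun y : ℝ => L (ew w τ) (x0 + I * y) * cexp ((x0 + I * y - z) ^ 2 / (4 * τ))) ∧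
    ∫ y : ℝ, L (ew w τ) (x0 + I * y) * cexp ((x0 + I * y - z) ^ 2 / (4 * τ)) =
      ((Real.pi * (4 * τ) : ℝ) : ℂ) ^ (1 / 2 : ℂ) * L w z := by
  have h0 := int_b hτ hw x0 z
  have h1 : ∀ y : ℝ, L (ew w τ) (x0 + I * y) * cexp ((x0 + I * y - z) ^ 2 / (4 * τ)) =
      ∫ u : ℝ, ((ew w τ u : ℝ) : ℂ) * cexp ((x0 + I * y) * u) *
        cexp ((x0 + I * y - z) ^ 2 / (4 * τ)) := by
    intro y
    rw [integral_mul_const]
    rfl
  simp_rw [h1]
  refine ⟨h0.integral_prod_left, ?_⟩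
  rw [integral_integral_swap h0]
  simp_rw [inner_b hτ]
  rw [integral_const_mul]
  rfl

/-- forward heat flow on any horizontal line -/
theorem forw {τ : ℝ} (hτ : 0 < τ) {w : ℝ → ℝ} (hw0 : Continuous w) (hw : Cl (ew w (2 * τ))) (x0 z : ℂ) :
    Integrable (fun y : ℝ => L w (x0 + y) * cexp (-(x0 + y - z) ^ 2 / (4 * τ))) ∧
    ∫ y : ℝ, L w (x0 + y) * cexp (-(x0 + y - z) ^ 2 / (4 * τ)) =
      ((Real.pi * (4 * τ) : ℝ) : ℂ) ^ (1 / 2 : ℂ) * L (ew w τ) z := by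
  have h0 := int_f hτ hw0 hw x0 z
  have h1 : ∀ y : ℝ, L w (x0 + y) * cexp (-(x0 + y - z) ^ 2 / (4 * τ)) =
      ∫ u : ℝ, ((w u : ℝ) : ℂ) * cexp ((x0 + y) * u) * cexp (-(x0 + y - z) ^ 2 / (4 * τ)) := by
    intro y
    rw [integral_mul_const]
    rfl
  simp_rw [h1]
  refine ⟨h0.integral_prod_left, ?_⟩
  rw [integral_integral_swap h0]
  simp_rw [inner_f hτ]
  rw [integral_const_mul]
  rfl

end Run7.h833.HK
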