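import Pool.Agent.Run7.h833.HfZ

/-!
# The exact horizon for families of L-functions in their own normalisation
-/

set_option autoImplicit false

open Complex Set MeasureTheory intervalIntegral Filter Topology
open scoped ComplexConjugate NNReal ENNReal

namespace Run7.h833

open Pool.Agent.W169.HF
open H353.E H353.F

/-- data with Ramanujan exponent zero are standard -/
lemma std_of_zero {m : ℕ} (hm : 1 ≤ m) {N : ℝ} {μ : Fin m → ℂ} {α : Fin m → ℕ → ℂ} {e : ℂ} {Λ : ℂ → ℂ}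
    (d : DatumT 0 N μ α e Λ) : Std N μ α e Λ := by
  refine ⟨{ one_le := d.one_le
            re_le := d.re_le
            norm_le := fun j p hp => (d.norm_le j p hp).trans ?_
            norm_eq := d.norm_eq
            entire := d.entire
            euler := fun s hs => d.euler s (by linarith)
            fe := d.fe
            bdd := d.bdd }, fun s hs h0 => ?_⟩
  · have : (1 : ℝ) ≤ p := by exact_mod_cast hp.one_le
    exact Real.rpow_le_rpow_of_exponent_le this (by norm_num)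
  · obtain ⟨η, hη⟩ : ∃ η : ℝ, η = min 1 (s.re - 1) := ⟨_, rfl⟩
    have hη0 : 0 < η := by rw [hη]; exact lt_min one_pos (by linarith)
    have hη1 : η ≤ 1 := by rw [hη]; exact min_le_left _ _
    have hη2 : η ≤ s.re - 1 := by rw [hη]; exact min_le_right _ _
    obtain ⟨B, hB, HS⟩ := sharpX m hm (show (0 : ℝ) ≤ 0 by norm_num) (by norm_num) hη0 hη1
    obtain ⟨S, -⟩ := HS N μ α e Λ d
    have h1 := S.lo s (by linarith)
    have h2 : XX N Λ s = 0 := by unfold XX; rw [h0, mul_zero]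
    rw [h2, norm_zero, mul_zero] at h1
    exact S.gp.ne s (by linarith) (norm_le_zero_iff.1 h1)

/-- real zeros beyond the horizon, for small times -/
def RZc {m : ℕ} (P : Cls m) (κ : ℝ) : Prop := ∀ ε : ℝ, 0 < ε → ∃ τ1 C0 : ℝ, 0 < τ1 ∧
  ∀ (N : ℝ) (μ : Fin m → ℂ) (α : Fin m → ℕ → ℂ) (e : ℂ) (Λ : ℂ → ℂ), P N μ α e Λ → Std N μ α e Λ →
  ∀ (t : ℝ) (s : ℂ), 0 < t → t ≤ τ1 → C0 ≤ cnd N μ s.im → κ + ε ≤ t * Real.log (cnd N μ s.im) →
    heat t (XX N Λ) s = 0 → s.re = 1 / 2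

lemma rzc_iff {m : ℕ} (hm : 1 ≤ m) (P : Cls m) (κ : ℝ) : RZc P κ ↔ SH P κ := by
  constructor
  · intro h ε X hε
    obtain ⟨τ1, C0, hτ1, H⟩ := h ε hε
    refine ⟨max C0 (Real.exp (max X 1 / τ1)), ?_⟩
    intro N μ α e Λ hP hS t s ht hC h1 h2 hz
    refine H N μ α e Λ hP hS t s ht ?_ ((le_max_left _ _).trans hC) h1 hz
    have h3 := lt_log ((le_max_right _ _).trans hC)
    rw [div_le_iff₀ hτ1] at h3
    have h4 : 0 < Real.log (cnd N μ s.im) := by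
      by_contra hcon
      push Not at hcon
      have : Real.log (cnd N μ s.im) * τ1 ≤ 0 := mul_nonpos_of_nonpos_of_nonneg hcon hτ1.le
      linarith [le_max_right X 1]
    have h5 : t * Real.log (cnd N μ s.im) ≤ τ1 * Real.log (cnd N μ s.im) := by
      linarith [le_max_left X 1]
    exact le_of_mul_le_mul_right h5 h4
  · intro h ε hε
    obtain ⟨t1, C1, ht1, H1⟩ := aut_local m hm (θ := 1 / 2) (η := 1) (by norm_num) le_rfl one_pos
    obtain ⟨C0, H⟩ := h ε 3 hε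
    refine ⟨t1, max C0 C1, ht1, fun N μ α e Λ hP hS t s ht htt hC h1 hz => ?_⟩
    rcases le_total (t * Real.log (cnd N μ s.im)) 3 with h2 | h2
    · exact H N μ α e Λ hP hS t s ht ((le_max_left _ _).trans hC) h1 h2 hz
    · exact H1 N μ α e Λ hS.1 t s ht htt ((le_max_right _ _).trans hC)
        (by linarith) hz

/-- a family of L-functions of degree `m`, with centre `c i`, completed L-function `Λ i`, finite
L-function `L i` and analytic conductor `C i y` -/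
structure FamL (ι : Type) (m : ℕ) where
  N : ι → ℝ
  μ : ι → Fin m → ℂ
  α : ι → Fin m → ℕ → ℂ
  e : ι → ℂ
  Λ' : ι → ℂ → ℂ
  std : ∀ i, Std (N i) (μ i) (α i) (e i) (Λ' i)
  c : ι → ℝ
  k : ι → ℂ
  hk : ∀ i, k i ≠ 0
  Λ : ι → ℂ → ℂ
  hX : ∀ i s, XX (N i) (Λ' i) s = k i * Λ i (s + ((c i - 1 / 2 : ℝ) : ℂ))
  L : ι → ℂ → ℂ
  hL : ∀ (i : ι) (s : ℂ), 1 / 2 ≤ s.re → ‖LL (μ i) (Λ' i) s‖ = ‖L i (s + ((c i - 1 / 2 : ℝ) : ℂ))‖
  C : ι → ℝ → ℝ
  A : ℝ
  hA : 1 ≤ A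
  C0 : ∀ i y, 0 < C i y
  C1 : ∀ i y, C i y ≤ cnd (N i) (μ i) y
  C2 : ∀ i y, cnd (N i) (μ i) y ≤ A * C i y

namespace FamL

variable {ι : Type} {m : ℕ} (F : FamL ι m)

/-- the class of the family -/
def cls : Cls m := fun N μ α e Λ => ∃ i, N = F.N i ∧ μ = F.μ i ∧ α = F.α i ∧ e = F.e i ∧ Λ = F.Λ' i

/-- real zeros beyond the horizon -/
def Real_ (κ : ℝ) : Prop := ∀ ε : ℝ, 0 < ε → ∃ τ1 C0 : ℝ, 0 < τ1 ∧ ∀ (i : ι) (t : ℝ) (s : ℂ), 0 < t →
  t ≤ τ1 → C0 ≤ F.C i s.im → κ + ε ≤ t * Real.log (F.C i s.im) → heat t (F.Λ i) s = 0 → s.re = F.c i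

/-- zero-free half-planes -/
def Free (κ : ℝ) : Prop := ∀ ε : ℝ, 0 < ε → ∃ C0 : ℝ, ∀ (i : ι) (s : ℂ), C0 ≤ F.C i s.im →
  F.c i + κ + ε ≤ s.re → F.Λ i s ≠ 0

/-- size exponents -/
def Sz (r a : ℝ) : Prop := ∀ ε : ℝ, 0 < ε → ∃ B : ℝ, ∀ (i : ι) (t : ℝ),
  ‖F.L i (F.c i + (r : ℂ) + (t : ℂ) * I)‖ ≤ B * F.C i t ^ (a + ε)

lemma heat_iff (i : ι) (t : ℝ) (s : ℂ) : heat t (XX (F.N i) (F.Λ' i)) s = 0 ↔
    heat t (F.Λ i) (s + ((F.c i - 1 / 2 : ℝ) : ℂ)) = 0 := by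
  have e : XX (F.N i) (F.Λ' i) = fun s => F.k i * (fun z => F.Λ i (z + ((F.c i - 1 / 2 : ℝ) : ℂ))) s := by
    funext s
    rw [F.hX]
  rw [e, heat_mul, heat_shift]
  constructor
  · intro h
    exact (mul_eq_zero.1 h).resolve_left (F.hk i)
  · intro h
    rw [h, mul_zero]

lemma zero_iff (i : ι) (s : ℂ) : F.Λ' i s = 0 ↔ F.Λ i (s + ((F.c i - 1 / 2 : ℝ) : ℂ)) = 0 := by
  have h1 := F.hX i s
  have hN : (F.N i : ℂ) ≠ 0 := by
    have := (F.std i).1.one_le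
    exact_mod_cast (by linarith : F.N i ≠ 0)
  have h2 : ((F.N i : ℂ)) ^ (s / 2) ≠ 0 := by
    rw [Ne, Complex.cpow_eq_zero_iff]
    exact fun h => hN h.1
  unfold XX at h1
  constructor
  · intro h
    rw [h, mul_zero] at h1
    exact (mul_eq_zero.1 h1.symm).resolve_left (F.hk i)
  · intro h
    rw [h, mul_zero] at h1
    exact (mul_eq_zero.1 h1).resolve_left h2

lemma logs (i : ι) (y : ℝ) : Real.log (F.C i y) ≤ Real.log (cnd (F.N i) (F.μ i) y) ∧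
    Real.log (cnd (F.N i) (F.μ i) y) ≤ Real.log F.A + Real.log (F.C i y) := by
  have h0 := F.C0 i y
  have hA := F.hA
  refine ⟨Real.log_le_log h0 (F.C1 i y), ?_⟩
  rw [← Real.log_mul (by linarith) h0.ne']
  exact Real.log_le_log (h0.trans_le (F.C1 i y)) (F.C2 i y)

lemma real_iff (κ : ℝ) : F.Real_ κ ↔ RZc F.cls κ := by
  have hA := F.hA
  have hlA : 0 ≤ Real.log F.A := Real.log_nonneg hA
  constructor
  · intro h ε hε
    obtain ⟨τ1, C0, hτ1, H⟩ := h (ε / 2) (by positivity)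
    refine ⟨min τ1 (ε / (2 * (Real.log F.A + 1))), F.A * C0, lt_min hτ1 (by positivity), ?_⟩
    rintro N μ α e Λ ⟨i, rfl, rfl, rfl, rfl, rfl⟩ _ t s ht htt hC h1 hz
    have hlog := F.logs i s.im
    have h2 : t ≤ ε / (2 * (Real.log F.A + 1)) := htt.trans (min_le_right _ _)
    rw [le_div_iff₀ (by positivity)] at h2
    have h3 : t * Real.log (cnd (F.N i) (F.μ i) s.im) ≤ t * (Real.log F.A + Real.log (F.C i s.im)) :=
      mul_le_mul_of_nonneg_left hlog.2 ht.le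
    have e1 : (s + ((F.c i - 1 / 2 : ℝ) : ℂ)).im = s.im := by simp
    have h4 := H i t (s + ((F.c i - 1 / 2 : ℝ) : ℂ)) ht (htt.trans (min_le_left _ _))
      (by
        rw [e1]
        exact le_of_mul_le_mul_left (hC.trans (F.C2 i s.im)) (by linarith))
      (by rw [e1]; nlinarith) ((F.heat_iff i t s).1 hz)
    have e2 : (s + ((F.c i - 1 / 2 : ℝ) : ℂ)).re = s.re + (F.c i - 1 / 2) := by simp
    rw [e2] at h4
    linarith
  · intro h ε hε
    obtain ⟨τ1, C0, hτ1, H⟩ := h ε hε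
    refine ⟨τ1, C0, hτ1, fun i t s ht htt hC h1 hz => ?_⟩
    have e1 : (s - ((F.c i - 1 / 2 : ℝ) : ℂ)).im = s.im := by simp
    have hlog := F.logs i s.im
    have h2 := mul_le_mul_of_nonneg_left hlog.1 ht.le
    have h4 := H (F.N i) (F.μ i) (F.α i) (F.e i) (F.Λ' i) ⟨i, rfl, rfl, rfl, rfl, rfl⟩ (F.std i) t
      (s - ((F.c i - 1 / 2 : ℝ) : ℂ)) ht htt (by rw [e1]; exact hC.trans (F.C1 i s.im))
      (by rw [e1]; linarith) ((F.heat_iff i t _).2 (by rw [sub_add_cancel]; exact hz))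
    have e2 : (s - ((F.c i - 1 / 2 : ℝ) : ℂ)).re = s.re - (F.c i - 1 / 2) := by simp
    rw [e2] at h4
    linarith

lemma free_iff (κ : ℝ) : F.Free κ ↔ ZF F.cls κ := by
  have hA := F.hA
  constructor
  · intro h ε hε
    obtain ⟨C0, H⟩ := h ε hε
    refine ⟨F.A * C0, ?_⟩
    rintro N μ α e Λ ⟨i, rfl, rfl, rfl, rfl, rfl⟩ _ s hC hs
    have e1 : (s + ((F.c i - 1 / 2 : ℝ) : ℂ)).im = s.im := by simp
    have e2 : (s + ((F.c i - 1 / 2 : ℝ) : ℂ)).re = s.re + (F.c i - 1 / 2) := by simp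
    rw [Ne, F.zero_iff]
    refine H i _ ?_ (by rw [e2]; linarith)
    rw [e1]
    exact le_of_mul_le_mul_left (hC.trans (F.C2 i s.im)) (by linarith)
  · intro h ε hε
    obtain ⟨C0, H⟩ := h ε hε
    refine ⟨C0, fun i s hC hs => ?_⟩
    have e1 : (s - ((F.c i - 1 / 2 : ℝ) : ℂ)).im = s.im := by simp
    have e2 : (s - ((F.c i - 1 / 2 : ℝ) : ℂ)).re = s.re - (F.c i - 1 / 2) := by simp
    have h4 := H (F.N i) (F.μ i) (F.α i) (F.e i) (F.Λ' i) ⟨i, rfl, rfl, rfl, rfl, rfl⟩ (F.std i)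
      (s - ((F.c i - 1 / 2 : ℝ) : ℂ)) (by rw [e1]; exact hC.trans (F.C1 i s.im)) (by rw [e2]; linarith)
    rw [Ne, F.zero_iff, sub_add_cancel] at h4
    exact h4

lemma sz_iff {r a : ℝ} (hr : 0 ≤ r) (ha : 0 ≤ a) : F.Sz r a ↔ SEr F.cls r a := by
  have hA := F.hA
  have hlA : 0 ≤ Real.log F.A := Real.log_nonneg hA
  have hpt : ∀ (i : ι) (y : ℝ), ‖LL (F.μ i) (F.Λ' i) (1 / 2 + (r : ℂ) + (y : ℂ) * I)‖ =
      ‖F.L i (F.c i + (r : ℂ) + (y : ℂ) * I)‖ := fun i y => by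
    have h1 := F.hL i (1 / 2 + (r : ℂ) + (y : ℂ) * I) (by simp; linarith)
    have e : (1 / 2 + (r : ℂ) + (y : ℂ) * I + ((F.c i - 1 / 2 : ℝ) : ℂ) : ℂ) =
        F.c i + (r : ℂ) + (y : ℂ) * I := by
      push_cast
      ring
    rw [e] at h1
    exact h1
  constructor
  · intro h ε hε
    obtain ⟨B, HB⟩ := h ε hε
    refine ⟨Real.log (max B 1), ?_⟩
    rintro N μ α e Λ ⟨i, rfl, rfl, rfl, rfl, rfl⟩ _ y
    rw [hpt]
    have hB : 0 < max B 1 := lt_max_of_lt_right one_pos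
    have h0 := F.C0 i y
    have hlog := F.logs i y
    refine (HB i y).trans ?_
    rw [Real.exp_add, Real.exp_log hB, Real.rpow_def_of_pos h0]
    refine mul_le_mul (le_max_left _ _) (Real.exp_le_exp.2 ?_) (Real.exp_pos _).le hB.le
    have := mul_le_mul_of_nonneg_left hlog.1 (by positivity : 0 ≤ a + ε)
    linarith
  · intro h ε hε
    obtain ⟨B, HB⟩ := h ε hε
    refine ⟨Real.exp (B + (a + ε) * Real.log F.A), fun i y => ?_⟩
    have h2 := HB (F.N i) (F.μ i) (F.α i) (F.e i) (F.Λ' i) ⟨i, rfl, rfl, rfl, rfl, rfl⟩ (F.std i) y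
    rw [hpt] at h2
    refine h2.trans ?_
    have h0 := F.C0 i y
    have hlog := F.logs i y
    rw [Real.rpow_def_of_pos h0, ← Real.exp_add]
    apply Real.exp_le_exp.2
    have := mul_le_mul_of_nonneg_left hlog.2 (by positivity : 0 ≤ a + ε)
    linarith

/-- **The exact horizon for families.** -/
theorem horizon (hm : 1 ≤ m) : (∀ κ : ℝ, 0 < κ → (F.Real_ κ ↔ F.Free κ ∧
      ∀ r : ℝ, 0 ≤ r → r ≤ 1 / 2 → F.Sz r (max (κ - r) 0 ^ 2 / (4 * κ)))) ∧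
    (F.Sz 0 0 → ∀ κ : ℝ, 0 ≤ κ → (F.Real_ κ ↔ F.Free κ)) ∧
    (∀ v a : ℝ, 0 < v → v ≤ 1 / 2 → 0 ≤ a → a ≤ v / 2 → F.Free v → F.Sz 0 a →
      F.Real_ (v ^ 2 / (v - a))) ∧ F.Real_ 1 := by
  refine ⟨fun κ hκ => ?_, fun h κ hκ => ?_, fun v a hv hv1 ha hav hZ hS => ?_, ?_⟩
  · rw [F.real_iff, rzc_iff hm, F.free_iff, sh_iff hm hκ]
    refine and_congr Iff.rfl (forall_congr' fun r => forall_congr' fun hr => forall_congr' fun _ => ?_)
    exact (F.sz_iff hr (by positivity)).symm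
  · rw [F.real_iff, rzc_iff hm, F.free_iff]
    exact sh_zf_iff hm (ser0.1 ((F.sz_iff le_rfl le_rfl).1 h)) hκ
  · rw [F.real_iff, rzc_iff hm]
    refine zf_se_sh hm hv hv1 ha (by linarith) ((F.free_iff v).1 hZ) ?_
    exact ser0.1 ((F.sz_iff le_rfl ha).1 hS)
  · rw [F.real_iff, rzc_iff hm]
    exact sh_one hm

end FamL

end Run7.h833
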