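import Pool.Agent.Run7.h833.JLc

set_option autoImplicit false

/-!
# No zeros of `XT τ` off the line at height `T` once `2 τ Om T > x`,
# if `XX` has no zeros to the right of `x` and its growth is at most `phx x`
-/

namespace Run7.h833

open Complex Filter Topology MeasureTheory Set
open Pool.Agent.H24R2.JP (XX HH Om)
open Pool.Agent.H986R2.DBN (JT XT)
open Pool.Agent.W186.HZ
open Pool.Agent.W186.SN (UB)
open Pool.Agent.W186.LH (phx jug)

/-- the basic comparison -/
lemma cmpx {x x' s r c : ℝ} (hx : 0 < x) (hc : 0 ≤ c) (hs : -c ≤ s) (h : x + 2 * c ≤ x') (hr : 0 ≤ r) :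
    max (x - r) 0 ^ 2 / (2 * x) ≤ (x' + s - r) ^ 2 / (2 * x') := by
  have hx' : 0 < x' := by linarith
  rcases le_total (x - r) 0 with h1 | h1
  · rw [max_eq_right h1]
    simp only [ne_eq, OfNat.ofNat_ne_zero, not_false_eq_true, zero_pow, zero_div]
    positivity
  · rw [max_eq_left h1]
    rw [div_le_div_iff₀ (by positivity) (by positivity)]
    obtain ⟨q, hq⟩ : ∃ q : ℝ, q = x' + s := ⟨_, rfl⟩
    rw [← hq]
    have hqx : x ≤ q := by rw [hq]; linarith
    have hq0 : 0 < q := by linarith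
    -- (q - r) x >= (x - r) q
    have h2 : (x - r) * q ≤ (q - r) * x := by nlinarith
    have h3 : ((x - r) * q) ^ 2 ≤ ((q - r) * x) ^ 2 := pow_le_pow_left₀ (mul_nonneg h1 hq0.le) h2 2
    -- q^2 >= x x'
    have h4 : x * x' ≤ q ^ 2 := by
      have h5 : x' - c ≤ q := by rw [hq]; linarith
      have h6 : (x' - c) ^ 2 ≤ q ^ 2 := pow_le_pow_left₀ (by linarith) h5 2
      nlinarith
    have h7 : (x - r) ^ 2 * (x * x') ≤ (x - r) ^ 2 * q ^ 2 := mul_le_mul_of_nonneg_left h4 (sq_nonneg _)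
    have h8 : (x - r) ^ 2 * x' * x ≤ (q - r) ^ 2 * x * x := by nlinarith
    have h9 := le_of_mul_le_mul_right h8 hx
    linarith

/-- the quantitative comparison away from the saddle point -/
lemma cmpg {x x' s r c a1 X : ℝ} (hx : 0 < x) (hc : 0 ≤ c) (hs : -c ≤ s) (h : x + 2 * c ≤ x') (hX : x' ≤ X)
    (ha : a1 ≤ |r - (s + x')|) (ha0 : 0 ≤ a1) (hr : 0 ≤ r) :
    min (a1 ^ 2 / (2 * X)) ((x' - x) ^ 2 / (2 * X) - c) ≤
      (x' + s - r) ^ 2 / (2 * x') - max (x - r) 0 ^ 2 / (2 * x) := by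
  have hx' : 0 < x' := by linarith
  rcases le_total (x - r) 0 with h1 | h1
  · rw [max_eq_right h1]
    refine (min_le_left _ _).trans ?_
    have h2 : a1 ^ 2 ≤ (x' + s - r) ^ 2 := by
      have h3 : |r - (s + x')| ^ 2 = (x' + s - r) ^ 2 := by rw [sq_abs]; ring
      rw [← h3]
      exact pow_le_pow_left₀ ha0 ha 2
    have h4 : a1 ^ 2 / (2 * X) ≤ (x' + s - r) ^ 2 / (2 * x') :=
      div_le_div₀ (sq_nonneg _) h2 (by positivity) (by linarith)
    simp only [ne_eq, OfNat.ofNat_ne_zero, not_false_eq_true, zero_pow, zero_div, sub_zero]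
    exact h4
  · rw [max_eq_left h1]
    refine (min_le_right _ _).trans ?_
    have hrx : r ≤ x := by linarith
    have h2 : (x' - r) ^ 2 - 2 * c * x' ≤ (x' + s - r) ^ 2 := by
      have h3 : (x' - c - r) ^ 2 ≤ (x' + s - r) ^ 2 :=
        pow_le_pow_left₀ (by linarith) (by linarith) 2
      nlinarith
    have h3 : (x' - r) ^ 2 / (2 * x') - c ≤ (x' + s - r) ^ 2 / (2 * x') := by
      rw [sub_le_iff_le_add, div_add' _ _ _ (by positivity)]
      apply div_le_div_of_nonneg_right _ (by positivity)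
      linarith
    have h4 : (x' - x) ^ 2 / (2 * X) ≤ (x' - r) ^ 2 / (2 * x') - (x - r) ^ 2 / (2 * x) := by
      have h5 : (x' - r) ^ 2 / (2 * x') - (x - r) ^ 2 / (2 * x) = (x' - x) * (x * x' - r ^ 2) / (2 * x * x') := by
        field_simp
        ring
      rw [h5]
      have h6 : (x' - x) ^ 2 / (2 * X) ≤ (x' - x) ^ 2 / (2 * x') :=
        div_le_div_of_nonneg_left (sq_nonneg _) (by positivity) (by linarith)
      refine h6.trans ?_
      rw [div_le_div_iff₀ (by positivity) (by positivity)]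
      have h7 : x * (x' - x) ≤ x * x' - r ^ 2 := by nlinarith
      have h8 : 0 ≤ x' - x := by linarith
      have h9 : (x' - x) * (x * (x' - x)) ≤ (x' - x) * (x * x' - r ^ 2) := mul_le_mul_of_nonneg_left h7 h8
      have h10 : (x' - x) * (x * (x' - x)) * (2 * x') ≤ (x' - x) * (x * x' - r ^ 2) * (2 * x') :=
        mul_le_mul_of_nonneg_right h9 (by positivity)
      calc (x' - x) ^ 2 * (2 * x * x') = (x' - x) * (x * (x' - x)) * (2 * x') := by ring
        _ ≤ _ := h10
    linarith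

theorem fwdx {x y : ℝ} (hx : 0 < x) (hy0 : 0 ≤ y) (hyx : y ≤ x) (h : CT y) (hφ : UB (phx x)) (m X : ℝ)
    (hm : x < m) (hX : m ≤ X) :
    ∃ T0 : ℝ, 400 ≤ T0 ∧ ∀ T τ : ℝ, T0 ≤ T → 0 < τ → m ≤ 2 * τ * Om T → 2 * τ * Om T ≤ X →
      ∀ σ : ℝ, 0 < σ → σ ≤ 1 / 2 → XT τ (σ + I * T) ≠ 0 := by
  have hm0 : 0 < m := by linarith
  have hXp : 0 < X := by linarith
  obtain ⟨g, hg⟩ : ∃ g : ℝ, g = (m - x) / 2 := ⟨_, rfl⟩
  have hg0 : 0 < g := by rw [hg]; linarith
  have hgm : m = x + 2 * g := by rw [hg]; ring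
  obtain ⟨a1, ha1⟩ : ∃ a1 : ℝ, a1 = min (g / 2) (1 / 2) / 5 * (3 / 4) := ⟨_, rfl⟩
  have hmin0 : 0 < min (g / 2) ((1 : ℝ) / 2) := lt_min (by linarith) (by norm_num)
  have ha10 : 0 < a1 := by rw [ha1]; positivity
  obtain ⟨κ, hκ⟩ : ∃ κ : ℝ, κ = min (min (a1 ^ 2 / (2 * X)) (g ^ 2 / X)) 1 := ⟨_, rfl⟩
  have hκ0 : 0 < κ := by rw [hκ]; exact lt_min (lt_min (by positivity) (by positivity)) one_pos
  have hκ1 : κ ≤ a1 ^ 2 / (2 * X) := by rw [hκ]; exact (min_le_left _ _).trans (min_le_left _ _)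
  have hκ2 : κ ≤ g ^ 2 / X := by rw [hκ]; exact (min_le_left _ _).trans (min_le_right _ _)
  have hκ3 : κ ≤ 1 := by rw [hκ]; exact min_le_right _ _
  obtain ⟨c, hc0, hc1, hjl⟩ := jlc hy0 h hφ m X 1 g κ hm0 hX (by norm_num) hg0 hκ0 hκ3
  obtain ⟨c1, hc1d⟩ : ∃ c1 : ℝ, c1 = min (min c (g / 2)) (min (m / 4) (g ^ 2 / X)) := ⟨_, rfl⟩
  have hc10 : 0 < c1 := by
    rw [hc1d]; exact lt_min (lt_min hc0 (by linarith)) (lt_min (by linarith) (by positivity))
  have hc1a : c1 ≤ c := by rw [hc1d]; exact (min_le_left _ _).trans (min_le_left _ _)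
  have hc1b : c1 ≤ g / 2 := by rw [hc1d]; exact (min_le_left _ _).trans (min_le_right _ _)
  have hc1c : c1 ≤ m / 4 := by rw [hc1d]; exact (min_le_right _ _).trans (min_le_left _ _)
  have hc1e : c1 ≤ g ^ 2 / X := by rw [hc1d]; exact (min_le_right _ _).trans (min_le_right _ _)
  obtain ⟨δ, hδ⟩ : ∃ δ : ℝ, δ = c1 / 32 := ⟨_, rfl⟩
  have hδ0 : 0 < δ := by rw [hδ]; positivity
  obtain ⟨T1, hT1, hl⟩ := hjl δ hδ0
  obtain ⟨T2, hT2, hu⟩ := jug hφ m X 1 δ hm0 hX (by norm_num) hδ0
  obtain ⟨T3, hT3, hJd⟩ := JT_diff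
  obtain ⟨T4, hT4, hO⟩ := Om_large (4 * X + 1)
  refine ⟨max (max T1 T2) (max T3 T4), hT1.trans ((le_max_left _ _).trans (le_max_left _ _)), ?_⟩
  intro T τ hT hτ h1 h2 σ hσ0 hσ1 hz
  have g1 : T1 ≤ T := ((le_max_left _ _).trans (le_max_left _ _)).trans hT
  have g2 : T2 ≤ T := ((le_max_right _ _).trans (le_max_left _ _)).trans hT
  have g3 : T3 ≤ T := ((le_max_left _ _).trans (le_max_right _ _)).trans hT
  have g4 : T4 ≤ T := ((le_max_right _ _).trans (le_max_right _ _)).trans hT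
  have hOm := hO T g4
  have hTp : 0 < T := by linarith
  have heq := Pool.Agent.H986R2.DBN.Hnz.norm_JT_eq Pool.Agent.H986R2.DBN.heat Pool.Agent.H24R2.JP.b1 τ T σ hτ hz
  obtain ⟨L, hL⟩ : ∃ L : ℝ, L = Om T := ⟨_, rfl⟩
  have hl' := fun a => hl T τ g1 hτ h1 h2 a
  have hu' := fun a => hu T τ g2 hτ h1 h2 a
  rw [← hL] at h1 h2 hOm
  simp only [← hL] at hl' hu'
  obtain ⟨H, hH⟩ : ∃ H : ℝ, H = ‖HH (I * T)‖ := ⟨_, rfl⟩
  have hHp : 0 < H := by
    have h0 : HH (I * T) ≠ 0 := by
      apply Pool.Agent.H24R2.JP.StirAux.HH_ne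
      simpa using hTp
    rw [hH]; exact norm_pos_iff.2 h0
  simp only [← hH] at hl' hu'
  have hLp : 0 < L := by linarith
  have hτ8 : τ ≤ 1 / 8 := by
    by_contra hcon
    push Not at hcon
    have : 1 / 8 * L ≤ τ * L := by gcongr
    linarith only [this, h2, hOm, hm0, hX]
  have hJd' := fun a => (hJd T τ g3 hτ hτ8 a).2
  have h2τ : 0 < 2 * τ := by positivity
  obtain ⟨x', hx'⟩ : ∃ x' : ℝ, x' = 2 * τ * L := ⟨_, rfl⟩
  have hx'0 : 0 < x' := by rw [hx']; positivity
  have h1' : m ≤ x' := by rw [hx']; exact h1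
  have h2' : x' ≤ X := by rw [hx']; exact h2
  have hoff : ∀ s : ℝ, -c1 ≤ s → ∀ r : ℝ, 0 ≤ r → min (g / 2) (1 / 2) / 5 * (3 / 4) ≤ |r - (s + 2 * τ * L)| →
      phx x r - (r - s) ^ 2 / (2 * (2 * τ * L)) ≤ s + 2 * τ * L / 2 - κ := by
    intro s hs r hr hd
    rw [← ha1, ← hx'] at hd
    rw [← hx']
    have h3 := cmpg (x := x) (x' := x') (s := s) (r := r) (c := c1) (a1 := a1) (X := X) hx hc10.le hs
      (by linarith only [h1', hgm, hc1b, hg0]) h2' hd ha10.le hr
    have h4 : κ ≤ min (a1 ^ 2 / (2 * X)) ((x' - x) ^ 2 / (2 * X) - c1) := by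
      apply le_min hκ1
      have h5 : 2 * g ^ 2 / X ≤ (x' - x) ^ 2 / (2 * X) := by
        rw [div_le_div_iff₀ hXp (by positivity)]
        have h6 : (2 * g) ^ 2 ≤ (x' - x) ^ 2 := pow_le_pow_left₀ (by positivity) (by linarith only [h1', hgm]) 2
        have h7 : (2 * g) ^ 2 * X ≤ (x' - x) ^ 2 * X := mul_le_mul_of_nonneg_right h6 hXp.le
        linarith only [h7]
      have h8 : 2 * g ^ 2 / X = g ^ 2 / X + g ^ 2 / X := by ring
      linarith only [h5, h8, hκ2, hc1e]
    have h5 : phx x r - (r - s) ^ 2 / (2 * x') = s + x' / 2 -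
        ((x' + s - r) ^ 2 / (2 * x') - max (x - r) 0 ^ 2 / (2 * x)) := by
      unfold phx
      field_simp
      ring
    rw [h5]
    linarith only [h3, h4]
  have hone : 0 < (1 : ℝ) := one_pos
  clear hl hu hjl hJd hO hz
  rcases le_or_gt (c1 / 2) σ with hσc | hσc
  · -- far from the line
    have e1 : 2 * τ * (((σ / (2 * τ) : ℝ) : ℂ)).re = σ := by
      rw [Complex.ofReal_re]; field_simp
    have e2 : 2 * τ * (((σ / (2 * τ) : ℝ) : ℂ)).im = 0 := by
      rw [Complex.ofReal_im, mul_zero]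
    have a1' := hl' ((σ / (2 * τ) : ℝ) : ℂ) (by rw [e1]; linarith only [hσ1])
      (by rw [e1]; linarith only [h1, hm0, hσ0])
      (by rw [e1]; linarith only [h1, hgm, hσ0, hg0, hyx]) (by rw [e2, abs_zero]; exact hc0.le)
      (by rw [e1]; exact hoff σ (by linarith only [hσ0, hc10]))
    obtain ⟨α, hα⟩ : ∃ α : ℝ, α = σ / (2 * τ) := ⟨_, rfl⟩
    rw [← hα] at a1' heq
    have hα0 : 0 < α := by rw [hα]; positivity
    have hτα : 2 * τ * α = σ := by rw [hα]; field_simp
    have hσx : σ = α / L * x' := by rw [hx', ← hτα]; field_simp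
    have a2 := hu' (-(α : ℂ)) (by
      rw [Complex.neg_re, Complex.ofReal_re, mul_neg, hτα]; linarith only [hσ0])
      (L * max (x / 2) ((x' - σ) ^ 2 / (2 * x'))) (by
        apply mul_nonneg hLp.le
        exact (by positivity : (0 : ℝ) ≤ x / 2).trans (le_max_left _ _)) (by
      intro r hr
      rw [Complex.neg_re, Complex.ofReal_re]
      have e3 : -(r ^ 2 / (4 * τ)) + -α * r + L * phx x r =
          L * (-(r ^ 2 / (2 * x')) - σ * r / x' + phx x r) := by
        rw [hσx, hx']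
        field_simp
        ring
      rw [e3]
      apply mul_le_mul_of_nonneg_left _ hLp.le
      unfold phx
      rcases le_total x r with h3 | h3
      · rw [max_eq_right (by linarith only [h3] : x - r ≤ 0)]
        refine le_trans ?_ (le_max_right _ _)
        have e4 : (x' - σ) ^ 2 / (2 * x') - (-(r ^ 2 / (2 * x')) - σ * r / x' + (r + 0 ^ 2 / (2 * x))) =
            (x' - σ - r) ^ 2 / (2 * x') := by
          field_simp
          ring
        have e5 : 0 ≤ (x' - σ - r) ^ 2 / (2 * x') := by positivity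
        linarith only [e4, e5]
      · rw [max_eq_left (by linarith only [h3] : 0 ≤ x - r)]
        -- convex in r: between the values at 0 and x
        have e4 : -(r ^ 2 / (2 * x')) - σ * r / x' + (r + (x - r) ^ 2 / (2 * x)) =
            (1 - r / x) * (x / 2) + r / x * (x - σ * x / x' - x ^ 2 / (2 * x')) -
              r * (x - r) * (1 / (2 * x) - 1 / (2 * x')) := by
          field_simp
          ring
        have e5 : x - σ * x / x' - x ^ 2 / (2 * x') ≤ (x' - σ) ^ 2 / (2 * x') := by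
          have e6 : (x' - σ) ^ 2 / (2 * x') - (x - σ * x / x' - x ^ 2 / (2 * x')) =
            (x' - σ - x) ^ 2 / (2 * x') := by
            field_simp
            ring
          have e7 : 0 ≤ (x' - σ - x) ^ 2 / (2 * x') := by positivity
          linarith only [e6, e7]
        have e6 : 0 ≤ r * (x - r) * (1 / (2 * x) - 1 / (2 * x')) := by
          apply mul_nonneg (mul_nonneg hr (by linarith only [h3]))
          have : 1 / (2 * x') ≤ 1 / (2 * x) := by
            apply one_div_le_one_div_of_le (by positivity)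
            linarith only [h1', hm]
          linarith only [this]
        have e7 : 0 ≤ r / x := by positivity
        have e8 : r / x ≤ 1 := by rw [div_le_one hx]; exact h3
        obtain ⟨Mx, hMx⟩ : ∃ Mx : ℝ, Mx = max (x / 2) ((x' - σ) ^ 2 / (2 * x')) := ⟨_, rfl⟩
        rw [← hMx]
        have e9 : (1 - r / x) * (x / 2) ≤ (1 - r / x) * Mx :=
          mul_le_mul_of_nonneg_left (by rw [hMx]; exact le_max_left _ _) (by linarith only [e8])
        have e10 : r / x * (x - σ * x / x' - x ^ 2 / (2 * x')) ≤ r / x * Mx :=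
          mul_le_mul_of_nonneg_left (by rw [hMx]; exact e5.trans (le_max_right _ _)) e7
        rw [e4]
        linarith only [e6, e9, e10])
    rw [heq] at a1'
    have a3 := le_of_mul_le_mul_right (a1'.trans a2) hHp
    rw [Real.exp_le_exp, Complex.ofReal_im, Complex.ofReal_re] at a3
    have a4 : τ * ((L + α) ^ 2 - 0 ^ 2) = L * ((x' + σ) ^ 2 / (2 * x')) := by
      rw [hσx, hx']
      field_simp
      ring
    rw [a4] at a3
    have a5 : L * ((x' + σ) ^ 2 / (2 * x')) ≤ L * (max (x / 2) ((x' - σ) ^ 2 / (2 * x')) + 2 * δ) := by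
      linarith only [a3]
    have a6 := le_of_mul_le_mul_left a5 hLp
    have a7 : (x' + σ) ^ 2 / (2 * x') = (x' - σ) ^ 2 / (2 * x') + 2 * σ := by
      field_simp
      ring
    have a8 : x' / 2 + σ ≤ (x' + σ) ^ 2 / (2 * x') := by
      have e4 : (x' + σ) ^ 2 / (2 * x') = x' / 2 + σ + σ ^ 2 / (2 * x') := by
        field_simp
        ring
      have e5 : 0 ≤ σ ^ 2 / (2 * x') := by positivity
      linarith only [e4, e5]
    rcases max_cases (x / 2) ((x' - σ) ^ 2 / (2 * x')) with ⟨hmx, -⟩ | ⟨hmx, -⟩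
    · rw [hmx] at a6
      linarith only [a6, a8, h1', hm, hδ, hσc, hc10]
    · rw [hmx] at a6
      linarith only [a6, a7, hδ, hσc, hc10]
  · -- near the line
    obtain ⟨r, hr⟩ : ∃ r : ℝ, r = c1 / (2 * τ) := ⟨_, rfl⟩
    have hr0 : 0 < r := by rw [hr]; positivity
    have hτr : 2 * τ * r = c1 := by rw [hr]; field_simp
    have hball : ∀ z ∈ Metric.ball (0 : ℂ) r, |2 * τ * z.re| ≤ c1 ∧ |2 * τ * z.im| ≤ c1 := by
      intro z hz
      rw [mem_ball_zero_iff] at hz
      constructor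
      · rw [abs_mul, abs_of_pos h2τ, ← hτr]
        exact mul_le_mul_of_nonneg_left ((Complex.abs_re_le_norm z).trans hz.le) h2τ.le
      · rw [abs_mul, abs_of_pos h2τ, ← hτr]
        exact mul_le_mul_of_nonneg_left ((Complex.abs_im_le_norm z).trans hz.le) h2τ.le
    have hlow : ∀ z ∈ Metric.ball (0 : ℂ) r,
        Real.exp (τ * ((L + z.re) ^ 2 - z.im ^ 2) - δ * L) * H ≤ ‖JT τ T z‖ := by
      intro z hz
      obtain ⟨b1, b2⟩ := hball z hz
      have b1' := abs_le.1 b1
      refine hl' z ?_ ?_ ?_ (b2.trans hc1a) (hoff _ b1'.1)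
      · linarith only [b1'.2, hc1a, hc1]
      · linarith only [b1'.1, h1, hm0, hc1c]
      · linarith only [b1'.1, h1, hgm, hc1b, hyx, hg0]
    have hne : ∀ z ∈ Metric.ball (0 : ℂ) r, JT τ T z ≠ 0 := by
      intro z hz
      have := hlow z hz
      exact norm_pos_iff.1 (lt_of_lt_of_le (by positivity) this)
    have hup : ∀ z ∈ Metric.ball (0 : ℂ) r, ‖JT τ T z‖ ≤ Real.exp (τ * (L + z.re) ^ 2 + δ * L) * H := by
      intro z hz
      obtain ⟨b1, b2⟩ := hball z hz
      have b1' := abs_le.1 b1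
      refine hu' z (by linarith only [b1'.2, hc1a, hc1]) (τ * (L + z.re) ^ 2) (by positivity) ?_
      intro r' hr'
      obtain ⟨s, hs⟩ : ∃ s : ℝ, s = 2 * τ * z.re := ⟨_, rfl⟩
      have hsx : z.re = s / (2 * τ) := by rw [hs]; field_simp
      have h3 := cmpx (x := x) (x' := x') (s := s) (r := r') (c := c1) hx hc10.le (by rw [hs]; exact b1'.1)
        (by linarith only [h1', hgm, hc1b, hg0]) hr'
      have e3 : -(r' ^ 2 / (4 * τ)) + z.re * r' + L * phx x r' =
          τ * (L + z.re) ^ 2 - L * ((x' + s - r') ^ 2 / (2 * x') - max (x - r') 0 ^ 2 / (2 * x)) := by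
        unfold phx
        rw [hsx, hx']
        field_simp
        ring
      rw [e3]
      have h4 : 0 ≤ L * ((x' + s - r') ^ 2 / (2 * x') - max (x - r') 0 ^ 2 / (2 * x)) :=
        mul_nonneg hLp.le (by linarith only [h3])
      linarith only [h4]
    refine compare (J := JT τ T) (A := 4 * τ * L) (M := 2 * δ * L + c1 ^ 2 / (4 * τ)) (a := σ / (2 * τ)) hr0
      (by positivity) (fun z _ => hJd' z) hne ?_ (by positivity) ?_ ?_ heq
    · intro z hz
      have hz' : -z ∈ Metric.ball (0 : ℂ) r := by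
        rw [mem_ball_zero_iff] at hz ⊢
        rwa [norm_neg]
      have q1 := hup z hz
      have q2 := hlow (-z) hz'
      rw [Complex.neg_re, Complex.neg_im] at q2
      have q3 : τ * z.im ^ 2 ≤ c1 ^ 2 / (4 * τ) := by
        rw [le_div_iff₀ (by positivity)]
        have := (hball z hz).2
        have q4 : (2 * τ * z.im) ^ 2 ≤ c1 ^ 2 := by
          rw [← sq_abs]; gcongr
        linarith only [q4]
      calc ‖JT τ T z‖ ≤ Real.exp (τ * (L + z.re) ^ 2 + δ * L) * H := q1
        _ ≤ Real.exp ((4 * τ * L * z.re + (2 * δ * L + c1 ^ 2 / (4 * τ))) +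
              (τ * ((L + -z.re) ^ 2 - (-z.im) ^ 2) - δ * L)) * H := by
            have : τ * (L + z.re) ^ 2 + δ * L ≤ (4 * τ * L * z.re + (2 * δ * L + c1 ^ 2 / (4 * τ))) +
              (τ * ((L + -z.re) ^ 2 - (-z.im) ^ 2) - δ * L) := by
              have e : τ * ((L + -z.re) ^ 2 - (-z.im) ^ 2) = τ * (L + z.re) ^ 2 - 4 * τ * L * z.re - τ * z.im ^ 2 := by
                ring
              rw [e]
              linarith only [q3]
            gcongr
        _ = Real.exp (4 * τ * L * z.re + (2 * δ * L + c1 ^ 2 / (4 * τ))) *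
              (Real.exp (τ * ((L + -z.re) ^ 2 - (-z.im) ^ 2) - δ * L) * H) := by
            rw [Real.exp_add (4 * τ * L * z.re + (2 * δ * L + c1 ^ 2 / (4 * τ))), mul_assoc]
        _ ≤ _ := by gcongr
    · rw [hr, div_div, div_le_div_iff₀ (by positivity) (by positivity)]
      have : σ * (2 * τ * 2) ≤ c1 / 2 * (2 * τ * 2) := by gcongr
      linarith only [this]
    · have q1 : 4 * τ * L * r = 2 * (L * c1) := by rw [← hτr]; ring
      rw [q1]
      have q2 : c1 ^ 2 / (4 * τ) ≤ L * c1 / 8 := by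
        refine (inv_le hτ hm0 h1 (by positivity)).trans ?_
        rw [div_le_div_iff₀ (by positivity) (by norm_num)]
        have : c1 * L * c1 ≤ c1 * L * (m / 4) := mul_le_mul_of_nonneg_left hc1c (by positivity)
        linarith only [this]
      have q3 : 2 * δ * L = L * c1 / 16 := by rw [hδ]; ring
      have q4 : 0 < L * c1 := by positivity
      linarith only [q2, q3, q4]

end Run7.h833
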