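import Pool.Agent.Run7.h833.HfX
import Pool.Agent.W169.HF.Fam4

/-!
# The exact horizon for classes of standard L-functions
-/

set_option autoImplicit false

open Complex Set MeasureTheory intervalIntegral Filter Topology
open scoped ComplexConjugate NNReal ENNReal

namespace Run7.h833

open Pool.Agent.W169.HF
open H353.E H353.F

/-- zeros on the line from the size on finitely many vertical lines and a zero-free half-strip -/
theorem aut_fwdx (m : ℕ) (hm : 1 ≤ m) {x X ε : ℝ} (hx : 0 < x) (hx1 : x ≤ 1) (hX : 1 ≤ X)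
    (hε : 0 < ε) (hε1 : ε ≤ 1) :
    ∃ (M : ℕ) (R κ' C0 : ℝ), 1 ≤ M ∧ 0 < κ' ∧ ∀ (N : ℝ) (μ : Fin m → ℂ) (α : Fin m → ℕ → ℂ) (e : ℂ)
    (Λ : ℂ → ℂ), DatumT (1 / 2) N μ α e Λ → (∀ s : ℂ, 1 < s.re → Λ s ≠ 0) → ∀ t y : ℝ, 0 < t →
      C0 ≤ cnd N μ y → x + ε ≤ t * Real.log (cnd N μ y) → t * Real.log (cnd N μ y) ≤ X →
      (∀ s : ℂ, 1 / 2 + x + ε / 32 < s.re → |s.im - y| ≤ R → Λ s ≠ 0) →
      (∀ k : ℕ, 1 ≤ k → k ≤ M → ∀ v : ℝ, |v| ≤ R →
        ‖LL μ Λ (1 / 2 + ((k / (2 * M) : ℝ) : ℂ) + ((y + v : ℝ) : ℂ) * I)‖ ≤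
        Real.exp ((max (x - k / (2 * M)) 0 ^ 2 / (4 * x) + κ') * Real.log (cnd N μ y))) →
      ∀ s : ℂ, s.im = y → heat t (XX N Λ) s = 0 → s.re = 1 / 2 := by
  have hm' : (1 : ℝ) ≤ m := by exact_mod_cast hm
  obtain ⟨B, hB, HS⟩ := sharpX m hm (show (0 : ℝ) ≤ 1 / 2 by norm_num) le_rfl
    (show (0 : ℝ) < 1 / 2 by norm_num) (by norm_num)
  have hlogB : 0 ≤ Real.log B := Real.log_nonneg hB
  have hK : 1 ≤ Real.log B + 20 * (6 * m) := by linarith
  -- the profile threshold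
  obtain ⟨θz, hθz⟩ : ∃ θz : ℝ, θz = min (x + ε / 32) (1 / 2) := ⟨_, rfl⟩
  have hθz0 : 0 ≤ θz := by rw [hθz]; exact le_min (by positivity) (by norm_num)
  have hθz1 : θz ≤ x + ε / 32 := by rw [hθz]; exact min_le_left _ _
  have hθz2 : θz ≤ 1 / 2 := by rw [hθz]; exact min_le_right _ _
  obtain ⟨κ1, R1, ℓ1, hκ1, HF⟩ := fwdX (K := Real.log B + 20 * (6 * m)) (ϑ0 := 1 + 1 / 2 + 1 / 2 - 1 / 2)
    (ϑ := θz + ε / 32) (x0 := x) (g := ε / 2) (X := X + ε) hK (by norm_num) (by positivity)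
    (by linarith) hx (by linarith) (by positivity) (by linarith) (by linarith)
  obtain ⟨M, κn, Rn, ℓn, hM, hκn, hRn, HN⟩ := net_all (Real.log B + 20 * (6 * m)) (1 + 1 / 2 + 1 / 2 - 1 / 2) x
    κ1 1 hK (by norm_num) (by norm_num) hx hκ1 le_rfl
  have hM' : (1 : ℝ) ≤ M := by exact_mod_cast hM
  obtain ⟨ρ, hρd⟩ : ∃ ρ : ℝ, ρ = 1 / (2 * M) := ⟨_, rfl⟩
  have hρ : 0 < ρ := by rw [hρd]; positivity
  have hρ1 : ρ ≤ 1 := by
    rw [hρd, div_le_one (by positivity)]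
    linarith
  obtain ⟨Rp, ℓp, hRp, HP⟩ := prof_all (Real.log B + 20 * (6 * m)) (1 + 1 / 2 + 1 / 2 - 1 / 2) (1 / 2) ρ κn
    Rn hK (by norm_num) (by norm_num) (by norm_num) (by norm_num) hρ hρ1 hκn hRn
  obtain ⟨R1', hR1'⟩ : ∃ R1' : ℝ, R1' = max R1 1 := ⟨_, rfl⟩
  have hR11 : R1 ≤ R1' := by rw [hR1']; exact le_max_left _ _
  have hR12 : 1 ≤ R1' := by rw [hR1']; exact le_max_right _ _
  obtain ⟨Rq, ℓq, hRq, HQ⟩ := prof_all (Real.log B + 20 * (6 * m)) (1 + 1 / 2 + 1 / 2 - 1 / 2) θz (ε / 32) κ1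
    R1' hK (by norm_num) (by norm_num) hθz0 (by linarith) (by positivity) (by linarith) hκ1 hR12
  obtain ⟨c1, hc1⟩ : ∃ c1 : ℝ, c1 = (14 * m * (x + κn) + (226 * m + 25 * m / ρ) * (2 + Rn ^ 2)) / (κn / 2) :=
    ⟨_, rfl⟩
  have hc10 : 0 ≤ c1 := by rw [hc1]; positivity
  obtain ⟨W, hW⟩ : ∃ W : ℝ, W = |ℓ1| + |ℓn| + |ℓp| + |ℓq| + 1 + c1 := ⟨_, rfl⟩
  refine ⟨M, max Rn Rq, κn / 4, Real.exp (2 * W + 14 * m + 28 * m * X / ε), hM, by positivity, ?_⟩
  intro N μ α e Λ d hnz t y ht hC hx2 hX2 hzf hline s hsy hs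
  obtain ⟨S, hslow, hfe, hzer, hne⟩ := HS N μ α e Λ d
  have hN1 := d.one_le
  have hNpos : 0 < N := by linarith
  have hN0 : (N : ℂ) ≠ 0 := by exact_mod_cast hNpos.ne'
  obtain ⟨L, hLd⟩ : ∃ L : ℝ, L = Real.log (cnd N μ y) := ⟨_, rfl⟩
  have hL : 2 * W + 14 * m + 28 * m * X / ε ≤ L := by
    have := Real.log_le_log (Real.exp_pos _) hC
    rwa [Real.log_exp, ← hLd] at this
  rw [← hLd] at hx2 hX2 hline
  have h0 : 0 ≤ 28 * m * X / ε := by positivity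
  have hlo := gaD_re_ge d.one_le d.re_le y
  have hup := gaD_re_le d.one_le d.re_le y
  change 1 / 2 * Real.log (cnd N μ y) - 7 * m ≤ _ at hlo
  change _ ≤ 1 / 2 * Real.log (cnd N μ y) + 5 * m at hup
  rw [← hLd] at hlo hup
  obtain ⟨ℓ, hℓ⟩ : ∃ ℓ : ℝ, ℓ = (gaD N μ (3 / 2 + y * I)).re := ⟨_, rfl⟩
  obtain ⟨G, hG⟩ : ∃ G : ℝ, G = ‖gaf N μ (3 / 2 + y * I)‖ * Real.exp (-ℓ) := ⟨_, rfl⟩
  have ha1 := le_abs_self ℓ1
  have ha2 := le_abs_self ℓn
  have ha3 := le_abs_self ℓp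
  have ha4 := le_abs_self ℓq
  have hb1 := abs_nonneg ℓ1
  have hb2 := abs_nonneg ℓn
  have hb3 := abs_nonneg ℓp
  have hb4 := abs_nonneg ℓq
  have hW1 : 1 ≤ W := by rw [hW]; linarith
  obtain ⟨h4, h5⟩ := pass (by linarith : (0 : ℝ) < m) hε hX ht hlo hup (by linarith) hX2
  have ud := ud_of_sharp S hslow (by norm_num) y
  rw [← hℓ, ← hG] at ud
  rw [← hℓ] at hlo hup h4 h5
  have hWℓ : W ≤ ℓ := by linarith
  have hℓ0 : 0 < ℓ := by linarith
  have hLℓ : L ≤ 2 * ℓ + 14 * m := by linarith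
  obtain ⟨f, hf⟩ : ∃ f : ℂ → ℂ, f = fun u : ℂ => XX N Λ (1 / 2 + (y : ℂ) * I + u) := ⟨_, rfl⟩
  rw [← hf] at ud
  have hfu : ∀ u, f u = XX N Λ (1 / 2 + (y : ℂ) * I + u) := fun u => by rw [hf]
  have hGpos := ud.hG
  have pf := HP ℓ G f (by linarith) ud (fun u hu1 _ h => by
    rw [hfu] at h
    unfold XX at h
    rcases mul_eq_zero.1 h with h | h
    · exact absurd (Complex.cpow_eq_zero_iff _ _ |>.1 h).1 hN0
    · exact hnz _ (by simp; linarith) h)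
  rw [hρd] at pf
  have pf2 := HQ ℓ G f (by linarith) ud (fun u hu1 hu2 h => by
    rw [hfu] at h
    unfold XX at h
    rcases mul_eq_zero.1 h with h | h
    · exact absurd (Complex.cpow_eq_zero_iff _ _ |>.1 h).1 hN0
    · have e1 : (1 / 2 + (y : ℂ) * I + u).re = 1 / 2 + u.re := by simp
      have e2 : (1 / 2 + (y : ℂ) * I + u).im - y = u.im := by simp
      rcases min_choice (x + ε / 32) (1 / 2 : ℝ) with hc | hc
      · refine hzf _ ?_ ?_ h
        · rw [e1]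
          rw [hθz, hc] at hu1
          linarith
        · rw [e2]
          exact hu2.trans (le_max_right _ _)
      · refine hnz _ ?_ h
        rw [e1]
        rw [hθz, hc] at hu1
        linarith)
  -- the bounds on the lines
  have hbd := HN ℓ G f (by linarith) ud pf (fun k hk1 hkM v hv => by
    have hk1' : (1 : ℝ) ≤ k := by exact_mod_cast hk1
    have hkM' : (k : ℝ) ≤ M := by exact_mod_cast hkM
    obtain ⟨r, hr⟩ : ∃ r : ℝ, r = k / (2 * M) := ⟨_, rfl⟩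
    have hrρ : ρ ≤ r := by
      rw [hρd, hr]
      gcongr
    have hr1 : r ≤ 1 := by
      rw [hr, div_le_one (by positivity)]
      linarith
    have h6 := hline k hk1 hkM v (hv.trans (le_max_left _ _))
    rw [← hr] at h6 ⊢
    obtain ⟨u, hu⟩ : ∃ u : ℂ, u = (r : ℂ) + v * I := ⟨_, rfl⟩
    have hure : u.re = r := by rw [hu]; simp
    have huim : u.im = v := by rw [hu]; simp
    rw [← hu, hfu]
    have e1 : (1 / 2 + (r : ℂ) + ((y + v : ℝ) : ℂ) * I : ℂ) = 1 / 2 + (y : ℂ) * I + u := by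
      rw [hu]; push_cast; ring
    rw [e1, LL_eq hNpos] at h6
    obtain ⟨h7, h8⟩ := gam_up hm hN1 d.re_le y hρ hρ1 (u := u) (by rw [hure]; exact hrρ)
    rw [← hℓ, ← hG, hure] at h8
    have h9 : ‖XX N Λ (1 / 2 + (y : ℂ) * I + u)‖ =
        ‖XX N Λ (1 / 2 + (y : ℂ) * I + u) * (gaf N μ (1 / 2 + (y : ℂ) * I + u))⁻¹‖ *
        ‖gaf N μ (1 / 2 + (y : ℂ) * I + u)‖ := by
      rw [← norm_mul, mul_assoc, inv_mul_cancel₀ h7, mul_one]
    rw [h9]
    have hnu : 1 + ‖u‖ ^ 2 ≤ 2 + Rn ^ 2 := by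
      have := nsq (u := u) (a := 1) (b := Rn) (by rw [hure, abs_of_pos (by linarith)]; exact hr1)
        (by rw [huim]; exact hv)
      linarith
    obtain ⟨q, hq⟩ : ∃ q : ℝ, q = max (x - r) 0 := ⟨_, rfl⟩
    have hq0 : 0 ≤ q := by rw [hq]; exact le_max_right _ _
    have hqx : q ≤ x := by rw [hq]; exact max_le (by linarith) hx.le
    have hq2 : q ^ 2 / (4 * x) ≤ x := by
      rw [div_le_iff₀ (by positivity)]
      nlinarith
    have hq3 : 0 ≤ q ^ 2 / (4 * x) := by positivity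
    have hc : (14 * m * (x + κn) + (226 * m + 25 * m / ρ) * (2 + Rn ^ 2)) ≤ κn / 2 * ℓ := by
      have : c1 ≤ ℓ := by linarith
      rw [hc1, div_le_iff₀ (by positivity)] at this
      linarith
    calc _ ≤ Real.exp ((max (x - r) 0 ^ 2 / (4 * x) + κn / 4) * L) *
          (G * Real.exp (ℓ * r + (226 * m + 25 * m / ρ) * (1 + ‖u‖ ^ 2))) :=
            mul_le_mul h6 h8 (norm_nonneg _) (Real.exp_pos _).le
      _ = G * Real.exp ((q ^ 2 / (4 * x) + κn / 4) * L +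
          (ℓ * r + (226 * m + 25 * m / ρ) * (1 + ‖u‖ ^ 2))) := by
            rw [Real.exp_add ((q ^ 2 / (4 * x) + κn / 4) * L), hq]; ring
      _ ≤ G * Real.exp (ℓ * Pool.Agent.W169.HF.phx x r + κn * ℓ) := by
            apply mul_le_mul_of_nonneg_left _ hGpos.le
            apply Real.exp_le_exp.2
            unfold Pool.Agent.W169.HF.phx
            rw [← hq]
            have h10 : (q ^ 2 / (4 * x) + κn / 4) * L ≤ (q ^ 2 / (4 * x) + κn / 4) * (2 * ℓ + 14 * m) :=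
              mul_le_mul_of_nonneg_left hLℓ (by positivity)
            have h11 : (226 * m + 25 * m / ρ) * (1 + ‖u‖ ^ 2) ≤ (226 * m + 25 * m / ρ) * (2 + Rn ^ 2) :=
              mul_le_mul_of_nonneg_left hnu (by positivity)
            have h12 : 14 * m * (q ^ 2 / (4 * x) + κn / 4) ≤ 14 * m * (x + κn) :=
              mul_le_mul_of_nonneg_left (by linarith) (by positivity)
            have e3 : q ^ 2 / (2 * x) = 2 * (q ^ 2 / (4 * x)) := by
              field_simp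
              ring
            rw [e3]
            nlinarith)
  have hmj : MjX κ1 (θz + ε / 32) x ℓ G f := by
    intro r hr0 hr1
    have h6 := hbd (r : ℂ) (by rw [ofReal_re, abs_of_nonneg hr0]; linarith) (by simp)
    rw [ofReal_re, abs_of_nonneg hr0] at h6
    exact h6
  have key := HF ℓ G t f (by linarith) ud (Pf_mono' pf2 le_rfl hR11 hℓ0.le hGpos) hmj ht
    (by linarith) (by linarith)
  by_contra hcon
  have hst := heat_strip hslow ⟨e, d.norm_eq, hfe⟩ hne hzer ht.le hs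
  refine key (s.re - 1 / 2) (sub_ne_zero.2 hcon) (by linarith) ?_
  rw [hf, heat_shift']
  have e : (1 / 2 + (y : ℂ) * I + ((s.re - 1 / 2 : ℝ) : ℂ) : ℂ) = s := by
    apply Complex.ext
    · simp
    · simp [hsy]
  rw [e]
  exact hs

/-- zero-free half-planes for large analytic conductor -/
def ZF {m : ℕ} (P : Cls m) (κ : ℝ) : Prop := ∀ ε : ℝ, 0 < ε → ∃ C0 : ℝ,
  ∀ (N : ℝ) (μ : Fin m → ℂ) (α : Fin m → ℕ → ℂ) (e : ℂ) (Λ : ℂ → ℂ), P N μ α e Λ → Std N μ α e Λ →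
  ∀ s : ℂ, C0 ≤ cnd N μ s.im → 1 / 2 + κ + ε ≤ s.re → Λ s ≠ 0

variable {m : ℕ} {P : Cls m}

lemma zf_mono {κ κ' : ℝ} (h : κ ≤ κ') (hZ : ZF P κ) : ZF P κ' := by
  intro ε hε
  obtain ⟨C0, H⟩ := hZ ε hε
  exact ⟨C0, fun N μ α e Λ hP hS s hC hs => H N μ α e Λ hP hS s hC (by linarith)⟩

lemma sh_mono {κ κ' : ℝ} (h : κ ≤ κ') (hH : SH P κ) : SH P κ' := by
  intro ε X hε
  obtain ⟨C0, H⟩ := hH ε X hε
  exact ⟨C0, fun N μ α e Λ hP hS t s ht hC h1 h2 hs => H N μ α e Λ hP hS t s ht hC (by linarith) h2 hs⟩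

lemma sh_lim {κ : ℝ} (h : ∀ κ' : ℝ, κ < κ' → SH P κ') : SH P κ := by
  intro ε X hε
  obtain ⟨C0, H⟩ := h (κ + ε / 2) (by linarith) (ε / 2) X (by positivity)
  exact ⟨C0, fun N μ α e Λ hP hS t s ht hC h1 h2 hs => H N μ α e Λ hP hS t s ht hC (by linarith) h2 hs⟩

/-- the forward direction -/
theorem ser_sh (hm : 1 ≤ m) {κ : ℝ} (hκ : 0 < κ) (hκ1 : κ ≤ 1) (hZ : ZF P κ)
    (h : ∀ r : ℝ, 0 ≤ r → r ≤ 1 / 2 → SEr P r (max (κ - r) 0 ^ 2 / (4 * κ))) : SH P κ := by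
  intro ε0 X hε0
  obtain ⟨ε, hεd⟩ : ∃ ε : ℝ, ε = min ε0 1 := ⟨_, rfl⟩
  have hε : 0 < ε := by rw [hεd]; exact lt_min hε0 one_pos
  have hε1 : ε ≤ 1 := by rw [hεd]; exact min_le_right _ _
  have hε2 : ε ≤ ε0 := by rw [hεd]; exact min_le_left _ _
  obtain ⟨M, R, κ', C0, hM, hκ', H⟩ := aut_fwdx m hm (x := κ) (X := max X 1) (ε := ε)
    hκ hκ1 (le_max_right _ _) hε hε1
  have hM' : (1 : ℝ) ≤ M := by exact_mod_cast hM
  have hB : ∀ k : ℕ, ∃ B : ℝ, k ≤ M → ∀ (N : ℝ) (μ : Fin m → ℂ) (α : Fin m → ℕ → ℂ) (e : ℂ) (Λ : ℂ → ℂ),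
      P N μ α e Λ → Std N μ α e Λ → ∀ y : ℝ, ‖LL μ Λ (1 / 2 + ((k / (2 * M) : ℝ) : ℂ) + (y : ℂ) * I)‖ ≤
        Real.exp (B + (max (κ - k / (2 * M)) 0 ^ 2 / (4 * κ) + κ' / 2) * Real.log (cnd N μ y)) := by
    intro k
    by_cases hk : k ≤ M
    · have hk' : (k : ℝ) ≤ M := by exact_mod_cast hk
      obtain ⟨B, HB⟩ := h (k / (2 * M)) (by positivity) (by
        rw [div_le_div_iff₀ (by positivity) (by norm_num)]
        linarith) (κ' / 2) (by positivity)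
      exact ⟨B, fun _ => HB⟩
    · exact ⟨0, fun hk' => absurd hk' hk⟩
  choose B HB using hB
  obtain ⟨BB, hBB⟩ : ∃ BB : ℝ, BB = ∑ k ∈ Finset.range (M + 1), |B k| := ⟨_, rfl⟩
  have hBB0 : 0 ≤ BB := by rw [hBB]; exact Finset.sum_nonneg fun k _ => abs_nonneg _
  have hBk : ∀ k, k ≤ M → B k ≤ BB := fun k hk => by
    refine (le_abs_self _).trans ?_
    rw [hBB]
    exact Finset.single_le_sum (f := fun k => |B k|) (fun k _ => abs_nonneg _)
      (Finset.mem_range.2 (by omega))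
  obtain ⟨r, hr⟩ : ∃ r : ℝ, r = m * Real.log (1 + |R|) := ⟨_, rfl⟩
  have hr0 : 0 ≤ r := by
    rw [hr]
    exact mul_nonneg (Nat.cast_nonneg m) (Real.log_nonneg (by linarith [abs_nonneg R]))
  obtain ⟨C1, HZ⟩ := hZ (ε / 32) (by positivity)
  refine ⟨max (max C0 (|C1| * (1 + |R|) ^ m)) (Real.exp (2 * (BB + (κ + κ' / 2) * r) / κ')), ?_⟩
  intro N μ α e Λ hP hS t s ht hC hx2 hX2 hs
  have hN := hS.1.one_le
  have h4 := lt_log ((le_max_right _ _).trans hC)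
  rw [div_le_iff₀ hκ'] at h4
  refine H N μ α e Λ hS.1 hS.2 t s.im ht (((le_max_left _ _).trans (le_max_left _ _)).trans hC) (by linarith)
    (hX2.trans (le_max_left _ _)) (fun z hz1 hz2 => ?_) (fun k hk1 hkM v hv => ?_) s rfl hs
  · refine HZ N μ α e Λ hP hS z ?_ (by linarith)
    have h3 := cndm_shift (N := N) (by linarith) μ (hz2.trans (le_abs_self R))
    have h5 : 0 < (1 + |R|) ^ m := by positivity
    have h6 := ((le_max_right _ _).trans (le_max_left _ _)).trans hC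
    exact (le_abs_self C1).trans (le_of_mul_le_mul_right (h6.trans h3) h5)
  · refine (HB k hkM N μ α e Λ hP hS (s.im + v)).trans (Real.exp_le_exp.2 ?_)
    have h5 := logm_shift hN μ (y := s.im + v) (y' := s.im) (R := R) (by
      rw [show s.im - (s.im + v) = -v by ring, abs_neg]
      exact hv.trans (le_abs_self R))
    rw [← hr] at h5
    obtain ⟨c, hc⟩ : ∃ c : ℝ, c = max (κ - k / (2 * M)) 0 ^ 2 / (4 * κ) := ⟨_, rfl⟩
    have hc0 : 0 ≤ c := by rw [hc]; positivity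
    have hcκ : c ≤ κ := by rw [hc]; exact mx_le hκ (by positivity)
    rw [← hc]
    have h6 : (c + κ' / 2) * Real.log (cnd N μ (s.im + v)) ≤ (c + κ' / 2) * (Real.log (cnd N μ s.im) + r) :=
      mul_le_mul_of_nonneg_left h5 (by positivity)
    have h7 : (c + κ' / 2) * r ≤ (κ + κ' / 2) * r := mul_le_mul_of_nonneg_right (by linarith) hr0
    have h8 := hBk k hkM
    linarith

/-- zero-free half-planes from the zeros of the heat flow -/
theorem sh_zf (hm : 1 ≤ m) {κ : ℝ} (hκ : 0 ≤ κ) (hH : SH P κ) : ZF P κ := by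
  intro ε hε
  obtain ⟨X, hX⟩ : ∃ X : ℝ, X = κ + ε + 1 := ⟨_, rfl⟩
  have hX1 : 1 ≤ X := by linarith
  obtain ⟨R, C0, HB⟩ := aut_bwd m hm (θ := 1 / 2) (g := ε / 2) (X := X) (by norm_num) le_rfl
    (by positivity) hX1
  obtain ⟨C1, HH⟩ := hH (ε / 4) X (by positivity)
  obtain ⟨r, hr⟩ : ∃ r : ℝ, r = m * Real.log (1 + |R|) := ⟨_, rfl⟩
  have hr0 : 0 ≤ r := by
    rw [hr]
    exact mul_nonneg (Nat.cast_nonneg m) (Real.log_nonneg (by linarith [abs_nonneg R]))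
  refine ⟨max (max C0 (|C1| * (1 + |R|) ^ m)) (Real.exp (4 * X * r / ε + 1)), ?_⟩
  intro N μ α e Λ hP hS s hC hre
  have hN := hS.1.one_le
  have hCa : C0 ≤ cnd N μ s.im := (le_max_left _ _).trans ((le_max_left _ _).trans hC)
  have hCb : |C1| * (1 + |R|) ^ m ≤ cnd N μ s.im :=
    (le_max_right _ _).trans ((le_max_left _ _).trans hC)
  have hL := lt_log ((le_max_right _ _).trans hC)
  obtain ⟨L, hLd⟩ : ∃ L : ℝ, L = Real.log (cnd N μ s.im) := ⟨_, rfl⟩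
  rw [← hLd] at hL
  have h8 : 0 ≤ 4 * X * r / ε := by positivity
  have hL0 : 0 < L := by linarith
  obtain ⟨t, htd⟩ : ∃ t : ℝ, t = (κ + ε / 2) / L := ⟨_, rfl⟩
  have ht : 0 < t := by rw [htd]; positivity
  have htL : t * L = κ + ε / 2 := by rw [htd]; field_simp
  have htr : t * r ≤ ε / 4 := by
    have h9 : t * (4 * X * r / ε) ≤ X := by
      have : t * (4 * X * r / ε) ≤ t * L := mul_le_mul_of_nonneg_left (by linarith) ht.le
      linarith
    rw [show t * (4 * X * r / ε) = 4 * t * r / ε * X by ring] at h9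
    have h10 : 4 * t * r / ε ≤ 1 := by
      by_contra hcon
      push Not at hcon
      nlinarith
    rw [div_le_one hε] at h10
    linarith
  refine HB N μ α e Λ hS.1 t s.im ht hCa (by rw [← hLd, htL]; linarith) (by rw [← hLd, htL]; linarith)
    (fun z hz1 hz2 hz => ?_) s rfl (by rw [← hLd, htL]; linarith)
  have hz2' : |z.im - s.im| ≤ |R| := hz2.trans (le_abs_self R)
  have h3 := cndm_shift (N := N) (by linarith) μ hz2'
  have h5 : 0 < (1 + |R|) ^ m := by positivity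
  have h6 := logm_shift hN μ hz2'
  rw [abs_sub_comm] at hz2'
  have h7 := logm_shift hN μ hz2'
  rw [← hr] at h6 h7
  rw [← hLd] at h6 h7
  have h6' := mul_le_mul_of_nonneg_left h6 ht.le
  have h7' := mul_le_mul_of_nonneg_left h7 ht.le
  have h9 := HH N μ α e Λ hP hS t z ht ((le_abs_self C1).trans
    (le_of_mul_le_mul_right (hCb.trans h3) h5)) (by linarith) (by linarith) hz
  linarith

/-- few zeros off the line if there are none -/
theorem sh_fz {κ κ' : ℝ} (hκ : κ < κ') (hH : SH P κ) : FZ P κ' := by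
  intro δ ε X hδ hε
  obtain ⟨C0, HH⟩ := hH ((κ' - κ) / 2) (X + 1 + |X|) (by linarith)
  obtain ⟨r, hr⟩ : ∃ r : ℝ, r = m * Real.log (1 + |(1 : ℝ)|) := ⟨_, rfl⟩
  have hr0 : 0 ≤ r := by
    rw [hr]
    exact mul_nonneg (Nat.cast_nonneg m) (Real.log_nonneg (by norm_num))
  refine ⟨max (|C0| * (1 + |(1 : ℝ)|) ^ m) (Real.exp ((|X| + 1) * r / min ((κ' - κ) / 2) 1 + 1)), ?_⟩
  intro N μ α e Λ hP hS t y ht hC h1 h2
  have hN := hS.1.one_le
  have hg : 0 < min ((κ' - κ) / 2) 1 := lt_min (by linarith) one_pos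
  have hg1 := min_le_left ((κ' - κ) / 2) 1
  have hg2 := min_le_right ((κ' - κ) / 2) 1
  have hCb := (le_max_left _ _).trans hC
  have hL := lt_log ((le_max_right _ _).trans hC)
  obtain ⟨g, hgd⟩ : ∃ g : ℝ, g = min ((κ' - κ) / 2) 1 := ⟨_, rfl⟩
  rw [← hgd] at hg hg1 hg2 hL
  obtain ⟨L, hLd⟩ : ∃ L : ℝ, L = Real.log (cnd N μ y) := ⟨_, rfl⟩
  rw [← hLd] at hL h1 h2 ⊢
  have h8 : 0 ≤ (|X| + 1) * r / g := by positivity
  have hLp : 0 < L := by linarith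
  have htr : t * r ≤ g := by
    have h9 : t * ((|X| + 1) * r / g) ≤ |X| := by
      have : t * ((|X| + 1) * r / g) ≤ t * L := mul_le_mul_of_nonneg_left (by linarith) ht.le
      linarith [le_abs_self X]
    have h10 : t * ((|X| + 1) * r / g) = (|X| + 1) * (t * r) / g := by ring
    rw [h10, div_le_iff₀ hg] at h9
    have h11 := abs_nonneg X
    have h12 : 0 ≤ t * r := by positivity
    by_contra hcon
    push Not at hcon
    nlinarith
  intro S hS'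
  have hemp : S = ∅ := by
    rw [Finset.eq_empty_iff_forall_notMem]
    intro z hz
    obtain ⟨z0, z1, z2⟩ := hS' z hz
    have hz2' : |z.im - y| ≤ |(1 : ℝ)| := by rw [abs_one]; exact z2
    have h3 := cndm_shift (N := N) (by linarith) μ hz2'
    have h5 : 0 < (1 + |(1 : ℝ)|) ^ m := by positivity
    have h6 := logm_shift hN μ hz2'
    rw [abs_sub_comm] at hz2'
    have h7 := logm_shift hN μ hz2'
    rw [← hr] at h6 h7
    rw [← hLd] at h6 h7
    have h6' := mul_le_mul_of_nonneg_left h6 ht.le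
    have h7' := mul_le_mul_of_nonneg_left h7 ht.le
    have h9 := HH N μ α e Λ hP hS t z ht ((le_abs_self C0).trans
      (le_of_mul_le_mul_right (hCb.trans h3) h5)) (by linarith) (by linarith [abs_nonneg X]) z0
    linarith
  rw [hemp, Finset.sum_empty]
  positivity

lemma ser_lim {r a : ℝ} (h : ∀ e : ℝ, 0 < e → SEr P r (a + e)) : SEr P r a := by
  intro ε hε
  obtain ⟨B, HB⟩ := h (ε / 2) (by positivity) (ε / 2) (by positivity)
  refine ⟨B, fun N μ α e Λ hP hS y => (HB N μ α e Λ hP hS y).trans (Real.exp_le_exp.2 ?_)⟩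
  apply le_of_eq
  ring

/-- **The exact horizon.** -/
theorem sh_iff (hm : 1 ≤ m) {κ : ℝ} (hκ : 0 < κ) : SH P κ ↔
    ZF P κ ∧ ∀ r : ℝ, 0 ≤ r → r ≤ 1 / 2 → SEr P r (max (κ - r) 0 ^ 2 / (4 * κ)) := by
  constructor
  · intro h
    refine ⟨sh_zf hm hκ.le h, fun r hr0 hr1 => ser_lim fun e he => ?_⟩
    obtain ⟨η, hη⟩ : ∃ η : ℝ, η = min e κ := ⟨_, rfl⟩
    have hη0 : 0 < η := by rw [hη]; exact lt_min he hκ
    have hη1 : η ≤ e := by rw [hη]; exact min_le_left _ _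
    have h1 := (fz_iff hpx_all jen_all net_all tcz_all invx_all hm (κ := κ + η) (by linarith)).1
      (sh_fz (by linarith) h) r hr0 hr1
    refine ser_mono ?_ h1
    have h5 := (phx_lip (x := κ) (x' := κ + η) (η := η) hκ hr0 (by linarith) le_rfl).2
    unfold Pool.Agent.W169.HF.phx at h5
    have e1 : max (κ + η - r) 0 ^ 2 / (4 * (κ + η)) = max (κ + η - r) 0 ^ 2 / (2 * (κ + η)) / 2 := by
      field_simp
      ring
    have e2 : max (κ - r) 0 ^ 2 / (4 * κ) = max (κ - r) 0 ^ 2 / (2 * κ) / 2 := by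
      field_simp
      ring
    rw [e1, e2]
    linarith
  · rintro ⟨hZ, h⟩
    rcases le_total κ 1 with hκ1 | hκ1
    · exact ser_sh hm hκ hκ1 hZ h
    · exact sh_mono hκ1 (sh_one hm)

/-- under the Lindelof hypothesis for the class -/
theorem sh_zf_iff (hm : 1 ≤ m) (hE : SE P 0) {κ : ℝ} (hκ : 0 ≤ κ) : SH P κ ↔ ZF P κ := by
  refine ⟨sh_zf hm hκ, fun h => sh_lim fun κ' hκ' => ?_⟩
  exact (sh_iff hm (by linarith)).2 ⟨zf_mono hκ'.le h, fun r hr0 hr1 =>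
    ser_mono (by
      have : 0 < κ' := by linarith
      positivity) (se_ser hm hE r hr0 hr1)⟩

end Run7.h833
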