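import Pool.Agent.Run7.h833.HfY

/-!
# Size on the critical line and a zero-free half-plane: convexity, and the horizon
-/

set_option autoImplicit false

open Complex Set MeasureTheory intervalIntegral Filter Topology
open scoped ComplexConjugate NNReal ENNReal

namespace Run7.h833

open Pool.Agent.W169.HF
open H353.E H353.F

theorem majb (h5 : S_RECT) {K K1 ϑ0 b M0 κ : ℝ} (hK : 1 ≤ K) (hK1 : 0 ≤ K1) (hϑ0 : 1 / 2 ≤ ϑ0)
    (hϑ02 : ϑ0 ≤ 2) (hb : 0 < b) (hb3 : b ≤ 3) (hM0 : 0 ≤ M0) (hMb : M0 ≤ b) (hκ : 0 < κ) (K2 : ℝ → ℝ) :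
    ∃ κ' R ρ ℓ0 : ℝ, 0 < κ' ∧ 0 < ρ ∧ ρ ≤ 1 ∧ ∀ (ℓ G : ℝ) (f h γ : ℂ → ℂ), ℓ0 ≤ ℓ → UD K ϑ0 ℓ G f →
      Pf κ' b R ℓ G f → Differentiable ℂ h → (∀ u, h u = f u * (γ u)⁻¹) →
      (∀ u : ℂ, 0 ≤ u.re → ‖(γ u)⁻¹‖ ≤ G⁻¹ * Real.exp (-(ℓ * u.re) + K1 * (1 + ‖u‖ ^ 2))) →
      (∀ u : ℂ, ρ ≤ u.re → γ u ≠ 0 ∧ ‖γ u‖ ≤ G * Real.exp (ℓ * u.re + K2 ρ * (1 + ‖u‖ ^ 2))) →
      (∀ v : ℝ, |v| ≤ R → ‖h ((v : ℂ) * I)‖ ≤ Real.exp (ℓ * M0 + κ' * ℓ)) → Mj κ b M0 ℓ G f := by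
  obtain ⟨ρ, hρd⟩ : ∃ ρ : ℝ, ρ = min (κ / 8) (min (1 / 8) b) := ⟨_, rfl⟩
  have hρ : 0 < ρ := by rw [hρd]; exact lt_min (by positivity) (lt_min (by norm_num) hb)
  have hρκ : ρ ≤ κ / 8 := by rw [hρd]; exact min_le_left _ _
  have hρ1 : ρ ≤ 1 / 8 := by rw [hρd]; exact (min_le_right _ _).trans (min_le_left _ _)
  have hρb : ρ ≤ b := by rw [hρd]; exact (min_le_right _ _).trans (min_le_right _ _)
  obtain ⟨κa, Ra, hκa, hRa, HA⟩ := h5 6 (2 * ρ) (κ / 4) 1 (by norm_num) (by positivity) (by linarith)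
    (by positivity) le_rfl
  obtain ⟨κ2, hκ2d⟩ : ∃ κ2 : ℝ, κ2 = min κa (κ / 4) / 2 := ⟨_, rfl⟩
  have hκ2 : 0 < κ2 := by rw [hκ2d]; have := lt_min hκa (by positivity : 0 < κ / 4); linarith
  have hκ2a : 2 * κ2 ≤ κa := by rw [hκ2d]; have := min_le_left κa (κ / 4); linarith
  have hκ2b : 2 * κ2 ≤ κ / 4 := by rw [hκ2d]; have := min_le_right κa (κ / 4); linarith
  obtain ⟨κb, Rb, hκb, hRb, HB⟩ := h5 6 b κ2 Ra (by norm_num) (by linarith) (by linarith) hκ2 hRa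
  obtain ⟨κ', hκ'd⟩ : ∃ κ' : ℝ, κ' = κb / 2 := ⟨_, rfl⟩
  have hκ' : 0 < κ' := by rw [hκ'd]; positivity
  obtain ⟨R, hRd⟩ : ∃ R : ℝ, R = max Rb 3 := ⟨_, rfl⟩
  have hRRb : Rb ≤ R := by rw [hRd]; exact le_max_left _ _
  have hR3 : 3 ≤ R := by rw [hRd]; exact le_max_right _ _
  obtain ⟨W, hW⟩ : ∃ W : ℝ, W = 1 + (3 ^ 2 + Rb ^ 2) := ⟨_, rfl⟩
  have hW0 : 0 < W := by rw [hW]; positivity
  refine ⟨κ', R, ρ, max ((K + K1) * W) (max (K1 * W / κ') (max (|K2 ρ| * W / κ2) 0)), hκ', hρ,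
    by linarith, ?_⟩
  intro ℓ G f h γ hℓ ud pf hh hfh hginv hgup hline
  have hG := ud.hG
  have hℓ1 : (K + K1) * W ≤ ℓ := (le_max_left _ _).trans hℓ
  have hℓ2 : K1 * W / κ' ≤ ℓ := ((le_max_left _ _).trans (le_max_right _ _)).trans hℓ
  have hℓ3 : |K2 ρ| * W / κ2 ≤ ℓ :=
    ((le_max_left _ _).trans ((le_max_right _ _).trans (le_max_right _ _))).trans hℓ
  have hℓ0 : 0 ≤ ℓ := ((le_max_right _ _).trans ((le_max_right _ _).trans (le_max_right _ _))).trans hℓ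
  rw [div_le_iff₀ hκ'] at hℓ2
  rw [div_le_iff₀ hκ2] at hℓ3
  have hKW : K * W ≤ ℓ := by nlinarith
  -- size of |u|² in the windows
  have hwin : ∀ u : ℂ, |u.re| ≤ 3 → |u.im| ≤ Rb → 1 + ‖u‖ ^ 2 ≤ W := fun u h1 h2 => by
    have := nsq h1 h2
    rw [hW]
    linarith
  have hlen : ∀ u : ℂ, 0 ≤ 1 + ‖u‖ ^ 2 := fun u => by positivity
  -- growth of f
  have hgrow : ∀ u : ℂ, |u.re| ≤ 3 → |u.im| ≤ Rb →
      ‖f u‖ ≤ G * Real.exp (ℓ * max |u.re| ϑ0 + K * (1 + ‖u‖ ^ 2)) := fun u _ _ => ud.up u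
  -- step 2
  have hB := HB ℓ 0 M0 0 1 h hℓ0 one_pos hh (by rw [abs_of_nonneg hM0]; linarith) (by norm_num)
    (fun u hu1 hu2 => by
      have e : u = (u.im : ℂ) * I := by
        apply Complex.ext
        · simp [hu1]
        · simp
      have h1 := hline u.im (hu2.trans hRRb)
      rw [← e] at h1
      rw [one_mul]
      refine h1.trans (Real.exp_le_exp.2 ?_)
      have : κ' * ℓ ≤ κb * ℓ := mul_le_mul_of_nonneg_right (by rw [hκ'd]; linarith) hℓ0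
      linarith)
    (fun u hu1 hu2 => by
      rw [zero_add] at hu1
      have hre : |u.re| = b := by rw [hu1, abs_of_nonneg (by linarith)]
      have h1 := pf.upp u (by rw [hre]; linarith) (hu2.trans hRRb)
      rw [hre, max_self] at h1
      have h2 := hginv u (by rw [hu1]; linarith)
      have h3 := hwin u (by rw [hre]; linarith) hu2
      rw [hfh, norm_mul, one_mul]
      calc ‖f u‖ * ‖(γ u)⁻¹‖ ≤ (G * Real.exp (ℓ * b + κ' * ℓ)) *
            (G⁻¹ * Real.exp (-(ℓ * u.re) + K1 * (1 + ‖u‖ ^ 2))) :=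
            mul_le_mul h1 h2 (norm_nonneg _) (by positivity)
        _ = Real.exp (ℓ * b + κ' * ℓ + (-(ℓ * u.re) + K1 * (1 + ‖u‖ ^ 2))) := by
            rw [Real.exp_add (ℓ * b + κ' * ℓ)]
            field_simp
        _ ≤ Real.exp (ℓ * 0 + κb * ℓ) := by
            apply Real.exp_le_exp.2
            rw [hu1]
            have h4 : K1 * (1 + ‖u‖ ^ 2) ≤ K1 * W := mul_le_mul_of_nonneg_left h3 hK1
            have h5 : κb * ℓ = κ' * ℓ + κ' * ℓ := by rw [hκ'd]; ring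
            linarith)
    (fun u hu1 hu2 hu3 => by
      rw [zero_add] at hu2
      have hre : |u.re| ≤ 3 := by rw [abs_of_nonneg hu1]; linarith
      have h1 := ud.up u
      have h2 := hginv u hu1
      have h3 := hwin u hre hu3.le
      rw [hfh, norm_mul, one_mul]
      calc ‖f u‖ * ‖(γ u)⁻¹‖ ≤ (G * Real.exp (ℓ * max |u.re| ϑ0 + K * (1 + ‖u‖ ^ 2))) *
            (G⁻¹ * Real.exp (-(ℓ * u.re) + K1 * (1 + ‖u‖ ^ 2))) :=
            mul_le_mul h1 h2 (norm_nonneg _) (by positivity)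
        _ = Real.exp (ℓ * max |u.re| ϑ0 + K * (1 + ‖u‖ ^ 2) + (-(ℓ * u.re) + K1 * (1 + ‖u‖ ^ 2))) := by
            rw [Real.exp_add (ℓ * max |u.re| ϑ0 + K * (1 + ‖u‖ ^ 2))]
            field_simp
        _ ≤ Real.exp (6 * ℓ) := by
            apply Real.exp_le_exp.2
            have h4 : (K + K1) * (1 + ‖u‖ ^ 2) ≤ (K + K1) * W := mul_le_mul_of_nonneg_left h3 (by linarith)
            have h5 : ℓ * max |u.re| ϑ0 ≤ ℓ * 3 :=
              mul_le_mul_of_nonneg_left (max_le hre (by linarith)) hℓ0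
            have h6 : 0 ≤ ℓ * u.re := mul_nonneg hℓ0 hu1
            linarith)
  -- the bound for f to the right of ρ
  have hf : ∀ u : ℂ, ρ ≤ u.re → u.re ≤ b → |u.im| ≤ Ra →
      ‖f u‖ ≤ G * Real.exp (ℓ * (M0 + (1 - M0 / b) * u.re) + 2 * κ2 * ℓ) := by
    intro u hu1 hu2 hu3
    have h1 := hB u (by linarith) (by linarith) hu3
    obtain ⟨hne, h2⟩ := hgup u hu1
    have h3 := hwin u (by rw [abs_of_nonneg (by linarith)]; linarith) (hu3.trans hRb)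
    have e1 : f u = h u * γ u := by
      rw [hfh, mul_assoc, inv_mul_cancel₀ hne, mul_one]
    rw [e1, norm_mul]
    rw [one_mul, sub_zero] at h1
    calc ‖h u‖ * ‖γ u‖ ≤ Real.exp (ℓ * (M0 + (0 - M0) * (u.re / b)) + κ2 * ℓ) *
          (G * Real.exp (ℓ * u.re + K2 ρ * (1 + ‖u‖ ^ 2))) :=
          mul_le_mul h1 h2 (norm_nonneg _) (Real.exp_pos _).le
      _ = G * Real.exp (ℓ * (M0 + (0 - M0) * (u.re / b)) + κ2 * ℓ + (ℓ * u.re + K2 ρ * (1 + ‖u‖ ^ 2))) := by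
          rw [Real.exp_add (ℓ * (M0 + (0 - M0) * (u.re / b)) + κ2 * ℓ)]
          ring
      _ ≤ _ := by
          apply mul_le_mul_of_nonneg_left _ hG.le
          apply Real.exp_le_exp.2
          have h4 : K2 ρ * (1 + ‖u‖ ^ 2) ≤ |K2 ρ| * W :=
            (mul_le_mul_of_nonneg_right (le_abs_self _) (hlen u)).trans
              (mul_le_mul_of_nonneg_left h3 (abs_nonneg _))
          have h5 : ℓ * (M0 + (0 - M0) * (u.re / b)) + ℓ * u.re = ℓ * (M0 + (1 - M0 / b) * u.re) := by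
            ring
          linarith
  obtain ⟨ε, hε, hfe⟩ := ud.fe
  have hMb' : 0 ≤ 1 - M0 / b := by
    rw [sub_nonneg, div_le_one (by linarith)]
    exact hMb
  have hMb1 : 1 - M0 / b ≤ 1 := by
    have : 0 ≤ M0 / b := by positivity
    linarith
  have hside : ∀ u : ℂ, u.re = ρ → |u.im| ≤ Ra → ‖f u‖ ≤ G * Real.exp (ℓ * (M0 + ρ) + κa * ℓ) := by
    intro u hu1 hu2
    refine (hf u hu1.ge (by linarith) hu2).trans ?_
    apply mul_le_mul_of_nonneg_left _ hG.le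
    apply Real.exp_le_exp.2
    rw [hu1]
    have h1 : (1 - M0 / b) * ρ ≤ 1 * ρ := mul_le_mul_of_nonneg_right hMb1 hρ.le
    have h2 : ℓ * (M0 + (1 - M0 / b) * ρ) ≤ ℓ * (M0 + ρ) :=
      mul_le_mul_of_nonneg_left (by linarith) hℓ0
    have h3 : 2 * κ2 * ℓ ≤ κa * ℓ := mul_le_mul_of_nonneg_right hκ2a hℓ0
    linarith
  have hA := HA ℓ (-ρ) (M0 + ρ) (M0 + ρ) G f hℓ0 hG ud.slow.1
    (by rw [abs_of_nonneg (by linarith)]; linarith) (by rw [abs_of_nonneg (by linarith)]; linarith)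
    (fun u hu1 hu2 => by
      rw [hfe u, norm_mul, hε, one_mul, Complex.norm_conj]
      refine hside _ ?_ ?_
      · rw [neg_re, conj_re, hu1, neg_neg]
      · rw [neg_im, conj_im, neg_neg]; exact hu2)
    (fun u hu1 hu2 => hside u (by rw [hu1]; ring) hu2)
    (fun u hu1 hu2 hu3 => by
      have hre : |u.re| ≤ 3 := abs_le.2 ⟨by linarith, by linarith⟩
      refine (ud.up u).trans ?_
      apply mul_le_mul_of_nonneg_left _ hG.le
      apply Real.exp_le_exp.2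
      have h3 := hwin u hre (by rw [hu3]; exact hRb)
      have h4 : K * (1 + ‖u‖ ^ 2) ≤ K * W := mul_le_mul_of_nonneg_left h3 (by linarith)
      have h5 : ℓ * max |u.re| ϑ0 ≤ ℓ * 3 :=
        mul_le_mul_of_nonneg_left (max_le hre (by linarith)) hℓ0
      linarith)
  intro r hr0 hrb
  rcases le_or_gt ρ r with h1 | h1
  · have h2 := hf (r : ℂ) (by simpa using h1) (by simpa using hrb) (by simp; linarith)
    rw [ofReal_re] at h2
    refine h2.trans ?_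
    apply mul_le_mul_of_nonneg_left _ hG.le
    apply Real.exp_le_exp.2
    have h3 : 2 * κ2 * ℓ ≤ κ * ℓ := mul_le_mul_of_nonneg_right (by linarith) hℓ0
    linarith
  · have h2 := hA (r : ℂ) (by rw [ofReal_re]; linarith) (by rw [ofReal_re]; linarith) (by simp)
    rw [ofReal_re] at h2
    refine h2.trans ?_
    apply mul_le_mul_of_nonneg_left _ hG.le
    apply Real.exp_le_exp.2
    rw [sub_self, zero_mul, add_zero]
    have h3 : ℓ * M0 ≤ ℓ * (M0 + (1 - M0 / b) * r) := by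
      apply mul_le_mul_of_nonneg_left _ hℓ0
      have := mul_nonneg hMb' hr0
      linarith
    have h4 : ℓ * ρ ≤ ℓ * (κ / 8) := mul_le_mul_of_nonneg_left hρκ hℓ0
    have h5 : ℓ * (M0 + ρ) = ℓ * M0 + ℓ * ρ := by ring
    have h6 : 0 ≤ κ * ℓ := by positivity
    linarith

/-- size on the critical line and a zero-free half-strip give bounds to the right -/
theorem aut_majv (m : ℕ) (hm : 1 ≤ m) {v a ε : ℝ} (hv0 : 0 < v) (hv1 : v ≤ 1 / 2) (ha0 : 0 ≤ a)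
    (hav : 2 * a ≤ v) (hε : 0 < ε) :
    ∃ R κ' C0 B : ℝ, 0 < κ' ∧ ∀ (N : ℝ) (μ : Fin m → ℂ) (α : Fin m → ℕ → ℂ) (e : ℂ) (Λ : ℂ → ℂ),
    DatumT (1 / 2) N μ α e Λ → ∀ y : ℝ, C0 ≤ cnd N μ y →
      (∀ s : ℂ, 1 / 2 + v + κ' < s.re → |s.im - y| ≤ R → Λ s ≠ 0) →
      (∀ v : ℝ, |v| ≤ R → ‖LL μ Λ (1 / 2 + ((y + v : ℝ) : ℂ) * I)‖ ≤
        Real.exp ((a + κ') * Real.log (cnd N μ y))) →
      ∀ r : ℝ, 0 ≤ r → r ≤ 1 / 2 → ‖LL μ Λ (1 / 2 + (r : ℂ) + (y : ℂ) * I)‖ ≤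
        Real.exp (B + (max (a * (1 - r / v)) 0 + ε) * Real.log (cnd N μ y)) := by
  have hm' : (1 : ℝ) ≤ m := by exact_mod_cast hm
  obtain ⟨B, hB, HS⟩ := sharpX m hm (show (0 : ℝ) ≤ 1 / 2 by norm_num) le_rfl
    (show (0 : ℝ) < 1 / 2 by norm_num) (by norm_num)
  have hlogB : 0 ≤ Real.log B := Real.log_nonneg hB
  obtain ⟨ρ0, hρ0d⟩ : ∃ ρ0 : ℝ, ρ0 = min ε 1 / 20 := ⟨_, rfl⟩
  have hρ0 : 0 < ρ0 := by rw [hρ0d]; have := lt_min hε one_pos; linarith
  have hρ1 : ρ0 ≤ 1 / 20 := by rw [hρ0d]; have := min_le_right ε 1; linarith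
  have hρε : 20 * ρ0 ≤ ε := by rw [hρ0d]; have := min_le_left ε 1; linarith
  have hK : 1 ≤ Real.log B + 20 * (6 * m) := by linarith
  obtain ⟨κ2, R2, ρ, ℓ2, hκ2, hρ, hρ', HM⟩ := majb rect_all (K := Real.log B + 20 * (6 * m))
    (K1 := 231 * m) (ϑ0 := 1 + 1 / 2 + 1 / 2 - 1 / 2) (b := v + 3 * ρ0) (M0 := 2 * a + ρ0) (κ := ρ0) hK
    (by positivity) (by norm_num) (by norm_num) (by linarith) (by linarith) (by linarith) (by linarith)
    hρ0 (fun ρ => 226 * m + 25 * m / ρ)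
  obtain ⟨κ3, hκ3d⟩ : ∃ κ3 : ℝ, κ3 = min κ2 ρ0 := ⟨_, rfl⟩
  have hκ3 : 0 < κ3 := by rw [hκ3d]; exact lt_min hκ2 hρ0
  have hκ31 : κ3 ≤ κ2 := by rw [hκ3d]; exact min_le_left _ _
  have hκ32 : κ3 ≤ ρ0 := by rw [hκ3d]; exact min_le_right _ _
  obtain ⟨R4, ℓ3, hR4, HP⟩ := prof_all (Real.log B + 20 * (6 * m)) (1 + 1 / 2 + 1 / 2 - 1 / 2) (v + ρ0)
    (2 * ρ0) κ3 (max R2 1) hK (by norm_num) (by norm_num) (by linarith) (by linarith) (by linarith)
    (by linarith) hκ3 (le_max_right _ _)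
  obtain ⟨W, hW⟩ : ∃ W : ℝ, W = |ℓ2| + |ℓ3| + 14 * m * (a + ρ0 / 2) / κ2 := ⟨_, rfl⟩
  have hW4 : 0 ≤ 14 * m * (a + ρ0 / 2) / κ2 := by positivity
  refine ⟨max R2 R4, ρ0 / 2, Real.exp (2 * W + 14 * m), 462 * m + 10 * m, by positivity, ?_⟩
  intro N μ α e Λ d y hC hzf hline r hr hr1
  obtain ⟨S, hslow, hfe, hzer, hne⟩ := HS N μ α e Λ d
  have hN1 := d.one_le
  have hNpos : 0 < N := by linarith
  have hN0 : (N : ℂ) ≠ 0 := by exact_mod_cast hNpos.ne'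
  have hL : 2 * W + 14 * m ≤ Real.log (cnd N μ y) := by
    have := Real.log_le_log (Real.exp_pos _) hC
    rwa [Real.log_exp] at this
  have hlo := gaD_re_ge d.one_le d.re_le y
  have hup := gaD_re_le d.one_le d.re_le y
  change 1 / 2 * Real.log (cnd N μ y) - 7 * m ≤ _ at hlo
  change _ ≤ 1 / 2 * Real.log (cnd N μ y) + 5 * m at hup
  obtain ⟨ℓ, hℓ⟩ : ∃ ℓ : ℝ, ℓ = (gaD N μ (3 / 2 + y * I)).re := ⟨_, rfl⟩
  obtain ⟨G, hG⟩ : ∃ G : ℝ, G = ‖gaf N μ (3 / 2 + y * I)‖ * Real.exp (-ℓ) := ⟨_, rfl⟩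
  have ha2 := le_abs_self ℓ2
  have ha3 := le_abs_self ℓ3
  have hb2 := abs_nonneg ℓ2
  have hb3 := abs_nonneg ℓ3
  have hW0 : 0 ≤ W := by rw [hW]; positivity
  have ud := ud_of_sharp S hslow (by norm_num) y
  rw [← hℓ, ← hG] at ud
  rw [← hℓ] at hlo hup
  have hWℓ : W ≤ ℓ := by linarith
  have hℓ0 : 0 ≤ ℓ := hW0.trans hWℓ
  obtain ⟨f, hf⟩ : ∃ f : ℂ → ℂ, f = fun u : ℂ => XX N Λ (1 / 2 + (y : ℂ) * I + u) := ⟨_, rfl⟩
  rw [← hf] at ud
  have hfu : ∀ u, f u = XX N Λ (1 / 2 + (y : ℂ) * I + u) := fun u => by rw [hf]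
  have hGpos := ud.hG
  have pf := HP ℓ G f (by linarith) ud (fun u hu1 hu2 h => by
    rw [hfu] at h
    unfold XX at h
    rcases mul_eq_zero.1 h with h | h
    · exact absurd (Complex.cpow_eq_zero_iff _ _ |>.1 h).1 hN0
    · have e1 : (1 / 2 + (y : ℂ) * I + u).re = 1 / 2 + u.re := by simp
      have e2 : (1 / 2 + (y : ℂ) * I + u).im - y = u.im := by simp
      refine hzf _ ?_ ?_ h
      · rw [e1]
        linarith
      · rw [e2]
        exact hu2.trans (le_max_right _ _))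
  rw [show v + ρ0 + 2 * ρ0 = v + 3 * ρ0 by ring] at pf
  have hmj := HM ℓ G f (fun u => LL μ Λ (1 / 2 + (y : ℂ) * I + u))
    (fun u => gaf N μ (1 / 2 + (y : ℂ) * I + u)) (by linarith) ud
    (Pf_mono' pf hκ31 (le_max_left _ _) hℓ0 hGpos)
    ((LL_diff d.entire).comp (differentiable_id.const_add _))
    (fun u => by
      show LL μ Λ _ = _
      rw [LL_eq hNpos, hfu])
    (fun u hu => by
      have := gam_inv hm hN1 d.re_le y hu
      rw [← hℓ, ← hG] at this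
      exact this)
    (fun u hu => by
      have := gam_up hm hN1 d.re_le y hρ hρ' hu
      rw [← hℓ, ← hG] at this
      exact this)
    (fun v hv => by
      show ‖LL μ Λ (1 / 2 + (y : ℂ) * I + (v : ℂ) * I)‖ ≤ _
      have h5 := hline v (hv.trans (le_max_left _ _))
      have e1 : (1 / 2 + ((y + v : ℝ) : ℂ) * I : ℂ) = 1 / 2 + (y : ℂ) * I + (v : ℂ) * I := by
        push_cast; ring
      rw [e1] at h5
      refine h5.trans (Real.exp_le_exp.2 ?_)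
      have h6 : Real.log (cnd N μ y) ≤ 2 * ℓ + 14 * m := by linarith
      have h7 : (a + ρ0 / 2) * Real.log (cnd N μ y) ≤ (a + ρ0 / 2) * (2 * ℓ + 14 * m) :=
        mul_le_mul_of_nonneg_left h6 (by positivity)
      have h8 : 14 * m * (a + ρ0 / 2) ≤ κ2 * ℓ := by
        have h9 : 14 * m * (a + ρ0 / 2) / κ2 ≤ ℓ := by linarith
        rw [div_le_iff₀ hκ2] at h9
        linarith
      linarith)
  obtain ⟨c, hc⟩ : ∃ c : ℝ, c = max (a * (1 - r / v)) 0 := ⟨_, rfl⟩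
  have hc0 : 0 ≤ c := by rw [hc]; exact le_max_right _ _
  have hc1 : a * (1 - r / v) ≤ c := by rw [hc]; exact le_max_left _ _
  rw [← hc]
  have hfr : ‖f r‖ ≤ G * Real.exp (ℓ * r + (2 * c + 5 * ρ0) * ℓ) := by
    rcases le_total r (v + 3 * ρ0) with hrb | hrb
    · refine (hmj r hr hrb).trans ?_
      apply mul_le_mul_of_nonneg_left _ hGpos.le
      apply Real.exp_le_exp.2
      have hb : 0 < v + 3 * ρ0 := by linarith
      have h6 : (2 * a + ρ0) * (1 - r / (v + 3 * ρ0)) ≤ 2 * c + 4 * ρ0 := by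
        have h7 : 0 ≤ r / (v + 3 * ρ0) := by positivity
        have h8 : 1 - r / (v + 3 * ρ0) ≤ (1 - r / v) + 3 * ρ0 / v := by
          have e1 : r / v - r / (v + 3 * ρ0) = r / (v + 3 * ρ0) * (3 * ρ0 / v) := by
            field_simp
            ring
          have h9 : r / (v + 3 * ρ0) ≤ 1 := by
            rw [div_le_one hb]
            exact hrb
          have h10 : r / (v + 3 * ρ0) * (3 * ρ0 / v) ≤ 1 * (3 * ρ0 / v) :=
            mul_le_mul_of_nonneg_right h9 (by positivity)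
          linarith
        have h11 : 2 * a * (1 - r / (v + 3 * ρ0)) ≤ 2 * a * ((1 - r / v) + 3 * ρ0 / v) :=
          mul_le_mul_of_nonneg_left h8 (by linarith)
        have h12 : 2 * a * (3 * ρ0 / v) ≤ 3 * ρ0 := by
          have e2 : 2 * a * (3 * ρ0 / v) = 3 * ρ0 * (2 * a / v) := by ring
          rw [e2]
          have h13 : 2 * a / v ≤ 1 := by
            rw [div_le_one hv0]
            exact hav
          nlinarith
        nlinarith
      have e3 : ℓ * (2 * a + ρ0 + (1 - (2 * a + ρ0) / (v + 3 * ρ0)) * r) + ρ0 * ℓ =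
          ℓ * r + ((2 * a + ρ0) * (1 - r / (v + 3 * ρ0)) + ρ0) * ℓ := by
        ring
      rw [e3]
      have := mul_le_mul_of_nonneg_right h6 hℓ0
      linarith
    · have h6 := pf.upp (r : ℂ) (by
        rw [ofReal_re, abs_of_nonneg hr]
        linarith [le_max_right R2 1]) (by simp)
      rw [ofReal_re, abs_of_nonneg hr, max_eq_left hrb] at h6
      refine h6.trans ?_
      apply mul_le_mul_of_nonneg_left _ hGpos.le
      apply Real.exp_le_exp.2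
      have h7 : κ3 * ℓ ≤ (2 * c + 5 * ρ0) * ℓ := mul_le_mul_of_nonneg_right (by linarith) hℓ0
      linarith
  have hfr' : ‖XX N Λ (1 / 2 + (y : ℂ) * I + r)‖ ≤
      (‖gaf N μ (3 / 2 + y * I)‖ * Real.exp (-(gaD N μ (3 / 2 + y * I)).re)) *
      Real.exp (ℓ * r + (2 * c + 5 * ρ0) * ℓ) := by
    rw [← hℓ, ← hG, ← hfu]
    exact hfr
  have h6 := LL_le_r hm hN1 d.re_le Λ y hr (by linarith) hfr'
  rw [← hℓ] at h6
  refine h6.trans (Real.exp_le_exp.2 ?_)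
  have h7 : (2 * c + 5 * ρ0) * ℓ ≤ (2 * c + 5 * ρ0) * (1 / 2 * Real.log (cnd N μ y) + 5 * m) :=
    mul_le_mul_of_nonneg_left hup (by positivity)
  have h8 : c ≤ 1 / 4 := by
    rw [hc]
    refine max_le ?_ (by norm_num)
    have : 0 ≤ r / v := by positivity
    nlinarith
  have hLp : 0 ≤ Real.log (cnd N μ y) := by linarith
  have h10 : 5 / 2 * ρ0 * Real.log (cnd N μ y) ≤ ε * Real.log (cnd N μ y) := by
    apply mul_le_mul_of_nonneg_right _ hLp
    linarith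
  have h11 : (2 * c + 5 * ρ0) * (5 * m) ≤ 1 * (5 * m) :=
    mul_le_mul_of_nonneg_right (by linarith) (by positivity)
  linarith


variable {m : ℕ} {P : Cls m}

theorem zf_ser (hm : 1 ≤ m) {v a : ℝ} (hv0 : 0 < v) (hv1 : v ≤ 1 / 2) (ha0 : 0 ≤ a)
    (hav : 2 * a ≤ v) (hZ : ZF P v) (hE : SE P a) (r : ℝ) (hr : 0 ≤ r) (hr1 : r ≤ 1 / 2) :
    SEr P r (max (a * (1 - r / v)) 0) := by
  intro ε hε
  obtain ⟨R, κ', C0, B, hκ', H⟩ := aut_majv m hm (v := v) (a := a) (ε := ε) hv0 hv1 ha0 hav hε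
  obtain ⟨B1, HB1⟩ := hE (κ' / 2) (by positivity)
  obtain ⟨C1, HZ⟩ := hZ (κ' / 2) (by positivity)
  obtain ⟨Bt, HT⟩ := aut_triv_r m hm
  obtain ⟨q, hq⟩ : ∃ q : ℝ, q = m * Real.log (1 + |R|) := ⟨_, rfl⟩
  have hq0 : 0 ≤ q := by
    rw [hq]
    exact mul_nonneg (Nat.cast_nonneg m) (Real.log_nonneg (by linarith [abs_nonneg R]))
  obtain ⟨C2, hC2⟩ : ∃ C2 : ℝ, C2 = max (max C0 (|C1| * (1 + |R|) ^ m))
      (Real.exp (2 * (|B1| + (a + κ' / 2) * q) / κ')) := ⟨_, rfl⟩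
  have hC20 : 0 < C2 := by rw [hC2]; exact (Real.exp_pos _).trans_le (le_max_right _ _)
  refine ⟨max B (|Bt| + 3 / 4 * Real.log C2), ?_⟩
  intro N μ α e Λ hP hS y
  have hN := hS.1.one_le
  have h1 : 1 ≤ cnd N μ y := cnd_pos hN μ y
  have hL0 : 0 ≤ Real.log (cnd N μ y) := Real.log_nonneg h1
  have hc0 : 0 ≤ (max (a * (1 - r / v)) 0 + ε) * Real.log (cnd N μ y) := by positivity
  rcases le_total C2 (cnd N μ y) with hC | hC
  · have h4 : 2 * (|B1| + (a + κ' / 2) * q) / κ' ≤ Real.log (cnd N μ y) := by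
      apply lt_log
      rw [hC2] at hC
      exact (le_max_right _ _).trans hC
    rw [div_le_iff₀ hκ'] at h4
    refine (H N μ α e Λ hS.1 y ?_ (fun z hz1 hz2 => ?_) (fun w hw => ?_) r hr hr1).trans ?_
    · rw [hC2] at hC
      exact ((le_max_left _ _).trans (le_max_left _ _)).trans hC
    · refine HZ N μ α e Λ hP hS z ?_ (by linarith)
      have h3 := cndm_shift (N := N) (by linarith) μ (hz2.trans (le_abs_self R))
      have h5 : 0 < (1 + |R|) ^ m := by positivity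
      have h6 : |C1| * (1 + |R|) ^ m ≤ cnd N μ y := by
        rw [hC2] at hC
        exact ((le_max_right _ _).trans (le_max_left _ _)).trans hC
      exact (le_abs_self C1).trans (le_of_mul_le_mul_right (h6.trans h3) h5)
    · refine (HB1 N μ α e Λ hP hS (y + w)).trans (Real.exp_le_exp.2 ?_)
      have h5 := logm_shift hN μ (y := y + w) (y' := y) (R := R) (by
        rw [show y - (y + w) = -w by ring, abs_neg]
        exact hw.trans (le_abs_self R))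
      rw [← hq] at h5
      have h6 := mul_le_mul_of_nonneg_left h5 (by positivity : 0 ≤ a + κ' / 2)
      have h8 := le_abs_self B1
      linarith
    · apply Real.exp_le_exp.2
      have := le_max_left B (|Bt| + 3 / 4 * Real.log C2)
      linarith
  · refine (HT N μ α e Λ hS.1 y r hr hr1).trans (Real.exp_le_exp.2 ?_)
    have h5 := Real.log_le_log (by linarith) hC
    have := le_max_right B (|Bt| + 3 / 4 * Real.log C2)
    have := le_abs_self Bt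
    linarith

/-- a zero-free half-plane and a bound on the critical line give a horizon -/
theorem zf_se_sh (hm : 1 ≤ m) {v a : ℝ} (hv0 : 0 < v) (hv1 : v ≤ 1 / 2) (ha0 : 0 ≤ a)
    (hav : 2 * a ≤ v) (hZ : ZF P v) (hE : SE P a) : SH P (v ^ 2 / (v - a)) := by
  have hva : 0 < v - a := by linarith
  obtain ⟨κ, hκd⟩ : ∃ κ : ℝ, κ = v ^ 2 / (v - a) := ⟨_, rfl⟩
  have hκm : κ * (v - a) = v ^ 2 := by rw [hκd]; field_simp
  have hκ : 0 < κ := by rw [hκd]; positivity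
  have hκv : v ≤ κ := by
    rw [hκd, le_div_iff₀ hva]
    nlinarith
  rw [← hκd]
  refine (sh_iff hm hκ).2 ⟨zf_mono hκv hZ, fun r hr hr1 => ser_mono ?_
    (zf_ser hm hv0 hv1 ha0 hav hZ hE r hr hr1)⟩
  refine max_le ?_ (by positivity)
  rcases le_total κ r with h | h
  · have h1 : 1 - r / v ≤ 0 := by
      rw [sub_nonpos, one_le_div hv0]
      linarith
    have h2 : a * (1 - r / v) ≤ 0 := mul_nonpos_of_nonneg_of_nonpos ha0 h1
    exact h2.trans (by positivity)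
  · rw [max_eq_left (by linarith), le_div_iff₀ (by positivity)]
    have h1 : v ^ 2 * (a * (1 - r / v) * (4 * κ)) ≤ v ^ 2 * (κ - r) ^ 2 := by
      have e1 : v ^ 2 * (a * (1 - r / v) * (4 * κ)) = 4 * κ * a * v * (v - r) := by
        field_simp
      rw [e1]
      -- v²(κ−r)² − 4κ a v (v − r), with κ (v − a) = v²
      have e2 : v ^ 2 * (κ - r) ^ 2 - 4 * κ * a * v * (v - r) = (v * r - κ * (v - 2 * a)) ^ 2 := by
        have e3 : v ^ 2 * κ ^ 2 - 4 * κ * a * v ^ 2 = κ ^ 2 * (v - 2 * a) ^ 2 := by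
          have e4 : κ ^ 2 * (v - 2 * a) ^ 2 = κ ^ 2 * v ^ 2 - 4 * a * κ * (κ * (v - a)) := by ring
          rw [e4, hκm]
          ring
        linear_combination e3
      nlinarith [sq_nonneg (v * r - κ * (v - 2 * a))]
    exact le_of_mul_le_mul_left h1 (by positivity)

end Run7.h833
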