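import Pool.Agent.Run7.h833.HfF
import Pool.Agent.H353R6.E16
import Pool.Agent.W12.UN.Slow

/-!
# Standard data from Euler products with finitely many bad primes
-/

set_option autoImplicit false

open Complex Set MeasureTheory intervalIntegral Filter Topology
open scoped ComplexConjugate NNReal ENNReal

namespace Run7.h833.HW

open Pool.Agent.W169.HF
open H353.E H353.F

variable {m : ℕ} {α : Fin m → ℕ → ℂ}

/-- a local factor close to one -/
lemma loc {p : ℕ} {s : ℂ} {x : ℝ} (hx : ∀ j, ‖α j p * ((p : ℕ) : ℂ) ^ (-s)‖ ≤ x) (hx0 : 0 ≤ x)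
    (hx2 : x ≤ 1 / 2) : ‖∏ j, (1 - α j p * ((p : ℕ) : ℂ) ^ (-s))⁻¹ - 1‖ ≤
      2 * m * Real.exp (2 * m) * x := by
  have h1 := Finset.norm_prod_one_add_sub_one_le (Finset.univ : Finset (Fin m))
    (fun j => (1 - α j p * ((p : ℕ) : ℂ) ^ (-s))⁻¹ - 1)
  simp only [add_sub_cancel] at h1
  have h2 : ∑ j : Fin m, ‖(1 - α j p * ((p : ℕ) : ℂ) ^ (-s))⁻¹ - 1‖ ≤ m * (2 * x) := by
    have h3 := Finset.sum_le_sum (s := (Finset.univ : Finset (Fin m))) fun j _ =>
      (fac_one (hx j) hx2).2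
    rw [Finset.sum_const, Finset.card_univ, Fintype.card_fin, nsmul_eq_mul] at h3
    exact h3
  set y : ℝ := ∑ j : Fin m, ‖(1 - α j p * ((p : ℕ) : ℂ) ^ (-s))⁻¹ - 1‖ with hy
  have hy0 : 0 ≤ y := Finset.sum_nonneg fun _ _ => norm_nonneg _
  have h4 : Real.exp y - 1 ≤ y * Real.exp y := by
    have h5 := Real.add_one_le_exp (-y)
    have h6 : Real.exp y * Real.exp (-y) = 1 := by rw [← Real.exp_add]; simp
    nlinarith [Real.exp_pos y]
  have h7 : Real.exp y ≤ Real.exp (2 * m) := by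
    apply Real.exp_le_exp.mpr
    have : (0 : ℝ) ≤ m := Nat.cast_nonneg m
    nlinarith
  refine h1.trans (h4.trans ?_)
  calc y * Real.exp y ≤ (m * (2 * x)) * Real.exp (2 * m) := by gcongr
    _ = 2 * m * Real.exp (2 * m) * x := by ring

/-- no zeros of the local denominators for `Re s > 1/2` -/
lemma den_ne (hα : ∀ j, ∀ p : ℕ, p.Prime → ‖α j p‖ ≤ Real.sqrt p) (p : Nat.Primes) (j : Fin m) {s : ℂ}
    (hs : 1 / 2 < s.re) : 1 - α j p * ((p : ℕ) : ℂ) ^ (-s) ≠ 0 := by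
  have h1 := term_le hα p j s
  have hp : (1 : ℝ) < ((p : ℕ) : ℝ) := by exact_mod_cast p.2.one_lt
  have h2 : ((p : ℕ) : ℝ) ^ (1 / 2 - s.re) < 1 :=
    Real.rpow_lt_one_of_one_lt_of_neg hp (by linarith)
  intro h
  have h3 : α j p * ((p : ℕ) : ℂ) ^ (-s) = 1 := (sub_eq_zero.1 h).symm
  rw [h3, norm_one] at h1
  linarith

lemma good_le {M : ℕ} (hα1 : ∀ j, ∀ p : ℕ, p.Prime → ¬ p ∣ M → ‖α j p‖ ≤ 1) {p : Nat.Primes}
    (hp : ¬ (p : ℕ) ∣ M) {δ : ℝ} {s : ℂ} (hs : 1 + δ < s.re) (j : Fin m) :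
    ‖α j p * ((p : ℕ) : ℂ) ^ (-s)‖ ≤ ((p : ℕ) : ℝ) ^ (-(1 + δ)) := by
  have hp1 : (1 : ℝ) ≤ ((p : ℕ) : ℝ) := by exact_mod_cast p.2.one_le
  rw [norm_mul, Complex.norm_natCast_cpow_of_pos p.2.pos, neg_re]
  calc _ ≤ 1 * ((p : ℕ) : ℝ) ^ (-s.re) := mul_le_mul_of_nonneg_right (hα1 j p p.2 hp) (by positivity)
    _ = ((p : ℕ) : ℝ) ^ (-s.re) := one_mul _
    _ ≤ _ := Real.rpow_le_rpow_of_exponent_le hp1 (by linarith)

lemma half {p : Nat.Primes} {δ : ℝ} (hδ : 0 < δ) : ((p : ℕ) : ℝ) ^ (-(1 + δ)) ≤ 1 / 2 := by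
  have hp : (2 : ℝ) ≤ ((p : ℕ) : ℝ) := by exact_mod_cast p.2.two_le
  calc ((p : ℕ) : ℝ) ^ (-(1 + δ)) ≤ ((p : ℕ) : ℝ) ^ (-1 : ℝ) := by
        apply Real.rpow_le_rpow_of_exponent_le (by linarith)
        linarith
    _ = ((p : ℕ) : ℝ)⁻¹ := Real.rpow_neg_one _
    _ ≤ 1 / 2 := by
        rw [one_div]
        exact inv_anti₀ (by norm_num) hp

/-- the Euler product for `Re s > 1` -/
lemma eul (hα : ∀ j, ∀ p : ℕ, p.Prime → ‖α j p‖ ≤ Real.sqrt p) {M : ℕ} (hM : M ≠ 0)
    (hα1 : ∀ j, ∀ p : ℕ, p.Prime → ¬ p ∣ M → ‖α j p‖ ≤ 1) {s : ℂ} (hs : 1 < s.re) :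
    DifferentiableAt ℂ (euler α) s ∧ euler α s ≠ 0 := by
  obtain ⟨δ, hδd⟩ : ∃ δ : ℝ, δ = (s.re - 1) / 2 := ⟨_, rfl⟩
  have hδ : 0 < δ := by rw [hδd]; linarith
  have hsδ : 1 + δ < s.re := by rw [hδd]; linarith
  obtain ⟨f, hf⟩ : ∃ f : Nat.Primes → ℂ → ℂ, 
      f = fun (p : Nat.Primes) (s : ℂ) => ∏ j, (1 - α j p * ((p : ℕ) : ℂ) ^ (-s))⁻¹ - 1 :=
    ⟨_, rfl⟩
  have hfd : ∀ p, ∀ z : ℂ, 1 + δ < z.re → DifferentiableAt ℂ (f p) z := by
    intro p z hz
    rw [hf]
    refine DifferentiableAt.sub_const ?_ _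
    refine DifferentiableAt.fun_finsetProd fun j _ => ?_
    refine DifferentiableAt.inv ?_ (den_ne hα p j (by linarith))
    have hp0 : ((p : ℕ) : ℂ) ≠ 0 := by exact_mod_cast p.2.ne_zero
    refine (DifferentiableAt.const_sub ?_ 1)
    refine DifferentiableAt.const_mul ?_ _
    exact DifferentiableAt.const_cpow differentiableAt_id.neg (Or.inl hp0)
  have hopen : IsOpen {z : ℂ | 1 + δ < z.re} := isOpen_lt continuous_const Complex.continuous_re
  have hsum : Summable (fun p : Nat.Primes => 2 * m * Real.exp (2 * m) * ((p : ℕ) : ℝ) ^ (-(1 + δ))) :=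
    (Nat.Primes.summable_rpow.mpr (by linarith)).mul_left _
  have hfin : {p : Nat.Primes | (p : ℕ) ∣ M}.Finite := by
    have h1 : ((fun p : Nat.Primes => (p : ℕ)) '' {p : Nat.Primes | (p : ℕ) ∣ M}).Finite := by
      refine (Set.finite_Iic M).subset ?_
      rintro _ ⟨p, hp, rfl⟩
      exact Nat.le_of_dvd (Nat.pos_of_ne_zero hM) hp
    exact Set.Finite.of_finite_image h1 (fun a _ b _ h => Subtype.ext h)
  have hbd : ∀ᶠ p : Nat.Primes in cofinite, ∀ z ∈ {z : ℂ | 1 + δ < z.re}, ‖f p z‖ ≤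
      2 * m * Real.exp (2 * m) * ((p : ℕ) : ℝ) ^ (-(1 + δ)) := by
    have : ∀ᶠ p : Nat.Primes in cofinite, ¬ (p : ℕ) ∣ M := by
      rw [Filter.eventually_cofinite]
      simpa using hfin
    filter_upwards [this] with p hp z hz
    rw [hf]
    exact loc (fun j => good_le hα1 hp hz j) (by positivity) (half hδ)
  have hU := Summable.hasProdLocallyUniformlyOn_one_add (f := f) hopen hsum hbd
    (fun p z hz => (hfd p z hz).continuousAt.continuousWithinAt)
  rw [hasProdLocallyUniformlyOn_iff_tendstoLocallyUniformlyOn] at hU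
  have hD : DifferentiableOn ℂ (fun z => ∏' p, (1 + f p z)) {z : ℂ | 1 + δ < z.re} := by
    refine hU.differentiableOn (Eventually.of_forall fun S => ?_) hopen
    intro z hz
    refine DifferentiableAt.differentiableWithinAt ?_
    exact DifferentiableAt.fun_finsetProd fun p _ => (hfd p z hz).const_add 1
  have he : (fun z => ∏' p, (1 + f p z)) = euler α := by
    funext z
    unfold euler
    rw [hf]
    simp only [add_sub_cancel]
  rw [he] at hD
  refine ⟨(hD s hsδ).differentiableAt (hopen.mem_nhds hsδ), ?_⟩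
  have h := tprod_one_add_ne_zero_of_summable (f := fun p => f p s) (fun p => ?_) ?_
  · rw [← he]
    exact h
  · rw [hf]
    simp only [add_sub_cancel]
    exact Finset.prod_ne_zero_iff.mpr fun j _ => inv_ne_zero (den_ne hα p j (by linarith))
  · refine Summable.of_norm_bounded_eventually hsum ?_
    filter_upwards [hbd] with p hp
    rw [norm_norm]
    exact hp s hsδ

/-- **Standard data.** -/
theorem hw_std (hm : 1 ≤ m) {N : ℝ} (hN : 1 ≤ N) {a : Fin m → ℂ} (ha : ∀ j, -1 / 2 ≤ (a j).re)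
    (hα : ∀ j, ∀ p : ℕ, p.Prime → ‖α j p‖ ≤ Real.sqrt p) {M : ℕ} (hM : M ≠ 0)
    (hα1 : ∀ j, ∀ p : ℕ, p.Prime → ¬ p ∣ M → ‖α j p‖ ≤ 1) {X : ℂ → ℂ} (hX : Differentiable ℂ X)
    (hord : ∃ A ρ : ℝ, ∀ s, ‖X s‖ ≤ Real.exp (A * (1 + ‖s‖) ^ ρ)) {ε : ℂ} (hε : ‖ε‖ = 1)
    (hfe : ∀ s : ℂ, X s = ε * conj (X (1 - conj s))) {σ : ℝ}
    (heq : ∀ s : ℂ, σ ≤ s.re → X s = ((N : ℂ) ^ (s / 2) * ∏ j, Gammaℝ (s + a j)) * euler α s) :
    Std N (fun j => -a j) α ε (fun s => (N : ℂ) ^ (-(s / 2)) * X s) := by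
  have hN0 : 0 < N := by linarith
  have hNc : (N : ℂ) ≠ 0 := by exact_mod_cast hN0.ne'
  have hre : ∀ j, ((fun j => -a j) j).re ≤ 1 / 2 := fun j => by
    have := ha j
    simp only [neg_re]
    linarith
  have gp := gaf_GP hm hN hre
  have hgaf : ∀ s : ℂ, gaf N (fun j => -a j) s = (N : ℂ) ^ (s / 2) * ∏ j, Gammaℝ (s + a j) := fun s => by
    unfold gaf
    simp only [sub_neg_eq_add]
  -- the formula for `Re s > 1`
  have hform : ∀ s : ℂ, 1 < s.re → X s = gaf N (fun j => -a j) s * euler α s := by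
    intro s hs
    have hopen : IsOpen {s : ℂ | 1 < s.re} := isOpen_lt continuous_const Complex.continuous_re
    have h1 : AnalyticOnNhd ℂ X {s : ℂ | 1 < s.re} := fun z _ => hX.analyticAt z
    have h2 : AnalyticOnNhd ℂ (fun s => gaf N (fun j => -a j) s * euler α s) {s : ℂ | 1 < s.re} := by
      refine DifferentiableOn.analyticOnNhd (fun z hz => ?_) hopen
      exact ((gp.der z (le_of_lt hz)).differentiableAt.mul
        (eul hα hM hα1 hz).1).differentiableWithinAt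
    have hz0 : ((max σ 1 + 1 : ℝ) : ℂ) ∈ {s : ℂ | 1 < s.re} := by
      have := le_max_right σ 1
      show 1 < (((max σ 1 + 1 : ℝ) : ℂ)).re
      rw [Complex.ofReal_re]
      linarith
    refine h1.eqOn_of_preconnected_of_eventuallyEq h2 (convex_halfSpace_re_gt 1).isPreconnected
      hz0 ?_ hs
    have h3 : ∀ᶠ z : ℂ in 𝓝 ((max σ 1 + 1 : ℝ) : ℂ), σ < z.re := by
      have := le_max_left σ 1
      exact (Complex.continuous_re.tendsto _).eventually (lt_mem_nhds (by
        rw [Complex.ofReal_re]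
        linarith))
    filter_upwards [h3] with z hz
    rw [heq z hz.le, hgaf]
  have hcp : ∀ s : ℂ, (N : ℂ) ^ (-(s / 2)) * (N : ℂ) ^ (s / 2) = 1 := fun s => by
    rw [← Complex.cpow_add _ _ hNc, neg_add_cancel, Complex.cpow_zero]
  refine ⟨{ one_le := hN
            re_le := hre
            norm_le := fun j p hp => by
              rw [← Real.sqrt_eq_rpow]
              exact hα j p hp
            norm_eq := hε
            entire := ?_
            euler := fun s hs => ?_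
            fe := fun s => ?_
            bdd := fun x y => ?_ }, fun s hs h0 => ?_⟩
  · refine Differentiable.mul (fun z => ?_) hX
    exact DifferentiableAt.const_cpow (by fun_prop) (Or.inl hNc)
  · rw [hform s (by linarith), hgaf, ← mul_assoc, ← mul_assoc, hcp, one_mul]
    simp only [sub_neg_eq_add]
    rfl
  · have e1 : conj ((N : ℂ) ^ (-((1 - conj s) / 2)) * X (1 - conj s)) =
        (N : ℂ) ^ (-((1 - s) / 2)) * conj (X (1 - conj s)) := by
      rw [map_mul]
      congr 1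
      rw [Complex.cpow_def_of_ne_zero hNc, Complex.cpow_def_of_ne_zero hNc, ← Complex.exp_conj, map_mul,
        ← Complex.ofReal_log hN0.le, Complex.conj_ofReal]
      congr 2
      simp [map_ofNat]
    show (N : ℂ) ^ (-(s / 2)) * X s = ε * (N : ℂ) ^ (1 / 2 - s) *
      conj ((N : ℂ) ^ (-((1 - conj s) / 2)) * X (1 - conj s))
    rw [e1, hfe s]
    have e2 : (N : ℂ) ^ (1 / 2 - s) * (N : ℂ) ^ (-((1 - s) / 2)) = (N : ℂ) ^ (-(s / 2)) := by
      rw [← Complex.cpow_add _ _ hNc]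
      congr 1
      ring
    calc _ = ε * (N : ℂ) ^ (-(s / 2)) * conj (X (1 - conj s)) := by ring
      _ = ε * ((N : ℂ) ^ (1 / 2 - s) * (N : ℂ) ^ (-((1 - s) / 2))) * conj (X (1 - conj s)) := by rw [e2]
      _ = _ := by ring
  · -- boundedness in vertical strips
    obtain ⟨b, hb⟩ : ∃ b : ℝ, b = max (max y (1 - x)) 4 := ⟨_, rfl⟩
    have hb1 : y ≤ b := by rw [hb]; exact (le_max_left _ _).trans (le_max_left _ _)
    have hb2 : 1 - x ≤ b := by rw [hb]; exact (le_max_right _ _).trans (le_max_left _ _)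
    have hb3 : 4 ≤ b := by rw [hb]; exact le_max_right _ _
    -- bound on `Re s = b`
    have hG : ∀ j, ∃ G : ℝ, 0 ≤ G ∧ ∀ s : ℂ, s.re = b → ‖Gammaℝ (s + a j)‖ ≤ G := fun j => by
      obtain ⟨G, hG0, hG⟩ := GammaR_bdd (b + |(a j).re|)
      refine ⟨G, hG0, fun s hs => hG _ ?_ ?_⟩
      · rw [add_re, hs]
        have := ha j
        linarith
      · rw [add_re, hs]
        have := le_abs_self (a j).re
        linarith
    choose G hG0 hG1 using hG
    obtain ⟨B, hB1, hB⟩ := euler_close m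
    obtain ⟨K, hK⟩ : ∃ K : ℝ, K = N ^ (b / 2) * (∏ j, G j) * (1 + B) := ⟨_, rfl⟩
    have hK0 : 0 ≤ K := by
      rw [hK]
      have : 0 ≤ ∏ j, G j := Finset.prod_nonneg fun j _ => hG0 j
      positivity
    have hright : ∀ s : ℂ, s.re = b → ‖X s‖ ≤ K := by
      intro s hs
      rw [hform s (by linarith), hgaf, norm_mul, norm_mul, hK]
      have h1 : ‖(N : ℂ) ^ (s / 2)‖ = N ^ (b / 2) := by
        rw [Complex.norm_cpow_eq_rpow_re_of_pos hN0]
        congr 1
        rw [show (2 : ℂ) = ((2 : ℝ) : ℂ) by norm_num, Complex.div_ofReal_re, hs]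
      have h2 : ‖∏ j, Gammaℝ (s + a j)‖ ≤ ∏ j, G j := by
        rw [norm_prod]
        exact Finset.prod_le_prod (fun _ _ => norm_nonneg _) fun j _ => hG1 j s hs
      have h3 : ‖euler α s‖ ≤ 1 + B := by
        have h4 := hB α hα s (by linarith)
        have h5 : (1 / 2 : ℝ) ^ s.re ≤ 1 :=
          Real.rpow_le_one (by norm_num) (by norm_num) (by linarith)
        have h6 := norm_sub_norm_le (euler α s) 1
        rw [norm_one] at h6
        nlinarith
      rw [h1]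
      have h0 : 0 ≤ ∏ j, G j := Finset.prod_nonneg fun j _ => hG0 j
      exact mul_le_mul (mul_le_mul_of_nonneg_left h2 (by positivity)) h3 (norm_nonneg _) (by positivity)
    have hleft : ∀ s : ℂ, s.re = 1 - b → ‖X s‖ ≤ K := by
      intro s hs
      rw [hfe s, norm_mul, hε, one_mul, Complex.norm_conj]
      refine hright _ ?_
      rw [sub_re, one_re, conj_re, hs]
      ring
    obtain ⟨A, ρ, hAρ⟩ := hord
    obtain ⟨c, K1, hc0, hc1, hK1, hgr⟩ := Pool.Agent.W12.UN.growth (1 - b) b (by linarith) A ρ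
    have hstrip : ∀ s : ℂ, 1 - b ≤ s.re → s.re ≤ b → ‖X s‖ ≤ K := by
      intro s h1 h2
      refine PhragmenLindelof.vertical_strip (hX.diffContOnCl) ⟨c, hc1, K1, ?_⟩ hleft hright h1 h2
      refine Asymptotics.IsBigO.of_bound 1 ?_
      filter_upwards [Filter.mem_inf_of_right (Filter.mem_principal_self _)] with z hz
      rw [one_mul, Real.norm_of_nonneg (Real.exp_pos _).le]
      exact (hAρ z).trans (Real.exp_le_exp.2 (hgr z hz.1 hz.2))
    -- the factor `N ^ (-s/2)`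
    refine ⟨Real.log (K + 1) + Real.log (N ^ (b / 2) + 1), fun s h1 h2 => ?_⟩
    have h3 := hstrip s (by linarith) (by linarith)
    have h4 : ‖(N : ℂ) ^ (-(s / 2))‖ ≤ N ^ (b / 2) := by
      rw [Complex.norm_cpow_eq_rpow_re_of_pos hN0]
      apply Real.rpow_le_rpow_of_exponent_le hN
      rw [neg_re, show (2 : ℂ) = ((2 : ℝ) : ℂ) by norm_num, Complex.div_ofReal_re]
      linarith
    have h5 : 0 < N ^ (b / 2) := Real.rpow_pos_of_pos hN0 _
    rw [norm_mul]
    have h6 : 0 ≤ Real.log (K + 1) := Real.log_nonneg (by linarith)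
    have h7 : 0 ≤ Real.log (N ^ (b / 2) + 1) := Real.log_nonneg (by linarith)
    calc ‖(N : ℂ) ^ (-(s / 2))‖ * ‖X s‖ ≤ (N ^ (b / 2) + 1) * (K + 1) :=
          mul_le_mul (by linarith) (by linarith) (norm_nonneg _) (by positivity)
      _ = Real.exp (Real.log (K + 1) + Real.log (N ^ (b / 2) + 1)) := by
          rw [Real.exp_add, Real.exp_log (by linarith), Real.exp_log (by linarith)]
          ring
      _ ≤ _ := by
          apply Real.exp_le_exp.2
          have := abs_nonneg s.im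
          nlinarith
  · have h1 := hform s hs
    have h2 : X s = 0 := by
      have h3 : (N : ℂ) ^ (-(s / 2)) ≠ 0 := by
        rw [Ne, Complex.cpow_eq_zero_iff]
        exact fun h => hNc h.1
      exact (mul_eq_zero.1 h0).resolve_left h3
    rw [h2] at h1
    rcases mul_eq_zero.1 h1.symm with h3 | h3
    · exact gp.ne s hs.le h3
    · exact (eul hα hM hα1 hs).2 h3

end Run7.h833.HW
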