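import Pool.Agent.Run7.h833.HzF
import Pool.Agent.Run7.h833.Cvx
import Pool.Agent.Run7.h517.T2P1
import Pool.Agent.W22.EH.EX
import Pool.Agent.W903.EH.BK
import Pool.Agent.W347.EH.KT

set_option autoImplicit false

/-!
# The exact horizon of reality
-/

namespace Run7.h833

open Complex Filter Topology MeasureTheory Set
open Pool.Agent.H24R2.JP (XX HH Om)
open Pool.Agent.H986R2.DBN (JT XT Ht)
open Pool.Agent.H986R2.K4 (ZB)
open Pool.Agent.W186.HZ
open Pool.Agent.W186.SN (UB)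
open Pool.Agent.W186.LH (phx jug Few Dx Ex LHyp few_iff ub_of)

lemma hor_mono {κ κ' : ℝ} (h : Hor κ) (hκ : κ ≤ κ') : Hor κ' := by
  obtain ⟨t0, ht0, h1⟩ := h
  refine ⟨t0, ht0, fun t h2 h3 z hz hzr => h1 t h2 h3 z hz (le_trans (Real.exp_le_exp.2 ?_) hzr)⟩
  exact div_le_div_of_nonneg_right hκ h2.le

/-- the forward direction -/
lemma horF {x y : ℝ} (hx : 0 < x) (hy0 : 0 ≤ y) (hyx : y ≤ x) (h : CT y) (hφ : UB (phx x)) (κ : ℝ)
    (hκ : 4 * x < κ) : Hor κ := by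
  obtain ⟨C, hC, hnz⟩ := Pool.Agent.H986R2.DBN.heatNZA
  obtain ⟨m, hm⟩ : ∃ m : ℝ, m = x / 2 + κ / 8 := ⟨_, rfl⟩
  have hm1 : x < m := by rw [hm]; linarith
  have hm2 : m < κ / 4 := by rw [hm]; linarith
  have hm0 : 0 < m := by linarith
  obtain ⟨T0, hT0, hf⟩ := fwdx hx hy0 hyx h hφ m (max m C) hm1 (le_max_left _ _)
  have hκ0 : 0 < κ := by linarith
  refine ⟨min (1 / 2) (min (κ / 4 - m) (κ / (2 * T0))), ?_, ?_⟩
  · exact lt_min (by norm_num) (lt_min (by linarith) (by positivity))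
  intro t ht0 ht1 z hz hzr
  have t1 : t < 1 / 2 := ht1.trans_le (min_le_left _ _)
  have t2 : t < κ / 4 - m := ht1.trans_le ((min_le_right _ _).trans (min_le_left _ _))
  have t3 : t < κ / (2 * T0) := ht1.trans_le ((min_le_right _ _).trans (min_le_right _ _))
  obtain ⟨τ, hτ⟩ : ∃ τ : ℝ, τ = t / 4 := ⟨_, rfl⟩
  have hτ0 : 0 < τ := by rw [hτ]; linarith
  have hτ8 : τ ≤ 1 / 8 := by rw [hτ]; linarith
  rw [Ht_XT ht0.le, ← hτ] at hz
  by_contra hne
  have hwr : (I * z / 2).re = -z.im / 2 := by simp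
  have hwi : (I * z / 2).im = z.re / 2 := by simp
  have hst := XT_strip hτ0.le hz
  have hsy := XT_sym _ hz
  rw [hwr] at hst hsy
  rw [hwi] at hsy
  obtain ⟨σ, hσ⟩ : ∃ σ : ℝ, σ = |-z.im / 2| := ⟨_, rfl⟩
  obtain ⟨T, hT⟩ : ∃ T : ℝ, T = |z.re / 2| := ⟨_, rfl⟩
  rw [← hσ] at hst hsy
  rw [← hT] at hsy
  have hσ0 : 0 < σ := by
    rw [hσ, abs_pos]
    intro h0
    apply hne
    linarith
  have hT1 : Real.exp (κ / t) ≤ 2 * T := by
    rw [hT, abs_div, abs_of_pos (by norm_num : (0 : ℝ) < 2)]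
    linarith
  have hTp : 0 < T := by
    have := Real.exp_pos (κ / t)
    linarith
  have hTT0 : T0 ≤ T := by
    have h1 := Real.add_one_le_exp (κ / t)
    have h2 : 2 * T0 < κ / t := by
      rw [lt_div_iff₀ ht0]
      rw [lt_div_iff₀ (by positivity)] at t3
      linarith
    linarith
  have hlog : κ / t ≤ Real.log 2 + Real.log T := by
    rw [← Real.log_mul (by norm_num) hTp.ne', Real.le_log_iff_exp_le (by positivity)]
    exact hT1
  have hOm : m ≤ 2 * τ * Om T := by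
    have e : 2 * τ * Om T = τ * Real.log T := by unfold Om; ring
    rw [e]
    have h1 : τ * (κ / t) ≤ τ * (Real.log 2 + Real.log T) := mul_le_mul_of_nonneg_left hlog hτ0.le
    have e2 : τ * (κ / t) = κ / 4 := by rw [hτ]; field_simp
    rw [e2] at h1
    have h2 : τ * Real.log 2 ≤ τ * 1 := mul_le_mul_of_nonneg_left (by linarith [Real.log_two_lt_d9]) hτ0.le
    have h3 : τ ≤ t := by rw [hτ]; linarith
    linarith only [h1, h2, h3, t2]
  rcases le_or_gt (2 * τ * Om T) (max m C) with hc | hc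
  · exact hf T τ hTT0 hτ0 hOm hc σ hσ0 hst hsy
  · refine hnz τ hτ0 hτ8 σ T hσ0 hst ?_ hsy
    have h1 : C < 2 * τ * Om T := (le_max_right _ _).trans_lt hc
    have e : 2 * τ * Om T = τ * Real.log T := by unfold Om; ring
    rw [e] at h1
    have h2 : C / τ ≤ Real.log T := by
      rw [div_le_iff₀ hτ0]; linarith
    calc Real.exp (C / τ) ≤ Real.exp (Real.log T) := Real.exp_le_exp.2 h2
      _ = T := Real.exp_log hTp

lemma asy_mono {a b : ℝ} (h : Asy a) (hab : a ≤ b) : Asy b := by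
  intro ε hε
  refine (h ε hε).subset ?_
  rintro s ⟨s1, s2⟩
  exact ⟨by linarith, s2⟩

lemma asy_lim {a : ℝ} (h : ∀ b : ℝ, a < b → Asy b) : Asy a := by
  intro ε hε
  refine (h (a + ε / 2) (by linarith) (ε / 2) (by linarith)).subset ?_
  rintro s ⟨s1, s2⟩
  exact ⟨by linarith, s2⟩

lemma ex_lim {σ μ : ℝ} (h : ∀ e : ℝ, 0 < e → Ex σ (μ + e)) : Ex σ μ := by
  intro ε hε
  obtain ⟨C, hC⟩ := h (ε / 2) (by linarith) (ε / 2) (by linarith)
  refine ⟨C, fun t ht => ?_⟩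
  have := hC t ht
  rwa [show μ + ε / 2 + ε / 2 = μ + ε by ring] at this

/-- few zeros off the line if there are none -/
lemma few_of_hor {κ κ' : ℝ} (hk : 0 < κ) (h : Hor κ) (hκ : κ < κ') : Few κ' := by
  intro δ ε hδ hε
  obtain ⟨t0, ht0, hh⟩ := h
  obtain ⟨t1, ht1⟩ : ∃ t1 : ℝ, t1 = min t0 (κ' - κ) := ⟨_, rfl⟩
  have ht10 : 0 < t1 := by rw [ht1]; exact lt_min ht0 (by linarith)
  refine ⟨t1, ht10, fun t h2 h3 T hT S hS => ?_⟩
  have h4 : t < t0 := h3.trans_le (by rw [ht1]; exact min_le_left _ _)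
  have h5 : t < κ' - κ := h3.trans_le (by rw [ht1]; exact min_le_right _ _)
  have hexp : Real.exp (κ / t) + 1 ≤ Real.exp (κ' / t) := by
    have e1 : κ' / t = κ / t + (κ' - κ) / t := by ring
    have e2 : 1 ≤ (κ' - κ) / t := by rw [le_div_iff₀ h2]; linarith
    have e3 := Real.add_one_le_exp ((κ' - κ) / t)
    have e4 : 1 ≤ Real.exp (κ / t) := Real.one_le_exp (by positivity)
    rw [e1, Real.exp_add]
    nlinarith
  have hemp : S = ∅ := by
    rw [Finset.eq_empty_iff_forall_notMem]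
    intro z hz
    obtain ⟨z1, z2, z3⟩ := hS z hz
    have h6 := hh t h2 h4 z z1 (by
      have := abs_le.1 z2
      have := le_abs_self z.re
      linarith)
    rw [h6, abs_zero] at z3
    linarith
  rw [hemp, Finset.sum_empty]
  have : 0 ≤ Real.log T := by
    apply Real.log_nonneg
    have := Real.exp_pos (κ / t)
    linarith
  positivity

/-- continuity of the exponent in `κ` -/
lemma par_move {κ κ' w η : ℝ} (hκ : 0 < κ) (hη : 0 ≤ η) (h1 : κ ≤ κ') (h2 : κ' ≤ κ + 4 * η) (h3 : 4 * η ≤ κ)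
    (hw : 0 ≤ w) : max (κ' / 4 - w) 0 ^ 2 / κ' ≤ max (κ / 4 - w) 0 ^ 2 / κ + η := by
  have h := Pool.Agent.W186.LH.phx_move (x := κ / 4) (x' := κ' / 4) (r := w) (η := η) (by positivity) hη
    (by linarith) (by linarith) (by linarith) hw
  unfold phx at h
  have hκ' : 0 < κ' := by linarith
  have e1 : max (κ' / 4 - w) 0 ^ 2 / (2 * (κ' / 4)) = 2 * (max (κ' / 4 - w) 0 ^ 2 / κ') := by
    field_simp
    ring
  have e2 : max (κ / 4 - w) 0 ^ 2 / (2 * (κ / 4)) = 2 * (max (κ / 4 - w) 0 ^ 2 / κ) := by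
    field_simp
    ring
  rw [e1, e2] at h
  linarith

/-- The exact horizon. -/
theorem hor_iff {κ : ℝ} (hκ : 0 < κ) : (∀ κ' : ℝ, κ < κ' → Hor κ') ↔
    Asy (1 / 2 + κ / 4) ∧ ∀ σ : ℝ, 1 / 2 ≤ σ → σ ≤ 1 → Ex σ (max (κ / 4 - (σ - 1 / 2)) 0 ^ 2 / κ) := by
  constructor
  · intro h
    refine ⟨asy_lim fun b hb => ?_, fun σ h1 h2 => ex_lim fun e he => ?_⟩
    · have := part_bwd (κ := 4 * (b - 1 / 2)) (by linarith) (h _ (by linarith))
      rwa [show 1 / 2 + 4 * (b - 1 / 2) / 4 = b by ring] at this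
    · obtain ⟨η, hη⟩ : ∃ η : ℝ, η = min e (κ / 4) := ⟨_, rfl⟩
      have hη0 : 0 < η := by rw [hη]; exact lt_min he (by positivity)
      have hη1 : η ≤ e := by rw [hη]; exact min_le_left _ _
      have hη2 : η ≤ κ / 4 := by rw [hη]; exact min_le_right _ _
      have hF := few_of_hor (by positivity) (h (κ + 2 * η) (by linarith)) (κ' := κ + 4 * η) (by linarith)
      have hE := (few_iff (by linarith)).1 hF σ h1 h2
      refine hE.mono ((par_move hκ hη0.le (by linarith) le_rfl (by linarith) (by linarith)).trans ?_)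
      linarith
  · rintro ⟨hA, hE⟩ κ' hκ'
    rcases le_or_gt 4 κ with h4 | h4
    · exact main.1 κ' (by linarith)
    · have e4 : 4 * (κ / 4) = κ := by ring
      have hD : Dx (κ / 4) := by
        intro r hr0 hr1
        have h3 := hE (1 / 2 + r) (by linarith) (by linarith)
        rw [e4]
        have e1 : 1 / 2 + r - 1 / 2 = r := by ring
        rw [e1] at h3
        exact h3
      have hU := ub_of (x := κ / 4) (by positivity) (by linarith) hD
      rcases lt_or_ge (κ / 4) (1 / 2) with h5 | h5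
      · have hA' : Pool.Agent.W186.DX.AF 0 (κ / 4) := (af_iff (by positivity)).2 hA
        exact horF (x := κ / 4) (y := κ / 4) (by positivity) (by positivity) le_rfl
          (ct_of_AF (by positivity) h5 hA') hU κ' (by linarith)
      · exact horF (x := κ / 4) (y := 1 / 2) (by positivity) (by norm_num) h5 ct_half hU κ' (by linarith)

/-! ### exponents -/

lemma fin_of_asy {θ θ' : ℝ} (h : Asy θ) (hθ : θ < θ') : Run7.h517.Fin' θ' := by
  have h1 := h (θ' - θ) (by linarith)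
  rw [show θ + (θ' - θ) = θ' by ring] at h1
  obtain ⟨M, hM⟩ := (h1.image fun s => |s.im|).bddAbove
  refine ⟨M + 1, fun s hs hT hz => ?_⟩
  have := hM ⟨s, ⟨hs, hz⟩, rfl⟩
  simp only at this
  linarith

lemma ex_of_ZB {y σ : ℝ} (h : ZB y) (hσ : 1 / 2 + y < σ) : Ex σ 0 := by
  refine Pool.Agent.W186.LH.Ex_of _ _ le_rfl fun ε hε => ?_
  obtain ⟨t1, ht1, hz⟩ := h (min ε (σ - 1 / 2 - y)) (lt_min hε (by linarith))
  refine ⟨t1, fun t ht => ?_⟩
  have e1 : ((σ : ℂ) + t * I).re = σ := by simp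
  have e2 : ((σ : ℂ) + t * I).im = t := by simp
  obtain ⟨-, -, -, h4⟩ := hz ((σ : ℂ) + t * I) (by
    rw [e1]
    have := min_le_right ε (σ - 1 / 2 - y)
    linarith) (by rw [e2]; exact ht)
  rw [e2] at h4
  refine h4.trans (Real.rpow_le_rpow_of_exponent_le (by linarith) ?_)
  rw [zero_add]
  exact min_le_left _ _

lemma ex_of_asy {y σ : ℝ} (hy : 0 ≤ y) (h : Asy (1 / 2 + y)) (hσ : 1 / 2 + y < σ) : Ex σ 0 := by
  obtain ⟨b, hb⟩ : ∃ b : ℝ, b = (1 / 2 + y + σ) / 2 := ⟨_, rfl⟩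
  rcases le_or_gt b 1 with h1 | h1
  · have := Run7.h517.zb_of_fin b (by linarith) h1 (fin_of_asy h (by linarith))
    exact ex_of_ZB this (by linarith)
  · exact ex_of_ZB (y := 1 / 2) Pool.Agent.H986R2.K4.a1 (by linarith)

/-- a chord is below the parabola -/
lemma chord_par {x y μ r : ℝ} (hy : 0 < y) (hμ : 0 ≤ μ) (hx : 0 < x) (hxy : y ≤ x) (h : y ^ 2 ≤ x * (y - μ))
    (hr : 0 ≤ r) : μ * (1 - r / y) ≤ max (x - r) 0 ^ 2 / (4 * x) := by
  rcases le_or_gt y r with h1 | h1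
  · have h2 : 1 - r / y ≤ 0 := by
      have : 1 ≤ r / y := by rw [le_div_iff₀ hy]; linarith
      linarith
    have h3 : μ * (1 - r / y) ≤ 0 := mul_nonpos_of_nonneg_of_nonpos hμ h2
    have h4 : 0 ≤ max (x - r) 0 ^ 2 / (4 * x) := by positivity
    linarith
  · rw [max_eq_left (by linarith), le_div_iff₀ (by positivity)]
    have e1 : μ * (1 - r / y) * (4 * x) = 4 * x * μ * (y - r) / y := by
      field_simp
    rw [e1, div_le_iff₀ hy]
    -- y s² - 4 x μ s + 4 x μ (x - y) ≥ 0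
    obtain ⟨s, hs⟩ : ∃ s : ℝ, s = x - r := ⟨_, rfl⟩
    have hr' : r = x - s := by rw [hs]; ring
    rw [hr']
    have h5 : 0 ≤ (y * s - 2 * x * μ) ^ 2 := sq_nonneg _
    have h6 : 0 ≤ 4 * x * μ * (x * (y - μ) - y ^ 2) := by
      apply mul_nonneg (by positivity)
      linarith
    have h7 : y * (4 * x * μ * (y - (x - s))) ≤ y * ((x - (x - s)) ^ 2 * y) := by nlinarith
    exact le_of_mul_le_mul_left h7 hy

/-- exponents from the growth at the centre and the zeros -/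
lemma dx_growth {x y μ : ℝ} (hy : 0 < y) (hy1 : y ≤ 1 / 2) (hμ : 0 ≤ μ) (hμy : μ < y) (hxy : y ^ 2 ≤ x * (y - μ))
    (hE : Ex (1 / 2) μ) (hA : Asy (1 / 2 + y)) : Dx x := by
  have hx0 : 0 < x := by
    by_contra hcon
    push Not at hcon
    have : x * (y - μ) ≤ 0 := mul_nonpos_of_nonpos_of_nonneg hcon (by linarith)
    nlinarith
  have hyx : y ≤ x := by
    have h1 : y * (y - μ) ≤ x * (y - μ) := by nlinarith
    exact le_of_mul_le_mul_right h1 (by linarith)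
  intro r hr0 hr1
  refine ex_lim fun e he => ?_
  obtain ⟨δ, hδ⟩ : ∃ δ : ℝ, δ = min (e * y) 1 := ⟨_, rfl⟩
  have hδ0 : 0 < δ := by rw [hδ]; exact lt_min (by positivity) one_pos
  have hδ1 : δ ≤ e * y := by rw [hδ]; exact min_le_left _ _
  have hδ2 : δ ≤ 1 := by rw [hδ]; exact min_le_right _ _
  have hp0 : 0 ≤ max (x - r) 0 ^ 2 / (4 * x) := by positivity
  rcases le_or_gt r (y + δ) with h1 | h1
  · have hE2 : Ex (1 / 2 + (y + δ)) 0 := ex_of_asy hy.le hA (by linarith)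
    have h3 := ex_cvx (σ1 := 1 / 2) (σ2 := 1 / 2 + (y + δ)) (μ1 := μ) (μ2 := 0) le_rfl (by linarith)
      (by linarith) hμ (by linarith) le_rfl one_pos hE hE2 (σ := 1 / 2 + r) (by linarith) (by linarith)
    refine h3.mono ?_
    have h4 := chord_par hy hμ hx0 hyx hxy hr0
    have hyd : 0 < y + δ := by linarith
    have e1 : (μ * (1 / 2 + (y + δ) - (1 / 2 + r)) + 0 * (1 / 2 + r - 1 / 2)) / (1 / 2 + (y + δ) - 1 / 2) =
        μ * (1 - r / (y + δ)) := by
      have : (1 / 2 + (y + δ) - 1 / 2) = y + δ := by ring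
      rw [this]
      field_simp
      ring
    rw [e1]
    have h5 : 1 - r / (y + δ) ≤ 1 - r / y + δ / y := by
      have h6 : r / y - r / (y + δ) = r / (y + δ) * (δ / y) := by
        field_simp
        ring
      have h7 : r / (y + δ) ≤ 1 := by rw [div_le_one hyd]; exact h1
      have h8 : r / (y + δ) * (δ / y) ≤ 1 * (δ / y) := mul_le_mul_of_nonneg_right h7 (by positivity)
      linarith
    have h9 : μ * (1 - r / (y + δ)) ≤ μ * (1 - r / y + δ / y) := mul_le_mul_of_nonneg_left h5 hμ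
    have h10 : μ * (δ / y) ≤ e := by
      have : δ / y ≤ e := by rw [div_le_iff₀ hy]; exact hδ1
      calc μ * (δ / y) ≤ 1 * (δ / y) := mul_le_mul_of_nonneg_right (by linarith) (by positivity)
        _ ≤ e := by linarith
    linarith
  · have hE2 : Ex (1 / 2 + r) 0 := ex_of_asy hy.le hA (by linarith)
    exact hE2.mono (by linarith)

/-- the horizon from the growth at the centre and the zeros -/
theorem hor_growth {y μ κ : ℝ} (hy1 : y ≤ 1 / 2) (hμ : 0 ≤ μ) (hμy : μ < y)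
    (hE : Ex (1 / 2) μ) (hA : Asy (1 / 2 + y)) (hκ : 4 * y ^ 2 / (y - μ) < κ) : Hor κ := by
  have hy : 0 < y := by linarith
  have hym : 0 < y - μ := by linarith
  obtain ⟨x, hx⟩ : ∃ x : ℝ, x = y ^ 2 / (y - μ) := ⟨_, rfl⟩
  have hxm : x * (y - μ) = y ^ 2 := by rw [hx]; field_simp
  have hx0 : 0 < x := by rw [hx]; positivity
  have hyx : y ≤ x := by
    have h1 : y * (y - μ) ≤ x * (y - μ) := by rw [hxm]; nlinarith
    exact le_of_mul_le_mul_right h1 (by linarith)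
  have hD : Dx x := dx_growth hy hy1 hμ hμy hxm.ge hE hA
  have h4 : 4 * x < κ := by
    rw [hx]
    calc 4 * (y ^ 2 / (y - μ)) = 4 * y ^ 2 / (y - μ) := by ring
      _ < κ := hκ
  apply (hor_iff (κ := 4 * x) (by positivity)).2 _ κ h4
  refine ⟨asy_mono hA (by linarith), fun σ h1 h2 => ?_⟩
  have h3 := hD (σ - 1 / 2) (by linarith) (by linarith)
  rw [show 1 / 2 + (σ - 1 / 2) = σ by ring] at h3
  rwa [show 4 * x / 4 = x by ring]

lemma ex_of_lh (h : LHyp) : Ex (1 / 2) 0 := by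
  intro ε hε
  obtain ⟨C, hC⟩ := h ε hε
  refine ⟨max C 0 * 2 ^ ε, fun t ht => ?_⟩
  have h3 := hC t
  have e1 : ((1 / 2 : ℝ) : ℂ) + t * I = 1 / 2 + t * I := by push_cast; ring
  rw [e1, zero_add]
  have h4 : (1 + |t|) ^ ε ≤ (2 * |t|) ^ ε := Real.rpow_le_rpow (by positivity) (by linarith) hε.le
  rw [Real.mul_rpow (by norm_num) (abs_nonneg _)] at h4
  calc ‖riemannZeta (1 / 2 + t * I)‖ ≤ C * (1 + |t|) ^ ε := h3
    _ ≤ max C 0 * (1 + |t|) ^ ε := mul_le_mul_of_nonneg_right (le_max_left _ _) (by positivity)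
    _ ≤ max C 0 * (2 ^ ε * |t| ^ ε) := mul_le_mul_of_nonneg_left h4 (le_max_right _ _)
    _ = _ := by ring

/-- the horizon under the Lindelof hypothesis -/
theorem hor_lind {θ κ : ℝ} (h : LHyp) (h1 : 1 / 2 ≤ θ) (h2 : θ ≤ 1) (hA : Asy θ) (hκ : 4 * (θ - 1 / 2) < κ) :
    Hor κ := by
  obtain ⟨y, hy⟩ : ∃ y : ℝ, y = min (1 / 2) ((θ - 1 / 2 + κ / 4) / 2) := ⟨_, rfl⟩
  rcases lt_or_ge 2 κ with h3 | h3
  · refine hor_growth (y := 1 / 2) (μ := 0) le_rfl le_rfl (by norm_num) (ex_of_lh h) ?_ (by norm_num; exact h3)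
    rw [show (1 / 2 + 1 / 2 : ℝ) = 1 by norm_num]
    exact asy_one
  · have h4 : (θ - 1 / 2 + κ / 4) / 2 ≤ 1 / 2 := by linarith
    rw [min_eq_right h4] at hy
    have hy0 : 0 < y := by rw [hy]; linarith
    refine hor_growth (y := y) (μ := 0) (by rw [hy]; exact h4) le_rfl hy0 (ex_of_lh h)
      (asy_mono hA (by rw [hy]; linarith)) ?_
    rw [sub_zero]
    have : 4 * y ^ 2 / y = 4 * y := by field_simp
    rw [this, hy]
    linarith

/-- unconditional exponents -/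
lemma dx_vdc : Dx (27 / 40) := by
  have hS : Pool.Agent.W186.EH.S_EX :=
    Pool.Agent.W22.EH.ex (Pool.Agent.W903.EH.bk Pool.Agent.W347.EH.kt) Pool.Agent.W903.EH.b1
  have hE1 : Ex (1 / 2) (1 / 6) := by
    refine Pool.Agent.W186.LH.Ex_of _ _ (by norm_num) fun ε hε => ?_
    obtain ⟨T0, hT0⟩ := hS ε hε
    refine ⟨T0, fun t ht => ?_⟩
    have := (hT0 t ht).1
    push_cast
    exact this
  have hE2 : Ex (5 / 7) (1 / 14) := by
    refine Pool.Agent.W186.LH.Ex_of _ _ (by norm_num) fun ε hε => ?_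
    obtain ⟨T0, hT0⟩ := hS ε hε
    refine ⟨T0, fun t ht => ?_⟩
    have := (hT0 t ht).2
    push_cast
    exact this
  intro r hr0 hr1
  rw [max_eq_left (by linarith)]
  rcases le_or_gt r (3 / 14) with h1 | h1
  · have h3 := ex_cvx (σ1 := 1 / 2) (σ2 := 5 / 7) (μ1 := 1 / 6) (μ2 := 1 / 14) le_rfl (by norm_num)
      (by norm_num) (by norm_num) (by norm_num) (by norm_num) (by norm_num) hE1 hE2 (σ := 1 / 2 + r)
      (by linarith) (by linarith)
    refine h3.mono ?_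
    rw [div_le_div_iff₀ (by norm_num) (by norm_num)]
    nlinarith [sq_nonneg (r - 3 / 40)]
  · refine ex_lim fun e he => ?_
    obtain ⟨δ, hδ⟩ : ∃ δ : ℝ, δ = min e 1 := ⟨_, rfl⟩
    have hδ0 : 0 < δ := by rw [hδ]; exact lt_min he one_pos
    have hδ1 : δ ≤ e := by rw [hδ]; exact min_le_left _ _
    have hδ2 : δ ≤ 1 := by rw [hδ]; exact min_le_right _ _
    have hE3 : Ex (1 + δ) 0 := ex_of_ZB (y := 1 / 2) Pool.Agent.H986R2.K4.a1 (by linarith)
    have h3 := ex_cvx (σ1 := 5 / 7) (σ2 := 1 + δ) (μ1 := 1 / 14) (μ2 := 0) (by norm_num) (by linarith)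
      (by linarith) (by norm_num) (by norm_num) le_rfl one_pos hE2 hE3 (σ := 1 / 2 + r)
      (by linarith) (by linarith)
    refine h3.mono ?_
    rw [div_le_iff₀ (by linarith)]
    have h4 : 0 ≤ (27 / 40 - r) ^ 2 / (4 * (27 / 40)) - (1 / 2 - r) / 4 := by
      have e1 : (27 / 40 - r) ^ 2 / (4 * (27 / 40)) - (1 / 2 - r) / 4 = 10 / 27 * (r - 27 / 80) ^ 2 + 1 / 640 := by
        ring
      rw [e1]
      positivity
    have h5 : (1 / 14 * (1 + δ - (1 / 2 + r)) + 0 * (1 / 2 + r - 5 / 7)) ≤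
        ((1 / 2 - r) / 4 + e) * (1 + δ - 5 / 7) := by
      nlinarith
    refine h5.trans (mul_le_mul_of_nonneg_right (by linarith) (by linarith))

theorem hor_uncond {κ : ℝ} (hκ : 27 / 10 < κ) : Hor κ := by
  apply (hor_iff (κ := 27 / 10) (by norm_num)).2 _ κ hκ
  refine ⟨asy_mono asy_one (by norm_num), fun σ h1 h2 => ?_⟩
  have h3 := dx_vdc (σ - 1 / 2) (by linarith) (by linarith)
  rw [show 1 / 2 + (σ - 1 / 2) = σ by ring] at h3
  rw [show (27 / 10 : ℝ) / 4 = 27 / 40 by norm_num]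
  rwa [show (4 * (27 / 40) : ℝ) = 27 / 10 by norm_num] at h3

end Run7.h833
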