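import Pool.Agent.W186.SN.JG
import Pool.Agent.W186.LH.Fin

set_option autoImplicit false

/-!
# Lower bound for `JT` near the line from a general majorant of `XX`
(adapted from `Pool.Agent.W186.HZ.JL2` and `Pool.Agent.W186.SN.JL3`)
-/

namespace Run7.h833

open Complex Filter Topology MeasureTheory Set
open Pool.Agent.H24R2.JP (XX HH Om)
open Pool.Agent.H986R2.DBN (JT XT)
open Pool.Agent.W186.HZ
open Pool.Agent.W186.SN

/-- All estimates at one height. -/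
lemma core_step3 {y m X g κ c θ ε1 ε2 R0 R ρ a0 T τ L σ b s H : ℝ} {a z w0 : ℂ} (hτ : 0 < τ)
    (hm : 0 < m) (hX : 0 < X) (h1 : m ≤ 2 * τ * L) (h2 : 2 * τ * L ≤ X) (hL : 0 < L)
    (hs2 : s ^ 2 = 1 / (2 * τ)) (hs1 : 1 ≤ s) (hsL2 : s ^ 2 ≤ L / m) (hσ0 : 0 ≤ 2 * σ + 2 * τ * L)
    (hg0 : 0 < g) (hg2 : y + g ≤ σ + 2 * τ * L) (hy0 : 0 ≤ y)
    (hρ0 : 0 < ρ) (hρ1 : ρ ≤ g / 2) (hρ2 : ρ ≤ 1 / 2)
    (ha0 : a0 = ρ / 5) (hκ0 : 0 < κ) (hκ3 : κ ≤ 1)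
    (hc1 : c ≤ 1 / 4) (hc4 : c ^ 2 / (4 * τ) ≤ κ / 16 * L) (hε10 : 0 < ε1) (hε12 : ε1 ≤ κ / 16)
    (hθ0 : 0 < θ) (hθ1 : θ ≤ ρ / 100000) (hθ2 : θ ≤ c) (hθ3 : θ ≤ ε1 / 3) (hθ4 : θ ≤ 2 * m)
    (hε21 : ε2 ≤ ε1) (hgr : 2 * L / m ≤ Real.exp (ε1 * L)) (hH : 0 < H)
    (hz : z = I * T + 2 * τ * a) (hσ : σ = 2 * τ * a.re) (hb : b = 2 * τ * a.im) (hbc : |b| ≤ c)
    (hzr : z.re = σ) (hzi : z.im = T + b) (hR0R : R0 ≤ R) (hR : σ + 2 * τ * L + 1 ≤ R)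
    (hL3 : 4 * (R + 1) ≤ κ * L) (hL4 : 1 ≤ ε1 * L)
    (hv1 : |w0.re - (σ + 2 * τ * L)| ≤ θ) (hv2 : |w0.im - (T + b)| ≤ θ)
    (s3 : Real.exp (L * (w0.re - ε2)) * H ≤ ‖XX w0‖)
    (hw2 : 1 / 2 / s * ‖Q XX s z w0‖ ≤ ‖∫ u in (-a0)..a0, Q XX s z (w0 + u)‖)
    (hnear : ∀ w : ℂ, 0 ≤ w.re → w.re ≤ R → |w.im - z.im| ≤ c → a0 ≤ |w.re - w0.re| →
      ‖Q XX s z w‖ ≤ Real.exp ((L * σ + τ * L ^ 2) - 3 / 4 * κ * L) * H)
    (ht : ∀ r : ℝ, R0 ≤ r →
      Real.exp (-(r ^ 2 / (4 * τ)) + a.re * r) * ‖XX (I * T + r)‖ ≤ Real.exp (-L - r) * H)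
    (hJi : IntegrableOn (Fj τ T a) (Ioi 0)) :
    Real.exp ((L * σ + τ * L ^ 2) - 4 * ε1 * L) * H ≤ ‖cexp (-(τ * a ^ 2)) * JT τ T a‖ := by
  have hv1' := abs_le.1 hv1
  have hv2' := abs_le.1 hv2
  have hbc' := abs_le.1 hbc
  have ha00 : 0 < a0 := by rw [ha0]; positivity
  obtain ⟨E, hE⟩ : ∃ E : ℝ, E = L * σ + τ * L ^ 2 := ⟨_, rfl⟩
  have hx0 : 0 < 2 * τ * L := by positivity
  have hEp : 0 ≤ E := by
    rw [hE]
    have e1 : L * σ + τ * L ^ 2 = L * (2 * σ + 2 * τ * L) / 2 := by ring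
    rw [e1]
    positivity
  have hmain := (main_term hτ hm h1 hL hθ0 hθ3 hθ4 hε21 hs2 hs1 hsL2 hgr hzr hv1 s3 hH.le).trans hw2
  rw [← hE] at hmain ⊢
  have hθa : θ ≤ a0 / 4 := by rw [ha0]; linarith only [hθ1, hρ0]
  have hva1 : y ≤ w0.re - a0 := by rw [ha0]; linarith only [hv1'.1, hg2, hρ1, hρ0, hθ1]
  have hva3 : a0 < w0.re := by rw [ha0]; linarith only [hv1'.1, hg2, hρ1, hρ0, hθ1, hy0]
  have hva2 : w0.re + a0 ≤ R := by rw [ha0]; linarith only [hv1'.2, hR, hρ2, hθ1]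
  have himb : |w0.im - T| ≤ 1 := by
    rw [abs_le]
    constructor <;> linarith only [hv2'.1, hv2'.2, hbc'.1, hbc'.2, hθ2, hc1]
  rw [← hE] at hnear
  have hκL : 0 < κ * L := by positivity
  have hmono : Real.exp (E - 3 / 4 * κ * L) * H ≤ Real.exp (E - κ * L / 2) * H := by
    have : E - 3 / 4 * κ * L ≤ E - κ * L / 2 := by linarith only [hκL]
    gcongr
  have hvert : ∀ x η : ℝ, (x = w0.re - a0 ∨ x = w0.re + a0) → η ∈ uIcc T w0.im →
      ‖Q XX s z (x + η * I)‖ ≤ Real.exp (E - κ * L / 2) * H := by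
    intro x η hx hη
    have e1 : ((x : ℂ) + η * I).re = x := by simp
    have e2 : ((x : ℂ) + η * I).im = η := by simp
    have hxy : 0 ≤ x := by
      rcases hx with rfl | rfl
      · linarith only [hva1, hy0]
      · linarith only [hva3, ha00]
    have hxR : x ≤ R := by
      rcases hx with rfl | rfl
      · linarith only [hva2, ha00]
      · linarith only [hva2]
    refine (hnear _ (by rw [e1]; exact hxy) (by rw [e1]; exact hxR) ?_ ?_).trans hmono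
    · rw [e2, hzi, abs_le]
      rw [mem_uIcc] at hη
      rcases hη with hη | hη
      · constructor <;> linarith only [hη.1, hη.2, hv2'.1, hv2'.2, hbc'.1, hbc'.2, hθ2]
      · constructor <;> linarith only [hη.1, hη.2, hv2'.1, hv2'.2, hbc'.1, hbc'.2, hθ2]
    · rw [e1]
      rcases hx with rfl | rfl
      · rw [sub_sub_cancel_left, abs_neg, abs_of_pos ha00]
      · rw [add_sub_cancel_left, abs_of_pos ha00]
  have hshift := shift (Q_diff Pool.Agent.H24R2.JP.B1h.XX_diff s z) T a0 _ w0 ha00 hvert himb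
  have hJ : ∫ r in Ioi (0 : ℝ), Q XX s z (I * T + r) = cexp (-(τ * a ^ 2)) * JT τ T a := by
    have e : JT τ T a = ∫ r in Ioi (0 : ℝ), Fj τ T a r := rfl
    rw [e, ← integral_const_mul]
    refine integral_congr_ae (Eventually.of_forall fun r => ?_)
    rw [hz]
    exact Q_Fj hτ hs2 a r
  have hQi : IntegrableOn (fun r : ℝ => Q XX s z (I * T + r)) (Ioi 0) := by
    have := hJi.const_mul (cexp (-(τ * a ^ 2)))
    refine this.congr (Eventually.of_forall fun r => ?_)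
    rw [hz]
    exact (Q_Fj hτ hs2 a r).symm
  have hB0 : 0 ≤ Real.exp (E - κ * L / 2) * H := by positivity
  have hhalf := half hQi hva3 ha00 hB0 (by
    intro r hr0 hra
    rcases le_or_gt r R0 with hrR | hrR
    · have e1 : (I * (T : ℂ) + r).re = r := by simp
      have e2 : (I * (T : ℂ) + r).im = T := by simp
      have h5 := hnear (I * T + r) (by rw [e1]; exact hr0.le) (by rw [e1]; exact hrR.trans hR0R)
        (by rw [e2, hzi, sub_add_cancel_left, abs_neg]; exact hbc) (by rw [e1]; exact hra)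
      refine h5.trans ?_
      have e3 : Real.exp (E - κ * L / 2) * H * Real.exp (-r) = Real.exp (E - κ * L / 2 + -r) * H := by
        rw [Real.exp_add]; ring
      rw [e3]
      have : E - 3 / 4 * κ * L ≤ E - κ * L / 2 + -r := by linarith only [hL3, hrR, hR0R]
      gcongr
    · rw [hz]
      exact pt_far hτ hL hs2 hκ0 hκ3 hEp hb hbc hc4 hH.le (ht r hrR.le))
  rw [hJ] at hhalf
  refine fin_num hH hκ0 hε10 (by linarith only [hε12]) ?_ hL4 (J := ‖∫ r in (w0.re - a0)..(w0.re + a0),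
      Q XX s z (I * T + r)‖ - Real.exp (E - κ * L / 2) * H) ?_ hhalf
  · have : 1 ≤ R := by linarith only [hR, hg2, hy0, hg0]
    linarith only [hL3, this]
  · linarith only [hmain, hshift]



/-- lower bound for `JT` with a general majorant, complex parameter -/
lemma jlc {y : ℝ} (hy0 : 0 ≤ y) (h : CT y) {φ : ℝ → ℝ} (hφ : UB φ) (m X C g κ : ℝ) (hm : 0 < m) (hX : m ≤ X)
    (hC : 0 ≤ C) (hg : 0 < g) (hκ0 : 0 < κ) (hκ3 : κ ≤ 1) : ∃ c : ℝ, 0 < c ∧ c ≤ 1 / 4 ∧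
    ∀ δ : ℝ, 0 < δ → ∃ T0 : ℝ, 400 ≤ T0 ∧
    ∀ T τ : ℝ, T0 ≤ T → 0 < τ → m ≤ 2 * τ * Om T → 2 * τ * Om T ≤ X → ∀ a : ℂ, 2 * τ * a.re ≤ C →
      0 ≤ 2 * (2 * τ * a.re) + 2 * τ * Om T → y + g ≤ 2 * τ * a.re + 2 * τ * Om T →
      |2 * τ * a.im| ≤ c →
      (∀ r : ℝ, 0 ≤ r → min (g / 2) (1 / 2) / 5 * (3 / 4) ≤ |r - (2 * τ * a.re + 2 * τ * Om T)| →
        φ r - (r - 2 * τ * a.re) ^ 2 / (2 * (2 * τ * Om T)) ≤ 2 * τ * a.re + 2 * τ * Om T / 2 - κ) →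
      Real.exp (τ * ((Om T + a.re) ^ 2 - a.im ^ 2) - δ * Om T) * ‖HH (I * T)‖ ≤ ‖JT τ T a‖ := by
  have hXp : 0 < X := by linarith
  -- constants
  obtain ⟨ρ, hρ⟩ : ∃ ρ : ℝ, ρ = min (g / 2) (1 / 2) := ⟨_, rfl⟩
  have hρ0 : 0 < ρ := by rw [hρ]; exact lt_min (by linarith) (by norm_num)
  have hρ1 : ρ ≤ g / 2 := by rw [hρ]; exact min_le_left _ _
  have hρ2 : ρ ≤ 1 / 2 := by rw [hρ]; exact min_le_right _ _
  obtain ⟨a0, ha0⟩ : ∃ a0 : ℝ, a0 = ρ / 5 := ⟨_, rfl⟩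
  have ha00 : 0 < a0 := by rw [ha0]; positivity
  obtain ⟨c, hc⟩ : ∃ c : ℝ, c = min (1 / 4) (κ * m / 8) := ⟨_, rfl⟩
  have hc0 : 0 < c := by rw [hc]; exact lt_min (by norm_num) (by positivity)
  have hc1 : c ≤ 1 / 4 := by rw [hc]; exact min_le_left _ _
  have hc2 : c ≤ κ * m / 8 := by rw [hc]; exact min_le_right _ _
  refine ⟨c, hc0, hc1, ?_⟩
  intro δ hδ
  obtain ⟨ε1, hε1⟩ : ∃ ε1 : ℝ, ε1 = min (min (δ / 8) (κ / 16)) (g / 2) := ⟨_, rfl⟩
  have hε10 : 0 < ε1 := by rw [hε1]; exact lt_min (lt_min (by linarith) (by linarith)) (by linarith)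
  have hε11 : ε1 ≤ δ / 8 := by rw [hε1]; exact (min_le_left _ _).trans (min_le_left _ _)
  have hε12 : ε1 ≤ κ / 16 := by rw [hε1]; exact (min_le_left _ _).trans (min_le_right _ _)
  have hε13 : ε1 ≤ g / 2 := by rw [hε1]; exact min_le_right _ _
  obtain ⟨θ, hθ⟩ : ∃ θ : ℝ, θ = min (min (ρ / 100000) c) (min (ε1 / 3) (2 * m)) := ⟨_, rfl⟩
  have hθ0 : 0 < θ := by
    rw [hθ]; exact lt_min (lt_min (by positivity) hc0) (lt_min (by linarith) (by linarith))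
  have hθ1 : θ ≤ ρ / 100000 := by rw [hθ]; exact (min_le_left _ _).trans (min_le_left _ _)
  have hθ2 : θ ≤ c := by rw [hθ]; exact (min_le_left _ _).trans (min_le_right _ _)
  have hθ3 : θ ≤ ε1 / 3 := by rw [hθ]; exact (min_le_right _ _).trans (min_le_left _ _)
  have hθ4 : θ ≤ 2 * m := by rw [hθ]; exact (min_le_right _ _).trans (min_le_right _ _)
  obtain ⟨ε2, hε2⟩ : ∃ ε2 : ℝ, ε2 = min ε1 (θ / X) := ⟨_, rfl⟩
  have hε20 : 0 < ε2 := by rw [hε2]; exact lt_min hε10 (by positivity)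
  have hε21 : ε2 ≤ ε1 := by rw [hε2]; exact min_le_left _ _
  have hε22 : ε2 ≤ θ / X := by rw [hε2]; exact min_le_right _ _
  obtain ⟨R0, T1, hR0, hT1, ht⟩ := tail m X C hm hX hC
  obtain ⟨R, hR⟩ : ∃ R : ℝ, R = max R0 (C + X + 2) := ⟨_, rfl⟩
  have hRR0 : R0 ≤ R := by rw [hR]; exact le_max_left _ _
  have hRCX : C + X + 2 ≤ R := by rw [hR]; exact le_max_right _ _
  obtain ⟨T2, hT2, hp⟩ := hφ ε1 R hε10 (hR0.trans hRR0)
  obtain ⟨T3, hT3, hl⟩ := profL hy0 h ε2 R hε20 (hR0.trans hRR0)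
  obtain ⟨T5, hT5, hJd⟩ := JT_diff
  obtain ⟨T6, hT6⟩ : ∃ T6 : ℝ, ∀ t : ℝ, T6 ≤ t → 2 * Om t / m ≤ Real.exp (ε1 * Om t) := by
    have h1 : Tendsto (fun x : ℝ => Real.exp (ε1 * x) / x) atTop atTop := by
      have := tendsto_exp_mul_div_rpow_atTop 1 ε1 hε10
      simpa using this
    have h2 := (h1.comp Om_tendsto).eventually_ge_atTop (2 / m)
    obtain ⟨t3, ht3⟩ := Filter.eventually_atTop.1 (h2.and (Om_tendsto.eventually_gt_atTop 0))
    refine ⟨t3, fun t ht => ?_⟩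
    obtain ⟨h3, h4⟩ := ht3 t ht
    simp only [Function.comp] at h3
    rw [le_div_iff₀ h4] at h3
    calc 2 * Om t / m = 2 / m * Om t := by ring
      _ ≤ _ := h3
  obtain ⟨T4, hT4, hO⟩ := Om_large (max (max (4 * X + 1) (X * (30000 ^ 2 + 25 / ρ ^ 2)))
    (max (4 / κ * (R + 1)) (1 / ε1)))
  refine ⟨max (max (max T1 T2) (max T3 T4)) (max T5 T6), ?_, ?_⟩
  · exact hT5.trans ((le_max_left _ _).trans (le_max_right _ _))
  intro T τ hT hτ h1 h2 a haC hag1 hag2 hac hoff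
  have g0 : max (max T1 T2) (max T3 T4) ≤ T := (le_max_left _ _).trans hT
  have g1 : T1 ≤ T := ((le_max_left _ _).trans (le_max_left _ _)).trans g0
  have g2 : T2 ≤ T := ((le_max_right _ _).trans (le_max_left _ _)).trans g0
  have g3 : T3 ≤ T := ((le_max_left _ _).trans (le_max_right _ _)).trans g0
  have g4 : T4 ≤ T := ((le_max_right _ _).trans (le_max_right _ _)).trans g0
  have g5 : T5 ≤ T := ((le_max_left _ _).trans (le_max_right _ _)).trans hT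
  have g6 : T6 ≤ T := ((le_max_right _ _).trans (le_max_right _ _)).trans hT
  have hTp : 0 < T := by linarith only [hT1, g1]
  have hOm := hO T g4
  have hOm1 : 4 * X + 1 ≤ Om T := ((le_max_left _ _).trans (le_max_left _ _)).trans hOm
  have hOm2 : X * (30000 ^ 2 + 25 / ρ ^ 2) ≤ Om T := ((le_max_right _ _).trans (le_max_left _ _)).trans hOm
  have hOm3 : 4 / κ * (R + 1) ≤ Om T := ((le_max_left _ _).trans (le_max_right _ _)).trans hOm
  have hOm4 : 1 / ε1 ≤ Om T := ((le_max_right _ _).trans (le_max_right _ _)).trans hOm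
  clear hOm
  have hgr := hT6 T g6
  have hLp : 0 < Om T := by linarith only [hOm1, hXp]
  have hOm3' : 4 * (R + 1) ≤ κ * Om T := by
    rw [div_mul_eq_mul_div, div_le_iff₀ hκ0] at hOm3
    linarith only [hOm3]
  have hOm4' : 1 ≤ ε1 * Om T := by
    rw [div_le_iff₀ hε10] at hOm4
    linarith only [hOm4]
  have hτ8 : τ ≤ 1 / 8 := by
    by_contra hcon
    push Not at hcon
    have : 1 / 8 * Om T ≤ τ * Om T := by gcongr
    linarith only [this, h2, hOm1, hXp]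
  obtain ⟨hJi, -⟩ := hJd T τ g5 hτ hτ8 a
  obtain ⟨s, hs⟩ : ∃ s : ℝ, s = Real.sqrt (1 / (2 * τ)) := ⟨_, rfl⟩
  have hs2 : s ^ 2 = 1 / (2 * τ) := by rw [hs]; exact Real.sq_sqrt (by positivity)
  have hs0 : 0 ≤ s := by rw [hs]; exact Real.sqrt_nonneg _
  have hsL : Om T / X ≤ s ^ 2 := by
    rw [hs2, div_le_div_iff₀ hXp (by positivity)]; linarith only [h2]
  have hsL2 : s ^ 2 ≤ Om T / m := by
    rw [hs2, div_le_div_iff₀ (by positivity) hm]; linarith only [h1]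
  have hs3 : 30000 ^ 2 + 25 / ρ ^ 2 ≤ s ^ 2 := by
    refine le_trans ?_ hsL
    rw [le_div_iff₀ hXp]; linarith only [hOm2]
  have hs4 : 30000 ≤ s := by
    have h0 : (0 : ℝ) ≤ 25 / ρ ^ 2 := by positivity
    exact (sq_le_sq₀ (by norm_num) hs0).1 (by linarith only [h0, hs3])
  have hs5 : 5 / ρ ≤ s := by
    refine (sq_le_sq₀ (by positivity) hs0).1 ?_
    rw [div_pow]
    have e : (5 : ℝ) ^ 2 = 25 := by norm_num
    rw [e]
    linarith only [hs3]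
  have hs1 : 1 ≤ s := by linarith only [hs4]
  obtain ⟨σ, hσ⟩ : ∃ σ : ℝ, σ = 2 * τ * a.re := ⟨_, rfl⟩
  obtain ⟨b, hb⟩ : ∃ b : ℝ, b = 2 * τ * a.im := ⟨_, rfl⟩
  obtain ⟨z, hz⟩ : ∃ z : ℂ, z = I * T + 2 * τ * a := ⟨_, rfl⟩
  obtain ⟨p, hpd⟩ : ∃ p : ℂ, p = z + ((2 * τ * Om T : ℝ) : ℂ) := ⟨_, rfl⟩
  have hzr : z.re = σ := by rw [hz, hσ]; simp [Complex.mul_re]
  have hzi : z.im = T + b := by rw [hz, hb]; simp [Complex.mul_im]
  rw [← hσ] at haC hag1 hag2 hoff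
  rw [← hb] at hac
  have hρb : |b| + ρ ≤ 1 := by linarith only [hac, hc1, hρ2]
  have hq1 : y + ε2 ≤ σ + 2 * τ * Om T - ρ := by linarith only [hag2, hρ1, hε21, hε13]
  have hq2 : σ + 2 * τ * Om T + ρ ≤ R := by linarith only [haC, h2, hρ2, hRCX]
  have hLc : Lc ρ s θ (Om T : ℂ) p XX := lc_of (R := R) (y := y) hτ hs2 hXp h2 hθ0.le hε22 hLp.le
    (fun u h1 h2 h3 => ⟨(hl T g3 u h1 h2 h3).1, (hl T g3 u h1 h2 h3).2.1⟩) hpd hzr hzi hρb hq1 hq2
  obtain ⟨w0, hw0, -, hw2⟩ := sad hρ0 hρ2 hs4 hs5 hθ0 hθ1 hLc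
  have hzz : p - (Om T : ℂ) / (s : ℂ) ^ 2 = z := by
    have e1 : ((s : ℂ)) ^ 2 = ((1 / (2 * τ) : ℝ) : ℂ) := by rw [← hs2]; push_cast; ring
    rw [e1, hpd]
    have : (τ : ℂ) ≠ 0 := by exact_mod_cast hτ.ne'
    push_cast
    field_simp
    ring
  rw [hzz, ← ha0] at hw2
  have hpr : p.re = σ + 2 * τ * Om T := by rw [hpd, Complex.add_re, Complex.ofReal_re, hzr]
  have hpi : p.im = T + b := by rw [hpd, Complex.add_im, Complex.ofReal_im, hzi, add_zero]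
  have hv1 : |w0.re - (σ + 2 * τ * Om T)| ≤ θ := by
    have := (Complex.abs_re_le_norm (w0 - p)).trans hw0
    rwa [Complex.sub_re, hpr] at this
  have hv2 : |w0.im - (T + b)| ≤ θ := by
    have := (Complex.abs_im_le_norm (w0 - p)).trans hw0
    rwa [Complex.sub_im, hpi] at this
  have hv1' := abs_le.1 hv1
  have hv2' := abs_le.1 hv2
  have hac' := abs_le.1 hac
  have hre0 : (w0 - I * (T : ℂ)).re = w0.re := by simp
  have him0 : (w0 - I * (T : ℂ)).im = w0.im - T := by simp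
  have himb : |w0.im - T| ≤ 1 := by
    rw [abs_le]; constructor <;> linarith only [hv2'.1, hv2'.2, hac'.1, hac'.2, hθ2, hc1]
  obtain ⟨s1, -, s3, -⟩ := hl T g3 (w0 - I * T)
    (by rw [hre0]; linarith only [hv1'.1, hq1, hρ0, hθ1])
    (by rw [hre0]; linarith only [hv1'.2, hq2, hρ0, hθ1]) (by rw [him0]; exact himb)
  rw [show I * (T : ℂ) + (w0 - I * T) = w0 by ring] at s1 s3
  rw [hre0] at s3
  have hHp : 0 < ‖HH (I * T)‖ := by
    have h0 : HH (I * T) ≠ 0 := by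
      apply Pool.Agent.H24R2.JP.StirAux.HH_ne
      simpa using hTp
    exact norm_pos_iff.2 h0
  have hc4 : c ^ 2 / (4 * τ) ≤ κ / 16 * Om T := by
    refine (inv_le hτ hm h1 (by positivity)).trans ?_
    rw [div_le_iff₀ (by positivity)]
    have e1 : c ^ 2 ≤ κ * m / 8 := by
      have : c * c ≤ 1 * (κ * m / 8) := mul_le_mul (by linarith only [hc1]) hc2 hc0.le (by norm_num)
      linarith only [this]
    have e2 : c ^ 2 * Om T ≤ κ * m / 8 * Om T := mul_le_mul_of_nonneg_right e1 hLp.le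
    linarith only [e2]
  have hfin := core_step3 (a := a) (w0 := w0) (z := z) (R0 := R0) (R := R) (T := T) (L := Om T) (b := b)
    hτ hm hXp h1 h2 hLp hs2 hs1 hsL2 hag1 hg
    (by linarith only [hag2] : y + g ≤ σ + 2 * τ * Om T) hy0 hρ0 hρ1 hρ2 ha0 hκ0 hκ3 hc1 hc4 hε10 hε12
    hθ0 hθ1 hθ2 hθ3 hθ4 hε21 hgr hHp hz hσ hb hac hzr hzi hRR0
    (by linarith only [haC, h2, hRCX]) hOm3' hOm4' hv1 hv2 s3 hw2
    (by
      intro w q1 q2 q3 q4
      have e1 : (w - I * (T : ℂ)).re = w.re := by simp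
      have e2 : (w - I * (T : ℂ)).im = w.im - T := by simp
      have q5 : |w.im - T| ≤ 1 := by
        rw [hzi, abs_le] at q3
        rw [abs_le]
        constructor <;> linarith only [q3.1, q3.2, hac'.1, hac'.2, hc1]
      have h5 := hp T g2 (w - I * T) (by rw [e1]; exact q1) (by rw [e1]; exact q2)
        (by rw [e2]; exact q5)
      rw [show I * (T : ℂ) + (w - I * T) = w by ring, e1] at h5
      refine pt_near2 hτ hLp hs2 (hoff w.re q1 ?_) hκ0 hε12 hc4 hzr q3 h5 hHp.le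
      have h6 : |w.re - w0.re| ≤ |w.re - (σ + 2 * τ * Om T)| + |w0.re - (σ + 2 * τ * Om T)| := by
        have := abs_sub (w.re - (σ + 2 * τ * Om T)) (w0.re - (σ + 2 * τ * Om T))
        rwa [show w.re - (σ + 2 * τ * Om T) - (w0.re - (σ + 2 * τ * Om T)) = w.re - w0.re by ring] at this
      rw [← hρ, ← ha0]
      linarith only [h6, q4, hv1, hθ1, ha0, hρ0])
    (fun r hr => ht T τ a.re r g1 hτ h1 h2 (by rw [← hσ]; exact haC) hr) hJi
  rw [norm_mul, Complex.norm_exp] at hfin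
  have e2 : (-((τ : ℂ) * a ^ 2)).re = -(τ * (a.re ^ 2 - a.im ^ 2)) := by
    rw [Complex.neg_re, Complex.re_ofReal_mul, re_sq]
  rw [e2] at hfin
  have e5 : ‖JT τ T a‖ = Real.exp (τ * (a.re ^ 2 - a.im ^ 2)) *
      (Real.exp (-(τ * (a.re ^ 2 - a.im ^ 2))) * ‖JT τ T a‖) := by
    rw [← mul_assoc, ← Real.exp_add]; simp
  rw [e5]
  calc Real.exp (τ * ((Om T + a.re) ^ 2 - a.im ^ 2) - δ * Om T) * ‖HH (I * T)‖
      ≤ Real.exp (τ * (a.re ^ 2 - a.im ^ 2) + ((Om T * σ + τ * Om T ^ 2) - 4 * ε1 * Om T)) * ‖HH (I * T)‖ := by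
        have e6 : τ * ((Om T + a.re) ^ 2 - a.im ^ 2) = τ * (a.re ^ 2 - a.im ^ 2) + (Om T * σ + τ * Om T ^ 2) := by
          rw [hσ]; ring
        have e7 : 8 * ε1 * Om T ≤ δ * Om T := mul_le_mul_of_nonneg_right (by linarith only [hε11]) hLp.le
        have e8 : 0 < ε1 * Om T := by positivity
        have : τ * ((Om T + a.re) ^ 2 - a.im ^ 2) - δ * Om T ≤
            τ * (a.re ^ 2 - a.im ^ 2) + ((Om T * σ + τ * Om T ^ 2) - 4 * ε1 * Om T) := by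
          rw [e6]
          linarith only [e7, e8]
        gcongr
    _ = Real.exp (τ * (a.re ^ 2 - a.im ^ 2)) *
        (Real.exp ((Om T * σ + τ * Om T ^ 2) - 4 * ε1 * Om T) * ‖HH (I * T)‖) := by
        rw [Real.exp_add, mul_assoc]
    _ ≤ _ := by gcongr


end Run7.h833
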