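import Pool.Agent.H986R2.K4.Lap

set_option autoImplicit false

/-!
# Laplace's method for the heat kernel, in the horizontal and in the vertical direction
-/

namespace Run7.h833.LP

open Complex Filter Topology MeasureTheory Set
open Pool.Agent.H986R2.K4.LapAux (core)

/-- `F x * exp (- σ (x - z)² / (4 τ))` -/
noncomputable def Psi (F : ℂ → ℂ) (σ τ : ℝ) (z x : ℂ) : ℂ := F x * cexp (-(σ * (x - z) ^ 2) / (4 * τ))

/-- the control on a ball -/
def Hyp (F : ℂ → ℂ) (L η ρ : ℝ) (xs : ℂ) : Prop :=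
  ∀ x ∈ Metric.ball xs ρ, DifferentiableAt ℂ F x ∧ F x ≠ 0 ∧ ‖logDeriv F x - L‖ ≤ η * L

section local_

variable {F : ℂ → ℂ} {L η ρ : ℝ} {xs : ℂ}

lemma diffOn (h : Hyp F L η ρ xs) : DifferentiableOn ℂ F (Metric.ball xs ρ) :=
  fun w hw => (h w hw).1.differentiableWithinAt

lemma ld_diffOn (h : Hyp F L η ρ xs) : DifferentiableOn ℂ (logDeriv F) (Metric.ball xs ρ) := by
  have h1 := (diffOn h).deriv Metric.isOpen_ball
  exact h1.div (diffOn h) fun w hw => (h w hw).2.1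

/-- `logDeriv F` is Lipschitz on the smaller ball -/
lemma ld_lip (hL : 0 ≤ L) (hρ0 : 0 < ρ) (h : Hyp F L η ρ xs) {w1 w2 : ℂ}
    (h1 : w1 ∈ Metric.ball xs (4 / 5 * ρ)) (h2 : w2 ∈ Metric.ball xs (4 / 5 * ρ)) :
    ‖logDeriv F w1 - logDeriv F w2‖ ≤ (10 * η / ρ * L) * ‖w1 - w2‖ := by
  have hd := ld_diffOn h
  have hsub : Metric.ball xs (4 / 5 * ρ) ⊆ Metric.ball xs ρ := Metric.ball_subset_ball (by linarith)
  have key : ∀ w ∈ Metric.ball xs (4 / 5 * ρ), ‖deriv (logDeriv F) w‖ ≤ 10 * η / ρ * L := by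
    intro w hw
    have hcl : Metric.closedBall w (ρ / 10) ⊆ Metric.ball xs ρ := by
      intro x hx
      rw [Metric.mem_closedBall] at hx
      rw [Metric.mem_ball] at hw ⊢
      have := dist_triangle x w xs
      linarith
    have e : deriv (logDeriv F) w = deriv (fun z => logDeriv F z - L) w := by
      rw [deriv_sub_const]
    rw [e]
    have hdc : DiffContOnCl ℂ (fun z => logDeriv F z - L) (Metric.ball w (ρ / 10)) := by
      apply DifferentiableOn.diffContOnCl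
      rw [closure_ball w (by positivity)]
      exact (hd.mono hcl).sub_const _
    have := Complex.norm_deriv_le_of_forall_mem_sphere_norm_le (R := ρ / 10) (C := η * L) (by positivity) hdc
      (fun z hz => (h z (hcl (Metric.sphere_subset_closedBall hz))).2.2)
    refine this.trans (le_of_eq ?_)
    field_simp
  exact (convex_ball xs (4 / 5 * ρ)).norm_image_sub_le_of_norm_deriv_le
    (fun w hw => hd.differentiableAt (Metric.isOpen_ball.mem_nhds (hsub hw))) key h2 h1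

/-- the saddle point -/
lemma saddle (hL : 0 < L) (hρ0 : 0 < ρ) {τ σ κ : ℝ} {z : ℂ} (hτ : 0 < τ) (hτL : τ * L ≤ 1)
    (hσ : σ = 1 ∨ σ = -1) (hxs : xs = z + 2 * τ * σ * L)
    (h : Hyp F L η ρ xs) (hκ0 : 0 < κ) (hκ : κ ≤ ρ / 10) (hη0 : 0 < η) (hη : η ≤ κ / 100) :
    ∃ x0 : ℂ, ‖x0 - xs‖ ≤ κ ∧ logDeriv F x0 = σ * (x0 - z) / (2 * τ) := by
  have hsub : Metric.closedBall xs κ ⊆ Metric.ball xs (4 / 5 * ρ) :=
    Metric.closedBall_subset_ball (by linarith)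
  have hsub' : Metric.ball xs (4 / 5 * ρ) ⊆ Metric.ball xs ρ := Metric.ball_subset_ball (by linarith)
  have hσn : ‖(σ : ℂ)‖ = 1 := by
    rcases hσ with h | h <;> simp [h]
  have hτn : ‖(2 * τ * σ : ℂ)‖ = 2 * τ := by
    rw [norm_mul, norm_mul, hσn, Complex.norm_real, Complex.norm_ofNat, Real.norm_of_nonneg hτ.le, mul_one]
  set T : ℂ → ℂ := fun w => z + 2 * τ * σ * logDeriv F w with hT
  have hmaps : MapsTo T (Metric.closedBall xs κ) (Metric.closedBall xs κ) := by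
    intro w hw
    rw [Metric.mem_closedBall, dist_eq_norm]
    have e : T w - xs = 2 * τ * σ * (logDeriv F w - L) := by
      rw [hT, hxs]; ring
    rw [e, norm_mul, hτn]
    have h1 := (h w (hsub' (hsub hw))).2.2
    calc 2 * τ * ‖logDeriv F w - L‖ ≤ 2 * τ * (η * L) := by gcongr
      _ = 2 * η * (τ * L) := by ring
      _ ≤ 2 * η * 1 := by gcongr
      _ ≤ κ := by linarith
  have hlip : ∀ w1 ∈ Metric.closedBall xs κ, ∀ w2 ∈ Metric.closedBall xs κ,
      ‖T w1 - T w2‖ ≤ 1 / 2 * ‖w1 - w2‖ := by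
    intro w1 h1 w2 h2
    have e : T w1 - T w2 = 2 * τ * σ * (logDeriv F w1 - logDeriv F w2) := by
      rw [hT]; ring
    rw [e, norm_mul, hτn]
    have hl := ld_lip hL.le hρ0 h (hsub h1) (hsub h2)
    calc 2 * τ * ‖logDeriv F w1 - logDeriv F w2‖ ≤ 2 * τ * ((10 * η / ρ * L) * ‖w1 - w2‖) := by gcongr
      _ = (20 * (η / ρ)) * (τ * L) * ‖w1 - w2‖ := by ring
      _ ≤ (20 * (η / ρ)) * 1 * ‖w1 - w2‖ := by gcongr
      _ ≤ 1 / 2 * ‖w1 - w2‖ := by
          gcongr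
          have : η / ρ ≤ 1 / 40 := by rw [div_le_iff₀ hρ0]; linarith
          linarith
  have hcontr : ContractingWith (1 / 2) (hmaps.restrict T (Metric.closedBall xs κ) (Metric.closedBall xs κ)) := by
    refine ⟨by norm_num, ?_⟩
    apply LipschitzWith.of_dist_le_mul
    intro x y
    rw [Subtype.dist_eq, Subtype.dist_eq, dist_eq_norm, dist_eq_norm]
    have := hlip x.1 x.2 y.1 y.2
    simpa using this
  obtain ⟨w0, hw0, hfix, _⟩ := hcontr.exists_fixedPoint' Metric.isClosed_closedBall.isComplete hmaps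
    (Metric.mem_closedBall_self hκ0.le) (edist_ne_top _ _)
  refine ⟨w0, by rw [Metric.mem_closedBall, dist_eq_norm] at hw0; exact hw0, ?_⟩
  have h3 : z + 2 * τ * σ * logDeriv F w0 = w0 := hfix
  have h2 : w0 - z = 2 * τ * σ * logDeriv F w0 := by linear_combination -h3
  have hτc : (τ : ℂ) ≠ 0 := by exact_mod_cast hτ.ne'
  have hσ2 : (σ : ℂ) * σ = 1 := by rcases hσ with h | h <;> simp [h]
  rw [h2]
  field_simp
  linear_combination (-logDeriv F w0) * hσ2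

lemma Psi_deriv {τ σ : ℝ} (hτ : 0 < τ) {z : ℂ} {H : ℂ → ℂ}
    (h : Hyp F L η ρ xs)
    (hH : ∀ x ∈ Metric.ball xs ρ, HasDerivAt H (logDeriv F x - σ * (x - z) / (2 * τ)) x) :
    ∀ x1 ∈ Metric.ball xs ρ, ∀ x2 ∈ Metric.ball xs ρ,
      Psi F σ τ z x1 = Psi F σ τ z x2 * cexp (H x1 - H x2) := by
  have hτc : (τ : ℂ) ≠ 0 := by exact_mod_cast hτ.ne'
  have hder : ∀ w ∈ Metric.ball xs ρ,
      HasDerivAt (fun w => Psi F σ τ z w * cexp (-H w)) 0 w := by
    intro w hw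
    obtain ⟨hd, hne, _⟩ := h w hw
    have h1 : HasDerivAt (fun w : ℂ => -((σ : ℂ) * (w - z) ^ 2) / (4 * τ)) (-((σ : ℂ) * (w - z)) / (2 * τ)) w := by
      have e1 : HasDerivAt (fun w : ℂ => (w - z) ^ 2) (((2 : ℕ) : ℂ) * (w - z) ^ (2 - 1) * 1) w :=
        ((hasDerivAt_id w).sub_const z).pow 2
      have e2 := ((e1.const_mul (σ : ℂ)).neg).div_const (4 * (τ : ℂ))
      refine e2.congr_deriv ?_
      field_simp
      push_cast
      ring
    have h2 : HasDerivAt (fun w => Psi F σ τ z w * cexp (-H w)) _ w :=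
      (hd.hasDerivAt.mul h1.cexp).mul ((hH w hw).neg.cexp)
    refine h2.congr_deriv ?_
    simp only [Pi.neg_apply, Pi.mul_apply]
    rw [logDeriv_apply]
    field_simp
    ring
  have hconst : ∀ w1 ∈ Metric.ball xs ρ, ∀ w2 ∈ Metric.ball xs ρ,
      Psi F σ τ z w1 * cexp (-H w1) = Psi F σ τ z w2 * cexp (-H w2) := by
    intro w1 h1 w2 h2
    have := (convex_ball xs ρ).norm_image_sub_le_of_norm_hasDerivWithin_le (C := 0)
      (fun w hw => (hder w hw).hasDerivWithinAt) (fun w _ => by simp) h2 h1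
    rw [zero_mul] at this
    exact sub_eq_zero.1 (norm_eq_zero.1 (le_antisymm this (norm_nonneg _)))
  intro w1 h1 w2 h2
  have := hconst w1 h1 w2 h2
  have e : Psi F σ τ z w1 = (Psi F σ τ z w1 * cexp (-H w1)) * cexp (H w1) := by
    rw [mul_assoc, ← Complex.exp_add]; simp
  rw [e, this, mul_assoc, ← Complex.exp_add]
  congr 2
  ring

lemma exp_rep {τ σ : ℝ} (hτ : 0 < τ) {z : ℂ} (h : Hyp F L η ρ xs) : ∃ H : ℂ → ℂ,
    (∀ x ∈ Metric.ball xs ρ, HasDerivAt H (logDeriv F x - σ * (x - z) / (2 * τ)) x) ∧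
    ∀ x1 ∈ Metric.ball xs ρ, ∀ x2 ∈ Metric.ball xs ρ,
      Psi F σ τ z x1 = Psi F σ τ z x2 * cexp (H x1 - H x2) := by
  have hg : DifferentiableOn ℂ (fun x => logDeriv F x - σ * (x - z) / (2 * τ)) (Metric.ball xs ρ) := by
    apply (ld_diffOn h).sub
    apply Differentiable.differentiableOn
    fun_prop
  obtain ⟨H, hH⟩ := hg.isExactOn_ball
  exact ⟨H, hH, Psi_deriv hτ h hH⟩

end local_

/-- the central part of the integral -/
theorem lapL (ρ κ : ℝ) (hρ0 : 0 < ρ) (hρ : ρ ≤ 1 / 2) (hκ0 : 0 < κ) (hκ : κ ≤ ρ / 10) :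
    ∃ η L0 : ℝ, 0 < η ∧ η ≤ 1 ∧ 1 ≤ L0 ∧ ∀ (L τ σ : ℝ) (ω z : ℂ) (F : ℂ → ℂ), L0 ≤ L → 0 < τ → τ * L ≤ 1 →
      (σ = 1 ∨ σ = -1) → ω ^ 2 = σ → ‖ω‖ = 1 → Hyp F L η ρ (z + 2 * τ * σ * L) →
      ∃ x0 : ℂ, ‖x0 - (z + 2 * τ * σ * L)‖ ≤ κ ∧ logDeriv F x0 = σ * (x0 - z) / (2 * τ) ∧
        (∀ y : ℝ, |y| ≤ ρ / 5 → ‖Psi F σ τ z (x0 + ω * y)‖ ≤
          Real.exp (-(y ^ 2 / (8 * τ))) * ‖Psi F σ τ z x0‖) ∧
        1 / 2 * Real.sqrt (2 * τ) * ‖Psi F σ τ z x0‖ ≤
          ‖∫ y in (-(ρ / 5) : ℝ)..(ρ / 5), Psi F σ τ z (x0 + ω * y)‖ := by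
  obtain ⟨a, ha⟩ : ∃ a : ℝ, a = ρ / 5 := ⟨_, rfl⟩
  have ha0 : 0 < a := by rw [ha]; positivity
  have ha1 : a ≤ 1 / 10 := by rw [ha]; linarith
  rw [← ha]
  refine ⟨κ / 1000000, 1800000000 / a ^ 2, by positivity, by linarith, ?_, ?_⟩
  · rw [le_div_iff₀ (by positivity)]
    nlinarith
  intro L τ σ ω z F hL hτ hτL hσ hω hω1 h
  have hLp : 0 < L := lt_of_lt_of_le (by positivity) hL
  have hL2 : 1800000000 ≤ L * a ^ 2 := by rwa [div_le_iff₀ (by positivity)] at hL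
  set xs : ℂ := z + 2 * τ * σ * L with hxs
  obtain ⟨x0, hx0, hsad⟩ := saddle hLp hρ0 hτ hτL hσ hxs h hκ0 hκ (by positivity) (by linarith)
  obtain ⟨H, hH, hQ⟩ := exp_rep (σ := σ) (z := z) hτ h
  have hτL' : τ ≤ 1 / L := by rw [le_div_iff₀ hLp]; exact hτL
  set s : ℝ := Real.sqrt (1 / (2 * τ)) with hs
  have hs2 : s ^ 2 = 1 / (2 * τ) := Real.sq_sqrt (by positivity)
  have hsL : L / 2 ≤ s ^ 2 := by
    rw [hs2, div_le_div_iff₀ (by norm_num) (by positivity)]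
    nlinarith
  have haL : 900000000 ≤ s ^ 2 * a ^ 2 := by nlinarith [sq_nonneg a]
  have hs0 : 0 < s := by rw [hs]; positivity
  have hsa0 : 30000 ≤ s * a := by
    have : (30000 : ℝ) ^ 2 ≤ (s * a) ^ 2 := by rw [mul_pow]; norm_num; linarith
    exact (sq_le_sq₀ (by norm_num) (by positivity)).1 this
  have hs1 : 30000 ≤ s := by nlinarith
  have hsa : 1 / s ≤ a := by
    rw [div_le_iff₀ hs0]; linarith
  have hball : ∀ y : ℝ, |y| ≤ a → x0 + ω * y ∈ Metric.ball xs (4 / 5 * ρ) := by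
    intro y hy
    rw [Metric.mem_ball, dist_eq_norm]
    have e : x0 + ω * y - xs = (x0 - xs) + ω * y := by ring
    rw [e]
    have h1 : ‖ω * (y : ℂ)‖ = |y| := by rw [norm_mul, hω1, one_mul, Complex.norm_real, Real.norm_eq_abs]
    have := norm_add_le (x0 - xs) (ω * y)
    linarith
  have hsub' : Metric.ball xs (4 / 5 * ρ) ⊆ Metric.ball xs ρ := Metric.ball_subset_ball (by linarith)
  have hx0b : x0 ∈ Metric.ball xs (4 / 5 * ρ) := by
    have := hball 0 (by rw [abs_zero]; exact ha0.le)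
    simpa using this
  have hσ2 : (σ : ℂ) * σ = 1 := by rcases hσ with h | h <;> simp [h]
  have hτc : (τ : ℂ) ≠ 0 := by exact_mod_cast hτ.ne'
  set v : ℝ → ℂ := fun y => H (x0 + ω * y) - H x0 with hv
  set v' : ℝ → ℂ := fun y => (logDeriv F (x0 + ω * y) - σ * (x0 + ω * y - z) / (2 * τ)) * ω with hv'
  have hvd : ∀ y, |y| ≤ a → HasDerivAt v (v' y) y := by
    intro y hy
    have h1 : HasDerivAt (fun y : ℝ => x0 + ω * (y : ℂ)) ω y := by
      have := ((Complex.ofRealCLM.hasDerivAt (x := y)).const_mul ω).const_add x0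
      simpa using this
    have h2 := (hH _ (hsub' (hball y hy))).comp_of_eq y h1 rfl
    exact h2.sub_const _
  have hrep : ∀ y : ℝ, |y| ≤ a → Psi F σ τ z (x0 + ω * y) = Psi F σ τ z x0 * cexp (v y) := by
    intro y hy
    exact hQ _ (hsub' (hball y hy)) x0 (hsub' hx0b)
  have hv'b : ∀ y : ℝ, |y| ≤ a → ‖v' y + ((s ^ 2 : ℝ) : ℂ) * y‖ ≤ |y| * s ^ 2 * (1 / 1000 + 11 / 10 * |y|) := by
    intro y hy
    have a1 := ld_lip hLp.le hρ0 h (hball y hy) hx0b
    have e0 : x0 + ω * y - x0 = ω * y := by ring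
    have e1 : ‖ω * (y : ℂ)‖ = |y| := by rw [norm_mul, hω1, one_mul, Complex.norm_real, Real.norm_eq_abs]
    rw [e0, e1] at a1
    have key : v' y + ((s ^ 2 : ℝ) : ℂ) * y = (logDeriv F (x0 + ω * y) - logDeriv F x0) * ω := by
      rw [hv', hs2, hsad]
      simp only
      push_cast
      field_simp
      linear_combination (-(y : ℂ) * σ) * hω - (y : ℂ) * hσ2
    rw [key, norm_mul, hω1, mul_one]
    refine a1.trans ?_
    have hy0 : 0 ≤ |y| := abs_nonneg y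
    have b1 : 10 * (κ / 1000000) / ρ * L ≤ s ^ 2 * (1 / 1000) := by
      have b2 : κ / ρ ≤ 1 / 10 := by rw [div_le_iff₀ hρ0]; linarith
      calc 10 * (κ / 1000000) / ρ * L = (κ / ρ) * (1 / 100000) * L := by ring
        _ ≤ (1 / 10) * (1 / 100000) * L := by gcongr
        _ ≤ _ := by nlinarith
    calc 10 * (κ / 1000000) / ρ * L * |y| ≤ s ^ 2 * (1 / 1000) * |y| := by gcongr
      _ ≤ |y| * s ^ 2 * (1 / 1000 + 11 / 10 * |y|) := by
          have : 0 ≤ |y| * s ^ 2 * (11 / 10 * |y|) := by positivity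
          nlinarith
  have hv0 : v 0 = 0 := by rw [hv]; simp
  obtain ⟨hA, hB⟩ := core hs1 ha0 ha1 hsa (m := s ^ 2) le_rfl (by nlinarith [sq_nonneg s]) v v' hv0 hvd hv'b
  refine ⟨x0, hx0, hsad, ?_, ?_⟩
  · intro y hy
    rw [hrep y hy, norm_mul, mul_comm]
    have e : s ^ 2 * y ^ 2 / 4 = y ^ 2 / (8 * τ) := by rw [hs2]; field_simp; ring
    rw [← e]
    exact mul_le_mul_of_nonneg_right (hA y hy) (norm_nonneg _)
  · have e : ∫ y in (-a : ℝ)..a, Psi F σ τ z (x0 + ω * y) =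
        ∫ y in (-a : ℝ)..a, Psi F σ τ z x0 * cexp (v y) := by
      apply intervalIntegral.integral_congr
      intro y hy
      rw [uIcc_of_le (by linarith)] at hy
      exact hrep y (abs_le.2 hy)
    rw [e, intervalIntegral.integral_const_mul, norm_mul, mul_comm]
    apply mul_le_mul_of_nonneg_left _ (norm_nonneg _)
    refine le_trans (le_of_eq ?_) hB
    have : Real.sqrt (2 * τ) = 1 / s := by
      rw [hs, Real.sqrt_div zero_le_one, Real.sqrt_one]
      field_simp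
    rw [this]
    ring

/-- the whole integral, with a bound for the tails -/
theorem lapT {σ τ L δ a : ℝ} {ω z x0 : ℂ} {F : ℂ → ℂ} (hτ : 0 < τ) (ha : 0 < a)
    (hi : Integrable fun y : ℝ => Psi F σ τ z (x0 + ω * y))
    (hsm : 8 * Real.exp (-(δ * L)) ≤ Real.sqrt (2 * τ))
    (htail : ∀ y : ℝ, a ≤ |y| → ‖Psi F σ τ z (x0 + ω * y)‖ ≤ Real.exp (-(δ * L) - y ^ 2) * ‖Psi F σ τ z x0‖)
    (hc : 1 / 2 * Real.sqrt (2 * τ) * ‖Psi F σ τ z x0‖ ≤
          ‖∫ y in (-a : ℝ)..a, Psi F σ τ z (x0 + ω * y)‖) :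
    1 / 4 * Real.sqrt (2 * τ) * ‖Psi F σ τ z x0‖ ≤ ‖∫ y : ℝ, Psi F σ τ z (x0 + ω * y)‖ := by
  set G : ℝ → ℂ := fun y => Psi F σ τ z (x0 + ω * y) with hG
  have h1 : ∫ y, G y = (∫ y in (-a : ℝ)..a, G y) + ∫ y in (Ioc (-a) a)ᶜ, G y := by
    rw [intervalIntegral.integral_of_le (by linarith)]
    exact (integral_add_compl measurableSet_Ioc hi).symm
  have h2 : ‖∫ y in (Ioc (-a) a)ᶜ, G y‖ ≤ 2 * (Real.exp (-(δ * L)) * ‖Psi F σ τ z x0‖) := by
    have h3 : ‖∫ y in (Ioc (-a) a)ᶜ, G y‖ ≤ ∫ y in (Ioc (-a) a)ᶜ,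
        (Real.exp (-(δ * L)) * ‖Psi F σ τ z x0‖) * Real.exp (-1 * y ^ 2) := by
      apply norm_integral_le_of_norm_le
      · exact ((integrable_exp_neg_mul_sq one_pos).const_mul _).integrableOn
      · refine (ae_restrict_iff' measurableSet_Ioc.compl).2 (Eventually.of_forall fun y hy => ?_)
        have hy' : a ≤ |y| := by
          by_contra hcon
          push Not at hcon
          rw [abs_lt] at hcon
          exact hy ⟨hcon.1, hcon.2.le⟩
        refine (htail y hy').trans (le_of_eq ?_)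
        rw [sub_eq_add_neg, Real.exp_add]
        have : -1 * y ^ 2 = -y ^ 2 := by ring
        rw [this]
        ring
    refine h3.trans ?_
    have h4 : ∫ y in (Ioc (-a) a)ᶜ, (Real.exp (-(δ * L)) * ‖Psi F σ τ z x0‖) * Real.exp (-1 * y ^ 2) ≤
        ∫ y : ℝ, (Real.exp (-(δ * L)) * ‖Psi F σ τ z x0‖) * Real.exp (-1 * y ^ 2) :=
      setIntegral_le_integral ((integrable_exp_neg_mul_sq one_pos).const_mul _)
        (Eventually.of_forall fun y => by positivity)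
    refine h4.trans ?_
    rw [integral_const_mul, integral_gaussian, div_one, mul_comm]
    gcongr
    rw [Real.sqrt_le_iff]
    exact ⟨by norm_num, by linarith [Real.pi_le_four]⟩
  have h5 := norm_sub_le_norm_add (∫ y in (-a : ℝ)..a, G y) (∫ y in (Ioc (-a) a)ᶜ, G y)
  rw [← h1] at h5
  have h6 : 8 * Real.exp (-(δ * L)) * ‖Psi F σ τ z x0‖ ≤ Real.sqrt (2 * τ) * ‖Psi F σ τ z x0‖ := by gcongr
  linarith

end Run7.h833.LP
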