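import Pool.Agent.Run7.h833.NwB

/-!
# The horizon of the heat flow at a given height: a local law

For a single L-function and a single height `y` the zeros of the heat flow at the height `y` are governed by
the zeros and the large values in a window of bounded length around `y`.
-/

set_option autoImplicit false

open Complex Set MeasureTheory intervalIntegral Filter Topology
open scoped ComplexConjugate NNReal ENNReal

namespace Run7.h833

open Pool.Agent.W169.HF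
open H353.E H353.F

/-- the zeros and the large values within `R` of the height `y` are below the level `κ` -/
def DomL {m : ℕ} (N : ℝ) (μ : Fin m → ℂ) (Λ : ℂ → ℂ) (δ κ R y : ℝ) : Prop :=
  (∀ z : ℂ, Λ z = 0 → |z.im - y| ≤ R → z.re - 1 / 2 ≤ κ) ∧
  ∀ z : ℂ, 1 / 2 ≤ z.re → z.re ≤ 1 → |z.im - y| ≤ R →
    Real.exp (δ * Real.log (cnd N μ z.im)) ≤ ‖LL μ Λ z‖ →
    gg (z.re - 1 / 2) (Real.log ‖LL μ Λ z‖ / Real.log (cnd N μ z.im)) ≤ κ

/-- **Local law, first half.** -/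
theorem loc_fwd (m : ℕ) (hm : 1 ≤ m) {ε0 : ℝ} (hε0 : 0 < ε0) : ∃ δ0 t1 R Q0 : ℝ, 0 < δ0 ∧ 0 < t1 ∧
    0 ≤ R ∧ 1 < Q0 ∧ ∀ δ : ℝ, 0 < δ → δ ≤ δ0 →
    ∀ (N : ℝ) (μ : Fin m → ℂ) (α : Fin m → ℕ → ℂ) (e : ℂ) (Λ : ℂ → ℂ), Std N μ α e Λ →
    ∀ y : ℝ, Q0 ≤ cnd N μ y → ∀ κ : ℝ, 0 ≤ κ → DomL N μ Λ δ κ R y →
    ∀ t : ℝ, 0 < t → t ≤ t1 → κ + ε0 ≤ t * Real.log (cnd N μ y) →
    ∀ s : ℂ, s.im = y → heat t (XX N Λ) s = 0 → s.re = 1 / 2 := by
  obtain ⟨ε, hεd⟩ : ∃ ε : ℝ, ε = min ε0 1 := ⟨_, rfl⟩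
  have hε : 0 < ε := by rw [hεd]; exact lt_min hε0 one_pos
  have hε1 : ε ≤ 1 := by rw [hεd]; exact min_le_right _ _
  have hεε : ε ≤ ε0 := by rw [hεd]; exact min_le_left _ _
  -- the grid
  have grid : ∀ k : ℕ, ∃ (M : ℕ) (R κ' C0 : ℝ), 0 < κ' ∧ (0 < k * (ε / 8) → k * (ε / 8) ≤ 1 → 1 ≤ M ∧
      ∀ (N : ℝ) (μ : Fin m → ℂ) (α : Fin m → ℕ → ℂ) (e : ℂ)
      (Λ : ℂ → ℂ), DatumT (1 / 2) N μ α e Λ → (∀ s : ℂ, 1 < s.re → Λ s ≠ 0) → ∀ t y : ℝ, 0 < t →
      C0 ≤ cnd N μ y → k * (ε / 8) + ε / 2 ≤ t * Real.log (cnd N μ y) → t * Real.log (cnd N μ y) ≤ 3 →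
      (∀ s : ℂ, 1 / 2 + k * (ε / 8) + ε / 2 / 32 < s.re → |s.im - y| ≤ R → Λ s ≠ 0) →
      (∀ j : ℕ, 1 ≤ j → j ≤ M → ∀ v : ℝ, |v| ≤ R →
        ‖LL μ Λ (1 / 2 + ((j / (2 * M) : ℝ) : ℂ) + ((y + v : ℝ) : ℂ) * I)‖ ≤
        Real.exp ((max (k * (ε / 8) - j / (2 * M)) 0 ^ 2 / (4 * (k * (ε / 8))) + κ') *
          Real.log (cnd N μ y))) →
      ∀ s : ℂ, s.im = y → heat t (XX N Λ) s = 0 → s.re = 1 / 2) := fun k => by
    by_cases hk : 0 < k * (ε / 8) ∧ k * (ε / 8) ≤ 1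
    · obtain ⟨M, R, κ', C0, h1, h2, h3⟩ := aut_fwdx m hm (x := k * (ε / 8)) (X := 3) (ε := ε / 2) hk.1
        hk.2 (by norm_num) (by positivity) (by linarith)
      exact ⟨M, R, κ', C0, h2, fun _ _ => ⟨h1, h3⟩⟩
    · exact ⟨0, 0, 1, 0, one_pos, fun h1 h2 => absurd ⟨h1, h2⟩ hk⟩
  choose M R κ' C0 hκ' H using grid
  obtain ⟨K, hK⟩ := exists_nat_ge (8 / ε)
  obtain ⟨κ, hκ, hκle⟩ := fin_low κ' hκ' K
  obtain ⟨ρ0, hρ0⟩ := fin_up (fun k => m * Real.log (1 + |R k|)) K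
  obtain ⟨R0, hR0⟩ := fin_up (fun k => |R k|) K
  obtain ⟨ρ, hρd⟩ : ∃ ρ : ℝ, ρ = max ρ0 0 := ⟨_, rfl⟩
  have hρ : 0 ≤ ρ := by rw [hρd]; exact le_max_right _ _
  have hρk : ∀ k : ℕ, k ≤ K → m * Real.log (1 + |R k|) ≤ ρ := fun k hk => by
    rw [hρd]
    exact (hρ0 k hk).trans (le_max_left _ _)
  obtain ⟨C1, hC1⟩ := fin_up C0 K
  obtain ⟨t1, C2, ht1, HL⟩ := aut_local m hm (θ := 1 / 2) (η := 1) (by norm_num) le_rfl one_pos
  obtain ⟨R2, C3, HF⟩ := aut_fwd m hm (θ := 1 / 2) (ϑ := 1 / 2) (g := ε / 2) (X := 3) (by norm_num) le_rfl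
    (by norm_num) (by norm_num) (by positivity) (by norm_num)
  obtain ⟨W, hW⟩ : ∃ W : ℝ, W = ρ / κ + ρ + 1 := ⟨_, rfl⟩
  have hρκ : 0 ≤ ρ / κ := by positivity
  have hW0 : 1 ≤ W := by rw [hW]; linarith
  refine ⟨min (κ / 2) 1, t1, max R0 0, max (max C1 (max C2 C3)) (Real.exp W), lt_min (by positivity) one_pos,
    ht1, le_max_right _ _, ?_, ?_⟩
  · exact lt_of_lt_of_le (Real.one_lt_exp_iff.2 (by linarith)) (le_max_right _ _)
  intro δ hδ hδ1 N μ α e Λ hS y hQ κ0 hκ00 hD t ht0 htt hκt s hsy hz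
  have hδκ : δ ≤ κ / 2 := hδ1.trans (min_le_left _ _)
  have hδ1' : δ ≤ 1 := hδ1.trans (min_le_right _ _)
  have hN := hS.1.one_le
  obtain ⟨L, hLd⟩ : ∃ L : ℝ, L = Real.log (cnd N μ y) := ⟨_, rfl⟩
  have hLQ := lt_log ((le_max_right _ _).trans hQ)
  rw [← hLd] at hLQ hκt
  have hL0 : 0 < L := by linarith
  have hQ1 : C1 ≤ cnd N μ y := (le_max_left _ _).trans ((le_max_left _ _).trans hQ)
  have hQ2 : C2 ≤ cnd N μ y := (le_max_left C2 C3).trans ((le_max_right _ _).trans ((le_max_left _ _).trans hQ))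
  have hQ3 : C3 ≤ cnd N μ y := (le_max_right C2 C3).trans ((le_max_right _ _).trans ((le_max_left _ _).trans hQ))
  have hW1 : ρ / κ ≤ W ∧ ρ ≤ W := by
    rw [hW]
    constructor <;> linarith
  rcases le_or_gt 3 (t * L) with h3 | h3
  · refine HL N μ α e Λ hS.1 t s ht0 htt (by rw [hsy]; exact hQ2) (by rw [hsy, ← hLd]; linarith) hz
  obtain ⟨k, hkd⟩ : ∃ k : ℕ, k = ⌈(κ0 + ε / 8) / (ε / 8)⌉₊ := ⟨_, rfl⟩
  obtain ⟨x, hx⟩ : ∃ x : ℝ, x = k * (ε / 8) := ⟨_, rfl⟩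
  have hx1 : κ0 + ε / 8 ≤ x := by
    have h1 := Nat.le_ceil ((κ0 + ε / 8) / (ε / 8))
    rw [← hkd, div_le_iff₀ (by positivity)] at h1
    rw [hx]
    exact h1
  have hx2 : x < κ0 + ε / 4 := by
    have h1 := Nat.ceil_lt_add_one (a := (κ0 + ε / 8) / (ε / 8)) (by positivity)
    rw [← hkd] at h1
    have h2 : x < ((κ0 + ε / 8) / (ε / 8) + 1) * (ε / 8) := by
      rw [hx]
      exact mul_lt_mul_of_pos_right h1 (by positivity)
    have h4 : ((κ0 + ε / 8) / (ε / 8) + 1) * (ε / 8) = κ0 + ε / 8 + ε / 8 := by field_simp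
    linarith
  have hx0 : 0 < x := by linarith
  rcases le_or_gt x 1 with hx3 | hx3
  · have hkK : k ≤ K := by
      have h1 : (k : ℝ) ≤ K := by
        refine le_trans ?_ hK
        rw [le_div_iff₀ hε]
        rw [hx] at hx3
        linarith
      exact_mod_cast h1
    have hRk : R k ≤ max R0 0 := (le_abs_self _).trans ((hR0 k hkK).trans (le_max_left _ _))
    obtain ⟨hM, Hk⟩ := H k (by rw [← hx]; exact hx0) (by rw [← hx]; exact hx3)
    rw [← hx] at Hk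
    have hM' : (1 : ℝ) ≤ M k := by exact_mod_cast hM
    have hsh : ∀ y' : ℝ, |y' - y| ≤ R k → Real.log (cnd N μ y') ≤ L + ρ ∧ L ≤ Real.log (cnd N μ y') + ρ := by
      intro y' hy'
      have h1 := logm_shift hN μ (y := y') (y' := y) (R := R k) (by
        rw [abs_sub_comm]
        exact hy'.trans (le_abs_self _))
      have h2 := logm_shift hN μ (y := y) (y' := y') (R := R k) (hy'.trans (le_abs_self _))
      have h3 := hρk k hkK
      rw [← hLd] at h1 h2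
      constructor <;> linarith
    refine Hk N μ α e Λ hS.1 hS.2 t y ht0 ((hC1 k hkK).trans hQ1)
      (by rw [← hLd]; linarith) (by rw [← hLd]; exact h3.le) (fun w hw1 hw2 hw => ?_)
      (fun j hj1 hj2 v hv => ?_) s hsy hz
    · have h1 := hD.1 w hw (hw2.trans hRk)
      have h4 : 0 < ε / 2 / 32 := by positivity
      linarith
    · obtain ⟨r, hr⟩ : ∃ r : ℝ, r = j / (2 * M k) := ⟨_, rfl⟩
      have hj1' : (1 : ℝ) ≤ j := by exact_mod_cast hj1
      have hj2' : (j : ℝ) ≤ M k := by exact_mod_cast hj2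
      have hr0 : 0 ≤ r := by rw [hr]; positivity
      have hr1 : r ≤ 1 / 2 := by
        rw [hr, div_le_div_iff₀ (by positivity) (by norm_num)]
        linarith
      rw [← hr, ← hLd]
      obtain ⟨w, hw⟩ : ∃ w : ℂ, w = 1 / 2 + (r : ℂ) + ((y + v : ℝ) : ℂ) * I := ⟨_, rfl⟩
      have hwre : w.re = 1 / 2 + r := by rw [hw]; simp
      have hwim : w.im = y + v := by rw [hw]; simp
      rw [← hw]
      have hwy : |w.im - y| ≤ R k := by rw [hwim, add_sub_cancel_left]; exact hv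
      obtain ⟨hLw, hLw2⟩ := hsh _ hwy
      have hLw0 : 0 < Real.log (cnd N μ w.im) := by linarith
      have hκk : κ ≤ κ' k := hκle k hkK
      have hρL : ρ ≤ κ * L := by
        have h1 : ρ / κ ≤ L := by linarith
        rwa [div_le_iff₀ hκ, mul_comm] at h1
      have hρL' : ρ ≤ L := by linarith
      have hκkL : κ * L ≤ κ' k * L := mul_le_mul_of_nonneg_right hκk hL0.le
      obtain ⟨c, hc⟩ : ∃ c : ℝ, c = max (x - r) 0 ^ 2 / (4 * x) := ⟨_, rfl⟩
      have hc0 : 0 ≤ c := by rw [hc]; positivity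
      have hc1 : c ≤ 1 := by
        rw [hc]
        exact (mx_le hx0 hr0).trans hx3
      rw [← hc]
      have hcL : 0 ≤ c * L := by positivity
      rcases lt_or_ge ‖LL μ Λ w‖ (Real.exp (δ * Real.log (cnd N μ w.im))) with h4 | h4
      · refine h4.le.trans (Real.exp_le_exp.2 ?_)
        have h5 : δ * Real.log (cnd N μ w.im) ≤ κ / 2 * (L + ρ) :=
          mul_le_mul hδκ hLw hLw0.le (by positivity)
        have h6 : κ / 2 * ρ ≤ κ / 2 * L := mul_le_mul_of_nonneg_left hρL' (by positivity)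
        linarith
      · have h5 := hD.2 w (by rw [hwre]; linarith) (by rw [hwre]; linarith) (hwy.trans hRk) h4
        have hpos : 0 < ‖LL μ Λ w‖ := lt_of_lt_of_le (Real.exp_pos _) h4
        have h6 : δ * Real.log (cnd N μ w.im) ≤ Real.log ‖LL μ Λ w‖ := by
          rw [← Real.log_exp (δ * Real.log (cnd N μ w.im))]
          exact Real.log_le_log (Real.exp_pos _) h4
        obtain ⟨a, ha⟩ : ∃ a : ℝ, a = Real.log ‖LL μ Λ w‖ / Real.log (cnd N μ w.im) := ⟨_, rfl⟩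
        rw [← ha, hwre, add_sub_cancel_left] at h5
        have ha0 : 0 ≤ a := by
          rw [ha]
          apply div_nonneg _ hLw0.le
          have : 0 < δ * Real.log (cnd N μ w.im) := by positivity
          linarith
        have h7 : gg r a ≤ x := by linarith
        have h8 := gg_le hr0 ha0 hx0 h7
        rw [← hc] at h8
        rw [← Real.exp_log hpos]
        apply Real.exp_le_exp.2
        have h9 : Real.log ‖LL μ Λ w‖ = a * Real.log (cnd N μ w.im) := by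
          rw [ha]
          field_simp
        rw [h9]
        have h10 : a * Real.log (cnd N μ w.im) ≤ c * (L + ρ) := mul_le_mul h8 hLw hLw0.le hc0
        have h11 : c * ρ ≤ 1 * ρ := mul_le_mul_of_nonneg_right hc1 hρ
        linarith
  · exact HF N μ α e Λ hS.1 t y ht0 hQ3 (by rw [← hLd]; linarith)
      (by rw [← hLd]; exact h3.le) (fun w hw1 _ => hS.2 w (by linarith)) s hsy hz

/-- **Local law, second half.** -/
theorem loc_bwd (m : ℕ) (hm : 1 ≤ m) {ε0 δ : ℝ} (hε0 : 0 < ε0) (hδ : 0 < δ) : ∃ R Q0 : ℝ, 0 ≤ R ∧ 1 < Q0 ∧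
    ∀ (N : ℝ) (μ : Fin m → ℂ) (α : Fin m → ℕ → ℂ) (e : ℂ) (Λ : ℂ → ℂ), Std N μ α e Λ →
    ∀ y : ℝ, Q0 ≤ cnd N μ y → ∀ t : ℝ, 0 < t → ε0 ≤ t * Real.log (cnd N μ y) →
    (∀ s : ℂ, |s.im - y| ≤ R → heat t (XX N Λ) s = 0 → s.re = 1 / 2) →
    DomL N μ Λ δ (t * Real.log (cnd N μ y) + ε0) 0 y := by
  obtain ⟨ε, hεd⟩ : ∃ ε : ℝ, ε = min ε0 1 := ⟨_, rfl⟩
  have hε : 0 < ε := by rw [hεd]; exact lt_min hε0 one_pos
  have hε1 : ε ≤ 1 := by rw [hεd]; exact min_le_right _ _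
  have hεε : ε ≤ ε0 := by rw [hεd]; exact min_le_left _ _
  obtain ⟨η, hηd⟩ : ∃ η : ℝ, η = min (δ / 4) (ε ^ 2 / 320) := ⟨_, rfl⟩
  have hη : 0 < η := by rw [hηd]; exact lt_min (by positivity) (by positivity)
  have hη1 : η ≤ δ / 4 := by rw [hηd]; exact min_le_left _ _
  have hη2 : η ≤ ε ^ 2 / 320 := by rw [hηd]; exact min_le_right _ _
  obtain ⟨t1, C1, ht1, HL⟩ := aut_local m hm (θ := 1 / 2) (η := 1) (by norm_num) le_rfl one_pos
  obtain ⟨R2, C2, HB⟩ := aut_bwd m hm (θ := 1 / 2) (g := ε / 4) (X := 4) (by norm_num) le_rfl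
    (by positivity) (by norm_num)
  obtain ⟨κ3, R3, C3, B3, hκ3, HE⟩ := aut_exp tcz_all invx_all m hm (g := ε / 2) (X := 4) (ε := η)
    (by positivity) (by norm_num) hη
  obtain ⟨R, hR⟩ : ∃ R : ℝ, R = max |R2| |R3| := ⟨_, rfl⟩
  have hR0 : 0 ≤ R := by rw [hR]; exact (abs_nonneg R2).trans (le_max_left _ _)
  have hR2 : R2 ≤ R := by rw [hR]; exact (le_abs_self _).trans (le_max_left _ _)
  have hR3 : R3 ≤ R := by rw [hR]; exact (le_abs_self _).trans (le_max_right _ _)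
  obtain ⟨ρ, hρd⟩ : ∃ ρ : ℝ, ρ = m * Real.log (1 + |R|) := ⟨_, rfl⟩
  have hρ : 0 ≤ ρ := by
    rw [hρd]
    exact mul_nonneg (Nat.cast_nonneg m) (Real.log_nonneg (by linarith [abs_nonneg R]))
  obtain ⟨W, hW⟩ : ∃ W : ℝ, W = 4 * ρ + |B3| / η + 4 / t1 + 1 := ⟨_, rfl⟩
  have hW1 : 4 * ρ ≤ W ∧ |B3| / η ≤ W ∧ 4 / t1 ≤ W ∧ 1 ≤ W := by
    have h2 : 0 ≤ |B3| / η := by positivity
    have h3 : 0 ≤ 4 / t1 := by positivity
    rw [hW]
    refine ⟨by linarith, by linarith, by linarith, by linarith⟩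
  obtain ⟨C1', hC1'⟩ : ∃ C1' : ℝ, C1' = |C1| * (1 + |R|) ^ m := ⟨_, rfl⟩
  refine ⟨R, max (max C1' (max C2 C3)) (Real.exp W), hR0, ?_, ?_⟩
  · exact lt_of_lt_of_le (Real.one_lt_exp_iff.2 (by linarith)) (le_max_right _ _)
  intro N μ α e Λ hS y hQ t ht0 htε hall
  have hN := hS.1.one_le
  obtain ⟨L, hLd⟩ : ∃ L : ℝ, L = Real.log (cnd N μ y) := ⟨_, rfl⟩
  have hLQ := lt_log ((le_max_right _ _).trans hQ)
  rw [← hLd] at hLQ htε ⊢
  have hL0 : 0 < L := by linarith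
  have hQ1 : C1' ≤ cnd N μ y := (le_max_left _ _).trans ((le_max_left _ _).trans hQ)
  have hQ2 : C2 ≤ cnd N μ y := (le_max_left C2 C3).trans ((le_max_right _ _).trans ((le_max_left _ _).trans hQ))
  have hQ3 : C3 ≤ cnd N μ y := (le_max_right C2 C3).trans ((le_max_right _ _).trans ((le_max_left _ _).trans hQ))
  -- the time
  obtain ⟨t', h0, h1, h2, h3, h4⟩ : ∃ t' : ℝ, 0 < t' ∧ ε / 2 ≤ t' * L ∧ t' * L ≤ 4 ∧ t' * L ≤ t * L ∧
      ∀ w : ℂ, |w.im - y| ≤ R → heat t' (XX N Λ) w = 0 → w.re = 1 / 2 := by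
    rcases le_total (t * L) 4 with h1 | h1
    · exact ⟨t, ht0, by linarith, h1, le_rfl, hall⟩
    · have e4 : 4 / L * L = 4 := by field_simp
      refine ⟨4 / L, by positivity, by linarith, by linarith, by linarith, fun w hw1 hw => ?_⟩
      have h2 : L ≤ Real.log (cnd N μ w.im) + ρ := by
        have h3 := logm_shift hN μ (y := y) (y' := w.im) (R := R) (hw1.trans (le_abs_self _))
        rw [← hLd, ← hρd] at h3
        exact h3
      refine HL N μ α e Λ hS.1 (4 / L) w (by positivity) ?_ ?_ ?_ hw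
      · rw [div_le_iff₀ hL0]
        have h3 : 4 / t1 ≤ L := by linarith
        rw [div_le_iff₀ ht1] at h3
        linarith
      · have h3 := cndm_shift (N := N) (by linarith) μ (y := y) (y' := w.im) (R := |R|)
          (hw1.trans (le_abs_self R))
        have h5 : 0 < (1 + |R|) ^ m := by positivity
        rw [hC1'] at hQ1
        exact (le_abs_self C1).trans (le_of_mul_le_mul_right (hQ1.trans h3) h5)
      · have h3 : 4 * ρ ≤ L := by linarith
        have h4 : 3 ≤ 4 / L * Real.log (cnd N μ w.im) := by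
          rw [div_mul_eq_mul_div, le_div_iff₀ hL0]
          linarith
        linarith
  constructor
  · intro z hz hzy
    have hzy' : z.im = y := by
      have := abs_nonneg (z.im - y)
      have h5 : |z.im - y| = 0 := le_antisymm hzy this
      linarith [abs_eq_zero.1 h5]
    by_contra hcon
    push Not at hcon
    refine HB N μ α e Λ hS.1 t' y h0 hQ2 (by rw [← hLd]; linarith)
      (by rw [← hLd]; exact h2) (fun w hw1 hw2 hw => ?_) z hzy' (by rw [← hLd]; linarith) hz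
    have := h4 w (hw2.trans hR2) hw
    linarith
  · intro z hz1 hz2 hzy hz3
    have hzy' : z.im = y := by
      have := abs_nonneg (z.im - y)
      have h5 : |z.im - y| = 0 := le_antisymm hzy this
      linarith [abs_eq_zero.1 h5]
    rw [hzy', ← hLd] at hz3
    rw [hzy', ← hLd]
    have hex := HE N μ α e Λ hS.1 t' y h0 hQ3 (by rw [← hLd]; exact h1)
      (by rw [← hLd]; exact h2) (by
        intro S hS'
        have hemp : S = ∅ := by
          rw [Finset.eq_empty_iff_forall_notMem]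
          intro w hw
          obtain ⟨w0, w1, w2⟩ := hS' w hw
          have := h4 w (w2.trans hR3) w0
          linarith
        rw [hemp, Finset.sum_empty, ← hLd]
        positivity) (z.re - 1 / 2) (by linarith) (by linarith)
    have hzz : (1 / 2 + ((z.re - 1 / 2 : ℝ) : ℂ) + (y : ℂ) * I : ℂ) = z := by
      rw [← hzy']
      apply Complex.ext <;> simp
    rw [hzz, ← hLd] at hex
    obtain ⟨r, hr⟩ : ∃ r : ℝ, r = z.re - 1 / 2 := ⟨_, rfl⟩
    obtain ⟨τ, hτ⟩ : ∃ τ : ℝ, τ = t' * L := ⟨_, rfl⟩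
    rw [← hr, ← hτ] at hex
    rw [← hτ] at h1 h2 h3
    rw [← hr]
    have hr0 : 0 ≤ r := by rw [hr]; linarith
    have hτ0 : 0 < τ := by linarith
    have hpos : 0 < ‖LL μ Λ z‖ := lt_of_lt_of_le (Real.exp_pos _) hz3
    obtain ⟨a, ha⟩ : ∃ a : ℝ, a = Real.log ‖LL μ Λ z‖ / L := ⟨_, rfl⟩
    have haL : Real.log ‖LL μ Λ z‖ = a * L := by rw [ha]; field_simp
    rw [← ha]
    have haδ : δ ≤ a := by
      rw [ha, le_div_iff₀ hL0, ← Real.log_exp (δ * L)]
      exact Real.log_le_log (Real.exp_pos _) hz3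
    have ha2 : a ≤ max (τ - r) 0 ^ 2 / (4 * τ) + 2 * η := by
      have h5 : Real.log ‖LL μ Λ z‖ ≤ B3 + (max (τ - r) 0 ^ 2 / (4 * τ) + η) * L := by
        rw [← Real.log_exp (B3 + (max (τ - r) 0 ^ 2 / (4 * τ) + η) * L)]
        exact Real.log_le_log hpos hex
      rw [haL] at h5
      have h6 : |B3| / η ≤ L := by linarith
      rw [div_le_iff₀ hη] at h6
      have h7 := le_abs_self B3
      have h8 : a * L ≤ (max (τ - r) 0 ^ 2 / (4 * τ) + 2 * η) * L := by linarith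
      exact le_of_mul_le_mul_right h8 hL0
    by_contra hcon
    push Not at hcon
    have hcon' : τ + ε / 2 < gg r a := by linarith
    rcases le_or_gt τ r with h5 | h5
    · rw [max_eq_right (by linarith)] at ha2
      have h6 : (0 : ℝ) ^ 2 / (4 * τ) = 0 := by simp
      linarith
    · rw [max_eq_left (by linarith)] at ha2
      have h6 := lt_gg hr0 (hδ.le.trans haδ) (x := τ + ε / 2) (by linarith) (by linarith) hcon'
      have h7 : ε ^ 2 / 80 ≤ (τ + ε / 2 - r) ^ 2 / (4 * (τ + ε / 2)) - (τ - r) ^ 2 / (4 * τ) := by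
        obtain ⟨e2, he2⟩ : ∃ e2 : ℝ, e2 = ε / 2 := ⟨_, rfl⟩
        have he20 : 0 < e2 := by rw [he2]; positivity
        have he21 : e2 ≤ 1 := by rw [he2]; linarith
        have e1 : ε = 2 * e2 := by rw [he2]; ring
        rw [← he2, e1]
        rw [div_sub_div _ _ (by positivity) (by positivity), div_le_div_iff₀ (by norm_num) (by positivity)]
        have h8 : (τ + e2 - r) ^ 2 * (4 * τ) - 4 * (τ + e2) * (τ - r) ^ 2 =
            4 * e2 * (τ * (τ + e2) - r ^ 2) := by ring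
        rw [h8]
        have h9 : τ * e2 ≤ τ * (τ + e2) - r ^ 2 := by nlinarith
        have h10 : 4 * e2 * (τ * e2) ≤ 4 * e2 * (τ * (τ + e2) - r ^ 2) :=
          mul_le_mul_of_nonneg_left h9 (by positivity)
        have h11 : (2 * e2) ^ 2 * (4 * (τ + e2) * (4 * τ)) = 4 * e2 * (τ * e2) * (16 * (τ + e2)) := by ring
        rw [h11]
        have h12 : 4 * e2 * (τ * e2) * (16 * (τ + e2)) ≤ 4 * e2 * (τ * e2) * 80 :=
          mul_le_mul_of_nonneg_left (by linarith) (by positivity)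
        linarith
      have h8 : 2 * η ≤ ε ^ 2 / 160 := by linarith
      have h9 : 0 < ε ^ 2 := by positivity
      linarith

end Run7.h833
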