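import Pool.Agent.Run7.h833.HfF

/-!
# The family of newforms of weight two
-/

set_option autoImplicit false

open Complex UpperHalfPlane MatrixGroups CongruenceSubgroup Filter Topology Set MeasureTheory
open scoped ComplexConjugate

namespace Run7.h833

open Pool.Agent.W169.HF

/-- the finite L-function in the analytic normalisation -/
lemma ll_nf {N : ℕ} (hN : N ≠ 0) (Λ : ℂ → ℂ) (s : ℂ) :
    LL ![(-1 / 2 : ℂ), (-3 / 2 : ℂ)] (fun s : ℂ => 2 * (N : ℂ) ^ (-((s + 1 / 2) / 2)) * Λ (s + 1 / 2)) s =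
      Λ (s + 1 / 2) / (((Real.sqrt N / (2 * Real.pi) : ℝ) : ℂ) ^ (s + 1 / 2) * Complex.Gamma (s + 1 / 2)) := by
  obtain ⟨z, hz⟩ : ∃ z : ℂ, z = s + 1 / 2 := ⟨_, rfl⟩
  unfold LL
  rw [Fin.prod_univ_two, Matrix.cons_val_zero, Matrix.cons_val_one, Matrix.cons_val_zero]
  have e1 : s - (-1 / 2) = z := by rw [hz]; ring
  have e2 : s - (-3 / 2) = z + 1 := by rw [hz]; ring
  simp only [e1, e2, ← hz]
  rw [← mul_inv, Gammaℝ_mul_Gammaℝ_add_one, Gammaℂ_def]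
  have hN0 : (0 : ℝ) < N := by exact_mod_cast Nat.pos_of_ne_zero hN
  have hNc : (N : ℂ) ≠ 0 := by exact_mod_cast hN
  have h2 : ((Real.sqrt N / (2 * Real.pi) : ℝ) : ℂ) ≠ 0 := by
    have : (0 : ℝ) < Real.sqrt N / (2 * Real.pi) := by positivity
    exact_mod_cast this.ne'
  have hb := Pool.Agent.W930.HFNF3.base_pow hN z
  have h3 : (N : ℂ) ^ (-(z / 2)) ≠ 0 := by
    rw [Ne, Complex.cpow_eq_zero_iff]
    exact fun h => hNc h.1
  have h4 : ((Real.sqrt N / (2 * Real.pi) : ℝ) : ℂ) ^ z ≠ 0 := by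
    rw [Ne, Complex.cpow_eq_zero_iff]
    exact fun h => h2 h.1
  rw [← hb]
  rcases eq_or_ne (Complex.Gamma z) 0 with h5 | h5
  · rw [h5]
    simp
  · field_simp

section

variable {ι : Type} (NN : ι → ℕ) (hNN : ∀ i, NN i ≠ 0)
  (ff : (i : ι) → CuspForm (Gamma0 (NN i) : Subgroup (GL (Fin 2) ℝ)) 2) (ww : ι → ℝ) (LA : ι → ℂ → ℂ)
  (hf : ∀ i, IsForm (NN i) (ff i) (ww i)) (hΛ : ∀ i, IsCompleted (ff i) (LA i))

/-- the family -/
noncomputable def nfFam : FamL ι 2 where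
  N := fun i => NN i
  μ := fun _ => ![(-1 / 2 : ℂ), (-3 / 2 : ℂ)]
  α := fun i => haveI : NeZero (NN i) := ⟨hNN i⟩; Classical.choose (nf_datum (hf i) (hΛ i))
  e := fun i => (ww i : ℂ)
  Λ' := fun i => fun s : ℂ => 2 * ((NN i : ℕ) : ℂ) ^ (-((s + 1 / 2) / 2)) * LA i (s + 1 / 2)
  std := fun i => by
    haveI : NeZero (NN i) := ⟨hNN i⟩
    exact std_of_zero (by norm_num) (Classical.choose_spec (nf_datum (hf i) (hΛ i)))
  c := fun _ => 1
  k := fun i => 2 * ((NN i : ℕ) : ℂ) ^ (-(1 / 4) : ℂ)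
  hk := fun i => by
    have hNc : ((NN i : ℕ) : ℂ) ≠ 0 := by exact_mod_cast hNN i
    refine mul_ne_zero two_ne_zero ?_
    rw [Ne, Complex.cpow_eq_zero_iff]
    exact fun h => hNc h.1
  Λ := LA
  hX := fun i s => by
    rw [xx_nf (Nat.pos_of_ne_zero (hNN i))]
    norm_num
  L := fun i s => LA i s / (((Real.sqrt (NN i) / (2 * Real.pi) : ℝ) : ℂ) ^ s * Complex.Gamma s)
  hL := fun i s _ => by
    have e : (((1 : ℝ) - 1 / 2 : ℝ) : ℂ) = 1 / 2 := by push_cast; norm_num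
    simp only [e]
    exact congrArg norm (ll_nf (hNN i) (LA i) s)
  C := fun i y => NN i * (1 + |y|) ^ 2
  A := 4
  hA := by norm_num
  C0 := fun i y => by
    have : (0 : ℝ) < NN i := by exact_mod_cast Nat.pos_of_ne_zero (hNN i)
    have := abs_nonneg y
    positivity
  C1 := fun i y => cnd_nf _ y (Nat.cast_nonneg _)
  C2 := fun i y => cnd_nf_le _ y (Nat.cast_nonneg _)

end

end Run7.h833
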