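import Pool.Agent.Run7.h833.NwA

/-!
# Large values: when there are none
-/

set_option autoImplicit false

open Complex Set MeasureTheory intervalIntegral Filter Topology
open scoped ComplexConjugate NNReal ENNReal

namespace Run7.h833

open Pool.Agent.W169.HF
open H353.E H353.F

/-- no large values to the right of a window on the critical line with a small majorant -/
theorem novals (m : ℕ) (hm : 1 ≤ m) {δ : ℝ} (hδ : 0 < δ) : ∃ R κ' C0 : ℝ, 0 < κ' ∧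
    ∀ (N : ℝ) (μ : Fin m → ℂ) (α : Fin m → ℕ → ℂ) (e : ℂ) (Λ : ℂ → ℂ), Std N μ α e Λ → ∀ z : ℂ,
      1 / 2 ≤ z.re → z.re ≤ 1 → C0 ≤ cnd N μ z.im →
      (∀ v : ℝ, |v| ≤ R → ‖LL μ Λ (1 / 2 + ((z.im + v : ℝ) : ℂ) * I)‖ ≤
        Real.exp (κ' * Real.log (cnd N μ z.im))) →
      ‖LL μ Λ z‖ < Real.exp (δ * Real.log (cnd N μ z.im)) := by
  obtain ⟨R, κ', C0, B, hκ', H⟩ := aut_maj m hm (ε := δ / 2) (by positivity)
  refine ⟨R, κ', max C0 (Real.exp (2 * (|B| + 1) / δ)), hκ', ?_⟩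
  intro N μ α e Λ hS z hz1 hz2 hC hv
  have h1 := H N μ α e Λ hS.1 hS.2 z.im ((le_max_left _ _).trans hC) hv (z.re - 1 / 2) (by linarith)
    (by linarith)
  have hzz : (1 / 2 + ((z.re - 1 / 2 : ℝ) : ℂ) + (z.im : ℂ) * I : ℂ) = z := by
    apply Complex.ext <;> simp
  rw [hzz] at h1
  refine lt_of_le_of_lt h1 (Real.exp_lt_exp.2 ?_)
  have h2 := lt_log ((le_max_right _ _).trans hC)
  rw [div_le_iff₀ hδ] at h2
  have h3 := le_abs_self B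
  linarith

/-- the trivial bound for the horizon -/
theorem gg3 (m : ℕ) (hm : 1 ≤ m) : ∃ C0 : ℝ, ∀ (N : ℝ) (μ : Fin m → ℂ) (α : Fin m → ℕ → ℂ) (e : ℂ)
    (Λ : ℂ → ℂ), Std N μ α e Λ → ∀ z : ℂ, 1 / 2 ≤ z.re → z.re ≤ 1 → C0 ≤ cnd N μ z.im →
      1 ≤ ‖LL μ Λ z‖ →
      gg (z.re - 1 / 2) (Real.log ‖LL μ Λ z‖ / Real.log (cnd N μ z.im)) ≤ 3 := by
  obtain ⟨C0, B, H⟩ := aut_conv m hm (ε := 1 / 8) (by norm_num)
  refine ⟨max C0 (Real.exp (8 * |B| + 1)), ?_⟩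
  intro N μ α e Λ hS z hz1 hz2 hC hz3
  have h1 := H N μ α e Λ hS.1 hS.2 z.im ((le_max_left _ _).trans hC) (z.re - 1 / 2) (by linarith)
    (by linarith)
  have hzz : (1 / 2 + ((z.re - 1 / 2 : ℝ) : ℂ) + (z.im : ℂ) * I : ℂ) = z := by
    apply Complex.ext <;> simp
  rw [hzz] at h1
  have h2 := lt_log ((le_max_right _ _).trans hC)
  obtain ⟨L, hL⟩ : ∃ L : ℝ, L = Real.log (cnd N μ z.im) := ⟨_, rfl⟩
  rw [← hL] at h1 h2 ⊢
  have hB := abs_nonneg B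
  have hL0 : 0 < L := by linarith
  obtain ⟨r, hr⟩ : ∃ r : ℝ, r = z.re - 1 / 2 := ⟨_, rfl⟩
  rw [← hr] at h1 ⊢
  have hr0 : 0 ≤ r := by rw [hr]; linarith
  have hr1 : r ≤ 1 / 2 := by rw [hr]; linarith
  obtain ⟨a, ha⟩ : ∃ a : ℝ, a = Real.log ‖LL μ Λ z‖ / L := ⟨_, rfl⟩
  rw [← ha]
  have ha0 : 0 ≤ a := by rw [ha]; exact div_nonneg (Real.log_nonneg hz3) hL0.le
  have ha1 : a ≤ 1 / 2 := by
    rw [ha, div_le_iff₀ hL0]
    have h3 : Real.log ‖LL μ Λ z‖ ≤ B + ((1 / 2 - r) / 2 + 1 / 8) * L := by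
      rw [← Real.log_exp (B + ((1 / 2 - r) / 2 + 1 / 8) * L)]
      exact Real.log_le_log (by linarith) h1
    have h4 : ((1 / 2 - r) / 2 + 1 / 8) * L ≤ (3 / 8) * L :=
      mul_le_mul_of_nonneg_right (by linarith) hL0.le
    have h5 := le_abs_self B
    linarith
  unfold gg
  have h6 : Real.sqrt (a * (a + r)) ≤ 3 / 4 := by
    rw [Real.sqrt_le_left (by norm_num)]
    nlinarith
  linarith

end Run7.h833
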