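import Pool.Agent.Run7.h833.LcA

/-!
# The exact horizon of the heat flow near given points (L-function, height)

All statements concern windows of bounded length around the heights of a class of pairs (L-function, height).
-/

set_option autoImplicit false

open Complex Set MeasureTheory intervalIntegral Filter Topology
open scoped ComplexConjugate NNReal ENNReal

namespace Run7.h833

open Pool.Agent.W169.HF
open H353.E H353.F

/-- the heights within `R` of the pairs of the class -/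
def Wn {m : ℕ} (P : Cls2 m) (R N : ℝ) (μ : Fin m → ℂ) (α : Fin m → ℕ → ℂ) (e : ℂ) (Λ : ℂ → ℂ) (y : ℝ) : Prop :=
  Std N μ α e Λ ∧ ∃ y0 : ℝ, P N μ α e Λ y0 ∧ |y - y0| ≤ R

lemma Wn.shift {m : ℕ} {P : Cls2 m} {R R' N : ℝ} {μ : Fin m → ℂ} {α : Fin m → ℕ → ℂ} {e : ℂ} {Λ : ℂ → ℂ}
    {y y' : ℝ} (h : Wn P R N μ α e Λ y) (h' : |y' - y| ≤ R') : Wn P (R + R') N μ α e Λ y' := by
  obtain ⟨h1, y0, h2, h3⟩ := h
  refine ⟨h1, y0, h2, ?_⟩
  have := abs_add_le (y - y0) (y' - y)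
  rw [show y' - y0 = (y - y0) + (y' - y) by ring]
  linarith

/-- size exponent `a` on the line `Re s = 1/2 + r` -/
def SErW {m : ℕ} (P : Cls2 m) (r a : ℝ) : Prop := ∀ R ε : ℝ, 0 < ε → ∃ B : ℝ,
  ∀ (N : ℝ) (μ : Fin m → ℂ) (α : Fin m → ℕ → ℂ) (e : ℂ) (Λ : ℂ → ℂ) (y : ℝ), Wn P R N μ α e Λ y →
  ‖LL μ Λ (1 / 2 + (r : ℂ) + (y : ℂ) * I)‖ ≤ Real.exp (B + (a + ε) * Real.log (cnd N μ y))

/-- few zeros of the heat flow -/
def FZW {m : ℕ} (P : Cls2 m) (κ : ℝ) : Prop := ∀ R δ ε X : ℝ, 0 < δ → 0 < ε → ∃ C0 : ℝ,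
  ∀ (N : ℝ) (μ : Fin m → ℂ) (α : Fin m → ℕ → ℂ) (e : ℂ) (Λ : ℂ → ℂ) (y : ℝ), Wn P R N μ α e Λ y →
  ∀ t : ℝ, 0 < t → C0 ≤ cnd N μ y → κ ≤ t * Real.log (cnd N μ y) → t * Real.log (cnd N μ y) ≤ X →
    Cnt (heat t (XX N Λ)) {z : ℂ | 1 / 2 + δ ≤ z.re ∧ |z.im - y| ≤ 1} (ε * Real.log (cnd N μ y))

/-- zero-free half-planes -/
def ZFW {m : ℕ} (P : Cls2 m) (κ : ℝ) : Prop := ∀ R ε : ℝ, 0 < ε → ∃ C0 : ℝ,
  ∀ (N : ℝ) (μ : Fin m → ℂ) (α : Fin m → ℕ → ℂ) (e : ℂ) (Λ : ℂ → ℂ) (s : ℂ), Wn P R N μ α e Λ s.im →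
  C0 ≤ cnd N μ s.im → 1 / 2 + κ + ε ≤ s.re → Λ s ≠ 0

/-- horizon `κ` -/
def SHW {m : ℕ} (P : Cls2 m) (κ : ℝ) : Prop := ∀ R ε X : ℝ, 0 < ε → ∃ C0 : ℝ,
  ∀ (N : ℝ) (μ : Fin m → ℂ) (α : Fin m → ℕ → ℂ) (e : ℂ) (Λ : ℂ → ℂ) (t : ℝ) (s : ℂ), Wn P R N μ α e Λ s.im →
  0 < t → C0 ≤ cnd N μ s.im → κ + ε ≤ t * Real.log (cnd N μ s.im) → t * Real.log (cnd N μ s.im) ≤ X →
    heat t (XX N Λ) s = 0 → s.re = 1 / 2

variable {m : ℕ} {P : Cls2 m}

lemma e0 (y : ℝ) : (1 / 2 + ((0 : ℝ) : ℂ) + (y : ℂ) * I : ℂ) = 1 / 2 + (y : ℂ) * I := by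
  push_cast
  ring

lemma w_ser_mono {r a a' : ℝ} (h : a ≤ a') (hE : SErW P r a) : SErW P r a' := by
  intro R ε hε
  obtain ⟨B, HB⟩ := hE R ε hε
  refine ⟨B, fun N μ α e Λ y hP => (HB N μ α e Λ y hP).trans (Real.exp_le_exp.2 ?_)⟩
  have := Real.log_nonneg (cnd_pos hP.1.1.one_le μ y)
  nlinarith

lemma w_fz_mono {κ κ' : ℝ} (h : κ ≤ κ') (hF : FZW P κ) : FZW P κ' := by
  intro R δ ε X hδ hε
  obtain ⟨C0, H⟩ := hF R δ ε X hδ hε
  exact ⟨C0, fun N μ α e Λ y hP t ht hC h1 h2 => H N μ α e Λ y hP t ht hC (h.trans h1) h2⟩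

lemma w_zf_mono {κ κ' : ℝ} (h : κ ≤ κ') (hZ : ZFW P κ) : ZFW P κ' := by
  intro R ε hε
  obtain ⟨C0, H⟩ := hZ R ε hε
  exact ⟨C0, fun N μ α e Λ s hP hC hs => H N μ α e Λ s hP hC (by linarith)⟩

lemma w_sh_mono {κ κ' : ℝ} (h : κ ≤ κ') (hH : SHW P κ) : SHW P κ' := by
  intro R ε X hε
  obtain ⟨C0, H⟩ := hH R ε X hε
  exact ⟨C0, fun N μ α e Λ t s hP ht hC h1 h2 hs => H N μ α e Λ t s hP ht hC (by linarith) h2 hs⟩

lemma w_sh_lim {κ : ℝ} (h : ∀ κ' : ℝ, κ < κ' → SHW P κ') : SHW P κ := by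
  intro R ε X hε
  obtain ⟨C0, H⟩ := h (κ + ε / 2) (by linarith) R (ε / 2) X (by positivity)
  exact ⟨C0, fun N μ α e Λ t s hP ht hC h1 h2 hs => H N μ α e Λ t s hP ht hC (by linarith) h2 hs⟩

theorem w_sh_one (hm : 1 ≤ m) : SHW P 1 := by
  intro R0 ε X hε
  obtain ⟨R, C0, H⟩ := aut_fwd m hm (θ := 1 / 2) (ϑ := 1 / 2) (g := ε) (X := max X 1) (by norm_num) le_rfl
    (by norm_num) (by norm_num) hε (le_max_right _ _)
  refine ⟨C0, fun N μ α e Λ t s hP ht hC h1 h2 hs => ?_⟩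
  exact H N μ α e Λ hP.1.1 t s.im ht hC (by linarith) (h2.trans (le_max_left _ _))
    (fun z hz _ => hP.1.2 z (by linarith)) s rfl hs

theorem w_ser_fz (h1 : S_HPX) (h2 : S_JEN) (h3 : S_NET) (hm : 1 ≤ m) {κ : ℝ} (hκ : 0 < κ) (hκ1 : κ ≤ 1)
    (h : ∀ r : ℝ, 0 ≤ r → r ≤ 1 / 2 → SErW P r (max (κ - r) 0 ^ 2 / (4 * κ))) : FZW P κ := by
  intro R0 δ ε X hδ hε
  have hδ' : 0 < min δ 1 := lt_min hδ one_pos
  obtain ⟨M, R, κ', C0, hM, hκ', H⟩ := aut_few h1 h2 h3 m hm (x := κ) (X := max X 1) (δ := min δ 1) (ε := ε)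
    hκ hκ1 (le_max_right _ _) hδ' (min_le_right _ _) hε
  have hM' : (1 : ℝ) ≤ M := by exact_mod_cast hM
  have hB : ∀ k : ℕ, ∃ B : ℝ, k ≤ M → ∀ (N : ℝ) (μ : Fin m → ℂ) (α : Fin m → ℕ → ℂ) (e : ℂ) (Λ : ℂ → ℂ)
      (y : ℝ), Wn P (R0 + |R|) N μ α e Λ y → ‖LL μ Λ (1 / 2 + ((k / (2 * M) : ℝ) : ℂ) + (y : ℂ) * I)‖ ≤
        Real.exp (B + (max (κ - k / (2 * M)) 0 ^ 2 / (4 * κ) + κ' / 2) * Real.log (cnd N μ y)) := by
    intro k
    by_cases hk : k ≤ M
    · have hk' : (k : ℝ) ≤ M := by exact_mod_cast hk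
      obtain ⟨B, HB⟩ := h (k / (2 * M)) (by positivity) (by
        rw [div_le_div_iff₀ (by positivity) (by norm_num)]
        linarith) (R0 + |R|) (κ' / 2) (by positivity)
      exact ⟨B, fun _ => HB⟩
    · exact ⟨0, fun hk' => absurd hk' hk⟩
  choose B HB using hB
  obtain ⟨BB, hBB⟩ : ∃ BB : ℝ, BB = ∑ k ∈ Finset.range (M + 1), |B k| := ⟨_, rfl⟩
  have hBB0 : 0 ≤ BB := by rw [hBB]; exact Finset.sum_nonneg fun k _ => abs_nonneg _
  have hBk : ∀ k, k ≤ M → B k ≤ BB := fun k hk => by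
    refine (le_abs_self _).trans ?_
    rw [hBB]
    exact Finset.single_le_sum (f := fun k => |B k|) (fun k _ => abs_nonneg _)
      (Finset.mem_range.2 (by omega))
  obtain ⟨r, hr⟩ : ∃ r : ℝ, r = m * Real.log (1 + |R|) := ⟨_, rfl⟩
  have hr0 : 0 ≤ r := by
    rw [hr]
    exact mul_nonneg (Nat.cast_nonneg m) (Real.log_nonneg (by linarith [abs_nonneg R]))
  refine ⟨max C0 (Real.exp (2 * (BB + (κ + κ' / 2) * r) / κ')), ?_⟩
  intro N μ α e Λ y hP t ht hC hx2 hX2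
  have hS := hP.1
  have hN := hS.1.one_le
  have h4 := lt_log ((le_max_right _ _).trans hC)
  rw [div_le_iff₀ hκ'] at h4
  refine cnt_mono (H N μ α e Λ hS.1 hS.2 t y ht ((le_max_left _ _).trans hC) hx2 (hX2.trans (le_max_left _ _))
    (fun k hk1 hkM v hv => ?_)) (fun z hz => ⟨?_, hz.2⟩) le_rfl
  · refine (HB k hkM N μ α e Λ (y + v) (hP.shift (by
      rw [add_sub_cancel_left]
      exact hv.trans (le_abs_self R)))).trans (Real.exp_le_exp.2 ?_)
    have h5 := logm_shift hN μ (y := y + v) (y' := y) (R := R) (by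
      rw [show y - (y + v) = -v by ring, abs_neg]
      exact hv.trans (le_abs_self R))
    rw [← hr] at h5
    obtain ⟨c, hc⟩ : ∃ c : ℝ, c = max (κ - k / (2 * M)) 0 ^ 2 / (4 * κ) := ⟨_, rfl⟩
    have hc0 : 0 ≤ c := by rw [hc]; positivity
    have hcκ : c ≤ κ := by rw [hc]; exact mx_le hκ (by positivity)
    rw [← hc]
    have h6 : (c + κ' / 2) * Real.log (cnd N μ (y + v)) ≤ (c + κ' / 2) * (Real.log (cnd N μ y) + r) :=
      mul_le_mul_of_nonneg_left h5 (by positivity)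
    have h7 : (c + κ' / 2) * r ≤ (κ + κ' / 2) * r := mul_le_mul_of_nonneg_right (by linarith) hr0
    have h8 := hBk k hkM
    linarith
  · have := hz.1
    have h5 := min_le_left δ 1
    linarith

theorem w_fz_ser (h1 : S_TCZ) (h2 : S_INVX) (hm : 1 ≤ m) {κ : ℝ} (hκ : 0 < κ) (hF : FZW P κ) (r : ℝ)
    (hr : 0 ≤ r) (hr1 : r ≤ 1 / 2) : SErW P r (max (κ - r) 0 ^ 2 / (4 * κ)) := by
  intro R0 ε hε
  obtain ⟨η, hηd⟩ : ∃ η : ℝ, η = min ε 1 := ⟨_, rfl⟩
  have hη : 0 < η := by rw [hηd]; exact lt_min hε one_pos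
  have hηε : η ≤ ε := by rw [hηd]; exact min_le_left _ _
  have hη1 : η ≤ 1 := by rw [hηd]; exact min_le_right _ _
  obtain ⟨κ1, R, C1, B1, hκ1, HZ⟩ := aut_exp h1 h2 m hm (g := κ) (X := κ + 2) (ε := ε / 2) hκ (by linarith)
    (by positivity)
  obtain ⟨J, hJ⟩ := exists_nat_ge (|R| + 1)
  have hJ0 : (0 : ℝ) ≤ J := Nat.cast_nonneg J
  obtain ⟨C2, HH⟩ := hF (R0 + J) κ1 (κ1 / (2 * (2 * J + 1))) (κ + 3) hκ1 (by positivity)
  obtain ⟨B2, HT⟩ := aut_triv_r m hm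
  obtain ⟨rr, hrr⟩ : ∃ rr : ℝ, rr = m * Real.log (1 + |(J : ℝ)|) := ⟨_, rfl⟩
  have hrr0 : 0 ≤ rr := by
    rw [hrr]
    exact mul_nonneg (Nat.cast_nonneg m) (Real.log_nonneg (by linarith [abs_nonneg (J : ℝ)]))
  obtain ⟨W, hW⟩ : ∃ W : ℝ, W = max (max C1 (|C2| * (1 + |(J : ℝ)|) ^ m))
    (Real.exp ((κ + 1) * rr / η + rr + 1)) := ⟨_, rfl⟩
  have hW1 : 1 ≤ W := by
    rw [hW]
    exact le_trans (Real.one_le_exp (by positivity)) (le_max_right _ _)
  refine ⟨max B1 (B2 + 3 / 4 * Real.log W), ?_⟩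
  intro N μ α e Λ y hP
  have hS := hP.1
  have hN := hS.1.one_le
  have hc := cnd_pos hN μ y
  have hL0 : 0 ≤ Real.log (cnd N μ y) := Real.log_nonneg hc
  obtain ⟨q, hq⟩ : ∃ q : ℝ, q = max (κ - r) 0 ^ 2 / (4 * κ) := ⟨_, rfl⟩
  have hq0 : 0 ≤ q := by rw [hq]; positivity
  rcases le_total (cnd N μ y) W with hsm | hbig
  · refine (HT N μ α e Λ hS.1 y r hr hr1).trans (Real.exp_le_exp.2 ?_)
    rw [← hq]
    have h3 : Real.log (cnd N μ y) ≤ Real.log W := Real.log_le_log (by linarith) hsm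
    have h4 := le_max_right B1 (B2 + 3 / 4 * Real.log W)
    have h5 : 0 ≤ (q + ε) * Real.log (cnd N μ y) := by positivity
    linarith
  · have hCa : C1 ≤ cnd N μ y := ((le_max_left _ _).trans ((le_max_left _ _).trans hW.ge)).trans hbig
    have hCb : |C2| * (1 + |(J : ℝ)|) ^ m ≤ cnd N μ y :=
      ((le_max_right _ _).trans ((le_max_left _ _).trans hW.ge)).trans hbig
    have hL := lt_log (((le_max_right _ _).trans hW.ge).trans hbig)
    obtain ⟨L, hLd⟩ : ∃ L : ℝ, L = Real.log (cnd N μ y) := ⟨_, rfl⟩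
    rw [← hLd] at hL hL0 ⊢
    have h8 : 0 ≤ (κ + 1) * rr / η := by positivity
    have hLp : 0 < L := by linarith
    obtain ⟨t, htd⟩ : ∃ t : ℝ, t = (κ + η) / L := ⟨_, rfl⟩
    have ht : 0 < t := by rw [htd]; positivity
    have htL : t * L = κ + η := by rw [htd]; field_simp
    have htr : t * rr ≤ η := by
      rw [htd, div_mul_eq_mul_div, div_le_iff₀ hLp]
      have h9 : η * ((κ + 1) * rr / η) = (κ + 1) * rr := by field_simp
      have h10 : η * ((κ + 1) * rr / η) ≤ η * L := mul_le_mul_of_nonneg_left (by linarith) hη.le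
      have h11 : (κ + η) * rr ≤ (κ + 1) * rr := mul_le_mul_of_nonneg_right (by linarith) hrr0
      linarith
    have hcov : Cnt (heat t (XX N Λ)) {z : ℂ | 1 / 2 + κ1 ≤ z.re ∧ |z.im - y| ≤ R} (κ1 * L) := by
      have h9 : ∀ j : ℤ, |j| ≤ J → Cnt (heat t (XX N Λ))
          {z : ℂ | 1 / 2 + κ1 ≤ z.re ∧ |z.im - (y + j)| ≤ 1} (κ1 / (2 * (2 * J + 1)) * (2 * L)) := by
        intro j hj
        have hj' : |(j : ℝ)| ≤ J := by exact_mod_cast hj
        have hj2 : |(y + j) - y| ≤ |(J : ℝ)| := by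
          rw [add_sub_cancel_left]
          exact hj'.trans (le_abs_self _)
        have h3 := cndm_shift (N := N) (by linarith) μ hj2
        have h6 := logm_shift hN μ hj2
        rw [abs_sub_comm] at hj2
        have h7 := logm_shift hN μ hj2
        rw [← hrr] at h6 h7
        rw [← hLd] at h6 h7
        have h6' := mul_le_mul_of_nonneg_left h6 ht.le
        have h7' := mul_le_mul_of_nonneg_left h7 ht.le
        have h5 : 0 < (1 + |(J : ℝ)|) ^ m := by positivity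
        have h10 := HH N μ α e Λ (y + j) (hP.shift (by
          rw [add_sub_cancel_left]
          exact hj')) t ht ((le_abs_self C2).trans
          (le_of_mul_le_mul_right (hCb.trans h3) h5)) (by linarith) (by linarith)
        refine cnt_mono h10 subset_rfl ?_
        apply mul_le_mul_of_nonneg_left _ (by positivity)
        linarith
      refine cnt_mono (cnt_cover (J := J) (R := R) (by linarith [le_abs_self R]) (by positivity) h9)
        subset_rfl (le_of_eq ?_)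
      field_simp
    have key := HZ N μ α e Λ hS.1 t y ht hCa (by rw [← hLd, htL]; linarith)
      (by rw [← hLd, htL]; linarith) (by rw [← hLd]; exact hcov) r hr hr1
    refine key.trans (Real.exp_le_exp.2 ?_)
    rw [← hLd, htL]
    have h4 := le_max_left B1 (B2 + 3 / 4 * Real.log W)
    have h5 := (phx_lip (x := κ) (x' := κ + η) (η := η) hκ hr (by linarith) le_rfl).2
    unfold phx at h5
    have e1 : max (κ + η - r) 0 ^ 2 / (4 * (κ + η)) = max (κ + η - r) 0 ^ 2 / (2 * (κ + η)) / 2 := by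
      field_simp
      ring
    have e2 : max (κ - r) 0 ^ 2 / (4 * κ) = max (κ - r) 0 ^ 2 / (2 * κ) / 2 := by
      field_simp
      ring
    have h6 : (max (κ + η - r) 0 ^ 2 / (4 * (κ + η)) + ε / 2) * L ≤
        (max (κ - r) 0 ^ 2 / (4 * κ) + ε) * L := by
      apply mul_le_mul_of_nonneg_right _ hL0
      rw [e1, e2]
      linarith
    linarith

theorem w_conv_ser (hm : 1 ≤ m) (r : ℝ) (hr : 0 ≤ r) (hr1 : r ≤ 1 / 2) : SErW P r ((1 / 2 - r) / 2) := by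
  intro R0 ε hε
  obtain ⟨C0, B, H⟩ := aut_conv m hm hε
  obtain ⟨B2, HT⟩ := aut_triv_r m hm
  refine ⟨max B (B2 + 3 / 4 * Real.log (max C0 1)), fun N μ α e Λ y hP => ?_⟩
  have hS := hP.1
  have hc := cnd_pos hS.1.one_le μ y
  have hL0 : 0 ≤ Real.log (cnd N μ y) := Real.log_nonneg hc
  rcases le_total (cnd N μ y) (max C0 1) with hsm | hbig
  · refine (HT N μ α e Λ hS.1 y r hr hr1).trans (Real.exp_le_exp.2 ?_)
    have h3 : Real.log (cnd N μ y) ≤ Real.log (max C0 1) := Real.log_le_log (by linarith) hsm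
    have h4 := le_max_right B (B2 + 3 / 4 * Real.log (max C0 1))
    have h6 : 0 ≤ (1 / 2 - r) / 2 + ε := by linarith
    have h5 : 0 ≤ ((1 / 2 - r) / 2 + ε) * Real.log (cnd N μ y) := mul_nonneg h6 hL0
    linarith
  · refine (H N μ α e Λ hS.1 hS.2 y ((le_max_left _ _).trans hbig) r hr hr1).trans (Real.exp_le_exp.2 ?_)
    have h4 := le_max_left B (B2 + 3 / 4 * Real.log (max C0 1))
    linarith

theorem w_se_ser (hm : 1 ≤ m) (hE : SErW P 0 0) (r : ℝ) (hr : 0 ≤ r) (hr1 : r ≤ 1 / 2) : SErW P r 0 := by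
  intro R0 ε hε
  obtain ⟨R, κ', C0, B, hκ', H⟩ := aut_maj m hm hε
  obtain ⟨B2, HT⟩ := aut_triv_r m hm
  obtain ⟨B1, HB⟩ := hE (R0 + |R|) (κ' / 2) (by positivity)
  obtain ⟨rr, hrr⟩ : ∃ rr : ℝ, rr = m * Real.log (1 + |R|) := ⟨_, rfl⟩
  have hrr0 : 0 ≤ rr := by
    rw [hrr]
    exact mul_nonneg (Nat.cast_nonneg m) (Real.log_nonneg (by linarith [abs_nonneg R]))
  obtain ⟨W, hW⟩ : ∃ W : ℝ, W = max (max C0 1) (Real.exp (2 * (|B1| + κ' / 2 * rr) / κ')) := ⟨_, rfl⟩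
  refine ⟨max B (B2 + 3 / 4 * Real.log W), fun N μ α e Λ y hP => ?_⟩
  have hS := hP.1
  have hc := cnd_pos hS.1.one_le μ y
  have hL0 : 0 ≤ Real.log (cnd N μ y) := Real.log_nonneg hc
  rcases le_total (cnd N μ y) W with hsm | hbig
  · refine (HT N μ α e Λ hS.1 y r hr hr1).trans (Real.exp_le_exp.2 ?_)
    have h3 : Real.log (cnd N μ y) ≤ Real.log W := Real.log_le_log (by linarith) hsm
    have h4 := le_max_right B (B2 + 3 / 4 * Real.log W)
    have h5 : 0 ≤ (0 + ε) * Real.log (cnd N μ y) := by positivity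
    linarith
  · have hL := lt_log (((le_max_right _ _).trans hW.ge).trans hbig)
    rw [div_le_iff₀ hκ'] at hL
    refine (H N μ α e Λ hS.1 hS.2 y ((((le_max_left _ _).trans (le_max_left _ _)).trans hW.ge).trans hbig)
      (fun v hv => ?_) r hr hr1).trans (Real.exp_le_exp.2 ?_)
    · have hb := HB N μ α e Λ (y + v) (hP.shift (by
        rw [add_sub_cancel_left]
        exact hv.trans (le_abs_self R)))
      rw [e0] at hb
      refine hb.trans (Real.exp_le_exp.2 ?_)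
      have h5 := logm_shift hS.1.one_le μ (y := y + v) (y' := y) (R := R) (by
        rw [show y - (y + v) = -v by ring, abs_neg]
        exact hv.trans (le_abs_self R))
      rw [← hrr] at h5
      have h6 : (0 + κ' / 2) * Real.log (cnd N μ (y + v)) ≤ (0 + κ' / 2) * (Real.log (cnd N μ y) + rr) :=
        mul_le_mul_of_nonneg_left h5 (by positivity)
      have h7 := le_abs_self B1
      linarith
    · have h4 := le_max_left B (B2 + 3 / 4 * Real.log W)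
      linarith

theorem w_fz_one (h1 : S_HPX) (h2 : S_JEN) (h3 : S_NET) (hm : 1 ≤ m) : FZW P 1 := by
  refine w_ser_fz h1 h2 h3 hm one_pos le_rfl fun r hr hr1 => w_ser_mono ?_ (w_conv_ser hm r hr hr1)
  rw [max_eq_left (by linarith)]
  nlinarith [sq_nonneg r]

theorem w_fz_iff (h1 : S_HPX) (h2 : S_JEN) (h3 : S_NET) (h4 : S_TCZ) (h5 : S_INVX) (hm : 1 ≤ m) {κ : ℝ}
    (hκ : 0 < κ) : FZW P κ ↔ ∀ r : ℝ, 0 ≤ r → r ≤ 1 / 2 → SErW P r (max (κ - r) 0 ^ 2 / (4 * κ)) := by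
  constructor
  · intro h r hr hr1
    exact w_fz_ser h4 h5 hm hκ h r hr hr1
  · intro h
    rcases le_total κ 1 with hκ1 | hκ1
    · exact w_ser_fz h1 h2 h3 hm hκ hκ1 h
    · exact w_fz_mono hκ1 (w_fz_one h1 h2 h3 hm)

theorem w_ser_sh (hm : 1 ≤ m) {κ : ℝ} (hκ : 0 < κ) (hκ1 : κ ≤ 1) (hZ : ZFW P κ)
    (h : ∀ r : ℝ, 0 ≤ r → r ≤ 1 / 2 → SErW P r (max (κ - r) 0 ^ 2 / (4 * κ))) : SHW P κ := by
  intro R0 ε0 X hε0
  obtain ⟨ε, hεd⟩ : ∃ ε : ℝ, ε = min ε0 1 := ⟨_, rfl⟩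
  have hε : 0 < ε := by rw [hεd]; exact lt_min hε0 one_pos
  have hε1 : ε ≤ 1 := by rw [hεd]; exact min_le_right _ _
  have hε2 : ε ≤ ε0 := by rw [hεd]; exact min_le_left _ _
  obtain ⟨M, R, κ', C0, hM, hκ', H⟩ := aut_fwdx m hm (x := κ) (X := max X 1) (ε := ε)
    hκ hκ1 (le_max_right _ _) hε hε1
  have hM' : (1 : ℝ) ≤ M := by exact_mod_cast hM
  have hB : ∀ k : ℕ, ∃ B : ℝ, k ≤ M → ∀ (N : ℝ) (μ : Fin m → ℂ) (α : Fin m → ℕ → ℂ) (e : ℂ) (Λ : ℂ → ℂ)
      (y : ℝ), Wn P (R0 + |R|) N μ α e Λ y → ‖LL μ Λ (1 / 2 + ((k / (2 * M) : ℝ) : ℂ) + (y : ℂ) * I)‖ ≤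
        Real.exp (B + (max (κ - k / (2 * M)) 0 ^ 2 / (4 * κ) + κ' / 2) * Real.log (cnd N μ y)) := by
    intro k
    by_cases hk : k ≤ M
    · have hk' : (k : ℝ) ≤ M := by exact_mod_cast hk
      obtain ⟨B, HB⟩ := h (k / (2 * M)) (by positivity) (by
        rw [div_le_div_iff₀ (by positivity) (by norm_num)]
        linarith) (R0 + |R|) (κ' / 2) (by positivity)
      exact ⟨B, fun _ => HB⟩
    · exact ⟨0, fun hk' => absurd hk' hk⟩
  choose B HB using hB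
  obtain ⟨BB, hBB⟩ : ∃ BB : ℝ, BB = ∑ k ∈ Finset.range (M + 1), |B k| := ⟨_, rfl⟩
  have hBB0 : 0 ≤ BB := by rw [hBB]; exact Finset.sum_nonneg fun k _ => abs_nonneg _
  have hBk : ∀ k, k ≤ M → B k ≤ BB := fun k hk => by
    refine (le_abs_self _).trans ?_
    rw [hBB]
    exact Finset.single_le_sum (f := fun k => |B k|) (fun k _ => abs_nonneg _)
      (Finset.mem_range.2 (by omega))
  obtain ⟨r, hr⟩ : ∃ r : ℝ, r = m * Real.log (1 + |R|) := ⟨_, rfl⟩
  have hr0 : 0 ≤ r := by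
    rw [hr]
    exact mul_nonneg (Nat.cast_nonneg m) (Real.log_nonneg (by linarith [abs_nonneg R]))
  obtain ⟨C1, HZ⟩ := hZ (R0 + |R|) (ε / 32) (by positivity)
  refine ⟨max (max C0 (|C1| * (1 + |R|) ^ m)) (Real.exp (2 * (BB + (κ + κ' / 2) * r) / κ')), ?_⟩
  intro N μ α e Λ t s hP ht hC hx2 hX2 hs
  have hS := hP.1
  have hN := hS.1.one_le
  have h4 := lt_log ((le_max_right _ _).trans hC)
  rw [div_le_iff₀ hκ'] at h4
  refine H N μ α e Λ hS.1 hS.2 t s.im ht (((le_max_left _ _).trans (le_max_left _ _)).trans hC) (by linarith)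
    (hX2.trans (le_max_left _ _)) (fun z hz1 hz2 => ?_) (fun k hk1 hkM v hv => ?_) s rfl hs
  · refine HZ N μ α e Λ z (hP.shift (hz2.trans (le_abs_self R))) ?_ (by linarith)
    have h3 := cndm_shift (N := N) (by linarith) μ (hz2.trans (le_abs_self R))
    have h5 : 0 < (1 + |R|) ^ m := by positivity
    have h6 := ((le_max_right _ _).trans (le_max_left _ _)).trans hC
    exact (le_abs_self C1).trans (le_of_mul_le_mul_right (h6.trans h3) h5)
  · refine (HB k hkM N μ α e Λ (s.im + v) (hP.shift (by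
      rw [add_sub_cancel_left]
      exact hv.trans (le_abs_self R)))).trans (Real.exp_le_exp.2 ?_)
    have h5 := logm_shift hN μ (y := s.im + v) (y' := s.im) (R := R) (by
      rw [show s.im - (s.im + v) = -v by ring, abs_neg]
      exact hv.trans (le_abs_self R))
    rw [← hr] at h5
    obtain ⟨c, hc⟩ : ∃ c : ℝ, c = max (κ - k / (2 * M)) 0 ^ 2 / (4 * κ) := ⟨_, rfl⟩
    have hc0 : 0 ≤ c := by rw [hc]; positivity
    have hcκ : c ≤ κ := by rw [hc]; exact mx_le hκ (by positivity)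
    rw [← hc]
    have h6 : (c + κ' / 2) * Real.log (cnd N μ (s.im + v)) ≤ (c + κ' / 2) * (Real.log (cnd N μ s.im) + r) :=
      mul_le_mul_of_nonneg_left h5 (by positivity)
    have h7 : (c + κ' / 2) * r ≤ (κ + κ' / 2) * r := mul_le_mul_of_nonneg_right (by linarith) hr0
    have h8 := hBk k hkM
    linarith

theorem w_sh_zf (hm : 1 ≤ m) {κ : ℝ} (hκ : 0 ≤ κ) (hH : SHW P κ) : ZFW P κ := by
  intro R0 ε hε
  obtain ⟨X, hX⟩ : ∃ X : ℝ, X = κ + ε + 1 := ⟨_, rfl⟩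
  have hX1 : 1 ≤ X := by linarith
  obtain ⟨R, C0, HB⟩ := aut_bwd m hm (θ := 1 / 2) (g := ε / 2) (X := X) (by norm_num) le_rfl
    (by positivity) hX1
  obtain ⟨C1, HH⟩ := hH (R0 + |R|) (ε / 4) X (by positivity)
  obtain ⟨r, hr⟩ : ∃ r : ℝ, r = m * Real.log (1 + |R|) := ⟨_, rfl⟩
  have hr0 : 0 ≤ r := by
    rw [hr]
    exact mul_nonneg (Nat.cast_nonneg m) (Real.log_nonneg (by linarith [abs_nonneg R]))
  refine ⟨max (max C0 (|C1| * (1 + |R|) ^ m)) (Real.exp (4 * X * r / ε + 1)), ?_⟩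
  intro N μ α e Λ s hP hC hre
  have hS := hP.1
  have hN := hS.1.one_le
  have hCa : C0 ≤ cnd N μ s.im := (le_max_left _ _).trans ((le_max_left _ _).trans hC)
  have hCb : |C1| * (1 + |R|) ^ m ≤ cnd N μ s.im :=
    (le_max_right _ _).trans ((le_max_left _ _).trans hC)
  have hL := lt_log ((le_max_right _ _).trans hC)
  obtain ⟨L, hLd⟩ : ∃ L : ℝ, L = Real.log (cnd N μ s.im) := ⟨_, rfl⟩
  rw [← hLd] at hL
  have h8 : 0 ≤ 4 * X * r / ε := by positivity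
  have hL0 : 0 < L := by linarith
  obtain ⟨t, htd⟩ : ∃ t : ℝ, t = (κ + ε / 2) / L := ⟨_, rfl⟩
  have ht : 0 < t := by rw [htd]; positivity
  have htL : t * L = κ + ε / 2 := by rw [htd]; field_simp
  have htr : t * r ≤ ε / 4 := by
    have h9 : t * (4 * X * r / ε) ≤ X := by
      have : t * (4 * X * r / ε) ≤ t * L := mul_le_mul_of_nonneg_left (by linarith) ht.le
      linarith
    rw [show t * (4 * X * r / ε) = 4 * t * r / ε * X by ring] at h9
    have h10 : 4 * t * r / ε ≤ 1 := by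
      by_contra hcon
      push Not at hcon
      nlinarith
    rw [div_le_one hε] at h10
    linarith
  refine HB N μ α e Λ hS.1 t s.im ht hCa (by rw [← hLd, htL]; linarith) (by rw [← hLd, htL]; linarith)
    (fun z hz1 hz2 hz => ?_) s rfl (by rw [← hLd, htL]; linarith)
  have hz2' : |z.im - s.im| ≤ |R| := hz2.trans (le_abs_self R)
  have h3 := cndm_shift (N := N) (by linarith) μ hz2'
  have h5 : 0 < (1 + |R|) ^ m := by positivity
  have h6 := logm_shift hN μ hz2'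
  rw [abs_sub_comm] at hz2'
  have h7 := logm_shift hN μ hz2'
  rw [← hr] at h6 h7
  rw [← hLd] at h6 h7
  have h6' := mul_le_mul_of_nonneg_left h6 ht.le
  have h7' := mul_le_mul_of_nonneg_left h7 ht.le
  have h9 := HH N μ α e Λ t z (hP.shift (hz2.trans (le_abs_self R))) ht ((le_abs_self C1).trans
    (le_of_mul_le_mul_right (hCb.trans h3) h5)) (by linarith) (by linarith) hz
  linarith

theorem w_sh_fz {κ κ' : ℝ} (hκ : κ < κ') (hH : SHW P κ) : FZW P κ' := by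
  intro R0 δ ε X hδ hε
  obtain ⟨C0, HH⟩ := hH (R0 + 1) ((κ' - κ) / 2) (X + 1 + |X|) (by linarith)
  obtain ⟨r, hr⟩ : ∃ r : ℝ, r = m * Real.log (1 + |(1 : ℝ)|) := ⟨_, rfl⟩
  have hr0 : 0 ≤ r := by
    rw [hr]
    exact mul_nonneg (Nat.cast_nonneg m) (Real.log_nonneg (by norm_num))
  refine ⟨max (|C0| * (1 + |(1 : ℝ)|) ^ m) (Real.exp ((|X| + 1) * r / min ((κ' - κ) / 2) 1 + 1)), ?_⟩
  intro N μ α e Λ y hP t ht hC h1 h2
  have hS := hP.1
  have hN := hS.1.one_le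
  have hg : 0 < min ((κ' - κ) / 2) 1 := lt_min (by linarith) one_pos
  have hg1 := min_le_left ((κ' - κ) / 2) 1
  have hg2 := min_le_right ((κ' - κ) / 2) 1
  have hCb := (le_max_left _ _).trans hC
  have hL := lt_log ((le_max_right _ _).trans hC)
  obtain ⟨g, hgd⟩ : ∃ g : ℝ, g = min ((κ' - κ) / 2) 1 := ⟨_, rfl⟩
  rw [← hgd] at hg hg1 hg2 hL
  obtain ⟨L, hLd⟩ : ∃ L : ℝ, L = Real.log (cnd N μ y) := ⟨_, rfl⟩
  rw [← hLd] at hL h1 h2 ⊢
  have h8 : 0 ≤ (|X| + 1) * r / g := by positivity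
  have hLp : 0 < L := by linarith
  have htr : t * r ≤ g := by
    have h9 : t * ((|X| + 1) * r / g) ≤ |X| := by
      have : t * ((|X| + 1) * r / g) ≤ t * L := mul_le_mul_of_nonneg_left (by linarith) ht.le
      linarith [le_abs_self X]
    have h10 : t * ((|X| + 1) * r / g) = (|X| + 1) * (t * r) / g := by ring
    rw [h10, div_le_iff₀ hg] at h9
    have h11 := abs_nonneg X
    have h12 : 0 ≤ t * r := by positivity
    by_contra hcon
    push Not at hcon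
    nlinarith
  intro S hS'
  have hemp : S = ∅ := by
    rw [Finset.eq_empty_iff_forall_notMem]
    intro z hz
    obtain ⟨z0, z1, z2⟩ := hS' z hz
    have hz2' : |z.im - y| ≤ |(1 : ℝ)| := by rw [abs_one]; exact z2
    have h3 := cndm_shift (N := N) (by linarith) μ hz2'
    have h5 : 0 < (1 + |(1 : ℝ)|) ^ m := by positivity
    have h6 := logm_shift hN μ hz2'
    rw [abs_sub_comm] at hz2'
    have h7 := logm_shift hN μ hz2'
    rw [← hr] at h6 h7
    rw [← hLd] at h6 h7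
    have h6' := mul_le_mul_of_nonneg_left h6 ht.le
    have h7' := mul_le_mul_of_nonneg_left h7 ht.le
    have h9 := HH N μ α e Λ t z (hP.shift z2) ht ((le_abs_self C0).trans
      (le_of_mul_le_mul_right (hCb.trans h3) h5)) (by linarith) (by linarith [abs_nonneg X]) z0
    linarith
  rw [hemp, Finset.sum_empty]
  positivity

lemma w_ser_lim {r a : ℝ} (h : ∀ e : ℝ, 0 < e → SErW P r (a + e)) : SErW P r a := by
  intro R0 ε hε
  obtain ⟨B, HB⟩ := h (ε / 2) (by positivity) R0 (ε / 2) (by positivity)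
  refine ⟨B, fun N μ α e Λ y hP => (HB N μ α e Λ y hP).trans (Real.exp_le_exp.2 ?_)⟩
  apply le_of_eq
  ring

theorem w_sh_iff (hm : 1 ≤ m) {κ : ℝ} (hκ : 0 < κ) : SHW P κ ↔
    ZFW P κ ∧ ∀ r : ℝ, 0 ≤ r → r ≤ 1 / 2 → SErW P r (max (κ - r) 0 ^ 2 / (4 * κ)) := by
  constructor
  · intro h
    refine ⟨w_sh_zf hm hκ.le h, fun r hr0 hr1 => w_ser_lim fun e he => ?_⟩
    obtain ⟨η, hη⟩ : ∃ η : ℝ, η = min e κ := ⟨_, rfl⟩
    have hη0 : 0 < η := by rw [hη]; exact lt_min he hκ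
    have hη1 : η ≤ e := by rw [hη]; exact min_le_left _ _
    have h1 := (w_fz_iff hpx_all jen_all net_all tcz_all invx_all hm (κ := κ + η) (by linarith)).1
      (w_sh_fz (by linarith) h) r hr0 hr1
    refine w_ser_mono ?_ h1
    have h5 := (phx_lip (x := κ) (x' := κ + η) (η := η) hκ hr0 (by linarith) le_rfl).2
    unfold Pool.Agent.W169.HF.phx at h5
    have e1 : max (κ + η - r) 0 ^ 2 / (4 * (κ + η)) = max (κ + η - r) 0 ^ 2 / (2 * (κ + η)) / 2 := by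
      field_simp
      ring
    have e2 : max (κ - r) 0 ^ 2 / (4 * κ) = max (κ - r) 0 ^ 2 / (2 * κ) / 2 := by
      field_simp
      ring
    rw [e1, e2]
    linarith
  · rintro ⟨hZ, h⟩
    rcases le_total κ 1 with hκ1 | hκ1
    · exact w_ser_sh hm hκ hκ1 hZ h
    · exact w_sh_mono hκ1 (w_sh_one hm)

theorem w_sh_zf_iff (hm : 1 ≤ m) (hE : SErW P 0 0) {κ : ℝ} (hκ : 0 ≤ κ) : SHW P κ ↔ ZFW P κ := by
  refine ⟨w_sh_zf hm hκ, fun h => w_sh_lim fun κ' hκ' => ?_⟩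
  exact (w_sh_iff hm (by linarith)).2 ⟨w_zf_mono hκ'.le h, fun r hr0 hr1 =>
    w_ser_mono (by
      have : 0 < κ' := by linarith
      positivity) (w_se_ser hm hE r hr0 hr1)⟩

theorem w_zf_ser (hm : 1 ≤ m) {v a : ℝ} (hv0 : 0 < v) (hv1 : v ≤ 1 / 2) (ha0 : 0 ≤ a)
    (hav : 2 * a ≤ v) (hZ : ZFW P v) (hE : SErW P 0 a) (r : ℝ) (hr : 0 ≤ r) (hr1 : r ≤ 1 / 2) :
    SErW P r (max (a * (1 - r / v)) 0) := by
  intro R0 ε hε
  obtain ⟨R, κ', C0, B, hκ', H⟩ := aut_majv m hm (v := v) (a := a) (ε := ε) hv0 hv1 ha0 hav hε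
  obtain ⟨B1, HB1⟩ := hE (R0 + |R|) (κ' / 2) (by positivity)
  obtain ⟨C1, HZ⟩ := hZ (R0 + |R|) (κ' / 2) (by positivity)
  obtain ⟨Bt, HT⟩ := aut_triv_r m hm
  obtain ⟨q, hq⟩ : ∃ q : ℝ, q = m * Real.log (1 + |R|) := ⟨_, rfl⟩
  have hq0 : 0 ≤ q := by
    rw [hq]
    exact mul_nonneg (Nat.cast_nonneg m) (Real.log_nonneg (by linarith [abs_nonneg R]))
  obtain ⟨C2, hC2⟩ : ∃ C2 : ℝ, C2 = max (max C0 (|C1| * (1 + |R|) ^ m))
      (Real.exp (2 * (|B1| + (a + κ' / 2) * q) / κ')) := ⟨_, rfl⟩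
  have hC20 : 0 < C2 := by rw [hC2]; exact (Real.exp_pos _).trans_le (le_max_right _ _)
  refine ⟨max B (|Bt| + 3 / 4 * Real.log C2), ?_⟩
  intro N μ α e Λ y hP
  have hS := hP.1
  have hN := hS.1.one_le
  have h1 : 1 ≤ cnd N μ y := cnd_pos hN μ y
  have hL0 : 0 ≤ Real.log (cnd N μ y) := Real.log_nonneg h1
  have hc0 : 0 ≤ (max (a * (1 - r / v)) 0 + ε) * Real.log (cnd N μ y) := by positivity
  rcases le_total C2 (cnd N μ y) with hC | hC
  · have h4 : 2 * (|B1| + (a + κ' / 2) * q) / κ' ≤ Real.log (cnd N μ y) := by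
      apply lt_log
      rw [hC2] at hC
      exact (le_max_right _ _).trans hC
    rw [div_le_iff₀ hκ'] at h4
    refine (H N μ α e Λ hS.1 y ?_ (fun z hz1 hz2 => ?_) (fun w hw => ?_) r hr hr1).trans ?_
    · rw [hC2] at hC
      exact ((le_max_left _ _).trans (le_max_left _ _)).trans hC
    · refine HZ N μ α e Λ z (hP.shift (hz2.trans (le_abs_self R))) ?_ (by linarith)
      have h3 := cndm_shift (N := N) (by linarith) μ (hz2.trans (le_abs_self R))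
      have h5 : 0 < (1 + |R|) ^ m := by positivity
      have h6 : |C1| * (1 + |R|) ^ m ≤ cnd N μ y := by
        rw [hC2] at hC
        exact ((le_max_right _ _).trans (le_max_left _ _)).trans hC
      exact (le_abs_self C1).trans (le_of_mul_le_mul_right (h6.trans h3) h5)
    · have hb := HB1 N μ α e Λ (y + w) (hP.shift (by
        rw [add_sub_cancel_left]
        exact hw.trans (le_abs_self R)))
      rw [e0] at hb
      refine hb.trans (Real.exp_le_exp.2 ?_)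
      have h5 := logm_shift hN μ (y := y + w) (y' := y) (R := R) (by
        rw [show y - (y + w) = -w by ring, abs_neg]
        exact hw.trans (le_abs_self R))
      rw [← hq] at h5
      have h6 := mul_le_mul_of_nonneg_left h5 (by positivity : 0 ≤ a + κ' / 2)
      have h8 := le_abs_self B1
      linarith
    · apply Real.exp_le_exp.2
      have := le_max_left B (|Bt| + 3 / 4 * Real.log C2)
      linarith
  · refine (HT N μ α e Λ hS.1 y r hr hr1).trans (Real.exp_le_exp.2 ?_)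
    have h5 := Real.log_le_log (by linarith) hC
    have := le_max_right B (|Bt| + 3 / 4 * Real.log C2)
    have := le_abs_self Bt
    linarith

theorem w_zf_se_sh (hm : 1 ≤ m) {v a : ℝ} (hv0 : 0 < v) (hv1 : v ≤ 1 / 2) (ha0 : 0 ≤ a)
    (hav : 2 * a ≤ v) (hZ : ZFW P v) (hE : SErW P 0 a) : SHW P (v ^ 2 / (v - a)) := by
  have hva : 0 < v - a := by linarith
  obtain ⟨κ, hκd⟩ : ∃ κ : ℝ, κ = v ^ 2 / (v - a) := ⟨_, rfl⟩
  have hκm : κ * (v - a) = v ^ 2 := by rw [hκd]; field_simp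
  have hκ : 0 < κ := by rw [hκd]; positivity
  have hκv : v ≤ κ := by
    rw [hκd, le_div_iff₀ hva]
    nlinarith
  rw [← hκd]
  refine (w_sh_iff hm hκ).2 ⟨w_zf_mono hκv hZ, fun r hr hr1 => w_ser_mono ?_
    (w_zf_ser hm hv0 hv1 ha0 hav hZ hE r hr hr1)⟩
  refine max_le ?_ (by positivity)
  rcases le_total κ r with h | h
  · have h1 : 1 - r / v ≤ 0 := by
      rw [sub_nonpos, one_le_div hv0]
      linarith
    have h2 : a * (1 - r / v) ≤ 0 := mul_nonpos_of_nonneg_of_nonpos ha0 h1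
    exact h2.trans (by positivity)
  · rw [max_eq_left (by linarith), le_div_iff₀ (by positivity)]
    have h1 : v ^ 2 * (a * (1 - r / v) * (4 * κ)) ≤ v ^ 2 * (κ - r) ^ 2 := by
      have e1 : v ^ 2 * (a * (1 - r / v) * (4 * κ)) = 4 * κ * a * v * (v - r) := by
        field_simp
      rw [e1]
      -- v²(κ−r)² − 4κ a v (v − r), with κ (v − a) = v²
      have e2 : v ^ 2 * (κ - r) ^ 2 - 4 * κ * a * v * (v - r) = (v * r - κ * (v - 2 * a)) ^ 2 := by
        have e3 : v ^ 2 * κ ^ 2 - 4 * κ * a * v ^ 2 = κ ^ 2 * (v - 2 * a) ^ 2 := by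
          have e4 : κ ^ 2 * (v - 2 * a) ^ 2 = κ ^ 2 * v ^ 2 - 4 * a * κ * (κ * (v - a)) := by ring
          rw [e4, hκm]
          ring
        linear_combination e3
      nlinarith [sq_nonneg (v * r - κ * (v - 2 * a))]
    exact le_of_mul_le_mul_left h1 (by positivity)

/-- **Lindelof near the points and zeros of the heat flow** -/
theorem w_lh_iff (hm : 1 ≤ m) : SErW P 0 0 ↔ ∀ κ : ℝ, 0 < κ → FZW P κ := by
  constructor
  · intro h κ hκ
    refine (w_fz_iff hpx_all jen_all net_all tcz_all invx_all hm hκ).2 fun r hr hr1 =>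
      w_ser_mono (by positivity) (w_se_ser hm h r hr hr1)
  · intro h
    refine w_ser_lim fun κ hκ => ?_
    have h6 := (w_fz_iff hpx_all jen_all net_all tcz_all invx_all hm hκ).1 (h κ hκ) 0 le_rfl (by norm_num)
    refine w_ser_mono ?_ h6
    rw [sub_zero, max_eq_left hκ.le]
    have e1 : κ ^ 2 / (4 * κ) = κ / 4 := by
      field_simp
    rw [e1]
    linarith

end Run7.h833
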