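import Pool.Agent.Run7.h833.WnA

/-!
# Families with bounded archimedean parameters: windows around the real point
-/

set_option autoImplicit false

open Complex Set MeasureTheory intervalIntegral Filter Topology
open scoped ComplexConjugate NNReal ENNReal

namespace Run7.h833

open Pool.Agent.W169.HF
open H353.E H353.F

/-- a family of standard L-functions with bounded archimedean parameters and conductor of the size `A ^ w` -/
structure WFam (ι : Type) (m : ℕ) where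
  /-- conductor -/
  N : ι → ℝ
  /-- archimedean parameters -/
  μ : ι → Fin m → ℂ
  /-- Satake parameters -/
  α : ι → Fin m → ℕ → ℂ
  /-- root number -/
  e : ι → ℂ
  /-- completed function -/
  Λ : ι → ℂ → ℂ
  std : ∀ i, Std (N i) (μ i) (α i) (e i) (Λ i)
  /-- size -/
  A : ι → ℝ
  A_one : ∀ i, 1 ≤ A i
  /-- exponent of the conductor -/
  w : ℝ
  w_pos : 0 < w
  /-- constant -/
  b : ℝ
  b_nonneg : 0 ≤ b
  cmp : ∀ i, |Real.log (N i) - w * Real.log (A i)| ≤ b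
  /-- bound of the archimedean parameters -/
  K : ℝ
  arch : ∀ i j, ‖μ i j‖ ≤ K

namespace WFam

variable {ι : Type} {m : ℕ} (F : WFam ι m)

/-- the class of pairs -/
def cls : Cls2 m := fun N μ α e Λ y =>
  (∃ i, F.N i = N ∧ F.μ i = μ ∧ F.α i = α ∧ F.e i = e ∧ F.Λ i = Λ) ∧ y = 0

lemma wn {R y : ℝ} (i : ι) (h : |y| ≤ R) : Wn F.cls R (F.N i) (F.μ i) (F.α i) (F.e i) (F.Λ i) y :=
  ⟨F.std i, 0, ⟨⟨i, rfl, rfl, rfl, rfl, rfl⟩, rfl⟩, by rwa [sub_zero]⟩

/-- comparison of the local conductors -/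
lemma logs (R : ℝ) : ∃ ρ : ℝ, 0 ≤ ρ ∧ ∀ i y, |y| ≤ R → Real.log (F.N i) ≤ Real.log (cnd (F.N i) (F.μ i) y) ∧
    Real.log (cnd (F.N i) (F.μ i) y) ≤ Real.log (F.N i) + ρ := by
  refine ⟨m * Real.log (1 + (|F.K| + |R|)), mul_nonneg (Nat.cast_nonneg m) (Real.log_nonneg (by
    have := abs_nonneg F.K
    have := abs_nonneg R
    linarith)), fun i y hy => ?_⟩
  have hN := (F.std i).1.one_le
  have hN0 : 0 < F.N i := by linarith
  have hp : ∀ j, 0 < 1 + ‖(y : ℂ) * I - F.μ i j‖ := fun j => by positivity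
  constructor
  · exact Real.log_le_log hN0 (le_cnd hN (F.μ i) y)
  · unfold cnd
    rw [Real.log_mul hN0.ne' (Finset.prod_pos fun j _ => hp j).ne', Real.log_prod (fun j _ => (hp j).ne')]
    have h1 : ∀ j ∈ Finset.univ, Real.log (1 + ‖(y : ℂ) * I - F.μ i j‖) ≤ Real.log (1 + (|F.K| + |R|)) := by
      intro j _
      apply Real.log_le_log (hp j)
      have h2 := norm_sub_le ((y : ℂ) * I) (F.μ i j)
      rw [norm_mul, Complex.norm_real, Complex.norm_I, mul_one, Real.norm_eq_abs] at h2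
      have h3 := F.arch i j
      have h4 := le_abs_self F.K
      have h5 := le_abs_self R
      linarith
    have h2 := Finset.sum_le_sum h1
    rw [Finset.sum_const, Finset.card_univ, Fintype.card_fin, nsmul_eq_mul] at h2
    linarith

lemma A_log (i : ι) : 0 ≤ Real.log (F.A i) := Real.log_nonneg (F.A_one i)

lemma N_log (i : ι) : 0 ≤ Real.log (F.N i) := Real.log_nonneg (F.std i).1.one_le

/-- large size gives large conductor -/
lemma up (X : ℝ) : ∃ A0 : ℝ, ∀ i, A0 ≤ F.A i → X ≤ Real.log (F.N i) := by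
  refine ⟨Real.exp ((X + F.b) / F.w), fun i hi => ?_⟩
  have h1 := lt_log hi
  rw [div_le_iff₀ F.w_pos] at h1
  have h2 := (abs_le.1 (F.cmp i)).1
  linarith

/-- large conductor gives large size -/
lemma down (A0 : ℝ) : ∃ X : ℝ, ∀ i, X ≤ Real.log (F.N i) → A0 ≤ F.A i := by
  refine ⟨F.w * Real.log (max A0 1) + F.b, fun i hi => ?_⟩
  have h2 := (abs_le.1 (F.cmp i)).2
  have h3 : F.w * Real.log (max A0 1) ≤ F.w * Real.log (F.A i) := by linarith
  have h4 := le_of_mul_le_mul_left h3 F.w_pos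
  have h5 : 0 < max A0 1 := lt_max_of_lt_right one_pos
  exact (le_max_left A0 1).trans ((Real.log_le_log_iff h5 (by linarith [F.A_one i])).1 h4)

/-- size exponent -/
def Sz (r a : ℝ) : Prop := ∀ R ε : ℝ, 0 < ε → ∃ B : ℝ, ∀ (i : ι) (y : ℝ), |y| ≤ R →
  ‖LL (F.μ i) (F.Λ i) (1 / 2 + (r : ℂ) + (y : ℂ) * I)‖ ≤ B * F.A i ^ (a + ε)

/-- few zeros of the heat flow -/
def Few (κ : ℝ) : Prop := ∀ R δ ε : ℝ, 0 < δ → 0 < ε → ∃ A0 : ℝ, ∀ i : ι, A0 ≤ F.A i →
  Cnt (heat (κ / Real.log (F.N i)) (XX (F.N i) (F.Λ i))) {z : ℂ | 1 / 2 + δ ≤ z.re ∧ |z.im| ≤ R}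
    (ε * Real.log (F.A i))

/-- horizon -/
def Hor (κ : ℝ) : Prop := ∀ κ' R : ℝ, κ < κ' → ∃ A0 : ℝ, ∀ i : ι, A0 ≤ F.A i → ∀ s : ℂ, |s.im| ≤ R →
  heat (κ' / Real.log (F.N i)) (XX (F.N i) (F.Λ i)) s = 0 → s.re = 1 / 2

/-- zero-free half-strips -/
def Free (κ : ℝ) : Prop := ∀ R ε : ℝ, 0 < ε → ∃ A0 : ℝ, ∀ i : ι, A0 ≤ F.A i → ∀ s : ℂ, |s.im| ≤ R →
  1 / 2 + κ + ε ≤ s.re → F.Λ i s ≠ 0

lemma sz_iff {r a : ℝ} (ha : 0 ≤ a) : F.Sz r a ↔ SErW F.cls r (a / F.w) := by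
  have hw := F.w_pos
  have hb := F.b_nonneg
  constructor
  · intro h R ε hε
    obtain ⟨B, HB⟩ := h R (ε * F.w) (by positivity)
    refine ⟨Real.log (max B 1) + (a / F.w + ε) * F.b, ?_⟩
    rintro N μ α e Λ y ⟨-, y0, ⟨⟨i, rfl, rfl, rfl, rfl, rfl⟩, rfl⟩, hy⟩
    rw [sub_zero] at hy
    have hB : 0 < max B 1 := lt_max_of_lt_right one_pos
    refine (HB i y hy).trans ?_
    have h1 : 0 ≤ F.A i ^ (a + ε * F.w) := Real.rpow_nonneg (by linarith [F.A_one i]) _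
    refine (mul_le_mul_of_nonneg_right (le_max_left B 1) h1).trans ?_
    rw [add_assoc, Real.exp_add, Real.exp_log hB]
    refine mul_le_mul_of_nonneg_left ?_ hB.le
    rw [Real.rpow_def_of_pos (by linarith [F.A_one i])]
    apply Real.exp_le_exp.2
    have h2 := (abs_le.1 (F.cmp i)).1
    have h3 := Real.log_le_log (by linarith [(F.std i).1.one_le]) (le_cnd (F.std i).1.one_le (F.μ i) y)
    have h4 : F.w * Real.log (F.A i) ≤ Real.log (cnd (F.N i) (F.μ i) y) + F.b := by linarith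
    have h5 : 0 ≤ a / F.w + ε := by positivity
    have h6 := mul_le_mul_of_nonneg_left h4 h5
    have e1 : (a / F.w + ε) * (F.w * Real.log (F.A i)) = Real.log (F.A i) * (a + ε * F.w) := by
      field_simp
    rw [e1] at h6
    linarith
  · intro h R ε hε
    obtain ⟨ρ, hρ, hl⟩ := F.logs R
    obtain ⟨B, HB⟩ := h R (ε / F.w) (by positivity)
    refine ⟨Real.exp (B + (a / F.w + ε / F.w) * (F.b + ρ)), fun i y hy => ?_⟩
    refine (HB _ _ _ _ _ y (F.wn i hy)).trans ?_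
    rw [Real.rpow_def_of_pos (by linarith [F.A_one i]), ← Real.exp_add]
    apply Real.exp_le_exp.2
    have h2 := (abs_le.1 (F.cmp i)).2
    have h3 := (hl i y hy).2
    have h4 : Real.log (cnd (F.N i) (F.μ i) y) ≤ F.w * Real.log (F.A i) + (F.b + ρ) := by linarith
    have h5 : 0 ≤ a / F.w + ε / F.w := by positivity
    have h6 := mul_le_mul_of_nonneg_left h4 h5
    have e1 : (a / F.w + ε / F.w) * (F.w * Real.log (F.A i) + (F.b + ρ)) =
      Real.log (F.A i) * (a + ε) + (a / F.w + ε / F.w) * (F.b + ρ) := by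
      field_simp
    rw [e1] at h6
    linarith

lemma free_iff {κ : ℝ} : F.Free κ ↔ ZFW F.cls κ := by
  constructor
  · intro h R ε hε
    obtain ⟨A0, H⟩ := h R ε hε
    obtain ⟨X, hX⟩ := F.down A0
    obtain ⟨ρ, hρ, hl⟩ := F.logs R
    refine ⟨Real.exp (X + ρ), ?_⟩
    rintro N μ α e Λ s ⟨-, y0, ⟨⟨i, rfl, rfl, rfl, rfl, rfl⟩, rfl⟩, hy⟩ hC hs
    rw [sub_zero] at hy
    have h1 := lt_log hC
    have h2 := (hl i s.im hy).2
    exact H i (hX i (by linarith)) s hy hs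
  · intro h R ε hε
    obtain ⟨C0, H⟩ := h R ε hε
    obtain ⟨A0, hA⟩ := F.up (Real.log (max C0 1))
    refine ⟨A0, fun i hi s hs1 hs2 => ?_⟩
    have h1 := hA i hi
    have hN := (F.std i).1.one_le
    have h2 : max C0 1 ≤ F.N i := (Real.log_le_log_iff (lt_max_of_lt_right one_pos) (by linarith)).1 h1
    exact H _ _ _ _ _ s (F.wn i hs1) (((le_max_left _ _).trans h2).trans (le_cnd hN (F.μ i) s.im)) hs2

/-- the exponent at nearby times -/
lemma fmove {κ τ r : ℝ} (hκ : 0 < κ) (hr : 0 ≤ r) (hτ : κ ≤ τ) :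
    max (τ - r) 0 ^ 2 / (4 * τ) ≤ max (κ - r) 0 ^ 2 / (4 * κ) + (τ - κ) := by
  have h5 := (phx_lip (x := κ) (x' := τ) (η := τ - κ) hκ hr hτ (by linarith)).2
  unfold phx at h5
  have hτ0 : 0 < τ := by linarith
  have e1 : max (τ - r) 0 ^ 2 / (4 * τ) = max (τ - r) 0 ^ 2 / (2 * τ) / 2 := by
    field_simp
    ring
  have e2 : max (κ - r) 0 ^ 2 / (4 * κ) = max (κ - r) 0 ^ 2 / (2 * κ) / 2 := by
    field_simp
    ring
  rw [e1, e2]
  linarith

/-- few zeros give the size exponents -/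
theorem few_sz (hm : 1 ≤ m) {κ : ℝ} (hκ : 0 < κ) (hF : F.Few κ) (r : ℝ) (hr : 0 ≤ r) (hr1 : r ≤ 1 / 2) :
    SErW F.cls r (max (κ - r) 0 ^ 2 / (4 * κ)) := by
  intro R0 ε hε
  have hw := F.w_pos
  obtain ⟨κ1, R, C1, B1, hκ1, HZ⟩ := aut_exp tcz_all invx_all m hm (g := κ) (X := κ + 1) (ε := ε / 2) hκ
    (by linarith) (by positivity)
  obtain ⟨A0, HH⟩ := hF (|R0| + |R|) κ1 (κ1 * F.w / 2) hκ1 (by positivity)
  obtain ⟨B2, HT⟩ := aut_triv_r m hm
  obtain ⟨ρ, hρ, hl⟩ := F.logs R0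
  obtain ⟨X1, hX1⟩ := F.down A0
  obtain ⟨η, hη⟩ : ∃ η : ℝ, η = min 1 (ε / 2) := ⟨_, rfl⟩
  have hη0 : 0 < η := by rw [hη]; exact lt_min one_pos (by positivity)
  have hη1 : η ≤ 1 := by rw [hη]; exact min_le_left _ _
  have hη2 : η ≤ ε / 2 := by rw [hη]; exact min_le_right _ _
  obtain ⟨W, hW⟩ : ∃ W : ℝ, W = |X1| + |Real.log (max C1 1)| + κ * ρ / η + 2 * F.b + 1 := ⟨_, rfl⟩
  have hb := F.b_nonneg
  have hW1 : 0 ≤ κ * ρ / η := by positivity
  refine ⟨max B1 (B2 + 3 / 4 * (W + ρ)), ?_⟩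
  rintro N μ α e Λ y ⟨-, y0, ⟨⟨i, rfl, rfl, rfl, rfl, rfl⟩, rfl⟩, hy⟩
  rw [sub_zero] at hy
  have hS := F.std i
  have hN := hS.1.one_le
  have hN0 : 0 < F.N i := by linarith
  obtain ⟨hl1, hl2⟩ := hl i y hy
  have hc := cnd_pos hN (F.μ i) y
  have hL0 : 0 ≤ Real.log (cnd (F.N i) (F.μ i) y) := Real.log_nonneg hc
  obtain ⟨q, hq⟩ : ∃ q : ℝ, q = max (κ - r) 0 ^ 2 / (4 * κ) := ⟨_, rfl⟩
  have hq0 : 0 ≤ q := by rw [hq]; positivity
  rcases le_total (Real.log (F.N i)) W with hsm | hbig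
  · refine (HT _ _ _ _ _ hS.1 y r hr hr1).trans (Real.exp_le_exp.2 ?_)
    rw [← hq]
    have h4 := le_max_right B1 (B2 + 3 / 4 * (W + ρ))
    have h5 : 0 ≤ (q + ε) * Real.log (cnd (F.N i) (F.μ i) y) := by positivity
    linarith
  · obtain ⟨ℓ, hℓ⟩ : ∃ ℓ : ℝ, ℓ = Real.log (F.N i) := ⟨_, rfl⟩
    obtain ⟨L, hL⟩ : ∃ L : ℝ, L = Real.log (cnd (F.N i) (F.μ i) y) := ⟨_, rfl⟩
    rw [← hℓ] at hbig hl1 hl2
    rw [← hL] at hl1 hl2 hL0 ⊢
    have ha1 := le_abs_self X1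
    have ha2 := abs_nonneg X1
    have ha3 := le_abs_self (Real.log (max C1 1))
    have ha4 := abs_nonneg (Real.log (max C1 1))
    have hℓ0 : 0 < ℓ := by linarith
    have hC1 : C1 ≤ cnd (F.N i) (F.μ i) y := by
      have h2 : max C1 1 ≤ F.N i := by
        refine (Real.log_le_log_iff (lt_max_of_lt_right one_pos) hN0).1 ?_
        rw [← hℓ]
        linarith
      exact ((le_max_left _ _).trans h2).trans (le_cnd hN (F.μ i) y)
    obtain ⟨t, htd⟩ : ∃ t : ℝ, t = κ / ℓ := ⟨_, rfl⟩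
    have ht : 0 < t := by rw [htd]; positivity
    have htl : t * ℓ = κ := by rw [htd]; field_simp
    have htρ : t * ρ ≤ η := by
      rw [htd, div_mul_eq_mul_div, div_le_iff₀ hℓ0]
      have h9 : κ * ρ / η ≤ ℓ := by linarith
      rw [div_le_iff₀ hη0] at h9
      linarith
    have htL1 : κ ≤ t * L := by
      have := mul_le_mul_of_nonneg_left hl1 ht.le
      linarith
    have htL2 : t * L ≤ κ + η := by
      have := mul_le_mul_of_nonneg_left hl2 ht.le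
      linarith
    have hA : A0 ≤ F.A i := hX1 i (by rw [← hℓ]; linarith)
    have hcnt := HH i hA
    rw [← hℓ, ← htd] at hcnt
    have hcov : Cnt (heat t (XX (F.N i) (F.Λ i))) {z : ℂ | 1 / 2 + κ1 ≤ z.re ∧ |z.im - y| ≤ R} (κ1 * L) := by
      refine cnt_mono hcnt (fun z hz => ⟨hz.1, ?_⟩) ?_
      · have h3 := abs_add_le (z.im - y) y
        rw [sub_add_cancel] at h3
        have h4 := le_abs_self R
        have h5 := le_abs_self R0
        linarith [hz.2]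
      · have h2 := (abs_le.1 (F.cmp i)).1
        rw [← hℓ] at h2
        have h3 : F.w * Real.log (F.A i) ≤ 2 * ℓ := by linarith
        have h4 : κ1 * F.w / 2 * Real.log (F.A i) = κ1 * (F.w * Real.log (F.A i)) / 2 := by ring
        rw [h4]
        have h5 := mul_le_mul_of_nonneg_left h3 hκ1.le
        have h6 := mul_le_mul_of_nonneg_left hl1 hκ1.le
        linarith
    have key := HZ _ _ _ _ _ hS.1 t y ht hC1 (by rw [← hL]; exact htL1) (by rw [← hL]; linarith)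
      (by rw [← hL]; exact hcov) r hr hr1
    refine key.trans (Real.exp_le_exp.2 ?_)
    rw [← hL]
    have h4 := le_max_left B1 (B2 + 3 / 4 * (W + ρ))
    have h5 := fmove hκ hr htL1
    have h6 : (max (t * L - r) 0 ^ 2 / (4 * (t * L)) + ε / 2) * L ≤ (max (κ - r) 0 ^ 2 / (4 * κ) + ε) * L := by
      apply mul_le_mul_of_nonneg_right _ hL0
      linarith
    linarith

/-- the size exponents give few zeros -/
theorem fzw_few {κ : ℝ} (hκ : 0 < κ) (hF : FZW F.cls κ) : F.Few κ := by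
  intro R δ ε hδ hε
  have hw := F.w_pos
  have hb := F.b_nonneg
  obtain ⟨J, hJ⟩ := exists_nat_ge (|R| + 1)
  have hJ0 : (0 : ℝ) ≤ J := Nat.cast_nonneg J
  obtain ⟨C0, H⟩ := hF J δ (ε / (4 * F.w * (2 * J + 1))) (κ + 1) hδ (by positivity)
  obtain ⟨ρ, hρ, hl⟩ := F.logs J
  obtain ⟨A0, hA0⟩ := F.up (|Real.log (max C0 1)| + κ * ρ + ρ + 2 * F.b + 1)
  refine ⟨A0, fun i hi => ?_⟩
  have hS := F.std i
  have hN := hS.1.one_le
  have hN0 : 0 < F.N i := by linarith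
  have h1 := hA0 i hi
  obtain ⟨ℓ, hℓ⟩ : ∃ ℓ : ℝ, ℓ = Real.log (F.N i) := ⟨_, rfl⟩
  rw [← hℓ] at h1 ⊢
  have ha3 := le_abs_self (Real.log (max C0 1))
  have ha4 := abs_nonneg (Real.log (max C0 1))
  have hκρ : 0 ≤ κ * ρ := by positivity
  have hℓ0 : 0 < ℓ := by linarith
  have hCN : C0 ≤ F.N i := by
    have h2 : max C0 1 ≤ F.N i := by
      refine (Real.log_le_log_iff (lt_max_of_lt_right one_pos) hN0).1 ?_
      rw [← hℓ]
      linarith
    exact (le_max_left _ _).trans h2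
  obtain ⟨t, htd⟩ : ∃ t : ℝ, t = κ / ℓ := ⟨_, rfl⟩
  have ht : 0 < t := by rw [htd]; positivity
  have htl : t * ℓ = κ := by rw [htd]; field_simp
  have htρ : t * ρ ≤ 1 := by
    rw [htd, div_mul_eq_mul_div, div_le_iff₀ hℓ0]
    linarith
  rw [← htd]
  have h2 := (abs_le.1 (F.cmp i)).2
  rw [← hℓ] at h2
  have hA : ℓ ≤ 2 * (F.w * Real.log (F.A i)) := by linarith
  have hcov := cnt_cover (F := heat t (XX (F.N i) (F.Λ i))) (y := 0) (δ := δ) (R := R) (J := J)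
    (c := ε / (4 * F.w * (2 * J + 1)) * (2 * ℓ)) (by linarith [le_abs_self R]) (by positivity) (by
      intro j hj
      have hj' : |(j : ℝ)| ≤ J := by exact_mod_cast hj
      obtain ⟨hl1, hl2⟩ := hl i j hj'
      rw [← hℓ] at hl1 hl2
      have h3 := H _ _ _ _ _ j (F.wn i hj') t ht (hCN.trans (le_cnd hN (F.μ i) j)) (by
        have := mul_le_mul_of_nonneg_left hl1 ht.le
        linarith) (by
        have := mul_le_mul_of_nonneg_left hl2 ht.le
        linarith)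
      rw [zero_add]
      refine cnt_mono h3 subset_rfl ?_
      apply mul_le_mul_of_nonneg_left _ (by positivity)
      linarith)
  refine cnt_mono hcov (fun z hz => ⟨hz.1, by rw [sub_zero]; exact hz.2⟩) ?_
  have e : (2 * (J : ℝ) + 1) * (ε / (4 * F.w * (2 * J + 1)) * (2 * ℓ)) = ε * (ℓ / (2 * F.w)) := by
    field_simp
    ring
  rw [e]
  apply mul_le_mul_of_nonneg_left _ hε.le
  rw [div_le_iff₀ (by positivity)]
  linarith

/-- **few zeros** -/
theorem few_iff (hm : 1 ≤ m) {κ : ℝ} (hκ : 0 < κ) : F.Few κ ↔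
    ∀ r : ℝ, 0 ≤ r → r ≤ 1 / 2 → SErW F.cls r (max (κ - r) 0 ^ 2 / (4 * κ)) := by
  constructor
  · intro h r hr hr1
    exact F.few_sz hm hκ h r hr hr1
  · intro h
    exact F.fzw_few hκ ((w_fz_iff hpx_all jen_all net_all tcz_all invx_all hm hκ).2 h)

lemma hor_few {κ κ' : ℝ} (h : κ < κ') (hH : F.Hor κ) : F.Few κ' := by
  intro R δ ε hδ hε
  obtain ⟨A0, H⟩ := hH κ' R h
  refine ⟨A0, fun i hi S hS => ?_⟩
  have hemp : S = ∅ := by
    rw [Finset.eq_empty_iff_forall_notMem]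
    intro z hz
    obtain ⟨z0, z1, z2⟩ := hS z hz
    have := H i hi z z2 z0
    linarith
  rw [hemp, Finset.sum_empty]
  have := F.A_log i
  positivity

/-- zero-free half-strips -/
theorem hor_free (hm : 1 ≤ m) {κ : ℝ} (hκ : 0 ≤ κ) (hH : F.Hor κ) : F.Free κ := by
  intro R0 ε hε
  obtain ⟨R, C0, HB⟩ := aut_bwd m hm (θ := 1 / 2) (g := ε / 4) (X := κ + ε + 1) (by norm_num) le_rfl
    (by positivity) (by linarith)
  obtain ⟨A1, H⟩ := hH (κ + ε / 2) (|R0| + |R|) (by linarith)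
  obtain ⟨ρ, hρ, hl⟩ := F.logs R0
  obtain ⟨A2, hA2⟩ := F.up (|Real.log (max C0 1)| + (κ + ε / 2) * ρ * (4 / ε + 1) + 1)
  refine ⟨max A1 A2, fun i hi s hs1 hs2 => ?_⟩
  have hS := F.std i
  have hN := hS.1.one_le
  have hN0 : 0 < F.N i := by linarith
  have h1 := hA2 i ((le_max_right _ _).trans hi)
  obtain ⟨ℓ, hℓ⟩ : ∃ ℓ : ℝ, ℓ = Real.log (F.N i) := ⟨_, rfl⟩
  rw [← hℓ] at h1
  have ha3 := le_abs_self (Real.log (max C0 1))
  have ha4 := abs_nonneg (Real.log (max C0 1))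
  have hκρ : 0 ≤ (κ + ε / 2) * ρ := by positivity
  have hκρ2 : 0 ≤ (κ + ε / 2) * ρ * (4 / ε) := by positivity
  have hℓ0 : 0 < ℓ := by linarith
  have hCN : C0 ≤ F.N i := by
    have h2 : max C0 1 ≤ F.N i := by
      refine (Real.log_le_log_iff (lt_max_of_lt_right one_pos) hN0).1 ?_
      rw [← hℓ]
      linarith
    exact (le_max_left _ _).trans h2
  obtain ⟨t, htd⟩ : ∃ t : ℝ, t = (κ + ε / 2) / ℓ := ⟨_, rfl⟩
  have ht : 0 < t := by rw [htd]; positivity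
  have htl : t * ℓ = κ + ε / 2 := by rw [htd]; field_simp
  have htρ : t * ρ ≤ ε / 4 := by
    rw [htd, div_mul_eq_mul_div, div_le_iff₀ hℓ0]
    have h3 : (κ + ε / 2) * ρ * (4 / ε) ≤ ℓ := by linarith
    have h4 : (κ + ε / 2) * ρ * (4 / ε) * (ε / 4) = (κ + ε / 2) * ρ := by field_simp
    have h5 := mul_le_mul_of_nonneg_right h3 (by positivity : 0 ≤ ε / 4)
    linarith
  have htρ1 : t * ρ ≤ 1 := by
    rw [htd, div_mul_eq_mul_div, div_le_iff₀ hℓ0]
    linarith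
  obtain ⟨hl1, hl2⟩ := hl i s.im hs1
  rw [← hℓ] at hl1 hl2
  obtain ⟨L, hL⟩ : ∃ L : ℝ, L = Real.log (cnd (F.N i) (F.μ i) s.im) := ⟨_, rfl⟩
  rw [← hL] at hl1 hl2
  have h5 := mul_le_mul_of_nonneg_left hl1 ht.le
  have h6 := mul_le_mul_of_nonneg_left hl2 ht.le
  refine HB _ _ _ _ _ hS.1 t s.im ht (hCN.trans (le_cnd hN (F.μ i) s.im)) (by rw [← hL]; linarith)
    (by rw [← hL]; linarith) (fun z hz1 hz2 hz => ?_) s rfl (by rw [← hL]; linarith)
  have h7 := H i ((le_max_left _ _).trans hi) z (by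
    have h3 := abs_add_le (z.im - s.im) s.im
    rw [sub_add_cancel] at h3
    have h4 := le_abs_self R
    have h5 := le_abs_self R0
    linarith) (by rw [← hℓ, ← htd]; exact hz)
  linarith

/-- the horizon from the general theorem -/
theorem shw_hor {κ : ℝ} (hκ : 0 ≤ κ) (hH : SHW F.cls κ) : F.Hor κ := by
  intro κ' R hκ'
  obtain ⟨C0, H⟩ := hH R (κ' - κ) (κ' + 1) (by linarith)
  obtain ⟨ρ, hρ, hl⟩ := F.logs R
  obtain ⟨A0, hA0⟩ := F.up (|Real.log (max C0 1)| + κ' * ρ + 1)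
  refine ⟨A0, fun i hi s hs1 hs => ?_⟩
  have hS := F.std i
  have hN := hS.1.one_le
  have hN0 : 0 < F.N i := by linarith
  have h1 := hA0 i hi
  obtain ⟨ℓ, hℓ⟩ : ∃ ℓ : ℝ, ℓ = Real.log (F.N i) := ⟨_, rfl⟩
  rw [← hℓ] at h1 hs
  have ha3 := le_abs_self (Real.log (max C0 1))
  have ha4 := abs_nonneg (Real.log (max C0 1))
  have hκ0 : 0 < κ' := by linarith
  have hκρ : 0 ≤ κ' * ρ := by positivity
  have hℓ0 : 0 < ℓ := by linarith
  have hCN : C0 ≤ F.N i := by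
    have h2 : max C0 1 ≤ F.N i := by
      refine (Real.log_le_log_iff (lt_max_of_lt_right one_pos) hN0).1 ?_
      rw [← hℓ]
      linarith
    exact (le_max_left _ _).trans h2
  obtain ⟨t, htd⟩ : ∃ t : ℝ, t = κ' / ℓ := ⟨_, rfl⟩
  have ht : 0 < t := by rw [htd]; positivity
  have htl : t * ℓ = κ' := by rw [htd]; field_simp
  have htρ : t * ρ ≤ 1 := by
    rw [htd, div_mul_eq_mul_div, div_le_iff₀ hℓ0]
    linarith
  rw [← htd] at hs
  obtain ⟨hl1, hl2⟩ := hl i s.im hs1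
  rw [← hℓ] at hl1 hl2
  have h5 := mul_le_mul_of_nonneg_left hl1 ht.le
  have h6 := mul_le_mul_of_nonneg_left hl2 ht.le
  exact H _ _ _ _ _ t s (F.wn i hs1) ht (hCN.trans (le_cnd hN (F.μ i) s.im)) (by linarith) (by linarith) hs

/-- **the exact horizon** -/
theorem hor_iff (hm : 1 ≤ m) {κ : ℝ} (hκ : 0 < κ) : F.Hor κ ↔
    F.Free κ ∧ ∀ r : ℝ, 0 ≤ r → r ≤ 1 / 2 → SErW F.cls r (max (κ - r) 0 ^ 2 / (4 * κ)) := by
  constructor
  · intro h
    refine ⟨F.hor_free hm hκ.le h, fun r hr hr1 => w_ser_lim fun e he => ?_⟩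
    refine w_ser_mono ?_ (F.few_sz hm (κ := κ + e) (by linarith) (F.hor_few (by linarith) h) r hr hr1)
    have := fmove (κ := κ) (τ := κ + e) hκ hr (by linarith)
    linarith
  · rintro ⟨h1, h2⟩
    exact F.shw_hor hκ.le ((w_sh_iff hm hκ).2 ⟨F.free_iff.1 h1, h2⟩)

end WFam

end Run7.h833
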